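import Pool.Agent.H744R2.Falc.Defs

set_option autoImplicit false

namespace Pool.Agent.H744R2.Falc

open MeasureTheory Set Metric
open scoped ENNReal

/-- squared distance sets of products of planar sets, added up -/
def sumD (E : ℕ → Set E2) : ℕ → Set ℝ
  | 0 => {0}
  | k + 1 => addDist (sumD E k) (E k)

theorem isCompact_addDist' {X : Type*} [MetricSpace X] {D : Set ℝ} {F : Set X} (hD : IsCompact D)
    (hF : IsCompact F) : IsCompact (addDist D F) := by
  have : addDist D F = (fun q : ℝ × (X × X) => q.1 + dist q.2.1 q.2.2 ^ 2) '' (D ×ˢ (F ×ˢ F)) := by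
    ext t
    constructor
    · rintro ⟨u, hu, x, hx, y, hy, rfl⟩
      exact ⟨(u, (x, y)), ⟨hu, hx, hy⟩, rfl⟩
    · rintro ⟨⟨u, x, y⟩, ⟨hu, hx, hy⟩, rfl⟩
      exact ⟨u, hu, x, hx, y, hy, rfl⟩
  rw [this]
  exact (hD.prod (hF.prod hF)).image (by fun_prop)

theorem mem_sumD (E : ℕ → Set E2) (k : ℕ) (t : ℝ) : t ∈ sumD E k ↔
    ∃ x y : ℕ → E2, (∀ i < k, x i ∈ E i ∧ y i ∈ E i) ∧
      t = ∑ i ∈ Finset.range k, dist (x i) (y i) ^ 2 := by
  induction k generalizing t with
  | zero => simp [sumD]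
  | succ k ih =>
    constructor
    · rintro ⟨u, hu, x, hx, y, hy, rfl⟩
      obtain ⟨x', y', h1, h2⟩ := (ih u).1 hu
      refine ⟨fun i => if i = k then x else x' i, fun i => if i = k then y else y' i, ?_, ?_⟩
      · intro i hi
        by_cases h : i = k
        · subst h; simp [hx, hy]
        · have : i < k := by omega
          simp [h, h1 i this]
      · rw [Finset.sum_range_succ, h2]
        congr 1
        · refine Finset.sum_congr rfl fun i hi => ?_
          have : i ≠ k := by have := Finset.mem_range.1 hi; omega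
          simp [this]
        · simp
    · rintro ⟨x, y, h1, h2⟩
      refine ⟨∑ i ∈ Finset.range k, dist (x i) (y i) ^ 2,
        (ih _).2 ⟨x, y, fun i hi => h1 i (by omega), rfl⟩, x k, (h1 k (by omega)).1, y k,
        (h1 k (by omega)).2, ?_⟩
      rw [h2, Finset.sum_range_succ]

/-- the interface used by the induction -/
structure Tools : Prop where
  frost : ∀ (D : Set ℝ), IsCompact D → D.Nonempty → ∀ s : ℝ, 0 ≤ s → Fro D s ∨ SmallCover D s
  halv : ∀ (D : Set ℝ) (E : Set E2), IsCompact D → IsCompact E → ∀ σ s σ' : ℝ, 0 ≤ σ → 1 < s →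
    Fro D σ → Fro E s → σ' < (1 + σ) / 2 → ¬ SmallCover (addDist D E) σ'

theorem Fro.nonempty {X : Type*} [MetricSpace X] [MeasurableSpace X] {K : Set X} {s : ℝ}
    (h : Fro K s) : K.Nonempty := by
  obtain ⟨μ, hp, h1, -⟩ := h
  by_contra hK
  rw [not_nonempty_iff_eq_empty] at hK
  rw [hK, compl_empty, measure_univ] at h1
  exact one_ne_zero h1

theorem sumD_fro (T : Tools) (E : ℕ → Set E2) (K : ℕ) (hE : ∀ i < K, IsCompact (E i))
    (hF : ∀ i < K, ∃ s : ℝ, 1 < s ∧ Fro (E i) s) (k : ℕ) (hk : k ≤ K) :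
    IsCompact (sumD E k) ∧ ∀ σ : ℝ, 0 ≤ σ → (σ < 1 - (1 / 2 : ℝ) ^ k ∨ σ = 0) →
      Fro (sumD E k) σ := by
  induction k with
  | zero =>
    refine ⟨isCompact_singleton, ?_⟩
    intro σ h0 h1
    have h2 : σ = 0 := by
      rcases h1 with h1 | h1
      · rw [pow_zero] at h1; linarith
      · exact h1
    subst h2
    refine ⟨Measure.dirac 0, inferInstance, ?_, 1, one_pos, ?_⟩
    · simp [sumD]
    · intro x r hr
      rw [Real.rpow_zero, mul_one, ENNReal.ofReal_one]
      exact prob_le_one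
  | succ k ih =>
    obtain ⟨hc, ih⟩ := ih (by omega)
    obtain ⟨s, hs, hEs⟩ := hF k (by omega)
    have hEk := hE k (by omega)
    have hcomp : IsCompact (sumD E (k + 1)) := isCompact_addDist' hc hEk
    refine ⟨hcomp, ?_⟩
    intro σ' h0 h1
    have hne : (sumD E (k + 1)).Nonempty := by
      obtain ⟨u, hu⟩ := (ih 0 le_rfl (Or.inr rfl)).nonempty
      obtain ⟨x, hx⟩ := hEs.nonempty
      exact ⟨_, u, hu, x, hx, x, hx, rfl⟩
    refine (T.frost _ hcomp hne σ' h0).resolve_right ?_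
    have hpow : (0 : ℝ) < (1 / 2 : ℝ) ^ k := by positivity
    have hpow1 : (1 / 2 : ℝ) ^ k ≤ 1 := pow_le_one₀ (by norm_num) (by norm_num)
    have hpow2 : (1 / 2 : ℝ) ^ (k + 1) = (1 / 2 : ℝ) ^ k / 2 := by rw [pow_succ]; ring
    have hσ' : 2 * σ' - 1 < 1 - (1 / 2 : ℝ) ^ k := by
      rcases h1 with h1 | h1
      · rw [hpow2] at h1; linarith
      · rw [h1]; linarith
    set mid : ℝ := (2 * σ' - 1 + (1 - (1 / 2 : ℝ) ^ k)) / 2 with hmid
    have hm1 : 2 * σ' - 1 < mid := by rw [hmid]; linarith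
    have hm2 : mid < 1 - (1 / 2 : ℝ) ^ k := by rw [hmid]; linarith
    refine T.halv _ _ hc hEk (max 0 mid) s σ' (le_max_left _ _) hs (ih _ (le_max_left _ _) ?_) hEs ?_
    · rcases le_total mid 0 with h | h
      · right; exact max_eq_left h
      · left; rw [max_eq_right h]; exact hm2
    · have := le_max_right 0 mid
      linarith

theorem product_pos (T : Tools)
    (hpos : ∀ (n : ℕ) (D : Set ℝ) (F : Set (EuclideanSpace ℝ (Fin n))), IsCompact D →
      IsCompact F → ∀ σ α : ℝ, 0 ≤ σ → σ ≤ 1 → 0 ≤ α → (n : ℝ) + 1 < σ + 2 * α → Fro D σ → Fro F α →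
      0 < volume (addDist D F))
    (E : ℕ → Set E2) (K : ℕ) (hE : ∀ i < K, IsCompact (E i))
    (hF : ∀ i < K, ∃ s : ℝ, 1 < s ∧ Fro (E i) s) (n : ℕ) (F : Set (EuclideanSpace ℝ (Fin n)))
    (hFc : IsCompact F) (α : ℝ) (hα : (n : ℝ) / 2 + (1 / 2) ^ (K + 1) < α) (hFF : Fro F α) :
    0 < volume (addDist (sumD E K) F) := by
  obtain ⟨hc, h⟩ := sumD_fro T E K hE hF K le_rfl
  have hpow : (0 : ℝ) < (1 / 2 : ℝ) ^ K := by positivity
  have hpow1 : (1 / 2 : ℝ) ^ K ≤ 1 := pow_le_one₀ (by norm_num) (by norm_num)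
  have hpow2 : (1 / 2 : ℝ) ^ (K + 1) = (1 / 2 : ℝ) ^ K / 2 := by rw [pow_succ]; ring
  rw [hpow2] at hα
  have hn : (0 : ℝ) ≤ n := Nat.cast_nonneg n
  have hlt : (n : ℝ) + 1 - 2 * α < 1 - (1 / 2 : ℝ) ^ K := by linarith
  set mid : ℝ := ((n : ℝ) + 1 - 2 * α + (1 - (1 / 2 : ℝ) ^ K)) / 2 with hmid
  have hm1 : (n : ℝ) + 1 - 2 * α < mid := by rw [hmid]; linarith
  have hm2 : mid < 1 - (1 / 2 : ℝ) ^ K := by rw [hmid]; linarith
  refine hpos n _ F hc hFc (max 0 mid) α (le_max_left _ _) ?_ ?_ ?_ (h _ (le_max_left _ _) ?_) hFF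
  · exact max_le (by norm_num) (by linarith)
  · linarith
  · have := le_max_right 0 mid
    linarith
  · rcases le_total mid 0 with h | h
    · right; exact max_eq_left h
    · left; rw [max_eq_right h]; exact hm2

/-- the distance set -/
def distanceSet {X : Type*} [MetricSpace X] (A : Set X) : Set ℝ :=
  {r | ∃ x ∈ A, ∃ y ∈ A, r = dist x y}

/-- the product `E_1 × ... × E_K × F` in `ℝ^d`, for a splitting of the coordinates into `K` pairs
and `n` further ones -/
def productSet {K n d : ℕ} (e : (Fin K × Fin 2) ⊕ Fin n ≃ Fin d) (E : Fin K → Set E2)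
    (F : Set (EuclideanSpace ℝ (Fin n))) : Set (EuclideanSpace ℝ (Fin d)) :=
  {x | (∀ i, WithLp.toLp 2 (fun j => x (e (Sum.inl (i, j)))) ∈ E i) ∧
    WithLp.toLp 2 (fun j => x (e (Sum.inr j))) ∈ F}

theorem addDist_subset {K n d : ℕ} (e : (Fin K × Fin 2) ⊕ Fin n ≃ Fin d) (E : Fin K → Set E2)
    (F : Set (EuclideanSpace ℝ (Fin n))) :
    addDist (sumD (fun i => if h : i < K then E ⟨i, h⟩ else ∅) K) F ⊆
      (fun r : ℝ => r ^ 2) '' distanceSet (productSet e E F) := by
  rintro t ⟨u, hu, x, hx, y, hy, rfl⟩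
  obtain ⟨a, b, hab, rfl⟩ := (mem_sumD _ _ _).1 hu
  set X : EuclideanSpace ℝ (Fin d) := WithLp.toLp 2 (fun m => Sum.elim (fun q : Fin K × Fin 2 => a q.1 q.2)
    (fun j => x j) (e.symm m)) with hX
  set Y : EuclideanSpace ℝ (Fin d) := WithLp.toLp 2 (fun m => Sum.elim (fun q : Fin K × Fin 2 => b q.1 q.2)
    (fun j => y j) (e.symm m)) with hY
  refine ⟨dist X Y, ⟨X, ?_, Y, ?_, rfl⟩, ?_⟩
  · refine ⟨fun i => ?_, ?_⟩
    · have := (hab i i.2).1
      simp only [i.2, dite_true] at this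
      convert this using 1
      ext j
      simp [hX]
    · convert hx using 1
      ext j
      simp [hX]
  · refine ⟨fun i => ?_, ?_⟩
    · have := (hab i i.2).2
      simp only [i.2, dite_true] at this
      convert this using 1
      ext j
      simp [hY]
    · convert hy using 1
      ext j
      simp [hY]
  · show dist X Y ^ 2 = _
    rw [EuclideanSpace.dist_eq, Real.sq_sqrt (by positivity), EuclideanSpace.dist_eq,
      Real.sq_sqrt (by positivity), ← e.sum_comp, Fintype.sum_sum_type, Fintype.sum_prod_type]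
    congr 1
    · rw [Finset.sum_range]
      refine Finset.sum_congr rfl fun i _ => ?_
      rw [EuclideanSpace.dist_eq, Real.sq_sqrt (by positivity)]
      refine Finset.sum_congr rfl fun j _ => ?_
      simp [hX, hY]
    · refine Finset.sum_congr rfl fun j _ => ?_
      simp [hX, hY]

theorem volume_distanceSet_pos {X : Type*} [MetricSpace X] (A : Set X) (S : Set ℝ)
    (hS : S ⊆ (fun r : ℝ => r ^ 2) '' distanceSet A) (h : 0 < volume S) :
    0 < volume (distanceSet A) := by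
  rw [pos_iff_ne_zero] at h ⊢
  intro h0
  apply h
  refine measure_mono_null hS ?_
  refine addHaar_image_eq_zero_of_differentiableOn_of_addHaar_eq_zero volume ?_ h0
  exact (differentiable_id.pow 2).differentiableOn

theorem main_of (T : Tools)
    (hpos : ∀ (n : ℕ) (D : Set ℝ) (F : Set (EuclideanSpace ℝ (Fin n))), IsCompact D →
      IsCompact F → ∀ σ α : ℝ, 0 ≤ σ → σ ≤ 1 → 0 ≤ α → (n : ℝ) + 1 < σ + 2 * α → Fro D σ → Fro F α →
      0 < volume (addDist D F))
    (hfro : ∀ (n : ℕ) (K : Set (EuclideanSpace ℝ (Fin n))), IsCompact K → ∀ s : ℝ,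
      0 ≤ s → ENNReal.ofReal s < dimH K → Fro K s)
    (K n d : ℕ) (e : (Fin K × Fin 2) ⊕ Fin n ≃ Fin d) (E : Fin K → Set E2)
    (F : Set (EuclideanSpace ℝ (Fin n))) (hE : ∀ i, IsCompact (E i)) (hEd : ∀ i, 1 < dimH (E i))
    (hF : IsCompact F) (hFd : (n : ℝ≥0∞) / 2 + (1 / 2) ^ (K + 1) < dimH F) :
    0 < volume (distanceSet (productSet e E F)) := by
  refine volume_distanceSet_pos _ _ (addDist_subset e E F) ?_
  obtain ⟨α', h1, h2⟩ := exists_between hFd
  have hα' : α' ≠ ⊤ := ne_top_of_lt h2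
  refine product_pos T hpos _ K ?_ ?_ n F hF α'.toReal ?_ ?_
  · intro i hi
    simp only [hi, dite_true]
    exact hE _
  · intro i hi
    simp only [hi, dite_true]
    obtain ⟨s', h3, h4⟩ := exists_between (hEd ⟨i, hi⟩)
    have hs' : s' ≠ ⊤ := ne_top_of_lt h4
    refine ⟨s'.toReal, ?_, hfro 2 _ (hE _) _ ENNReal.toReal_nonneg ?_⟩
    · rw [← ENNReal.toReal_one]
      exact (ENNReal.toReal_lt_toReal ENNReal.one_ne_top hs').2 h3
    · rw [ENNReal.ofReal_toReal hs']; exact h4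
  · have h5 := (ENNReal.toReal_lt_toReal (ne_top_of_lt h1) hα').2 h1
    rw [ENNReal.toReal_add (by
        refine ENNReal.div_ne_top (ENNReal.natCast_ne_top n) (by norm_num)) (by
        refine ENNReal.pow_ne_top (ENNReal.div_ne_top (by norm_num) (by norm_num))),
      ENNReal.toReal_div, ENNReal.toReal_pow, ENNReal.toReal_div] at h5
    simpa using h5
  · refine hfro n _ hF _ ENNReal.toReal_nonneg ?_
    rw [ENNReal.ofReal_toReal hα']; exact h2

end Pool.Agent.H744R2.Falc
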