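import Pool.Agent.H744R2.Falc.DefsB

set_option autoImplicit false

/-! The chain of scales (task B4). -/

namespace Pool.Agent.H744R2.Falc

open MeasureTheory Set Metric

namespace ChainAux

theorem coord_close {k : ℕ} {a b : ℝ} (h : ⌊(2 : ℝ) ^ k * a⌋ = ⌊(2 : ℝ) ^ k * b⌋) :
    |a - b| ≤ (2 : ℝ)⁻¹ ^ k := by
  have h1 := Int.abs_sub_lt_one_of_floor_eq_floor h
  have h2 : (0 : ℝ) < 2 ^ k := by positivity
  rw [← mul_sub, abs_mul, abs_of_pos h2] at h1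
  rw [inv_pow, ← one_div, le_div_iff₀ h2, mul_comm]
  exact h1.le

theorem cell_dist {k : ℕ} {x z : E2} (h : q2 k z = q2 k x) : dist z x ≤ 2 * (2 : ℝ)⁻¹ ^ k := by
  have h0 : |z 0 - x 0| ≤ (2 : ℝ)⁻¹ ^ k := coord_close (congrArg Prod.fst h)
  have h1 : |z 1 - x 1| ≤ (2 : ℝ)⁻¹ ^ k := coord_close (congrArg Prod.snd h)
  have hW : (0 : ℝ) ≤ (2 : ℝ)⁻¹ ^ k := by positivity
  have h2 : ‖z - x‖ ^ 2 = (z 0 - x 0) ^ 2 + (z 1 - x 1) ^ 2 := by
    rw [EuclideanSpace.real_norm_sq_eq, Fin.sum_univ_two]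
    rfl
  rw [dist_eq_norm]
  have h3 : (z 0 - x 0) ^ 2 ≤ ((2 : ℝ)⁻¹ ^ k) ^ 2 := sq_le_sq' (by linarith [(abs_le.1 h0).1]) (abs_le.1 h0).2
  have h4 : (z 1 - x 1) ^ 2 ≤ ((2 : ℝ)⁻¹ ^ k) ^ 2 := sq_le_sq' (by linarith [(abs_le.1 h1).1]) (abs_le.1 h1).2
  have h5 : ‖z - x‖ ^ 2 ≤ (2 * (2 : ℝ)⁻¹ ^ k) ^ 2 := by
    rw [h2, mul_pow]
    nlinarith [sq_nonneg ((2 : ℝ)⁻¹ ^ k)]
  exact le_of_sq_le_sq h5 (by positivity)

theorem q2_meas (k : ℕ) : Measurable (q2 k) := by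
  unfold q2
  have h0 : Measurable (fun x : E2 => (2 : ℝ) ^ k * x 0) := by
    have : Continuous (fun x : E2 => (2 : ℝ) ^ k * x 0) := by fun_prop
    exact this.measurable
  have h1 : Measurable (fun x : E2 => (2 : ℝ) ^ k * x 1) := by
    have : Continuous (fun x : E2 => (2 : ℝ) ^ k * x 1) := by fun_prop
    exact this.measurable
  exact (Int.measurable_floor.comp h0).prodMk (Int.measurable_floor.comp h1)

/-- windows of width `W₀ + 4 L W` are covered by at most `8 L` windows of width `W` -/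
theorem window_cover (μ : Measure E2) (X : Set E2) (f : E2 → ℝ) {L W W₀ : ℝ} (hL : 1 ≤ L)
    (hW : 0 < W) (hWW : W₀ ≤ W) (t : ℝ) {S : ENNReal}
    (hS : ∀ t : ℝ, μ (X ∩ {x | t ≤ f x ∧ f x < t + W}) ≤ S) :
    μ (X ∩ {x | t - L * (2 * W) ≤ f x ∧ f x < t + W₀ + L * (2 * W)})
      ≤ ENNReal.ofReal (8 * L) * S := by
  set n : ℕ := ⌈1 + 4 * L⌉₊ with hn
  have hn1 : (n : ℝ) ≤ 8 * L := by
    have h1 := Nat.ceil_lt_add_one (show (0 : ℝ) ≤ 1 + 4 * L by linarith)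
    rw [← hn] at h1
    linarith
  have hn2 : 1 + 4 * L ≤ n := Nat.le_ceil _
  have hsub : X ∩ {x | t - L * (2 * W) ≤ f x ∧ f x < t + W₀ + L * (2 * W)} ⊆
      ⋃ j ∈ Finset.range n, (X ∩ {x | (t - L * (2 * W) + j * W) ≤ f x ∧
        f x < (t - L * (2 * W) + j * W) + W}) := by
    rintro x ⟨hxX, hx1, hx2⟩
    have h0 : 0 ≤ (f x - (t - L * (2 * W))) / W := div_nonneg (by linarith) hW.le
    simp only [mem_iUnion]
    refine ⟨⌊(f x - (t - L * (2 * W))) / W⌋₊, ?_, hxX, ?_, ?_⟩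
    · rw [Finset.mem_range, Nat.floor_lt h0, div_lt_iff₀ hW]
      nlinarith
    · have h1 := Nat.floor_le h0
      rw [le_div_iff₀ hW] at h1
      linarith
    · have h1 := Nat.lt_floor_add_one ((f x - (t - L * (2 * W))) / W)
      rw [div_lt_iff₀ hW] at h1
      linarith
  calc μ (X ∩ {x | t - L * (2 * W) ≤ f x ∧ f x < t + W₀ + L * (2 * W)})
      ≤ ∑ j ∈ Finset.range n, μ (X ∩ {x | (t - L * (2 * W) + j * W) ≤ f x ∧
        f x < (t - L * (2 * W) + j * W) + W}) :=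
        (measure_mono hsub).trans (measure_biUnion_finset_le _ _)
    _ ≤ ∑ _j ∈ Finset.range n, S := Finset.sum_le_sum fun j _ => hS _
    _ = (n : ENNReal) * S := by rw [Finset.sum_const, Finset.card_range, nsmul_eq_mul]
    _ ≤ ENNReal.ofReal (8 * L) * S := by
      gcongr
      rw [← ENNReal.ofReal_natCast]
      exact ENNReal.ofReal_le_ofReal hn1

/-- one step of the chain -/
theorem step (μ : Measure E2) [IsProbabilityMeasure μ] (X : Set E2) (hX : MeasurableSet X)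
    (f : E2 → ℝ) (hf : Measurable f) (L : ℝ) (hL : 1 ≤ L)
    (hfL : ∀ x ∈ X, ∀ y ∈ X, |f x - f y| ≤ L * dist x y)
    {k k' : ℕ} (hk : k' ≤ k) (ε : ℝ) (hε : 0 < ε)
    (hX' : ∀ x ∈ X, ENNReal.ofReal ε * μ (cell k' x) ≤ μ (X ∩ cell k' x))
    (θ : ℝ) (hθ0 : 0 ≤ θ)
    (hθ : ∀ x ∈ X, μ (cell k' x ∩ {z | |f z - f x| ≤ (2 : ℝ)⁻¹ ^ k}) ≤
      ENNReal.ofReal θ * μ (cell k' x)) {S : ENNReal}
    (hS : ∀ t : ℝ, μ (X ∩ {x | t ≤ f x ∧ f x < t + (2 : ℝ)⁻¹ ^ k'}) ≤ S) (t : ℝ) :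
    μ (X ∩ {x | t ≤ f x ∧ f x < t + (2 : ℝ)⁻¹ ^ k}) ≤ ENNReal.ofReal (8 * L * θ / ε) * S := by
  set W₀ : ℝ := (2 : ℝ)⁻¹ ^ k with hW₀
  set W : ℝ := (2 : ℝ)⁻¹ ^ k' with hW_def
  have hW : 0 < W := by positivity
  have hWW : W₀ ≤ W := pow_le_pow_of_le_one (by norm_num) (by norm_num) hk
  set T : Set E2 := X ∩ {x | t ≤ f x ∧ f x < t + W₀} with hT
  set U : Set E2 := X ∩ {x | t - L * (2 * W) ≤ f x ∧ f x < t + W₀ + L * (2 * W)} with hU
  have hUm : MeasurableSet U := by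
    refine hX.inter ((measurableSet_le measurable_const hf).inter
      (measurableSet_lt hf measurable_const))
  have hcm : ∀ c : ℤ × ℤ, MeasurableSet {z | q2 k' z = c} := fun c =>
    q2_meas k' (measurableSet_singleton c)
  have hcell : ∀ c : ℤ × ℤ, μ (T ∩ {z | q2 k' z = c})
      ≤ ENNReal.ofReal (θ / ε) * μ (U ∩ {z | q2 k' z = c}) := by
    intro c
    rcases (T ∩ {z | q2 k' z = c}).eq_empty_or_nonempty with he | ⟨x, hxT, hxc⟩
    · rw [he, measure_empty]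
      exact zero_le
    have hxX : x ∈ X := hxT.1
    have hxc' : q2 k' x = c := hxc
    have h1 : T ∩ {z | q2 k' z = c} ⊆ cell k' x ∩ {z | |f z - f x| ≤ W₀} := by
      rintro z ⟨hzT, hzc⟩
      have hzc' : q2 k' z = c := hzc
      refine ⟨?_, ?_⟩
      · change q2 k' z = q2 k' x
        rw [hzc', hxc']
      · change |f z - f x| ≤ W₀
        rw [abs_le]
        have a1 := hzT.2.1
        have a2 := hzT.2.2
        have a3 := hxT.2.1
        have a4 := hxT.2.2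
        constructor <;> linarith
    have h2 : X ∩ cell k' x ⊆ U ∩ {z | q2 k' z = c} := by
      rintro z ⟨hzX, hzc⟩
      have hzc' : q2 k' z = q2 k' x := hzc
      refine ⟨⟨hzX, ?_⟩, hzc'.trans hxc'⟩
      have h3 := hfL z hzX x hxX
      have h4 := cell_dist hzc'
      have h5 : |f z - f x| ≤ L * (2 * W) := h3.trans (by gcongr)
      rw [abs_le] at h5
      have a3 := hxT.2.1
      have a4 := hxT.2.2
      refine ⟨?_, ?_⟩ <;> linarith [h5.1, h5.2]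
    have h3 : μ (cell k' x) ≤ (ENNReal.ofReal ε)⁻¹ * μ (U ∩ {z | q2 k' z = c}) := by
      have h4 := (hX' x hxX).trans (measure_mono h2)
      have hε0 : ENNReal.ofReal ε ≠ 0 := by
        rw [ne_eq, ENNReal.ofReal_eq_zero, not_le]
        exact hε
      have h5 : (ENNReal.ofReal ε)⁻¹ * (ENNReal.ofReal ε * μ (cell k' x)) = μ (cell k' x) := by
        rw [← mul_assoc, ENNReal.inv_mul_cancel hε0 ENNReal.ofReal_ne_top, one_mul]
      calc μ (cell k' x) = (ENNReal.ofReal ε)⁻¹ * (ENNReal.ofReal ε * μ (cell k' x)) := h5.symm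
        _ ≤ _ := mul_le_mul_right h4 _
    calc μ (T ∩ {z | q2 k' z = c}) ≤ μ (cell k' x ∩ {z | |f z - f x| ≤ W₀}) := measure_mono h1
      _ ≤ ENNReal.ofReal θ * μ (cell k' x) := hθ x hxX
      _ ≤ ENNReal.ofReal θ * ((ENNReal.ofReal ε)⁻¹ * μ (U ∩ {z | q2 k' z = c})) :=
        mul_le_mul_right h3 _
      _ = ENNReal.ofReal (θ / ε) * μ (U ∩ {z | q2 k' z = c}) := by
        rw [div_eq_mul_inv, ENNReal.ofReal_mul hθ0, ENNReal.ofReal_inv_of_pos hε, mul_assoc]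
  have hTU : μ T ≤ ENNReal.ofReal (θ / ε) * μ U := by
    have h1 : T ⊆ ⋃ c : ℤ × ℤ, (T ∩ {z | q2 k' z = c}) := by
      intro z hz
      exact mem_iUnion.2 ⟨q2 k' z, hz, rfl⟩
    have h2 : ⋃ c : ℤ × ℤ, (U ∩ {z | q2 k' z = c}) = U := by
      ext z
      constructor
      · intro hz
        obtain ⟨c, hc⟩ := mem_iUnion.1 hz
        exact hc.1
      · intro hz
        exact mem_iUnion.2 ⟨q2 k' z, hz, rfl⟩
    have h3 : μ U = ∑' c : ℤ × ℤ, μ (U ∩ {z | q2 k' z = c}) := by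
      conv_lhs => rw [← h2]
      refine measure_iUnion ?_ fun c => hUm.inter (hcm c)
      intro c c' hcc
      refine Set.disjoint_left.2 ?_
      rintro z ⟨_, h4⟩ ⟨_, h5⟩
      have h4' : q2 k' z = c := h4
      have h5' : q2 k' z = c' := h5
      exact hcc (h4'.symm.trans h5')
    calc μ T ≤ ∑' c : ℤ × ℤ, μ (T ∩ {z | q2 k' z = c}) :=
          (measure_mono h1).trans (measure_iUnion_le _)
      _ ≤ ∑' c : ℤ × ℤ, ENNReal.ofReal (θ / ε) * μ (U ∩ {z | q2 k' z = c}) :=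
          ENNReal.tsum_le_tsum hcell
      _ = ENNReal.ofReal (θ / ε) * μ U := by rw [ENNReal.tsum_mul_left, h3]
  have hUS := window_cover μ X f hL hW hWW t hS
  calc μ T ≤ ENNReal.ofReal (θ / ε) * μ U := hTU
    _ ≤ ENNReal.ofReal (θ / ε) * (ENNReal.ofReal (8 * L) * S) := mul_le_mul_right hUS _
    _ = ENNReal.ofReal (8 * L * θ / ε) * S := by
      rw [← mul_assoc, ← ENNReal.ofReal_mul (by positivity)]
      congr 2
      ring

end ChainAux

open ChainAux in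
theorem chain (μ : Measure E2) [IsProbabilityMeasure μ] (X : Set E2) (hX : MeasurableSet X)
    (f : E2 → ℝ) (hf : Measurable f) (L : ℝ) (hL : 1 ≤ L)
    (hfL : ∀ x ∈ X, ∀ y ∈ X, |f x - f y| ≤ L * dist x y)
    (m : ℕ) (l : ℕ → ℕ) (hl : ∀ i < m, l (i + 1) ≤ l i) (ε : ℝ) (hε : 0 < ε)
    (hX' : ∀ i ≤ m, ∀ x ∈ X, ENNReal.ofReal ε * μ (cell (l i) x) ≤ μ (X ∩ cell (l i) x))
    (θ : ℕ → ℝ) (hθ0 : ∀ i, 0 ≤ θ i)
    (hθ : ∀ i < m, ∀ x ∈ X, μ (cell (l (i + 1)) x ∩ {z | |f z - f x| ≤ (2 : ℝ)⁻¹ ^ (l i)}) ≤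
      ENNReal.ofReal (θ i) * μ (cell (l (i + 1)) x)) (t : ℝ) :
    μ (X ∩ {x | t ≤ f x ∧ f x < t + (2 : ℝ)⁻¹ ^ (l 0)}) ≤
      ENNReal.ofReal (∏ i ∈ Finset.range m, (8 * L * θ i / ε)) := by
  have key : ∀ k i : ℕ, i + k = m → ∀ t : ℝ,
      μ (X ∩ {x | t ≤ f x ∧ f x < t + (2 : ℝ)⁻¹ ^ (l i)}) ≤
        ENNReal.ofReal (∏ j ∈ Finset.Ico i m, (8 * L * θ j / ε)) := by
    intro k
    induction k with
    | zero =>
      intro i hi t
      rw [show i = m by omega, Finset.Ico_self, Finset.prod_empty, ENNReal.ofReal_one]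
      exact prob_le_one
    | succ k ih =>
      intro i hi t
      have him : i < m := by omega
      rw [Finset.prod_eq_prod_Ico_succ_bot him, ENNReal.ofReal_mul
        (div_nonneg (mul_nonneg (by linarith) (hθ0 i)) hε.le)]
      exact step μ X hX f hf L hL hfL (hl i him) ε hε (hX' (i + 1) (by omega)) (θ i) (hθ0 i)
        (hθ i him) (ih (i + 1) (by omega)) t
  rw [Finset.range_eq_Ico]
  exact key m 0 (by omega) t

end Pool.Agent.H744R2.Falc
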