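import Pool.Agent.H744R2.Falc.DefsB

/-! Task B2a: the cone lemma. -/

set_option autoImplicit false

namespace Pool.Agent.H744R2.Falc

open MeasureTheory Set Metric
open scoped ENNReal

namespace ConeAux

theorem inner_E2 (a b : E2) : inner ℝ a b = a 0 * b 0 + a 1 * b 1 := by
  simp [PiLp.inner_apply, Fin.sum_univ_two]; ring

theorem normsq_E2 (a : E2) : ‖a‖ ^ 2 = a 0 ^ 2 + a 1 ^ 2 := by
  rw [EuclideanSpace.norm_sq_eq]; simp [Fin.sum_univ_two]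

theorem lagrange (e d : E2) : (inner ℝ e d) ^ 2 + det2 e d ^ 2 = ‖e‖ ^ 2 * ‖d‖ ^ 2 := by
  rw [inner_E2, normsq_E2, normsq_E2]; unfold det2; ring

theorem det2_id (e a b : E2) :
    inner ℝ e a * det2 e b - det2 e a * inner ℝ e b = ‖e‖ ^ 2 * det2 a b := by
  rw [inner_E2, inner_E2, normsq_E2]; unfold det2; ring

theorem abs_det2_le (e d : E2) : |det2 e d| ≤ ‖e‖ * ‖d‖ := by
  apply abs_le_of_sq_le_sq _ (by positivity)
  have := lagrange e d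
  nlinarith [sq_nonneg (inner ℝ e d : ℝ)]

/-- the slp of `d` with respect to `e` -/
noncomputable def slp (e d : E2) : ℝ := inner ℝ e d / det2 e d

/-- points of almost equal slp are in a common strip -/
theorem mem_strip_of_slp {e a b : E2} (he : e ≠ 0) (ha : det2 e a ≠ 0) (hb : det2 e b ≠ 0)
    {R w : ℝ} (hR : 0 < R) (haR : ‖a‖ ≤ 2 * R)
    (h : |slp e a - slp e b| ≤ w / (2 * R)) : |det2 a b| ≤ w * ‖b‖ := by
  have hr : 0 < ‖e‖ := norm_pos_iff.mpr he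
  have h1 : ‖e‖ ^ 2 * det2 a b = det2 e a * det2 e b * (slp e a - slp e b) := by
    rw [← det2_id]; unfold slp; field_simp
  have h2 : ‖e‖ ^ 2 * |det2 a b| = |det2 e a| * |det2 e b| * |slp e a - slp e b| := by
    rw [← abs_mul, ← abs_mul, ← h1, abs_mul, abs_of_pos (by positivity : 0 < ‖e‖ ^ 2)]
  have h3 := abs_det2_le e a
  have h4 := abs_det2_le e b
  have h5 : |det2 e a| ≤ ‖e‖ * (2 * R) := h3.trans (mul_le_mul_of_nonneg_left haR hr.le)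
  have h6 : |det2 e a| * |det2 e b| * |slp e a - slp e b| ≤
      (‖e‖ * (2 * R)) * (‖e‖ * ‖b‖) * (w / (2 * R)) := by
    apply mul_le_mul _ h (abs_nonneg _) (by positivity)
    exact mul_le_mul h5 h4 (abs_nonneg _) (by positivity)
  have h7 : (‖e‖ * (2 * R)) * (‖e‖ * ‖b‖) * (w / (2 * R)) = ‖e‖ ^ 2 * (w * ‖b‖) := by
    field_simp
  rw [h7, ← h2] at h6
  exact le_of_mul_le_mul_left h6 (by positivity)

end ConeAux

open ConeAux

theorem cone_lemma (μ : Measure E2) [IsProbabilityMeasure μ] (R : ℝ) (hR1 : 1 ≤ R)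
    (hR : ∀ᵐ x ∂μ, ‖x‖ ≤ R) :
    ∃ C : ℝ, 0 < C ∧ ∀ x x' : E2, ‖x‖ ≤ R → ‖x'‖ ≤ R → x ≠ x' → ∀ w ρ M : ℝ, 0 < w → 0 < ρ →
      ρ ≤ 1 → 1 ≤ M →
      μ {y | ρ ≤ ‖y - x‖ ∧ μ (strip w x y) ≤ ENNReal.ofReal (M * w) ∧
        |inner ℝ (x' - x) (y - x)| ≤ 2 * w} ≤ ENNReal.ofReal (C * M * w / (ρ * ‖x' - x‖)) := by
  classical
  refine ⟨20 * R, by positivity, ?_⟩
  intro x x' hx hx' hne w ρ M hw hρ hρ1 hM
  set e := x' - x with he
  have he0 : e ≠ 0 := sub_ne_zero.mpr (Ne.symm hne)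
  have hr : 0 < ‖e‖ := norm_pos_iff.mpr he0
  have hr2 : ‖e‖ ≤ 2 * R := by
    calc ‖e‖ ≤ ‖x'‖ + ‖x‖ := norm_sub_le _ _
      _ ≤ 2 * R := by linarith
  have hρr : 0 < ρ * ‖e‖ := mul_pos hρ hr
  by_cases hbig : ρ * ‖e‖ ≤ 8 * w
  · refine le_trans prob_le_one ?_
    rw [← ENNReal.ofReal_one]
    apply ENNReal.ofReal_le_ofReal
    rw [le_div_iff₀ hρr]
    have h1 : 8 * w ≤ 20 * R * M * w := by
      have h2 : 8 ≤ 20 * R * M := by nlinarith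
      exact mul_le_mul_of_nonneg_right h2 hw.le
    linarith
  push Not at hbig
  set Y : Set E2 := {y | ρ ≤ ‖y - x‖ ∧ μ (strip w x y) ≤ ENNReal.ofReal (M * w) ∧
        |inner ℝ e (y - x)| ≤ 2 * w} with hY
  set T : ℝ := 8 * R / (ρ * ‖e‖) with hT
  have hT0 : 0 < T := by positivity
  -- slps of points of `Y`
  have hdet : ∀ y ∈ Y, ρ * ‖e‖ / 2 ≤ |det2 e (y - x)| := by
    rintro y ⟨h1, _, h3⟩
    have h4 := lagrange e (y - x)
    by_contra hcon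
    push Not at hcon
    have h5 : det2 e (y - x) ^ 2 < (ρ * ‖e‖ / 2) ^ 2 := by
      rw [← sq_abs]
      exact pow_lt_pow_left₀ hcon (abs_nonneg _) (by norm_num)
    have h6 : (inner ℝ e (y - x) : ℝ) ^ 2 ≤ (2 * w) ^ 2 := by
      rw [← sq_abs]
      exact pow_le_pow_left₀ (abs_nonneg _) h3 2
    have h7 : (8 * w) ^ 2 < (ρ * ‖e‖) ^ 2 := pow_lt_pow_left₀ hbig (by positivity) (by norm_num)
    have h8 : (ρ * ‖e‖) ^ 2 ≤ ‖e‖ ^ 2 * ‖y - x‖ ^ 2 := by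
      calc (ρ * ‖e‖) ^ 2 = ‖e‖ ^ 2 * ρ ^ 2 := by ring
        _ ≤ ‖e‖ ^ 2 * ‖y - x‖ ^ 2 := by gcongr
    nlinarith
  have hslp : ∀ y ∈ Y, |slp e (y - x) * (2 * R / w)| ≤ T := by
    intro y hy
    have h1 := hdet y hy
    have h2 : 0 < |det2 e (y - x)| := lt_of_lt_of_le (by positivity) h1
    have h3 : |slp e (y - x)| ≤ 2 * w / (ρ * ‖e‖ / 2) := by
      unfold slp
      rw [abs_div]
      exact div_le_div₀ (by positivity) hy.2.2 (by positivity) h1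
    rw [abs_mul, abs_of_pos (by positivity : 0 < 2 * R / w)]
    calc |slp e (y - x)| * (2 * R / w) ≤ 2 * w / (ρ * ‖e‖ / 2) * (2 * R / w) := by gcongr
      _ = T := by rw [hT]; field_simp; norm_num
  set Yk : ℤ → Set E2 := fun k => {y | y ∈ Y ∧ ‖y‖ ≤ R ∧ ⌊slp e (y - x) * (2 * R / w)⌋ = k} with hYk
  have hmass : ∀ k, μ (Yk k) ≤ ENNReal.ofReal (M * w) := by
    intro k
    rcases (Yk k).eq_empty_or_nonempty with h0 | ⟨y1, hy1⟩
    · rw [h0]; simp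
    · refine le_trans (measure_mono ?_) hy1.1.2.1
      intro y2 hy2
      have hd1 : det2 e (y1 - x) ≠ 0 := by
        have h1 := hdet y1 hy1.1
        intro h0
        rw [h0, abs_zero] at h1
        have : 0 < ρ * ‖e‖ / 2 := by positivity
        linarith
      have hd2 : det2 e (y2 - x) ≠ 0 := by
        have h1 := hdet y2 hy2.1
        intro h0
        rw [h0, abs_zero] at h1
        have : 0 < ρ * ‖e‖ / 2 := by positivity
        linarith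
      have hn2 : ‖y2 - x‖ ≤ 2 * R := by
        calc ‖y2 - x‖ ≤ ‖y2‖ + ‖x‖ := norm_sub_le _ _
          _ ≤ 2 * R := by linarith [hy2.2.1]
      apply mem_strip_of_slp he0 hd2 hd1 (by linarith : 0 < R) hn2
      have hfl := Int.abs_sub_lt_one_of_floor_eq_floor (hy2.2.2.trans hy1.2.2.symm)
      rw [← sub_mul, abs_mul, abs_of_pos (by positivity : 0 < 2 * R / w)] at hfl
      rw [le_div_iff₀ (by positivity)]
      have h3 : |slp e (y2 - x) - slp e (y1 - x)| * (2 * R) =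
          |slp e (y2 - x) - slp e (y1 - x)| * (2 * R / w) * w := by field_simp
      rw [h3]
      nlinarith
  have hcover : Y ⊆ (⋃ k ∈ Finset.Icc ⌊-T⌋ ⌊T⌋, Yk k) ∪ {y | ¬ ‖y‖ ≤ R} := by
    intro y hy
    by_cases hyR : ‖y‖ ≤ R
    · left
      have h1 := abs_le.mp (hslp y hy)
      simp only [mem_iUnion, Finset.mem_Icc, exists_prop]
      exact ⟨_, ⟨Int.floor_le_floor h1.1, Int.floor_le_floor h1.2⟩, hy, hyR, rfl⟩
    · right; exact hyR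
  have hnull : μ {y | ¬ ‖y‖ ≤ R} = 0 := hR
  have hcard : ((Finset.Icc ⌊-T⌋ ⌊T⌋).card : ℝ) ≤ 2 * T + 2 := by
    rw [Int.card_Icc]
    have h1 : ⌊-T⌋ ≤ ⌊T⌋ := Int.floor_le_floor (by linarith)
    have h2 : (((⌊T⌋ + 1 - ⌊-T⌋).toNat : ℤ) : ℝ) = ((⌊T⌋ + 1 - ⌊-T⌋ : ℤ) : ℝ) := by
      rw [Int.toNat_of_nonneg (by omega)]
    have h3 : (((⌊T⌋ + 1 - ⌊-T⌋).toNat : ℕ) : ℝ) = ((⌊T⌋ + 1 - ⌊-T⌋ : ℤ) : ℝ) := by
      rw [← h2]; norm_cast
    rw [h3]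
    push_cast
    have h4 := Int.floor_le T
    have h5 := Int.sub_one_lt_floor (-T)
    linarith
  have hT2 : 2 * T + 2 ≤ 20 * R / (ρ * ‖e‖) := by
    have h1 : ρ * ‖e‖ ≤ 2 * R := by nlinarith
    have h2 : (2 : ℝ) ≤ 4 * R / (ρ * ‖e‖) := by
      rw [le_div_iff₀ hρr]; linarith
    have h3 : 20 * R / (ρ * ‖e‖) = 2 * T + 4 * R / (ρ * ‖e‖) := by rw [hT]; ring
    rw [h3]; linarith
  calc μ Y ≤ μ ((⋃ k ∈ Finset.Icc ⌊-T⌋ ⌊T⌋, Yk k) ∪ {y | ¬ ‖y‖ ≤ R}) := measure_mono hcover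
    _ ≤ μ (⋃ k ∈ Finset.Icc ⌊-T⌋ ⌊T⌋, Yk k) + μ {y | ¬ ‖y‖ ≤ R} := measure_union_le _ _
    _ = μ (⋃ k ∈ Finset.Icc ⌊-T⌋ ⌊T⌋, Yk k) := by rw [hnull, add_zero]
    _ ≤ ∑ k ∈ Finset.Icc ⌊-T⌋ ⌊T⌋, μ (Yk k) := measure_biUnion_finset_le _ _
    _ ≤ ∑ k ∈ Finset.Icc ⌊-T⌋ ⌊T⌋, ENNReal.ofReal (M * w) := Finset.sum_le_sum fun k _ => hmass k
    _ = ENNReal.ofReal ((Finset.Icc ⌊-T⌋ ⌊T⌋).card * (M * w)) := by
        rw [Finset.sum_const, nsmul_eq_mul, ENNReal.ofReal_mul (p := ((Finset.Icc ⌊-T⌋ ⌊T⌋).card : ℝ))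
          (by positivity), ENNReal.ofReal_natCast]
    _ ≤ ENNReal.ofReal (20 * R * M * w / (ρ * ‖e‖)) := by
        apply ENNReal.ofReal_le_ofReal
        calc ((Finset.Icc ⌊-T⌋ ⌊T⌋).card : ℝ) * (M * w) ≤ (2 * T + 2) * (M * w) := by gcongr
          _ ≤ (20 * R / (ρ * ‖e‖)) * (M * w) := by gcongr
          _ = _ := by ring

end Pool.Agent.H744R2.Falc
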