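import Mathlib

set_option autoImplicit false

/-! Definitions for the product-set theorem on Falconer's distance set problem (MP_c40668_an). -/

namespace Pool.Agent.H744R2.Falc

open MeasureTheory Set Metric

/-- The Euclidean plane. -/
abbrev E2 := EuclideanSpace ℝ (Fin 2)

/-- `Fro K s`: the set `K` carries a Borel probability measure `μ` with `μ (B(x,r)) ≤ C r ^ s`. -/
def Fro {X : Type*} [MetricSpace X] [MeasurableSpace X] (K : Set X) (s : ℝ) : Prop :=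
  ∃ μ : Measure X, IsProbabilityMeasure μ ∧ μ Kᶜ = 0 ∧
    ∃ C : ℝ, 0 < C ∧ ∀ (x : X) (r : ℝ), 0 < r → μ (closedBall x r) ≤ ENNReal.ofReal (C * r ^ s)

/-- `SmallCover D s`: for every `j₀` the set `D` is covered by dyadic intervals of levels
`j ≥ j₀`, at most `2 ^ (s j)` of level `j`. -/
def SmallCover (D : Set ℝ) (s : ℝ) : Prop :=
  ∀ j₀ : ℕ, ∃ I : ℕ → Finset ℤ, (∀ j < j₀, I j = ∅) ∧
    (∀ j, ((I j).card : ℝ) ≤ (2 : ℝ) ^ (s * j)) ∧
    ∀ t ∈ D, ∃ j, ⌊(2 : ℝ) ^ j * t⌋ ∈ I j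

/-- `D + Δ(E)^2`: all numbers `u + |x - y|^2` with `u ∈ D`, `x, y ∈ E`. -/
def addDist {X : Type*} [MetricSpace X] (D : Set ℝ) (E : Set X) : Set ℝ :=
  {t | ∃ u ∈ D, ∃ x ∈ E, ∃ y ∈ E, t = u + dist x y ^ 2}

/-- the tent kernel of width `w`, integral one -/
noncomputable def tent (w t : ℝ) : ℝ := max 0 (1 - |t| / w) / w

/-- cut-off in the slope: `1` on `[-3,3]`, `0` outside `[-4,4]`, 1-Lipschitz -/
noncomputable def chi (t : ℝ) : ℝ := max 0 (min 1 (4 - |t|))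

/-- smoothed `L^2` norm of the projection `x ↦ x 1 - t x 0` of `μ` at scale `w` -/
noncomputable def GG (μ : Measure E2) (w t : ℝ) : ℝ :=
  ∫ p, tent w ((p.1 1 - p.2 1) - t * (p.1 0 - p.2 0)) ∂(μ.prod μ)

end Pool.Agent.H744R2.Falc
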