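import Pool.Agent.H744R2.Falc.Defs

set_option autoImplicit false

/-! Definitions for the regular case. -/

namespace Pool.Agent.H744R2.Falc

open MeasureTheory Set Metric

/-- index of the dyadic square of side `2 ^ (-l)` containing `x` -/
noncomputable def q2 (l : ℕ) (x : E2) : ℤ × ℤ := (⌊(2 : ℝ) ^ l * x 0⌋, ⌊(2 : ℝ) ^ l * x 1⌋)

/-- the dyadic square of side `2 ^ (-l)` containing `x` -/
def cell (l : ℕ) (x : E2) : Set E2 := {z | q2 l z = q2 l x}

/-- determinant of two plane vectors -/
def det2 (u v : E2) : ℝ := u 0 * v 1 - u 1 * v 0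

/-- the strip of (angular) width `w` around the line through `x` and `y` -/
def strip (w : ℝ) (x y : E2) : Set E2 := {z | |det2 (z - x) (y - x)| ≤ w * ‖y - x‖}

/-- mass of a window of width `w` for the projection `z ↦ z 1 - t z 0`, divided by `w` -/
noncomputable def mw (μ : Measure E2) (w t τ : ℝ) : ℝ :=
  (μ {z | τ ≤ z 1 - t * z 0 ∧ z 1 - t * z 0 < τ + w}).toReal / w

end Pool.Agent.H744R2.Falc
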