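import Mathlib
import Pool.Agent.H744R2.Falc.Defs

set_option autoImplicit false

/-! Gaussian integrals against a Frostman measure. -/

namespace Pool.Agent.H744R2.Falc

open MeasureTheory Set Metric

lemma gauss_summable (α : ℝ) (hα : 0 ≤ α) :
    Summable (fun k : ℕ => Real.exp (-(k : ℝ) ^ 2) * ((k : ℝ) + 1) ^ α) := by
  have h1 := Real.summable_pow_mul_exp_neg_nat_mul ⌈α⌉₊ (r := 1) one_pos
  have h2 : Summable (fun k : ℕ => ((k + 1 : ℕ) : ℝ) ^ ⌈α⌉₊ * Real.exp (-1 * ((k + 1 : ℕ) : ℝ))) :=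
    (summable_nat_add_iff 1).2 h1
  have h3 := h2.mul_left (Real.exp 1)
  refine Summable.of_nonneg_of_le (fun k => by positivity) (fun k => ?_) h3
  have e1 : Real.exp (-(k : ℝ) ^ 2) ≤ Real.exp (-(k : ℝ)) := by
    apply Real.exp_le_exp.2
    rcases Nat.eq_zero_or_pos k with h | h
    · subst h; simp
    · have : (1 : ℝ) ≤ k := by exact_mod_cast h
      nlinarith
  have e2 : ((k : ℝ) + 1) ^ α ≤ ((k : ℝ) + 1) ^ ⌈α⌉₊ := by
    rw [← Real.rpow_natCast]
    apply Real.rpow_le_rpow_of_exponent_le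
    · have : (0 : ℝ) ≤ k := Nat.cast_nonneg k
      linarith
    · exact Nat.le_ceil α
  have e3 : Real.exp 1 * (((k + 1 : ℕ) : ℝ) ^ ⌈α⌉₊ * Real.exp (-1 * ((k + 1 : ℕ) : ℝ))) =
      Real.exp (-(k : ℝ)) * ((k : ℝ) + 1) ^ ⌈α⌉₊ := by
    have : Real.exp (-(k : ℝ)) = Real.exp 1 * Real.exp (-1 * ((k + 1 : ℕ) : ℝ)) := by
      rw [← Real.exp_add]
      congr 1
      push_cast
      ring
    rw [this]
    push_cast
    ring
  rw [e3]
  exact mul_le_mul e1 e2 (by positivity) (Real.exp_pos _).le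

theorem gauss_frostman {X : Type*} [MetricSpace X] [MeasurableSpace X] [BorelSpace X]
    (μ : Measure X) [IsProbabilityMeasure μ] (C α : ℝ) (hC : 0 < C) (hα : 0 ≤ α)
    (hμ : ∀ (x : X) (r : ℝ), 0 < r → μ (closedBall x r) ≤ ENNReal.ofReal (C * r ^ α)) :
    ∃ C' : ℝ, 0 < C' ∧ ∀ (lam : ℝ) (z : X), 0 < lam →
      ∫ y, Real.exp (-(lam ^ 2 * dist y z ^ 2)) ∂μ ≤ C' * lam ^ (-α) := by
  have hsum := gauss_summable α hα
  have hS : 0 < ∑' k : ℕ, Real.exp (-(k : ℝ) ^ 2) * ((k : ℝ) + 1) ^ α :=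
    hsum.tsum_pos (fun k => by positivity) 0 (by positivity)
  refine ⟨C * ∑' k : ℕ, Real.exp (-(k : ℝ) ^ 2) * ((k : ℝ) + 1) ^ α, mul_pos hC hS, ?_⟩
  intro lam z hlam
  have hmeas : Measurable (fun y : X => Real.exp (-(lam ^ 2 * dist y z ^ 2))) := by
    apply Continuous.measurable
    fun_prop
  rw [integral_eq_lintegral_of_nonneg_ae (Filter.Eventually.of_forall fun y => (Real.exp_pos _).le)
    hmeas.aestronglyMeasurable]
  apply ENNReal.toReal_le_of_le_ofReal (by positivity)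
  have hpt : ∀ y : X, ENNReal.ofReal (Real.exp (-(lam ^ 2 * dist y z ^ 2))) ≤
      ∑' k : ℕ, ENNReal.ofReal (Real.exp (-(k : ℝ) ^ 2)) *
        (closedBall z (((k : ℝ) + 1) / lam)).indicator (fun _ => (1 : ENNReal)) y := by
    intro y
    have h0 : 0 ≤ lam * dist y z := by positivity
    refine le_trans ?_ (ENNReal.le_tsum ⌊lam * dist y z⌋₊)
    have h1 : y ∈ closedBall z (((⌊lam * dist y z⌋₊ : ℝ) + 1) / lam) := by
      rw [mem_closedBall, le_div_iff₀ hlam, mul_comm]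
      exact (Nat.lt_floor_add_one _).le
    rw [indicator_of_mem h1, mul_one]
    apply ENNReal.ofReal_le_ofReal
    apply Real.exp_le_exp.2
    have h2 := Nat.floor_le h0
    have h3 : ((⌊lam * dist y z⌋₊ : ℝ)) ^ 2 ≤ (lam * dist y z) ^ 2 :=
      pow_le_pow_left₀ (Nat.cast_nonneg _) h2 2
    rw [mul_pow] at h3
    linarith
  calc ∫⁻ y, ENNReal.ofReal (Real.exp (-(lam ^ 2 * dist y z ^ 2))) ∂μ
      ≤ ∫⁻ y, ∑' k : ℕ, ENNReal.ofReal (Real.exp (-(k : ℝ) ^ 2)) *
        (closedBall z (((k : ℝ) + 1) / lam)).indicator (fun _ => (1 : ENNReal)) y ∂μ :=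
        lintegral_mono hpt
    _ = ∑' k : ℕ, ∫⁻ y, ENNReal.ofReal (Real.exp (-(k : ℝ) ^ 2)) *
        (closedBall z (((k : ℝ) + 1) / lam)).indicator (fun _ => (1 : ENNReal)) y ∂μ := by
        apply lintegral_tsum
        intro k
        exact ((measurable_const.indicator isClosed_closedBall.measurableSet).const_mul
          _).aemeasurable
    _ = ∑' k : ℕ, ENNReal.ofReal (Real.exp (-(k : ℝ) ^ 2)) *
        μ (closedBall z (((k : ℝ) + 1) / lam)) := by
        congr 1
        funext k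
        rw [lintegral_const_mul _ (measurable_const.indicator isClosed_closedBall.measurableSet),
          lintegral_indicator isClosed_closedBall.measurableSet, setLIntegral_const, one_mul]
    _ ≤ ∑' k : ℕ, ENNReal.ofReal (C * lam ^ (-α) *
        (Real.exp (-(k : ℝ) ^ 2) * ((k : ℝ) + 1) ^ α)) := by
        apply ENNReal.tsum_le_tsum
        intro k
        have hk : (0 : ℝ) < (k : ℝ) + 1 := by positivity
        refine le_trans (mul_le_mul_right (hμ z (((k : ℝ) + 1) / lam) (by positivity)) _) ?_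
        rw [← ENNReal.ofReal_mul (Real.exp_pos _).le]
        apply ENNReal.ofReal_le_ofReal
        apply le_of_eq
        rw [Real.div_rpow hk.le hlam.le, Real.rpow_neg hlam.le]
        ring
    _ = ENNReal.ofReal (C * (∑' k : ℕ, Real.exp (-(k : ℝ) ^ 2) * ((k : ℝ) + 1) ^ α) *
        lam ^ (-α)) := by
        rw [← ENNReal.ofReal_tsum_of_nonneg (fun k => by positivity) (hsum.mul_left _),
          tsum_mul_left]
        congr 1
        ring

end Pool.Agent.H744R2.Falc
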