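import Pool.Agent.H744R2.Falc.Defs
import Pool.Agent.H744R2.Falc.Gauss

set_option autoImplicit false

/-! Fourier energy of a Frostman measure on the line. -/

namespace Pool.Agent.H744R2.Falc

open MeasureTheory Set Metric

theorem A5_conj (t u : ℝ) : (starRingEnd ℂ) (Complex.exp (((t * u : ℝ) : ℂ) * Complex.I))
    = Complex.exp (((-(t * u) : ℝ) : ℂ) * Complex.I) := by
  rw [← Complex.exp_conj]
  congr 1
  simp

theorem A5_sq (ν : Measure ℝ) [IsProbabilityMeasure ν] (t : ℝ) :
    ((‖∫ u, Complex.exp (((t * u : ℝ) : ℂ) * Complex.I) ∂ν‖ ^ 2 : ℝ) : ℂ)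
      = ∫ p : ℝ × ℝ, Complex.exp (((t * (p.1 - p.2) : ℝ) : ℂ) * Complex.I) ∂(ν.prod ν) := by
  have h1 : ((‖∫ u, Complex.exp (((t * u : ℝ) : ℂ) * Complex.I) ∂ν‖ ^ 2 : ℝ) : ℂ)
      = (∫ u, Complex.exp (((t * u : ℝ) : ℂ) * Complex.I) ∂ν)
        * ∫ u, Complex.exp (((-(t * u) : ℝ) : ℂ) * Complex.I) ∂ν := by
    have : (∫ u, Complex.exp (((-(t * u) : ℝ) : ℂ) * Complex.I) ∂ν)
        = (starRingEnd ℂ) (∫ u, Complex.exp (((t * u : ℝ) : ℂ) * Complex.I) ∂ν) := by
      rw [← integral_conj]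
      exact integral_congr_ae (Filter.Eventually.of_forall fun u => (A5_conj t u).symm)
    rw [this, Complex.mul_conj, Complex.normSq_eq_norm_sq]
  rw [h1, ← integral_prod_mul]
  refine integral_congr_ae (Filter.Eventually.of_forall fun p => ?_)
  simp only
  rw [← Complex.exp_add]
  congr 1
  push_cast
  ring

theorem A5_norm (a : ℝ) : ‖Complex.exp ((a : ℂ) * Complex.I)‖ = 1 :=
  Complex.norm_exp_ofReal_mul_I a

theorem A5_meas (ν : Measure ℝ) [IsProbabilityMeasure ν] :
    Continuous fun t : ℝ => ∫ u, Complex.exp (((t * u : ℝ) : ℂ) * Complex.I) ∂ν := by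
  apply continuous_of_dominated (bound := fun _ => 1)
  · intro t
    apply Continuous.aestronglyMeasurable
    fun_prop
  · intro t
    exact Filter.Eventually.of_forall fun u => (A5_norm _).le
  · exact integrable_const 1
  · exact Filter.Eventually.of_forall fun u => by fun_prop

/-- smoothed energy -/
theorem A5_gauss (ν : Measure ℝ) [IsProbabilityMeasure ν] (b : ℝ) (hb : 0 < b) :
    ∫ t : ℝ, ‖∫ u, Complex.exp (((t * u : ℝ) : ℂ) * Complex.I) ∂ν‖ ^ 2 * Real.exp (-b * t ^ 2)
      = Real.sqrt (Real.pi / b) *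
        ∫ p : ℝ × ℝ, Real.exp (-((p.1 - p.2) ^ 2 / (4 * b))) ∂(ν.prod ν) := by
  have hint : Integrable (Function.uncurry fun (t : ℝ) (p : ℝ × ℝ) =>
      Complex.exp (((t * (p.1 - p.2) : ℝ) : ℂ) * Complex.I) * ((Real.exp (-b * t ^ 2) : ℝ) : ℂ))
      ((volume : Measure ℝ).prod (ν.prod ν)) := by
    have h1 : Integrable (fun x : ℝ × (ℝ × ℝ) => Real.exp (-b * x.1 ^ 2))
        ((volume : Measure ℝ).prod (ν.prod ν)) :=
      (integrable_exp_neg_mul_sq hb).comp_fst (ν.prod ν)
    refine h1.mono' ?_ ?_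
    · apply Continuous.aestronglyMeasurable
      unfold Function.uncurry
      fun_prop
    · refine Filter.Eventually.of_forall fun x => ?_
      simp only [Function.uncurry]
      rw [norm_mul, A5_norm, one_mul, Complex.norm_real, Real.norm_of_nonneg (Real.exp_nonneg _)]
  have hc : ((∫ t : ℝ, ‖∫ u, Complex.exp (((t * u : ℝ) : ℂ) * Complex.I) ∂ν‖ ^ 2
        * Real.exp (-b * t ^ 2) : ℝ) : ℂ)
      = ((Real.sqrt (Real.pi / b) *
        ∫ p : ℝ × ℝ, Real.exp (-((p.1 - p.2) ^ 2 / (4 * b))) ∂(ν.prod ν) : ℝ) : ℂ) := by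
    rw [← integral_complex_ofReal]
    calc ∫ t : ℝ, ((‖∫ u, Complex.exp (((t * u : ℝ) : ℂ) * Complex.I) ∂ν‖ ^ 2
            * Real.exp (-b * t ^ 2) : ℝ) : ℂ)
        = ∫ t : ℝ, ∫ p : ℝ × ℝ, Complex.exp (((t * (p.1 - p.2) : ℝ) : ℂ) * Complex.I)
            * ((Real.exp (-b * t ^ 2) : ℝ) : ℂ) ∂(ν.prod ν) := by
          refine integral_congr_ae (Filter.Eventually.of_forall fun t => ?_)
          simp only
          rw [integral_mul_const, ← A5_sq, ← Complex.ofReal_mul]
      _ = ∫ p : ℝ × ℝ, (∫ t : ℝ, Complex.exp (((t * (p.1 - p.2) : ℝ) : ℂ) * Complex.I)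
            * ((Real.exp (-b * t ^ 2) : ℝ) : ℂ)) ∂(ν.prod ν) := integral_integral_swap hint
      _ = ∫ p : ℝ × ℝ, ((Real.sqrt (Real.pi / b) *
            Real.exp (-((p.1 - p.2) ^ 2 / (4 * b))) : ℝ) : ℂ) ∂(ν.prod ν) := by
          refine integral_congr_ae (Filter.Eventually.of_forall fun p => ?_)
          simp only
          have h := fourierIntegral_gaussian (b := (b : ℂ)) (by simpa using hb)
            ((p.1 - p.2 : ℝ) : ℂ)
          have e1 : (∫ t : ℝ, Complex.exp (((t * (p.1 - p.2) : ℝ) : ℂ) * Complex.I)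
              * ((Real.exp (-b * t ^ 2) : ℝ) : ℂ))
              = ∫ x : ℝ, Complex.exp (Complex.I * ((p.1 - p.2 : ℝ) : ℂ) * x)
                * Complex.exp (-(b : ℂ) * x ^ 2) := by
            refine integral_congr_ae (Filter.Eventually.of_forall fun t => ?_)
            simp only
            rw [Complex.ofReal_exp]
            congr 1
            · congr 1
              push_cast
              ring
            · congr 1
              push_cast
              ring
          rw [e1, h]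
          rw [Complex.ofReal_mul, Complex.ofReal_exp, Real.sqrt_eq_rpow,
            Complex.ofReal_cpow (by positivity)]
          push_cast
          congr 2
          ring
      _ = _ := by
          rw [integral_complex_ofReal, integral_const_mul]
  exact_mod_cast hc

/-- bound for the smoothed energy -/
theorem A5_bound (ν : Measure ℝ) [IsProbabilityMeasure ν] (σ C' : ℝ)
    (hg : ∀ (lam : ℝ) (z : ℝ), 0 < lam →
      ∫ y, Real.exp (-(lam ^ 2 * dist y z ^ 2)) ∂ν ≤ C' * lam ^ (-σ)) (T : ℝ) (hT : 0 < T) :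
    ∫ t : ℝ, ‖∫ u, Complex.exp (((t * u : ℝ) : ℂ) * Complex.I) ∂ν‖ ^ 2
        * Real.exp (-(1 / T ^ 2) * t ^ 2)
      ≤ Real.sqrt Real.pi * T * (C' * (T / 2) ^ (-σ)) := by
  rw [A5_gauss ν (1 / T ^ 2) (by positivity)]
  have h1 : Real.sqrt (Real.pi / (1 / T ^ 2)) = Real.sqrt Real.pi * T := by
    rw [div_div_eq_mul_div, div_one, Real.sqrt_mul Real.pi_pos.le, Real.sqrt_sq hT.le]
  rw [h1]
  apply mul_le_mul_of_nonneg_left _ (by positivity)
  have hint : Integrable (fun p : ℝ × ℝ => Real.exp (-((p.1 - p.2) ^ 2 / (4 * (1 / T ^ 2)))))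
      (ν.prod ν) := by
    refine (integrable_const (1 : ℝ)).mono' (by
      apply Continuous.aestronglyMeasurable
      fun_prop) ?_
    refine Filter.Eventually.of_forall fun p => ?_
    rw [Real.norm_of_nonneg (Real.exp_nonneg _)]
    apply Real.exp_le_one_iff.2
    have : 0 ≤ (p.1 - p.2) ^ 2 / (4 * (1 / T ^ 2)) := by positivity
    linarith
  rw [integral_prod _ hint]
  calc ∫ x, ∫ y, Real.exp (-((x - y) ^ 2 / (4 * (1 / T ^ 2)))) ∂ν ∂ν
      ≤ ∫ _x, C' * (T / 2) ^ (-σ) ∂ν := by
        apply integral_mono_of_nonneg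
        · exact Filter.Eventually.of_forall fun x => integral_nonneg fun y => Real.exp_nonneg _
        · exact integrable_const _
        · refine Filter.Eventually.of_forall fun x => ?_
          refine le_trans (le_of_eq ?_) (hg (T / 2) x (by positivity))
          refine integral_congr_ae (Filter.Eventually.of_forall fun y => ?_)
          simp only
          rw [Real.dist_eq, sq_abs]
          congr 1
          field_simp
          ring
    _ = C' * (T / 2) ^ (-σ) := by simp

theorem A5_energy (ν : Measure ℝ) [IsProbabilityMeasure ν] (σ β C' : ℝ) (hC' : 0 < C')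
    (hσ1 : σ ≤ 1)
    (hg : ∀ (lam : ℝ) (z : ℝ), 0 < lam →
      ∫ y, Real.exp (-(lam ^ 2 * dist y z ^ 2)) ∂ν ≤ C' * lam ^ (-σ))
    (hβ : 1 - σ < β) :
    ∫⁻ t in {t : ℝ | 1 ≤ |t|},
      ENNReal.ofReal (‖∫ u, Complex.exp (((t * u : ℝ) : ℂ) * Complex.I) ∂ν‖ ^ 2 * |t| ^ (-β)) < ⊤ := by
  have hβ0 : 0 < β := by linarith
  set N : ℝ → ℝ := fun t => ‖∫ u, Complex.exp (((t * u : ℝ) : ℂ) * Complex.I) ∂ν‖ ^ 2 with hN
  have hN0 : ∀ t, 0 ≤ N t := fun t => by positivity
  have hN1 : ∀ t, N t ≤ 1 := fun t => by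
    have : ‖∫ u, Complex.exp (((t * u : ℝ) : ℂ) * Complex.I) ∂ν‖ ≤ 1 := by
      refine (norm_integral_le_integral_norm _).trans ?_
      simp only [A5_norm]
      simp
    have h0 := norm_nonneg (∫ u, Complex.exp (((t * u : ℝ) : ℂ) * Complex.I) ∂ν)
    simp only [hN]
    nlinarith
  have hNc : Continuous N := (A5_meas ν).norm.pow 2
  set S : ℕ → Set ℝ := fun k => {t : ℝ | (2 : ℝ) ^ k ≤ |t| ∧ |t| < 2 ^ (k + 1)} with hS
  set q : ℝ := (2 : ℝ) ^ (1 - σ - β) with hq
  have hq0 : 0 < q := by positivity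
  have hq1 : q < 1 := Real.rpow_lt_one_of_one_lt_of_neg (by norm_num) (by linarith)
  set A : ℝ := Real.exp 4 * Real.sqrt Real.pi * C' * 2 ^ σ with hA
  have hA0 : 0 < A := by positivity
  have hshell : ∀ k, ∫⁻ t in S k, ENNReal.ofReal (N t * |t| ^ (-β)) ≤ ENNReal.ofReal (A * q ^ k) := by
    intro k
    have hint : Integrable (fun t => Real.exp 4 * ((2 : ℝ) ^ k) ^ (-β) *
        (N t * Real.exp (-(1 / ((2 : ℝ) ^ k) ^ 2) * t ^ 2))) := by
      apply Integrable.const_mul
      refine (integrable_exp_neg_mul_sq (b := 1 / ((2 : ℝ) ^ k) ^ 2) (by positivity)).mono'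
        ((hNc.mul (by fun_prop)).aestronglyMeasurable) ?_
      refine Filter.Eventually.of_forall fun t => ?_
      rw [Real.norm_of_nonneg (by have := hN0 t; positivity)]
      have := hN1 t
      have h2 := Real.exp_pos (-(1 / ((2 : ℝ) ^ k) ^ 2) * t ^ 2)
      nlinarith
    calc ∫⁻ t in S k, ENNReal.ofReal (N t * |t| ^ (-β))
        ≤ ∫⁻ t in S k, ENNReal.ofReal (Real.exp 4 * ((2 : ℝ) ^ k) ^ (-β) *
            (N t * Real.exp (-(1 / ((2 : ℝ) ^ k) ^ 2) * t ^ 2))) := by
          apply setLIntegral_mono'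
          · apply MeasurableSet.inter
            · exact measurableSet_le measurable_const measurable_id.abs
            · exact measurableSet_lt measurable_id.abs measurable_const
          · intro t ht
            apply ENNReal.ofReal_le_ofReal
            have h1 : |t| ^ (-β) ≤ ((2 : ℝ) ^ k) ^ (-β) :=
              Real.rpow_le_rpow_of_nonpos (by positivity) ht.1 (by linarith)
            have h2 : 1 ≤ Real.exp 4 * Real.exp (-(1 / ((2 : ℝ) ^ k) ^ 2) * t ^ 2) := by
              rw [← Real.exp_add]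
              apply Real.one_le_exp
              have h3 : t ^ 2 ≤ 4 * ((2 : ℝ) ^ k) ^ 2 := by
                have h4 : |t| ≤ 2 * 2 ^ k := by
                  have := ht.2.le
                  rw [pow_succ] at this
                  linarith
                have h5 : |t| ^ 2 ≤ (2 * 2 ^ k) ^ 2 := by
                  apply pow_le_pow_left₀ (abs_nonneg _) h4
                rw [sq_abs] at h5
                linarith
              have h6 : 1 / ((2 : ℝ) ^ k) ^ 2 * t ^ 2 ≤ 4 := by
                rw [div_mul_eq_mul_div, one_mul, div_le_iff₀ (by positivity)]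
                exact h3
              linarith
            have h0 := hN0 t
            have h7 : 0 ≤ ((2 : ℝ) ^ k) ^ (-β) := by positivity
            calc N t * |t| ^ (-β) ≤ N t * ((2 : ℝ) ^ k) ^ (-β) :=
                  mul_le_mul_of_nonneg_left h1 h0
              _ = (N t * ((2 : ℝ) ^ k) ^ (-β)) * 1 := (mul_one _).symm
              _ ≤ (N t * ((2 : ℝ) ^ k) ^ (-β)) *
                  (Real.exp 4 * Real.exp (-(1 / ((2 : ℝ) ^ k) ^ 2) * t ^ 2)) :=
                  mul_le_mul_of_nonneg_left h2 (by positivity)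
              _ = _ := by ring
      _ ≤ ∫⁻ t, ENNReal.ofReal (Real.exp 4 * ((2 : ℝ) ^ k) ^ (-β) *
            (N t * Real.exp (-(1 / ((2 : ℝ) ^ k) ^ 2) * t ^ 2))) :=
          setLIntegral_le_lintegral _ _
      _ = ENNReal.ofReal (∫ t, Real.exp 4 * ((2 : ℝ) ^ k) ^ (-β) *
            (N t * Real.exp (-(1 / ((2 : ℝ) ^ k) ^ 2) * t ^ 2))) := by
          rw [ofReal_integral_eq_lintegral_ofReal hint]
          refine Filter.Eventually.of_forall fun t => ?_
          have := hN0 t
          simp only [Pi.zero_apply]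
          positivity
      _ ≤ ENNReal.ofReal (A * q ^ k) := by
          apply ENNReal.ofReal_le_ofReal
          rw [integral_const_mul]
          have hb := A5_bound ν σ C' hg ((2 : ℝ) ^ k) (by positivity)
          calc Real.exp 4 * ((2 : ℝ) ^ k) ^ (-β) *
                ∫ t, N t * Real.exp (-(1 / ((2 : ℝ) ^ k) ^ 2) * t ^ 2)
              ≤ Real.exp 4 * ((2 : ℝ) ^ k) ^ (-β) *
                (Real.sqrt Real.pi * 2 ^ k * (C' * ((2 : ℝ) ^ k / 2) ^ (-σ))) :=
                mul_le_mul_of_nonneg_left hb (by positivity)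
            _ = A * q ^ k := by
                have e1 : ((2 : ℝ) ^ k / 2) ^ (-σ) = ((2 : ℝ) ^ k) ^ (-σ) * 2 ^ σ := by
                  rw [Real.div_rpow (by positivity) (by norm_num), Real.rpow_neg (by norm_num : (0:ℝ) ≤ 2) σ,
                    div_inv_eq_mul]
                have e2 : q ^ k = ((2 : ℝ) ^ k) ^ (-β) * (2 ^ k * ((2 : ℝ) ^ k) ^ (-σ)) := by
                  rw [hq, ← Real.rpow_natCast, ← Real.rpow_mul (by norm_num), ← Real.rpow_natCast,
                    ← Real.rpow_mul (by norm_num), ← Real.rpow_mul (by norm_num),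
                    ← Real.rpow_add (by norm_num), ← Real.rpow_add (by norm_num)]
                  congr 1
                  ring
                rw [e1, e2, hA]
                ring
  calc ∫⁻ t in {t : ℝ | 1 ≤ |t|}, ENNReal.ofReal (N t * |t| ^ (-β))
      ≤ ∫⁻ t in ⋃ k, S k, ENNReal.ofReal (N t * |t| ^ (-β)) := by
        apply lintegral_mono_set
        intro t ht
        obtain ⟨k, hk1, hk2⟩ := exists_nat_pow_near (x := |t|) (y := 2) ht (by norm_num)
        exact mem_iUnion.2 ⟨k, hk1, hk2⟩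
    _ ≤ ∑' k, ∫⁻ t in S k, ENNReal.ofReal (N t * |t| ^ (-β)) := lintegral_iUnion_le _ _
    _ ≤ ∑' k, ENNReal.ofReal (A * q ^ k) := ENNReal.tsum_le_tsum hshell
    _ = ENNReal.ofReal (∑' k, A * q ^ k) := by
        rw [ENNReal.ofReal_tsum_of_nonneg (fun k => by positivity)
          ((summable_geometric_of_lt_one hq0.le hq1).mul_left A)]
    _ < ⊤ := ENNReal.ofReal_lt_top

theorem fourier_energy (ν : Measure ℝ) [IsProbabilityMeasure ν] (C σ β : ℝ) (hC : 0 < C)
    (hσ : 0 ≤ σ) (hσ1 : σ ≤ 1)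
    (hν : ∀ (x : ℝ) (r : ℝ), 0 < r → ν (closedBall x r) ≤ ENNReal.ofReal (C * r ^ σ))
    (hβ : 1 - σ < β) :
    ∫⁻ t in {t : ℝ | 1 ≤ |t|},
      ENNReal.ofReal (‖∫ u, Complex.exp (((t * u : ℝ) : ℂ) * Complex.I) ∂ν‖ ^ 2 * |t| ^ (-β)) < ⊤ := by
  obtain ⟨C', hC', hg⟩ := gauss_frostman ν C σ hC hσ hν
  exact A5_energy ν σ β C' hC' hσ1 hg hβ

end Pool.Agent.H744R2.Falc
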