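import Pool.Agent.H744R2.Falc.Defs

set_option autoImplicit false

/-! Task A2a: integrals of the tent kernel over slopes (helper273 for helper744). -/

namespace Pool.Agent.H744R2.Falc

open MeasureTheory Set Metric

theorem ta_tent_nonneg {w : ℝ} (hw : 0 < w) (t : ℝ) : 0 ≤ tent w t :=
  div_nonneg (le_max_left _ _) hw.le

theorem ta_tent_le {w : ℝ} (hw : 0 < w) (t : ℝ) : tent w t ≤ 1 / w := by
  unfold tent
  refine div_le_div_of_nonneg_right (max_le zero_le_one ?_) hw.le
  have : 0 ≤ |t| / w := by positivity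
  linarith

theorem ta_tent_zero {w : ℝ} (hw : 0 < w) {t : ℝ} (ht : w ≤ |t|) : tent w t = 0 := by
  unfold tent
  have : 1 ≤ |t| / w := by rwa [le_div_iff₀ hw, one_mul]
  rw [max_eq_left (by linarith), zero_div]

theorem ta_tent_cont (w : ℝ) : Continuous (tent w) := by
  unfold tent
  fun_prop

theorem ta_chi_nonneg (t : ℝ) : 0 ≤ chi t := le_max_left _ _

theorem ta_chi_le (t : ℝ) : chi t ≤ 1 := max_le zero_le_one (min_le_left _ _)

theorem ta_chi_zero {t : ℝ} (ht : 4 ≤ |t|) : chi t = 0 := by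
  unfold chi
  refine max_eq_left ((min_le_right _ _).trans (by linarith))

theorem ta_chi_cont : Continuous chi := by
  unfold chi
  fun_prop

theorem ta_chi_lip (s t : ℝ) : |chi s - chi t| ≤ |s - t| := by
  unfold chi
  have h1 := abs_max_sub_max_le_abs (min 1 (4 - |s|)) (min 1 (4 - |t|)) 0
  have h2 := abs_min_sub_min_le_max 1 (4 - |s|) 1 (4 - |t|)
  have h3 : |(1 : ℝ) - 1| ≤ |(4 - |s|) - (4 - |t|)| := by simp
  rw [max_eq_right h3] at h2
  have h4 : |(4 - |s|) - (4 - |t|)| ≤ |s - t| := by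
    have : (4 - |s|) - (4 - |t|) = |t| - |s| := by ring
    rw [this]
    have := abs_abs_sub_abs_le t s
    rwa [abs_sub_comm t s] at this
  rw [max_comm 0 (min 1 (4 - |s|)), max_comm 0 (min 1 (4 - |t|))]
  linarith

theorem ta_tent_compact {w : ℝ} (hw : 0 < w) : HasCompactSupport (tent w) := by
  refine HasCompactSupport.intro (isCompact_Icc (a := -w) (b := w)) fun t ht => ta_tent_zero hw ?_
  by_contra h
  push Not at h
  rw [abs_lt] at h
  exact ht ⟨h.1.le, h.2.le⟩

theorem ta_tent_integrable {w : ℝ} (hw : 0 < w) : Integrable (tent w) :=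
  (ta_tent_cont w).integrable_of_hasCompactSupport (ta_tent_compact hw)

theorem ta_tent_one_integral : ∫ t, tent 1 t = 1 := by
  have h1 : ∫ t, tent 1 t = ∫ t in (-1 : ℝ)..1, tent 1 t := by
    rw [intervalIntegral.integral_of_le (by norm_num), ← integral_Icc_eq_integral_Ioc]
    refine (setIntegral_eq_integral_of_forall_compl_eq_zero fun t ht => ta_tent_zero one_pos ?_).symm
    by_contra h
    push Not at h
    rw [abs_lt] at h
    exact ht ⟨h.1.le, h.2.le⟩
  rw [h1, ← intervalIntegral.integral_add_adjacent_intervals (a := -1) (b := 0) (c := 1)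
    ((ta_tent_cont 1).intervalIntegrable _ _) ((ta_tent_cont 1).intervalIntegrable _ _)]
  have h2 : ∫ t in (-1 : ℝ)..0, tent 1 t = ∫ t in (-1 : ℝ)..0, (1 + t) := by
    refine intervalIntegral.integral_congr fun t ht => ?_
    rw [uIcc_of_le (by norm_num)] at ht
    unfold tent
    rw [abs_of_nonpos ht.2, div_one, div_one, max_eq_right (by linarith [ht.1])]
    ring
  have h3 : ∫ t in (0 : ℝ)..1, tent 1 t = ∫ t in (0 : ℝ)..1, (1 - t) := by
    refine intervalIntegral.integral_congr fun t ht => ?_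
    rw [uIcc_of_le (by norm_num)] at ht
    unfold tent
    rw [abs_of_nonneg ht.1, div_one, div_one, max_eq_right (by linarith [ht.2])]
  rw [h2, h3]
  rw [intervalIntegral.integral_add (by simp) (by simp),
    intervalIntegral.integral_sub (by simp) (by simp)]
  simp only [integral_id, intervalIntegral.integral_const]
  norm_num

theorem ta_tent_integral {w : ℝ} (hw : 0 < w) : ∫ t, tent w t = 1 := by
  have h1 : ∀ t, tent w t = (1 / w) * tent 1 (t * w⁻¹) := by
    intro t
    unfold tent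
    rw [abs_mul, abs_of_pos (inv_pos.mpr hw)]
    simp only [div_one]
    rw [← div_eq_mul_inv]
    ring
  simp_rw [h1]
  rw [integral_const_mul, Measure.integral_comp_mul_right (fun s => tent 1 s) w⁻¹,
    ta_tent_one_integral, inv_inv, abs_of_pos hw]
  simp only [smul_eq_mul, mul_one]
  field_simp

theorem ta_tent_line_integrable {w : ℝ} (hw : 0 < w) {z1 : ℝ} (hz : z1 ≠ 0) (z2 : ℝ) :
    Integrable (fun t => tent w (z2 - t * z1)) :=
  ((ta_tent_integrable hw).comp_sub_left z2).comp_mul_right' hz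

theorem ta_tent_line_integral {w : ℝ} (hw : 0 < w) {z1 : ℝ} (_hz : z1 ≠ 0) (z2 : ℝ) :
    ∫ t, tent w (z2 - t * z1) = 1 / |z1| := by
  rw [Measure.integral_comp_mul_right (fun s => tent w (z2 - s)) z1,
    integral_sub_left_eq_self (fun s => tent w s) volume z2, ta_tent_integral hw, abs_inv]
  simp

/-- extension of the slope integral to the whole line -/
theorem ta_chi_integral_extend (g : ℝ → ℝ) :
    ∫ t in (-4 : ℝ)..4, chi t * g t = ∫ t, chi t * g t := by
  rw [intervalIntegral.integral_of_le (by norm_num), ← integral_Icc_eq_integral_Ioc]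
  refine setIntegral_eq_integral_of_forall_compl_eq_zero fun t ht => ?_
  rw [ta_chi_zero, zero_mul]
  by_contra h
  push Not at h
  rw [abs_lt] at h
  exact ht ⟨h.1.le, h.2.le⟩

/-- far from the cone both tents vanish -/
theorem ta_tent_far {w z1 z2 : ℝ} (hw : 0 < w) (h : 4 * |z1| + w < |z2|) {t : ℝ}
    (ht : t ∈ Icc (-4 : ℝ) 4) : tent w (z2 - t * z1) = 0 := by
  refine ta_tent_zero hw ?_
  have h1 : |t * z1| ≤ 4 * |z1| := by
    rw [abs_mul]
    exact mul_le_mul_of_nonneg_right (abs_le.mpr ht) (abs_nonneg _)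
  have h2 : |z2| - |t * z1| ≤ |z2 - t * z1| := abs_sub_abs_le_abs_sub _ _
  linarith

theorem ta_sqrt_le_add (z1 z2 : ℝ) : Real.sqrt (z1 ^ 2 + z2 ^ 2) ≤ |z1| + |z2| := by
  rw [Real.sqrt_le_left (by positivity)]
  have h1 := sq_abs z1
  have h2 := sq_abs z2
  nlinarith [abs_nonneg z1, abs_nonneg z2, mul_nonneg (abs_nonneg z1) (abs_nonneg z2)]

theorem ta_slope_large {w z1 z2 : ℝ} (h8 : 8 * w ≤ Real.sqrt (z1 ^ 2 + z2 ^ 2))
    (h : |z2| ≤ 4 * |z1| + w) : 7 * Real.sqrt (z1 ^ 2 + z2 ^ 2) ≤ 40 * |z1| := by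
  have := ta_sqrt_le_add z1 z2
  linarith

theorem tent_avg_le : ∃ C : ℝ, 0 < C ∧ ∀ δ z1 z2 : ℝ, 0 < δ → 0 < z1 ^ 2 + z2 ^ 2 →
    ∫ t in (-4 : ℝ)..4, chi t * tent δ (z2 - t * z1) ≤ C / Real.sqrt (z1 ^ 2 + z2 ^ 2) := by
  refine ⟨64, by norm_num, fun δ z1 z2 hδ hz => ?_⟩
  set r := Real.sqrt (z1 ^ 2 + z2 ^ 2) with hr
  have hr0 : 0 < r := Real.sqrt_pos.mpr hz
  rcases le_or_gt r (8 * δ) with hc | hc
  · -- trivial bound
    have h1 : ∫ t in (-4 : ℝ)..4, chi t * tent δ (z2 - t * z1) ≤ ∫ _t in (-4 : ℝ)..4, 1 / δ := by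
      refine intervalIntegral.integral_mono_on (by norm_num) ?_ (by simp) fun t _ => ?_
      · refine Continuous.intervalIntegrable ?_ _ _
        exact ta_chi_cont.mul ((ta_tent_cont δ).comp (by fun_prop))
      · calc chi t * tent δ (z2 - t * z1) ≤ 1 * (1 / δ) :=
            mul_le_mul (ta_chi_le t) (ta_tent_le hδ _) (ta_tent_nonneg hδ _) zero_le_one
          _ = 1 / δ := one_mul _
    refine h1.trans ?_
    rw [intervalIntegral.integral_const, smul_eq_mul]
    rw [le_div_iff₀ hr0]
    have : (4 - -4) * (1 / δ) * r = 8 * r / δ := by ring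
    rw [this, div_le_iff₀ hδ]
    linarith
  · rcases lt_or_ge (4 * |z1| + δ) |z2| with hf | hf
    · have h1 : ∫ t in (-4 : ℝ)..4, chi t * tent δ (z2 - t * z1) = ∫ _t in (-4 : ℝ)..4, (0 : ℝ) := by
        refine intervalIntegral.integral_congr fun t ht => ?_
        rw [uIcc_of_le (by norm_num)] at ht
        rw [ta_tent_far hδ hf ht, mul_zero]
      rw [h1]
      simp only [intervalIntegral.integral_zero]
      positivity
    · have hsl := ta_slope_large (by linarith : 8 * δ ≤ r) hf
      have hz1 : 0 < |z1| := by nlinarith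
      have hz1' : z1 ≠ 0 := abs_pos.mp hz1
      rw [ta_chi_integral_extend (fun t => tent δ (z2 - t * z1))]
      have h1 : ∫ t, chi t * tent δ (z2 - t * z1) ≤ ∫ t, tent δ (z2 - t * z1) := by
        refine integral_mono_of_nonneg (Filter.Eventually.of_forall fun t =>
          mul_nonneg (ta_chi_nonneg t) (ta_tent_nonneg hδ _)) (ta_tent_line_integrable hδ hz1' z2)
          (Filter.Eventually.of_forall fun t => ?_)
        exact mul_le_of_le_one_left (ta_tent_nonneg hδ _) (ta_chi_le t)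
      refine h1.trans ?_
      rw [ta_tent_line_integral hδ hz1' z2, div_le_div_iff₀ hz1 hr0]
      linarith

theorem tent_avg_diff : ∃ C : ℝ, 0 < C ∧ ∀ δ w z1 z2 : ℝ, 0 < δ → δ ≤ w →
    8 * w ≤ Real.sqrt (z1 ^ 2 + z2 ^ 2) →
    |∫ t in (-4 : ℝ)..4, chi t * (tent δ (z2 - t * z1) - tent w (z2 - t * z1))|
      ≤ C * w / (z1 ^ 2 + z2 ^ 2) := by
  refine ⟨66, by norm_num, fun δ w z1 z2 hδ hδw h8 => ?_⟩
  have hw : 0 < w := hδ.trans_le hδw
  set r := Real.sqrt (z1 ^ 2 + z2 ^ 2) with hr
  have hr0 : 0 < r := by linarith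
  have hz : 0 < z1 ^ 2 + z2 ^ 2 := Real.sqrt_pos.mp hr0
  have hrsq : r ^ 2 = z1 ^ 2 + z2 ^ 2 := Real.sq_sqrt hz.le
  rcases lt_or_ge (4 * |z1| + w) |z2| with hf | hf
  · have h1 : ∫ t in (-4 : ℝ)..4, chi t * (tent δ (z2 - t * z1) - tent w (z2 - t * z1)) =
        ∫ _t in (-4 : ℝ)..4, (0 : ℝ) := by
      refine intervalIntegral.integral_congr fun t ht => ?_
      rw [uIcc_of_le (by norm_num)] at ht
      rw [ta_tent_far hw hf ht, ta_tent_far hδ (by linarith) ht, sub_zero, mul_zero]
    rw [h1]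
    simp only [intervalIntegral.integral_zero, abs_zero]
    positivity
  · have hsl := ta_slope_large h8 hf
    have hz1 : 0 < |z1| := by nlinarith
    have hz1' : z1 ≠ 0 := abs_pos.mp hz1
    rw [ta_chi_integral_extend (fun t => tent δ (z2 - t * z1) - tent w (z2 - t * z1))]
    have iδ := ta_tent_line_integrable hδ hz1' z2
    have iw := ta_tent_line_integrable hw hz1' z2
    have hg : Integrable (fun t => tent δ (z2 - t * z1) - tent w (z2 - t * z1)) := iδ.sub iw
    have hg0 : ∫ t, (tent δ (z2 - t * z1) - tent w (z2 - t * z1)) = 0 := by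
      rw [integral_sub iδ iw, ta_tent_line_integral hδ hz1' z2, ta_tent_line_integral hw hz1' z2, sub_self]
    have hcg : Integrable (fun t => chi t * (tent δ (z2 - t * z1) - tent w (z2 - t * z1))) := by
      refine hg.bdd_mul (c := 1) ta_chi_cont.aestronglyMeasurable (Filter.Eventually.of_forall fun t => ?_)
      rw [Real.norm_eq_abs, abs_of_nonneg (ta_chi_nonneg t)]
      exact ta_chi_le t
    have h2 : ∫ t, chi t * (tent δ (z2 - t * z1) - tent w (z2 - t * z1)) =
        ∫ t, (chi t - chi (z2 / z1)) * (tent δ (z2 - t * z1) - tent w (z2 - t * z1)) := by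
      have : ∀ t, (chi t - chi (z2 / z1)) * (tent δ (z2 - t * z1) - tent w (z2 - t * z1)) =
          chi t * (tent δ (z2 - t * z1) - tent w (z2 - t * z1)) -
          chi (z2 / z1) * (tent δ (z2 - t * z1) - tent w (z2 - t * z1)) := fun t => by ring
      simp_rw [this]
      rw [integral_sub hcg (hg.const_mul _), integral_const_mul, hg0, mul_zero, sub_zero]
    rw [h2]
    -- pointwise bound
    have hpt : ∀ t, ‖(chi t - chi (z2 / z1)) * (tent δ (z2 - t * z1) - tent w (z2 - t * z1))‖ ≤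
        (w / |z1|) * (tent δ (z2 - t * z1) + tent w (z2 - t * z1)) := by
      intro t
      rw [Real.norm_eq_abs, abs_mul]
      have hl : |chi t - chi (z2 / z1)| ≤ |z2 - t * z1| / |z1| := by
        refine (ta_chi_lip _ _).trans (le_of_eq ?_)
        rw [← abs_div, abs_sub_comm]
        congr 1
        field_simp
      rcases lt_or_ge |z2 - t * z1| w with ht | ht
      · refine mul_le_mul (hl.trans (div_le_div_of_nonneg_right ht.le hz1.le)) ?_ (abs_nonneg _)
          (div_nonneg hw.le hz1.le)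
        rw [abs_le]
        constructor <;> linarith [ta_tent_nonneg hδ (z2 - t * z1), ta_tent_nonneg hw (z2 - t * z1)]
      · rw [ta_tent_zero hw ht, ta_tent_zero hδ (hδw.trans ht)]
        simp
    have hI : Integrable (fun t => (w / |z1|) * (tent δ (z2 - t * z1) + tent w (z2 - t * z1))) :=
      (iδ.add iw).const_mul _
    have h3 := norm_integral_le_of_norm_le hI (Filter.Eventually.of_forall hpt)
    rw [Real.norm_eq_abs] at h3
    refine h3.trans ?_
    rw [integral_const_mul, integral_add iδ iw, ta_tent_line_integral hδ hz1' z2,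
      ta_tent_line_integral hw hz1' z2]
    rw [← hrsq]
    have e1 : w / |z1| * (1 / |z1| + 1 / |z1|) = 2 * w / |z1| ^ 2 := by
      field_simp
      ring
    rw [e1, div_le_div_iff₀ (by positivity) (by positivity)]
    have h5 : 49 * r ^ 2 ≤ 1600 * |z1| ^ 2 := by nlinarith
    nlinarith [mul_le_mul_of_nonneg_left h5 hw.le]

end Pool.Agent.H744R2.Falc
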