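import Pool.Agent.H744R2.Falc.Defs
import Pool.Agent.H744R2.Falc.Tent

set_option autoImplicit false

/-! Task A2b: energies of a Frostman measure (helper273 for helper744). -/

namespace Pool.Agent.H744R2.Falc

open MeasureTheory Set Metric

/-- the slope integral for a pair of points -/
noncomputable def eg_J (δ : ℝ) (p : E2 × E2) : ℝ :=
  ∫ t in (-4 : ℝ)..4, chi t * tent δ ((p.1 1 - p.2 1) - t * (p.1 0 - p.2 0))

theorem eg_cont (δ : ℝ) : Continuous (fun q : ℝ × (E2 × E2) =>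
    chi q.1 * tent δ ((q.2.1 1 - q.2.2 1) - q.1 * (q.2.1 0 - q.2.2 0))) := by
  refine (ta_chi_cont.comp continuous_fst).mul ((ta_tent_cont δ).comp ?_)
  fun_prop

theorem eg_int (μ : Measure E2) [IsProbabilityMeasure μ] {δ : ℝ} (hδ : 0 < δ) :
    Integrable (Function.uncurry fun (t : ℝ) (p : E2 × E2) =>
      chi t * tent δ ((p.1 1 - p.2 1) - t * (p.1 0 - p.2 0)))
      ((volume.restrict (Ioc (-4 : ℝ) 4)).prod (μ.prod μ)) := by
  refine Integrable.of_bound (C := 1 / δ) (eg_cont δ).aestronglyMeasurable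
    (Filter.Eventually.of_forall fun q => ?_)
  simp only [Function.uncurry]
  rw [Real.norm_eq_abs, abs_of_nonneg (mul_nonneg (ta_chi_nonneg _) (ta_tent_nonneg hδ _))]
  calc chi q.1 * tent δ ((q.2.1 1 - q.2.2 1) - q.1 * (q.2.1 0 - q.2.2 0)) ≤ 1 * (1 / δ) :=
        mul_le_mul (ta_chi_le _) (ta_tent_le hδ _) (ta_tent_nonneg hδ _) zero_le_one
    _ = 1 / δ := one_mul _

theorem eg_J_integrable (μ : Measure E2) [IsProbabilityMeasure μ] {δ : ℝ} (hδ : 0 < δ) :
    Integrable (eg_J δ) (μ.prod μ) := by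
  have := (eg_int μ hδ).integral_prod_right
  refine this.congr (Filter.Eventually.of_forall fun p => ?_)
  unfold eg_J
  rw [intervalIntegral.integral_of_le (by norm_num)]
  rfl

theorem eg_GG_intervalIntegrable (μ : Measure E2) [IsProbabilityMeasure μ] {δ : ℝ} (hδ : 0 < δ) :
    IntervalIntegrable (fun t => chi t * GG μ δ t) volume (-4 : ℝ) 4 := by
  rw [intervalIntegrable_iff_integrableOn_Ioc_of_le (by norm_num)]
  have := (eg_int μ hδ).integral_prod_left
  refine this.congr (Filter.Eventually.of_forall fun t => ?_)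
  simp only [Function.uncurry]
  unfold GG
  rw [integral_const_mul]

theorem eg_swap (μ : Measure E2) [IsProbabilityMeasure μ] {δ : ℝ} (hδ : 0 < δ) :
    ∫ t in (-4 : ℝ)..4, chi t * GG μ δ t = ∫ p, eg_J δ p ∂(μ.prod μ) := by
  unfold GG eg_J
  simp_rw [← integral_const_mul]
  rw [intervalIntegral.integral_of_le (by norm_num)]
  rw [integral_integral_swap (eg_int μ hδ)]
  refine integral_congr_ae (Filter.Eventually.of_forall fun p => ?_)
  simp only
  rw [intervalIntegral.integral_of_le (by norm_num)]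

theorem eg_dist (p : E2 × E2) :
    Real.sqrt ((p.1 0 - p.2 0) ^ 2 + (p.1 1 - p.2 1) ^ 2) = dist p.1 p.2 := by
  rw [EuclideanSpace.dist_eq, Fin.sum_univ_two, Real.dist_eq, Real.dist_eq, sq_abs, sq_abs]

theorem eg_atom (μ : Measure E2) (C s : ℝ) (hs : 0 < s)
    (hμ : ∀ (x : E2) (r : ℝ), 0 < r → μ (closedBall x r) ≤ ENNReal.ofReal (C * r ^ s)) (x : E2) :
    μ {x} = 0 := by
  have h1 : Filter.Tendsto (fun r : ℝ => ENNReal.ofReal (C * r ^ s)) (nhdsWithin 0 (Ioi 0))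
      (nhds (ENNReal.ofReal (C * (0 : ℝ) ^ s))) := by
    refine (ENNReal.continuous_ofReal.tendsto _).comp ?_
    refine Filter.Tendsto.const_mul _ ?_
    exact ((Real.continuousAt_rpow_const 0 s (Or.inr hs.le)).tendsto).mono_left nhdsWithin_le_nhds
  have h2 : μ {x} ≤ ENNReal.ofReal (C * (0 : ℝ) ^ s) := by
    refine ge_of_tendsto h1 ?_
    filter_upwards [self_mem_nhdsWithin] with r hr
    refine le_trans (measure_mono ?_) (hμ x r hr)
    intro y hy
    rw [mem_singleton_iff] at hy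
    rw [hy]
    exact mem_closedBall_self (le_of_lt hr)
  rw [Real.zero_rpow hs.ne', mul_zero, ENNReal.ofReal_zero] at h2
  exact nonpos_iff_eq_zero.mp h2

/-- dyadic majorant -/
noncomputable def eg_D (x : E2) (a ρ : ℕ → ℝ) (y : E2) : ENNReal :=
  ∑' k, ENNReal.ofReal (a k) * (closedBall x (ρ k)).indicator (fun _ => 1) y

theorem eg_D_meas (x : E2) (a ρ : ℕ → ℝ) : Measurable (eg_D x a ρ) := by
  unfold eg_D
  refine Measurable.tsum fun k => ?_
  exact (measurable_const.indicator isClosed_closedBall.measurableSet).const_mul _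

theorem eg_D_ge (x : E2) (a ρ : ℕ → ℝ) (y : E2) (k : ℕ) (h : dist x y ≤ ρ k) :
    ENNReal.ofReal (a k) ≤ eg_D x a ρ y := by
  unfold eg_D
  refine le_trans ?_ (ENNReal.le_tsum k)
  rw [indicator_of_mem, mul_one]
  rw [mem_closedBall, dist_comm]
  exact h

theorem eg_D_int (μ : Measure E2) (C s : ℝ)
    (hμ : ∀ (x : E2) (r : ℝ), 0 < r → μ (closedBall x r) ≤ ENNReal.ofReal (C * r ^ s))
    (x : E2) (a ρ : ℕ → ℝ) (ha : ∀ k, 0 ≤ a k) (hρ : ∀ k, 0 < ρ k) :
    ∫⁻ y, eg_D x a ρ y ∂μ ≤ ∑' k, ENNReal.ofReal (a k * (C * ρ k ^ s)) := by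
  unfold eg_D
  rw [lintegral_tsum (fun k =>
    ((measurable_const.indicator isClosed_closedBall.measurableSet).const_mul _).aemeasurable)]
  refine ENNReal.tsum_le_tsum fun k => ?_
  rw [lintegral_const_mul _ (measurable_const.indicator isClosed_closedBall.measurableSet),
    lintegral_indicator_const isClosed_closedBall.measurableSet, one_mul,
    ENNReal.ofReal_mul (ha k)]
  gcongr
  exact hμ x (ρ k) (hρ k)

/-- sum of the near majorant -/
theorem eg_near_sum (C s ρ : ℝ) (hC : 0 < C) (hs : 1 < s) (hρ : 0 < ρ) :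
    ∑' k : ℕ, ENNReal.ofReal ((2 ^ (k + 1) / ρ) * (C * (ρ / 2 ^ k) ^ s)) ≤
      ENNReal.ofReal (2 * C / (1 - (2 : ℝ) ^ (1 - s)) * ρ ^ (s - 1)) := by
  set q : ℝ := (2 : ℝ) ^ (1 - s) with hq
  have hq0 : 0 < q := Real.rpow_pos_of_pos two_pos _
  have hq1 : q < 1 := Real.rpow_lt_one_of_one_lt_of_neg one_lt_two (by linarith)
  have h1 : ∀ k : ℕ, (2 ^ (k + 1) / ρ) * (C * (ρ / 2 ^ k) ^ s) =
      (2 * C * ρ ^ (s - 1)) * q ^ k := by
    intro k
    have e1 : (ρ / 2 ^ k : ℝ) ^ s = ρ ^ s / ((2 : ℝ) ^ s) ^ k := by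
      rw [Real.div_rpow hρ.le (by positivity), ← Real.rpow_natCast, ← Real.rpow_mul (by norm_num),
        mul_comm (k : ℝ) s, Real.rpow_mul (by norm_num), Real.rpow_natCast]
    have e2 : q ^ k = 2 ^ k / ((2 : ℝ) ^ s) ^ k := by
      rw [hq, Real.rpow_sub two_pos, Real.rpow_one, div_pow]
    have e3 : ρ ^ (s - 1) = ρ ^ s / ρ := by
      rw [Real.rpow_sub hρ, Real.rpow_one]
    rw [e1, e2, e3, pow_succ]
    field_simp
  simp_rw [h1]
  have hsum : Summable fun k : ℕ => (2 * C * ρ ^ (s - 1)) * q ^ k :=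
    (summable_geometric_of_lt_one hq0.le hq1).mul_left _
  rw [← ENNReal.ofReal_tsum_of_nonneg (fun k => by positivity) hsum, tsum_mul_left,
    tsum_geometric_of_lt_one hq0.le hq1]
  refine le_of_eq (congrArg _ ?_)
  rw [div_eq_mul_inv]
  ring

/-- sum of the far majorant -/
theorem eg_far_sum (C s ρ : ℝ) (hC : 0 < C) (hs2 : s < 2) (hρ : 0 < ρ) :
    ∑' k : ℕ, ENNReal.ofReal ((1 / (4 ^ k * ρ ^ 2)) * (C * (2 ^ (k + 1) * ρ) ^ s)) ≤
      ENNReal.ofReal (C * 2 ^ s / (1 - (2 : ℝ) ^ (s - 2)) * ρ ^ (s - 2)) := by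
  set q : ℝ := (2 : ℝ) ^ (s - 2) with hq
  have hq0 : 0 < q := Real.rpow_pos_of_pos two_pos _
  have hq1 : q < 1 := Real.rpow_lt_one_of_one_lt_of_neg one_lt_two (by linarith)
  have h1 : ∀ k : ℕ, (1 / (4 ^ k * ρ ^ 2)) * (C * (2 ^ (k + 1) * ρ) ^ s) =
      (C * 2 ^ s * ρ ^ (s - 2)) * q ^ k := by
    intro k
    have e1 : (2 ^ (k + 1) * ρ : ℝ) ^ s = (2 : ℝ) ^ s * ((2 : ℝ) ^ s) ^ k * ρ ^ s := by
      rw [Real.mul_rpow (by positivity) hρ.le, ← Real.rpow_natCast, ← Real.rpow_mul (by norm_num),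
        mul_comm _ s, Real.rpow_mul (by norm_num), Real.rpow_natCast, pow_succ]
      ring
    have e2 : q ^ k = ((2 : ℝ) ^ s) ^ k / 4 ^ k := by
      rw [hq, Real.rpow_sub two_pos, div_pow]
      norm_num
    have e3 : ρ ^ (s - 2) = ρ ^ s / ρ ^ 2 := by
      rw [Real.rpow_sub hρ]
      norm_num
    rw [e1, e2, e3]
    field_simp
  simp_rw [h1]
  have hsum : Summable fun k : ℕ => (C * 2 ^ s * ρ ^ (s - 2)) * q ^ k :=
    (summable_geometric_of_lt_one hq0.le hq1).mul_left _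
  rw [← ENNReal.ofReal_tsum_of_nonneg (fun k => by positivity) hsum, tsum_mul_left,
    tsum_geometric_of_lt_one hq0.le hq1]
  refine le_of_eq (congrArg _ ?_)
  rw [div_eq_mul_inv]
  ring

theorem eg_near_pt (x y : E2) (ρ : ℝ) (hρ : 0 < ρ) (h0 : 0 < dist x y) (h1 : dist x y ≤ ρ) :
    ENNReal.ofReal (1 / dist x y) ≤ eg_D x (fun k => 2 ^ (k + 1) / ρ) (fun k => ρ / 2 ^ k) y := by
  obtain ⟨n, hn1, hn2⟩ := exists_nat_pow_near (x := ρ / dist x y) (y := (2 : ℝ))
    (by rwa [one_le_div₀ h0]) one_lt_two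
  refine le_trans (ENNReal.ofReal_le_ofReal ?_) (eg_D_ge x _ _ y n ?_)
  · rw [div_lt_iff₀ h0] at hn2
    rw [div_le_div_iff₀ h0 hρ]
    linarith
  · rw [le_div_iff₀ h0] at hn1
    rw [le_div_iff₀ (by positivity)]
    linarith

theorem eg_far_pt (x y : E2) (ρ : ℝ) (hρ : 0 < ρ) (h1 : ρ ≤ dist x y) :
    ENNReal.ofReal (1 / dist x y ^ 2) ≤
      eg_D x (fun k => 1 / (4 ^ k * ρ ^ 2)) (fun k => 2 ^ (k + 1) * ρ) y := by
  have h0 : 0 < dist x y := hρ.trans_le h1
  obtain ⟨n, hn1, hn2⟩ := exists_nat_pow_near (x := dist x y / ρ) (y := (2 : ℝ))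
    (by rwa [one_le_div₀ hρ]) one_lt_two
  refine le_trans (ENNReal.ofReal_le_ofReal ?_) (eg_D_ge x _ _ y n ?_)
  · rw [le_div_iff₀ hρ] at hn1
    refine one_div_le_one_div_of_le (by positivity) ?_
    have : (4 : ℝ) ^ n * ρ ^ 2 = (2 ^ n * ρ) ^ 2 := by
      rw [mul_pow, ← pow_mul, mul_comm n 2, pow_mul]; norm_num
    rw [this]
    exact pow_le_pow_left₀ (by positivity) hn1 2
  · rw [div_lt_iff₀ hρ] at hn2
    exact hn2.le

theorem eg_integral_le {α : Type*} [MeasurableSpace α] (ν : Measure α) (f : α → ℝ)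
    (hf : Integrable f ν) (A : ℝ) (hA : 0 ≤ A) (h : ∫⁻ a, ENNReal.ofReal (f a) ∂ν ≤ ENNReal.ofReal A) :
    ∫ a, f a ∂ν ≤ A := by
  rw [integral_eq_lintegral_pos_part_sub_lintegral_neg_part hf]
  have h1 : (∫⁻ a, ENNReal.ofReal (f a) ∂ν).toReal ≤ A := by
    rw [← ENNReal.toReal_ofReal hA]
    exact ENNReal.toReal_mono ENNReal.ofReal_ne_top h
  have h2 : 0 ≤ (∫⁻ a, ENNReal.ofReal (-f a) ∂ν).toReal := ENNReal.toReal_nonneg
  linarith

theorem eg_prod_le (μ : Measure E2) [IsProbabilityMeasure μ] (f : E2 × E2 → ℝ)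
    (hf : Integrable f (μ.prod μ)) (A : ℝ) (hA : 0 ≤ A)
    (h : ∀ x, ∫⁻ y, ENNReal.ofReal (f (x, y)) ∂μ ≤ ENNReal.ofReal A) :
    ∫ p, f p ∂(μ.prod μ) ≤ A := by
  refine eg_integral_le _ f hf A hA ?_
  rw [lintegral_prod _ hf.aestronglyMeasurable.aemeasurable.ennreal_ofReal]
  calc ∫⁻ x, ∫⁻ y, ENNReal.ofReal (f (x, y)) ∂μ ∂μ ≤ ∫⁻ _x, ENNReal.ofReal A ∂μ :=
        lintegral_mono fun x => h x
    _ = ENNReal.ofReal A := by simp

theorem eg_J_nonneg {δ : ℝ} (hδ : 0 < δ) (p : E2 × E2) : 0 ≤ eg_J δ p := by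
  unfold eg_J
  refine intervalIntegral.integral_nonneg (by norm_num) fun t _ => ?_
  exact mul_nonneg (ta_chi_nonneg _) (ta_tent_nonneg hδ _)

theorem eg_line_ii (δ : ℝ) (p : E2 × E2) : IntervalIntegrable
    (fun t => chi t * tent δ ((p.1 1 - p.2 1) - t * (p.1 0 - p.2 0))) volume (-4 : ℝ) 4 := by
  refine Continuous.intervalIntegrable ?_ _ _
  exact ta_chi_cont.mul ((ta_tent_cont δ).comp (by fun_prop))

theorem GG_avg (μ : Measure E2) [IsProbabilityMeasure μ] (R C s : ℝ)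
    (hR : ∀ᵐ x ∂μ, ‖x‖ ≤ R) (hC : 0 < C) (hs : 1 < s) (hs2 : s < 2)
    (hμ : ∀ (x : E2) (r : ℝ), 0 < r → μ (closedBall x r) ≤ ENNReal.ofReal (C * r ^ s)) :
    ∃ C' : ℝ, 0 < C' ∧ (∀ δ : ℝ, 0 < δ → δ ≤ 1 →
        ∫ t in (-4 : ℝ)..4, chi t * GG μ δ t ≤ C') ∧
      ∀ δ w : ℝ, 0 < δ → δ ≤ w → w ≤ 1 →
        ∫ t in (-4 : ℝ)..4, chi t * (GG μ δ t - GG μ w t) ≤ C' * w ^ (s - 1) := by
  obtain ⟨C0, hC0, hav⟩ := tent_avg_le
  obtain ⟨C1, hC1, hdf⟩ := tent_avg_diff
  set N : ℝ := 2 * C / (1 - (2 : ℝ) ^ (1 - s)) with hN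
  set M : ℝ := C * 2 ^ s / (1 - (2 : ℝ) ^ (s - 2)) with hM
  have hN0 : 0 < N := by
    have : (2 : ℝ) ^ (1 - s) < 1 := Real.rpow_lt_one_of_one_lt_of_neg one_lt_two (by linarith)
    rw [hN]
    exact div_pos (by linarith) (by linarith)
  have hM0 : 0 < M := by
    have : (2 : ℝ) ^ (s - 2) < 1 := Real.rpow_lt_one_of_one_lt_of_neg one_lt_two (by linarith)
    rw [hM]
    exact div_pos (mul_pos hC (Real.rpow_pos_of_pos two_pos _)) (by linarith)
  have hae : ∀ x : E2, ∀ᵐ y ∂μ, 0 < dist x y := by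
    intro x
    have h1 := eg_atom μ C s (by linarith) hμ x
    have h2 : ∀ᵐ y ∂μ, y ∉ ({x} : Set E2) := measure_eq_zero_iff_ae_notMem.mp h1
    filter_upwards [h2] with y hy
    refine dist_pos.mpr fun h => hy ?_
    rw [mem_singleton_iff, h]
  -- bound for J
  have hJ : ∀ δ : ℝ, 0 < δ → ∀ x y : E2, 0 < dist x y → eg_J δ (x, y) ≤ C0 / dist x y := by
    intro δ hδ x y hxy
    have h1 : 0 < (x 0 - y 0) ^ 2 + (x 1 - y 1) ^ 2 := by
      rw [← Real.sqrt_pos]
      have := eg_dist (x, y)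
      simp only at this
      rw [this]; exact hxy
    have h2 := hav δ (x 0 - y 0) (x 1 - y 1) hδ h1
    have h3 := eg_dist (x, y)
    simp only at h3
    rw [h3] at h2
    exact h2
  have hJd : ∀ δ w : ℝ, 0 < δ → δ ≤ w → ∀ x y : E2, 8 * w ≤ dist x y →
      eg_J δ (x, y) - eg_J w (x, y) ≤ C1 * w * (1 / dist x y ^ 2) := by
    intro δ w hδ hδw x y hxy
    have h3 := eg_dist (x, y)
    simp only at h3
    have h2 := hdf δ w (x 0 - y 0) (x 1 - y 1) hδ hδw (by rw [h3]; exact hxy)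
    have h4 : (x 0 - y 0) ^ 2 + (x 1 - y 1) ^ 2 = dist x y ^ 2 := by
      rw [← h3, Real.sq_sqrt (by positivity)]
    rw [h4] at h2
    have h5 : eg_J δ (x, y) - eg_J w (x, y) =
        ∫ t in (-4 : ℝ)..4, chi t * (tent δ ((x 1 - y 1) - t * (x 0 - y 0)) -
          tent w ((x 1 - y 1) - t * (x 0 - y 0))) := by
      unfold eg_J
      rw [← intervalIntegral.integral_sub (eg_line_ii δ (x, y)) (eg_line_ii w (x, y))]
      refine intervalIntegral.integral_congr fun t _ => ?_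
      simp only
      ring
    rw [h5]
    refine (le_abs_self _).trans (h2.trans (le_of_eq ?_))
    ring
  set A1 : ℝ := C0 * N * 1 ^ (s - 1) + C0 with hA1
  set A2 : ℝ := C0 * (N * 8 ^ (s - 1)) + C1 * (M * 8 ^ (s - 2)) with hA2
  have hA1p : 0 < A1 := by positivity
  have hA2p : 0 < A2 := by positivity
  refine ⟨max A1 A2, lt_of_lt_of_le hA1p (le_max_left _ _), ?_, ?_⟩
  · intro δ hδ _
    rw [eg_swap μ hδ]
    refine le_trans ?_ (le_max_left _ _)
    refine eg_prod_le μ _ (eg_J_integrable μ hδ) A1 hA1p.le fun x => ?_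
    have hpt : ∀ᵐ y ∂μ, ENNReal.ofReal (eg_J δ (x, y)) ≤
        ENNReal.ofReal C0 * eg_D x (fun k => 2 ^ (k + 1) / 1) (fun k => 1 / 2 ^ k) y +
          ENNReal.ofReal C0 := by
      filter_upwards [hae x] with y hy
      rcases le_or_gt (dist x y) 1 with h1 | h1
      · refine le_trans ?_ le_self_add
        refine le_trans (ENNReal.ofReal_le_ofReal (hJ δ hδ x y hy)) ?_
        rw [div_eq_mul_one_div, ENNReal.ofReal_mul hC0.le]
        gcongr
        exact eg_near_pt x y 1 one_pos hy h1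
      · refine le_trans ?_ le_add_self
        refine ENNReal.ofReal_le_ofReal ((hJ δ hδ x y hy).trans ?_)
        rw [div_le_iff₀ hy]
        nlinarith
    refine le_trans (lintegral_mono_ae hpt) ?_
    rw [lintegral_add_right _ measurable_const, lintegral_const_mul _ (eg_D_meas _ _ _),
      lintegral_const, measure_univ, mul_one]
    have h4 := (eg_D_int μ C s hμ x (fun k => 2 ^ (k + 1) / 1) (fun k => 1 / 2 ^ k)
      (fun k => by positivity) (fun k => by positivity)).trans (eg_near_sum C s 1 hC hs one_pos)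
    rw [hA1, ENNReal.ofReal_add (by positivity) hC0.le]
    gcongr
    rw [mul_assoc, ENNReal.ofReal_mul hC0.le]
    gcongr
  · intro δ w hδ hδw _
    have hw : 0 < w := hδ.trans_le hδw
    have h0 : ∫ t in (-4 : ℝ)..4, chi t * (GG μ δ t - GG μ w t) =
        ∫ p, (eg_J δ p - eg_J w p) ∂(μ.prod μ) := by
      rw [integral_sub (eg_J_integrable μ hδ) (eg_J_integrable μ hw), ← eg_swap μ hδ, ← eg_swap μ hw,
        ← intervalIntegral.integral_sub (eg_GG_intervalIntegrable μ hδ)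
          (eg_GG_intervalIntegrable μ hw)]
      refine intervalIntegral.integral_congr fun t _ => ?_
      ring
    rw [h0]
    have hwp : 0 < w ^ (s - 1) := Real.rpow_pos_of_pos hw _
    refine le_trans ?_ (mul_le_mul_of_nonneg_right (le_max_right A1 A2) hwp.le)
    refine eg_prod_le μ _ ((eg_J_integrable μ hδ).sub (eg_J_integrable μ hw)) _
      (mul_nonneg hA2p.le hwp.le) fun x => ?_
    have h8 : 0 < 8 * w := by linarith
    have hpt : ∀ᵐ y ∂μ, ENNReal.ofReal (eg_J δ (x, y) - eg_J w (x, y)) ≤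
        ENNReal.ofReal C0 * eg_D x (fun k => 2 ^ (k + 1) / (8 * w)) (fun k => (8 * w) / 2 ^ k) y +
          ENNReal.ofReal (C1 * w) *
          eg_D x (fun k => 1 / (4 ^ k * (8 * w) ^ 2)) (fun k => 2 ^ (k + 1) * (8 * w)) y := by
      filter_upwards [hae x] with y hy
      rcases le_or_gt (8 * w) (dist x y) with h1 | h1
      · refine le_trans ?_ le_add_self
        refine le_trans (ENNReal.ofReal_le_ofReal (hJd δ w hδ hδw x y h1)) ?_
        rw [ENNReal.ofReal_mul (by positivity)]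
        gcongr
        exact eg_far_pt x y (8 * w) h8 h1
      · refine le_trans ?_ le_self_add
        have h2 : eg_J δ (x, y) - eg_J w (x, y) ≤ C0 * (1 / dist x y) := by
          have := hJ δ hδ x y hy
          have := eg_J_nonneg hw (x, y)
          rw [mul_one_div]
          linarith
        refine le_trans (ENNReal.ofReal_le_ofReal h2) ?_
        rw [ENNReal.ofReal_mul hC0.le]
        gcongr
        exact eg_near_pt x y (8 * w) h8 hy h1.le
    refine le_trans (lintegral_mono_ae hpt) ?_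
    rw [lintegral_add_left ((eg_D_meas _ _ _).const_mul _), lintegral_const_mul _ (eg_D_meas _ _ _),
      lintegral_const_mul _ (eg_D_meas _ _ _)]
    have h4 := (eg_D_int μ C s hμ x (fun k => 2 ^ (k + 1) / (8 * w)) (fun k => (8 * w) / 2 ^ k)
      (fun k => by positivity) (fun k => by positivity)).trans (eg_near_sum C s (8 * w) hC hs h8)
    have h5 := (eg_D_int μ C s hμ x (fun k => 1 / (4 ^ k * (8 * w) ^ 2))
      (fun k => 2 ^ (k + 1) * (8 * w))
      (fun k => by positivity) (fun k => by positivity)).trans (eg_far_sum C s (8 * w) hC hs2 h8)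
    have e1 : A2 * w ^ (s - 1) = C0 * (N * (8 * w) ^ (s - 1)) + C1 * w * (M * (8 * w) ^ (s - 2)) := by
      rw [hA2, Real.mul_rpow (by norm_num) hw.le, Real.mul_rpow (by norm_num) hw.le]
      have : w ^ (s - 1) = w * w ^ (s - 2) := by
        rw [← Real.rpow_one_add' hw.le (by linarith)]
        congr 1
        ring
      rw [this]
      ring
    rw [e1, ENNReal.ofReal_add (by positivity) (by positivity), ENNReal.ofReal_mul hC0.le,
      ENNReal.ofReal_mul (by positivity : 0 ≤ C1 * w)]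
    gcongr

end Pool.Agent.H744R2.Falc
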