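import Pool.Agent.H744R2.Falc.Defs
import Pool.Agent.H744R2.Falc.Gauss

set_option autoImplicit false

/-! A4b: the pinned Fourier bound. -/

namespace Pool.Agent.H744R2.Falc

open MeasureTheory Set Metric

section pin

variable {V : Type*} [NormedAddCommGroup V] [InnerProductSpace ℝ V]

/-- character -/
noncomputable def A4b_e (x ξ : V) : ℂ := Complex.exp (-(Complex.I * ((inner ℝ x ξ : ℝ) : ℂ)))

theorem A4b_norm_e (x ξ : V) : ‖A4b_e x ξ‖ = 1 := by
  unfold A4b_e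
  rw [show -(Complex.I * ((inner ℝ x ξ : ℝ) : ℂ)) = ((-(inner ℝ x ξ) : ℝ) : ℂ) * Complex.I by
    push_cast; ring]
  exact Complex.norm_exp_ofReal_mul_I _

theorem A4b_e_cont : Continuous (fun p : V × V => A4b_e p.1 p.2) := by
  unfold A4b_e
  fun_prop

/-- Gaussian -/
noncomputable def A4b_g (b : ℝ) (v : V) : ℝ := Real.exp (-(b * ‖v‖ ^ 2))

theorem A4b_g_cont (b : ℝ) : Continuous (A4b_g b : V → ℝ) := by
  unfold A4b_g
  fun_prop

theorem A4b_g_pos (b : ℝ) (v : V) : 0 < A4b_g b v := Real.exp_pos _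

variable [MeasurableSpace V] [BorelSpace V] [FiniteDimensional ℝ V]

theorem A4b_g_int {b : ℝ} (hb : 0 < b) : Integrable (A4b_g b : V → ℝ) := by
  have h := GaussianFourier.integrable_cexp_neg_mul_sq_norm_add (V := V) (b := (b : ℂ))
    (by simpa using hb) 0 0
  have h2 := h.norm
  refine h2.congr (Filter.Eventually.of_forall fun v => ?_)
  simp only [A4b_g, Complex.norm_exp]
  congr 1
  have : (-(b : ℂ) * (‖v‖ : ℂ) ^ 2 + 0 * ((inner ℝ (0 : V) v : ℝ) : ℂ)) = ((-(b * ‖v‖ ^ 2) : ℝ) : ℂ) := by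
    push_cast; ring
  rw [this, Complex.ofReal_re]

theorem A4b_g_integral {b : ℝ} (hb : 0 < b) :
    ∫ v : V, A4b_g b v = (Real.pi / b) ^ ((Module.finrank ℝ V : ℝ) / 2) := by
  rw [← GaussianFourier.integral_rexp_neg_mul_sq_norm hb]
  simp only [A4b_g, neg_mul]

theorem A4b_kernel {b : ℝ} (hb : 0 < b) (x η : V) :
    ∫ ξ : V, (A4b_g b (ξ - η) : ℂ) * A4b_e x ξ =
      (((Real.pi / b) ^ ((Module.finrank ℝ V : ℝ) / 2) : ℝ) : ℂ) * (A4b_g (1 / (4 * b)) x : ℂ) *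
        A4b_e x η := by
  have h1 : ∫ ξ : V, (A4b_g b (ξ - η) : ℂ) * A4b_e x ξ =
      ∫ ξ : V, (fun v => (A4b_g b v : ℂ) * A4b_e x (v + η)) (ξ - η) := by
    refine integral_congr_ae (Filter.Eventually.of_forall fun ξ => ?_)
    simp only [sub_add_cancel]
  rw [h1, integral_sub_right_eq_self (fun v => (A4b_g b v : ℂ) * A4b_e x (v + η)) η]
  have h2 : ∀ v : V, (A4b_g b v : ℂ) * A4b_e x (v + η) = A4b_e x η *
      Complex.exp (-(b : ℂ) * (‖v‖ : ℂ) ^ 2 + (-Complex.I) * ((inner ℝ x v : ℝ) : ℂ)) := by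
    intro v
    unfold A4b_g A4b_e
    rw [Complex.ofReal_exp, ← Complex.exp_add, ← Complex.exp_add, inner_add_right]
    congr 1
    push_cast
    ring
  simp only [h2]
  rw [integral_const_mul, GaussianFourier.integral_cexp_neg_mul_sq_norm_add
    (by simpa using hb) (-Complex.I) x]
  have h3 : ((Real.pi : ℂ) / (b : ℂ)) ^ ((Module.finrank ℝ V : ℂ) / 2) =
      (((Real.pi / b) ^ ((Module.finrank ℝ V : ℝ) / 2) : ℝ) : ℂ) := by
    rw [Complex.ofReal_cpow (by positivity)]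
    push_cast
    rfl
  have h4 : Complex.exp ((-Complex.I) ^ 2 * (‖x‖ : ℂ) ^ 2 / (4 * (b : ℂ))) =
      (A4b_g (1 / (4 * b)) x : ℂ) := by
    unfold A4b_g
    rw [Complex.ofReal_exp]
    congr 1
    rw [neg_sq, Complex.I_sq]
    push_cast
    ring
  rw [h3, h4]
  ring

omit [InnerProductSpace ℝ V] [BorelSpace V] [FiniteDimensional ℝ V] in
theorem A4b_jensen {ν : Measure V} (w f : V → ℝ) (hw : Integrable w ν) (hw0 : ∀ v, 0 ≤ w v)
    (hf : Measurable f) (A : ℝ) (hA : ∀ v, |f v| ≤ A) (hW : 0 < ∫ v, w v ∂ν) :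
    (∫ v, w v * f v ∂ν) ^ 2 ≤ (∫ v, w v ∂ν) * ∫ v, w v * f v ^ 2 ∂ν := by
  set W := ∫ v, w v ∂ν with hWd
  have i1 : Integrable (fun v => w v * f v) ν := by
    refine (hw.mul_const A).mono' (hw.1.mul hf.aestronglyMeasurable)
      (Filter.Eventually.of_forall fun v => ?_)
    rw [Real.norm_eq_abs, abs_mul, abs_of_nonneg (hw0 v)]
    exact mul_le_mul_of_nonneg_left (hA v) (hw0 v)
  have i2 : Integrable (fun v => w v * f v ^ 2) ν := by
    refine (hw.mul_const (A ^ 2)).mono' (hw.1.mul (hf.pow_const 2).aestronglyMeasurable)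
      (Filter.Eventually.of_forall fun v => ?_)
    rw [Real.norm_eq_abs, abs_mul, abs_of_nonneg (hw0 v), abs_pow]
    exact mul_le_mul_of_nonneg_left (pow_le_pow_left₀ (abs_nonneg _) (hA v) 2) (hw0 v)
  set m := (∫ v, w v * f v ∂ν) / W with hm
  have h0 : 0 ≤ ∫ v, w v * (f v - m) ^ 2 ∂ν :=
    integral_nonneg fun v => mul_nonneg (hw0 v) (sq_nonneg _)
  have h1 : ∫ v, w v * (f v - m) ^ 2 ∂ν =
      (∫ v, w v * f v ^ 2 ∂ν) - 2 * m * (∫ v, w v * f v ∂ν) + m ^ 2 * W := by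
    have : ∀ v, w v * (f v - m) ^ 2 = w v * f v ^ 2 - (2 * m) * (w v * f v) + m ^ 2 * w v := by
      intro v; ring
    simp only [this]
    have e1 : ∫ v, (w v * f v ^ 2 - (2 * m) * (w v * f v)) + m ^ 2 * w v ∂ν =
        (∫ v, (w v * f v ^ 2 - (2 * m) * (w v * f v)) ∂ν) + ∫ v, m ^ 2 * w v ∂ν :=
      integral_add (i2.sub (i1.const_mul (2 * m))) (hw.const_mul (m ^ 2))
    have e2 : ∫ v, (w v * f v ^ 2 - (2 * m) * (w v * f v)) ∂ν =
        (∫ v, w v * f v ^ 2 ∂ν) - ∫ v, (2 * m) * (w v * f v) ∂ν :=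
      integral_sub i2 (i1.const_mul (2 * m))
    rw [e1, e2, integral_const_mul, integral_const_mul]
  rw [h1] at h0
  have h2 : (∫ v, w v * f v ∂ν) = m * W := by
    rw [hm, div_mul_cancel₀ _ hW.ne']
  rw [h2] at h0 ⊢
  nlinarith

/-- Fourier transform of the measure `c μ` -/
noncomputable def A4b_Phi (μ : Measure V) (c : V → ℂ) (ξ : V) : ℂ := ∫ x, c x * A4b_e x ξ ∂μ

theorem A4b_meas {c : V → ℂ} (hc : Measurable c) :
    Measurable (fun p : V × V => c p.1 * A4b_e p.1 p.2) :=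
  (hc.comp measurable_fst).mul A4b_e_cont.measurable

variable (μ : Measure V) [IsProbabilityMeasure μ]

theorem A4b_Phi_meas {c : V → ℂ} (hc : Measurable c) : Measurable (A4b_Phi μ c) := by
  have h := (A4b_meas hc).stronglyMeasurable
  exact (h.integral_prod_left' (μ := μ)).measurable

omit [FiniteDimensional ℝ V] [BorelSpace V] in
theorem A4b_Phi_norm {c : V → ℂ} {A : ℝ} (hA : ∀ x, ‖c x‖ ≤ A) (ξ : V) : ‖A4b_Phi μ c ξ‖ ≤ A := by
  have h := norm_integral_le_of_norm_le_const (μ := μ) (f := fun x => c x * A4b_e x ξ) (C := A)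
    (Filter.Eventually.of_forall fun x => by
      rw [norm_mul, A4b_norm_e, mul_one]; exact hA x)
  simpa [A4b_Phi] using h

/-- dominated integrability on the product -/
theorem A4b_prod_int {F' : Type*} [NormedAddCommGroup F'] {F : V × V → F'}
    (hF : AEStronglyMeasurable F (μ.prod volume)) {G : V → ℝ}
    (hG : Integrable G) (B : ℝ) (h : ∀ p, ‖F p‖ ≤ B * G p.2) : Integrable F (μ.prod volume) := by
  have h1 : Integrable (fun p : V × V => B * G p.2) (μ.prod volume) :=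
    Integrable.mul_prod (integrable_const B) hG
  exact h1.mono' hF (Filter.Eventually.of_forall h)

theorem A4b_rep {b : ℝ} (hb : 0 < b) {c : V → ℂ} (hc : Measurable c) {A : ℝ}
    (hA : ∀ x, ‖c x‖ ≤ A) (η : V) :
    ∫ ξ, (A4b_g b (ξ - η) : ℂ) * A4b_Phi μ c ξ =
      (((Real.pi / b) ^ ((Module.finrank ℝ V : ℝ) / 2) : ℝ) : ℂ) *
        ∫ x, c x * (A4b_g (1 / (4 * b)) x : ℂ) * A4b_e x η ∂μ := by
  have hmeas : Measurable (fun p : V × V => (A4b_g b (p.2 - η) : ℂ) * (c p.1 * A4b_e p.1 p.2)) := by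
    refine Measurable.mul ?_ (A4b_meas hc)
    exact Complex.measurable_ofReal.comp ((A4b_g_cont b).measurable.comp
      (measurable_snd.sub_const η))
  have hint : Integrable (Function.uncurry fun x ξ : V => (A4b_g b (ξ - η) : ℂ) *
      (c x * A4b_e x ξ)) (μ.prod volume) := by
    refine A4b_prod_int μ hmeas.aestronglyMeasurable ((A4b_g_int hb).comp_sub_right η) A
      (fun p => ?_)
    rw [Function.uncurry, norm_mul, norm_mul, A4b_norm_e, mul_one, Complex.norm_real,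
      Real.norm_eq_abs, abs_of_pos (A4b_g_pos _ _), mul_comm]
    exact mul_le_mul_of_nonneg_right (hA _) (A4b_g_pos _ _).le
  have hswap := integral_integral_swap hint
  calc ∫ ξ, (A4b_g b (ξ - η) : ℂ) * A4b_Phi μ c ξ
      = ∫ ξ, ∫ x, (A4b_g b (ξ - η) : ℂ) * (c x * A4b_e x ξ) ∂μ := by
        refine integral_congr_ae (Filter.Eventually.of_forall fun ξ => ?_)
        simp only [A4b_Phi]
        rw [integral_const_mul]
    _ = ∫ x, (∫ ξ, (A4b_g b (ξ - η) : ℂ) * (c x * A4b_e x ξ)) ∂μ := hswap.symm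
    _ = ∫ x, (((Real.pi / b) ^ ((Module.finrank ℝ V : ℝ) / 2) : ℝ) : ℂ) *
          (c x * (A4b_g (1 / (4 * b)) x : ℂ) * A4b_e x η) ∂μ := by
        refine integral_congr_ae (Filter.Eventually.of_forall fun x => ?_)
        simp only
        have h1 : ∀ ξ : V, (A4b_g b (ξ - η) : ℂ) * (c x * A4b_e x ξ) =
            c x * ((A4b_g b (ξ - η) : ℂ) * A4b_e x ξ) := fun ξ => by ring
        simp only [h1]
        rw [integral_const_mul, A4b_kernel hb]
        ring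
    _ = _ := by rw [integral_const_mul]

theorem A4b_e_conj (x ξ : V) : (starRingEnd ℂ) (A4b_e x ξ) = A4b_e (-x) ξ := by
  unfold A4b_e
  rw [← Complex.exp_conj, inner_neg_left]
  congr 1
  simp

theorem A4b_e_mul (x y ξ : V) : A4b_e x ξ * A4b_e y ξ = A4b_e (x + y) ξ := by
  unfold A4b_e
  rw [← Complex.exp_add, inner_add_left]
  congr 1
  push_cast
  ring

theorem A4b_e_zero (x : V) : A4b_e x 0 = 1 := by
  simp [A4b_e]

theorem A4b_inner {b : ℝ} (hb : 0 < b) {c : V → ℂ} (hc : Measurable c) {A : ℝ}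
    (hA : ∀ x, ‖c x‖ ≤ A) (D : ℝ) (hD : ∀ x, ∫ x', A4b_g (1 / (4 * b)) (x - x') ∂μ ≤ D) (x : V) :
    ‖∫ ξ, (A4b_g b ξ : ℂ) * (starRingEnd ℂ) (A4b_Phi μ c ξ) * A4b_e x ξ‖ ≤
      A * ((Real.pi / b) ^ ((Module.finrank ℝ V : ℝ) / 2)) * D := by
  set W : ℝ := (Real.pi / b) ^ ((Module.finrank ℝ V : ℝ) / 2) with hW
  have hW0 : 0 ≤ W := by positivity
  have hA0 : 0 ≤ A := (norm_nonneg _).trans (hA 0)
  have hcm : Measurable (fun p : V × V => (starRingEnd ℂ) (c p.1)) :=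
    Complex.continuous_conj.measurable.comp (hc.comp measurable_fst)
  have hmeas : Measurable (fun p : V × V => (A4b_g b p.2 : ℂ) *
      ((starRingEnd ℂ) (c p.1) * A4b_e (x - p.1) p.2)) := by
    refine Measurable.mul ?_ (hcm.mul ?_)
    · exact Complex.measurable_ofReal.comp ((A4b_g_cont b).measurable.comp measurable_snd)
    · have : Continuous (fun p : V × V => A4b_e (x - p.1) p.2) :=
        A4b_e_cont.comp (by fun_prop : Continuous fun p : V × V => (x - p.1, p.2))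
      exact this.measurable
  have hint : Integrable (Function.uncurry fun x' ξ : V => (A4b_g b ξ : ℂ) *
      ((starRingEnd ℂ) (c x') * A4b_e (x - x') ξ)) (μ.prod volume) := by
    refine A4b_prod_int μ hmeas.aestronglyMeasurable (A4b_g_int hb) A (fun p => ?_)
    rw [Function.uncurry, norm_mul, norm_mul, A4b_norm_e, mul_one, Complex.norm_real,
      Real.norm_eq_abs, abs_of_pos (A4b_g_pos _ _), RCLike.norm_conj, mul_comm]
    exact mul_le_mul_of_nonneg_right (hA _) (A4b_g_pos _ _).le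
  have hswap := integral_integral_swap hint
  have h1 : ∫ ξ, (A4b_g b ξ : ℂ) * (starRingEnd ℂ) (A4b_Phi μ c ξ) * A4b_e x ξ =
      ∫ x', (starRingEnd ℂ) (c x') * ((W : ℂ) * (A4b_g (1 / (4 * b)) (x - x') : ℂ)) ∂μ := by
    calc ∫ ξ, (A4b_g b ξ : ℂ) * (starRingEnd ℂ) (A4b_Phi μ c ξ) * A4b_e x ξ
        = ∫ ξ, ∫ x', (A4b_g b ξ : ℂ) * ((starRingEnd ℂ) (c x') * A4b_e (x - x') ξ) ∂μ := by
          refine integral_congr_ae (Filter.Eventually.of_forall fun ξ => ?_)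
          simp only [A4b_Phi]
          rw [← integral_conj, mul_assoc, ← integral_mul_const, ← integral_const_mul]
          refine integral_congr_ae (Filter.Eventually.of_forall fun x' => ?_)
          simp only
          rw [map_mul, A4b_e_conj, sub_eq_add_neg, ← A4b_e_mul]
          ring
      _ = ∫ x', (∫ ξ, (A4b_g b ξ : ℂ) * ((starRingEnd ℂ) (c x') * A4b_e (x - x') ξ)) ∂μ :=
          hswap.symm
      _ = _ := by
          refine integral_congr_ae (Filter.Eventually.of_forall fun x' => ?_)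
          simp only
          have h1 : ∀ ξ : V, (A4b_g b ξ : ℂ) * ((starRingEnd ℂ) (c x') * A4b_e (x - x') ξ) =
              (starRingEnd ℂ) (c x') * ((A4b_g b (ξ - 0) : ℂ) * A4b_e (x - x') ξ) := fun ξ => by
            rw [sub_zero]; ring
          simp only [h1]
          rw [integral_const_mul, A4b_kernel hb, A4b_e_zero, mul_one]
  rw [h1]
  have hgi : Integrable (fun x' => A4b_g (1 / (4 * b)) (x - x')) μ := by
    have hcont : Continuous (fun x' : V => A4b_g (1 / (4 * b)) (x - x')) :=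
      (A4b_g_cont _).comp (continuous_const.sub continuous_id)
    refine (integrable_const (1 : ℝ)).mono' hcont.aestronglyMeasurable
      (Filter.Eventually.of_forall fun x' => ?_)
    rw [Real.norm_eq_abs, abs_of_pos (A4b_g_pos _ _)]
    unfold A4b_g
    rw [Real.exp_le_one_iff]
    have : 0 ≤ 1 / (4 * b) * ‖x - x'‖ ^ 2 := by positivity
    linarith
  calc ‖∫ x', (starRingEnd ℂ) (c x') * ((W : ℂ) * (A4b_g (1 / (4 * b)) (x - x') : ℂ)) ∂μ‖
      ≤ ∫ x', (A * W) * A4b_g (1 / (4 * b)) (x - x') ∂μ := by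
        refine norm_integral_le_of_norm_le (hgi.const_mul _) (Filter.Eventually.of_forall fun x' => ?_)
        rw [norm_mul, norm_mul, RCLike.norm_conj, Complex.norm_real, Complex.norm_real,
          Real.norm_eq_abs, Real.norm_eq_abs, abs_of_nonneg hW0, abs_of_pos (A4b_g_pos _ _),
          ← mul_assoc]
        exact mul_le_mul_of_nonneg_right (mul_le_mul_of_nonneg_right (hA _) hW0) (A4b_g_pos _ _).le
    _ = (A * W) * ∫ x', A4b_g (1 / (4 * b)) (x - x') ∂μ := integral_const_mul _ _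
    _ ≤ A * W * D := mul_le_mul_of_nonneg_left (hD x) (by positivity)

theorem A4b_J {b : ℝ} (hb : 0 < b) {c : V → ℂ} (hc : Measurable c) {A : ℝ}
    (hA : ∀ x, ‖c x‖ ≤ A) (D : ℝ) (hD : ∀ x, ∫ x', A4b_g (1 / (4 * b)) (x - x') ∂μ ≤ D) :
    ∫ ξ, A4b_g b ξ * ‖A4b_Phi μ c ξ‖ ^ 2 ≤
      A * (A * ((Real.pi / b) ^ ((Module.finrank ℝ V : ℝ) / 2)) * D) := by
  have hA0 : 0 ≤ A := (norm_nonneg _).trans (hA 0)
  have hΦm := A4b_Phi_meas μ hc
  have hmeas : Measurable (fun p : V × V => (A4b_g b p.2 : ℂ) *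
      (starRingEnd ℂ) (A4b_Phi μ c p.2) * (c p.1 * A4b_e p.1 p.2)) := by
    refine Measurable.mul (Measurable.mul ?_ ?_) (A4b_meas hc)
    · exact Complex.measurable_ofReal.comp ((A4b_g_cont b).measurable.comp measurable_snd)
    · exact Complex.continuous_conj.measurable.comp (hΦm.comp measurable_snd)
  have hint : Integrable (Function.uncurry fun x ξ : V => (A4b_g b ξ : ℂ) *
      (starRingEnd ℂ) (A4b_Phi μ c ξ) * (c x * A4b_e x ξ)) (μ.prod volume) := by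
    refine A4b_prod_int μ hmeas.aestronglyMeasurable (A4b_g_int hb) (A * A) (fun p => ?_)
    rw [Function.uncurry, norm_mul, norm_mul, norm_mul, A4b_norm_e, mul_one, Complex.norm_real,
      Real.norm_eq_abs, abs_of_pos (A4b_g_pos _ _), RCLike.norm_conj]
    have h1 := mul_le_mul (A4b_Phi_norm μ hA p.2) (hA p.1) (norm_nonneg _) hA0
    have h2 := (A4b_g_pos b p.2).le
    calc A4b_g b p.2 * ‖A4b_Phi μ c p.2‖ * ‖c p.1‖ = (‖A4b_Phi μ c p.2‖ * ‖c p.1‖) * A4b_g b p.2 := by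
          ring
      _ ≤ _ := mul_le_mul_of_nonneg_right h1 h2
  have hswap := integral_integral_swap hint
  have h1 : ((∫ ξ, A4b_g b ξ * ‖A4b_Phi μ c ξ‖ ^ 2 : ℝ) : ℂ) =
      ∫ x, c x * (∫ ξ, (A4b_g b ξ : ℂ) * (starRingEnd ℂ) (A4b_Phi μ c ξ) * A4b_e x ξ) ∂μ := by
    rw [← integral_complex_ofReal]
    calc ∫ ξ, ((A4b_g b ξ * ‖A4b_Phi μ c ξ‖ ^ 2 : ℝ) : ℂ)
        = ∫ ξ, ∫ x, (A4b_g b ξ : ℂ) * (starRingEnd ℂ) (A4b_Phi μ c ξ) * (c x * A4b_e x ξ) ∂μ := by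
          refine integral_congr_ae (Filter.Eventually.of_forall fun ξ => ?_)
          simp only
          rw [integral_const_mul]
          change _ = (A4b_g b ξ : ℂ) * (starRingEnd ℂ) (A4b_Phi μ c ξ) * A4b_Phi μ c ξ
          rw [mul_assoc, ← Complex.normSq_eq_conj_mul_self, Complex.normSq_eq_norm_sq]
          push_cast
          ring
      _ = ∫ x, (∫ ξ, (A4b_g b ξ : ℂ) * (starRingEnd ℂ) (A4b_Phi μ c ξ) * (c x * A4b_e x ξ)) ∂μ :=
          hswap.symm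
      _ = _ := by
          refine integral_congr_ae (Filter.Eventually.of_forall fun x => ?_)
          simp only
          rw [← integral_const_mul]
          refine integral_congr_ae (Filter.Eventually.of_forall fun ξ => ?_)
          simp only
          ring
  have h2 : 0 ≤ ∫ ξ, A4b_g b ξ * ‖A4b_Phi μ c ξ‖ ^ 2 :=
    integral_nonneg fun ξ => mul_nonneg (A4b_g_pos _ _).le (sq_nonneg _)
  have h3 : ∫ ξ, A4b_g b ξ * ‖A4b_Phi μ c ξ‖ ^ 2 =
      ‖∫ x, c x * (∫ ξ, (A4b_g b ξ : ℂ) * (starRingEnd ℂ) (A4b_Phi μ c ξ) * A4b_e x ξ) ∂μ‖ := by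
    rw [← h1, Complex.norm_real, Real.norm_eq_abs, abs_of_nonneg h2]
  rw [h3]
  refine (norm_integral_le_of_norm_le_const (μ := μ)
    (C := A * (A * ((Real.pi / b) ^ ((Module.finrank ℝ V : ℝ) / 2)) * D))
    (Filter.Eventually.of_forall fun x => ?_)).trans (le_of_eq (by simp))
  rw [norm_mul]
  exact mul_le_mul (hA x) (A4b_inner μ hb hc hA D hD x) (norm_nonneg _) hA0

/-- pointwise Gaussian inequality -/
theorem A4b_pt (ξ y : V) (R t : ℝ) (ht : 1 ≤ |t|) (hy : ‖y‖ ≤ R) :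
    A4b_g (1 / 2) (ξ - (2 * t) • y) ≤ Real.exp (R ^ 2) * A4b_g (1 / (8 * t ^ 2)) ξ *
      Real.exp (-(|t| ^ 2 * dist y ((1 / (2 * t)) • ξ) ^ 2)) := by
  have ht2 : 1 ≤ t ^ 2 := by
    rw [← sq_abs]
    nlinarith
  have ht0 : t ≠ 0 := by
    intro h
    rw [h] at ht2
    norm_num at ht2
  unfold A4b_g
  rw [← Real.exp_add, ← Real.exp_add, Real.exp_le_exp]
  have h1 : |t| ^ 2 * dist y ((1 / (2 * t)) • ξ) ^ 2 = ‖ξ - (2 * t) • y‖ ^ 2 / 4 := by
    have : ξ - (2 * t) • y = (2 * t) • ((1 / (2 * t)) • ξ - y) := by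
      rw [smul_sub, smul_smul, mul_one_div_cancel (mul_ne_zero two_ne_zero ht0), one_smul]
    rw [this, norm_smul, mul_pow, dist_eq_norm, ← norm_neg (y - _), neg_sub, Real.norm_eq_abs,
      sq_abs, sq_abs]
    ring
  rw [h1]
  have h2 : ‖ξ‖ ^ 2 ≤ 2 * ‖ξ - (2 * t) • y‖ ^ 2 + 8 * t ^ 2 * ‖y‖ ^ 2 := by
    have h3 : ‖ξ‖ ≤ ‖ξ - (2 * t) • y‖ + ‖(2 * t) • y‖ := by
      calc ‖ξ‖ = ‖(ξ - (2 * t) • y) + (2 * t) • y‖ := by rw [sub_add_cancel]
        _ ≤ _ := norm_add_le _ _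
    have h4 : ‖(2 * t) • y‖ ^ 2 = 4 * t ^ 2 * ‖y‖ ^ 2 := by
      rw [norm_smul, mul_pow, Real.norm_eq_abs, sq_abs]
      ring
    have h5 : ‖ξ‖ ^ 2 ≤ (‖ξ - (2 * t) • y‖ + ‖(2 * t) • y‖) ^ 2 :=
      pow_le_pow_left₀ (norm_nonneg _) h3 2
    nlinarith [sq_nonneg (‖ξ - (2 * t) • y‖ - ‖(2 * t) • y‖)]
  have h6 : ‖y‖ ^ 2 ≤ R ^ 2 := pow_le_pow_left₀ (norm_nonneg _) hy 2
  have h7 : ‖ξ‖ ^ 2 / (8 * t ^ 2) ≤ ‖ξ - (2 * t) • y‖ ^ 2 / 4 + R ^ 2 := by
    rw [div_le_iff₀ (by positivity)]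
    nlinarith [sq_nonneg ‖ξ - (2 * t) • y‖, mul_le_mul_of_nonneg_left h6 (by positivity : 0 ≤ 8 * t ^ 2)]
  have h8 : 1 / (8 * t ^ 2) * ‖ξ‖ ^ 2 = ‖ξ‖ ^ 2 / (8 * t ^ 2) := by ring
  rw [h8]
  linarith

theorem A4b_main {R C₁ α t : ℝ} (hR : ∀ᵐ x ∂μ, ‖x‖ ≤ R) (ht : 1 ≤ |t|) (hC₁ : 0 < C₁)
    (hG : ∀ (lam : ℝ) (z : V), 0 < lam →
      ∫ y, Real.exp (-(lam ^ 2 * dist y z ^ 2)) ∂μ ≤ C₁ * lam ^ (-α)) :
    ∫ y, ‖∫ x, Complex.exp (((t * dist x y ^ 2 : ℝ) : ℂ) * Complex.I) ∂μ‖ ^ 2 ∂μ ≤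
      (Real.exp (R ^ 2) * C₁ * (Real.exp (R ^ 2 / 2) * (Real.exp (R ^ 2 / 2) *
        (8 * Real.pi) ^ ((Module.finrank ℝ V : ℝ) / 2) * (C₁ * (Real.sqrt 2) ^ (-α)))) /
        (Real.pi / (1 / 2)) ^ ((Module.finrank ℝ V : ℝ) / 2)) *
          |t| ^ ((Module.finrank ℝ V : ℝ) - 2 * α) := by
  have ht0 : 0 < |t| := by linarith
  have htne : t ≠ 0 := abs_pos.1 ht0
  set b' : ℝ := 1 / (8 * t ^ 2) with hb'
  have hb'0 : 0 < b' := by positivity
  set A : ℝ := Real.exp (R ^ 2 / 2) with hA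
  have hA0 : 0 < A := Real.exp_pos _
  set W : ℝ := (Real.pi / (1 / 2)) ^ ((Module.finrank ℝ V : ℝ) / 2) with hW
  have hW0 : 0 < W := by positivity
  -- the density
  set f0 : V → ℂ := fun x => Complex.exp (((t * ‖x‖ ^ 2 : ℝ) : ℂ) * Complex.I) *
    ((Real.exp (‖x‖ ^ 2 / 2) : ℝ) : ℂ) with hf0
  set c : V → ℂ := (closedBall (0 : V) R).indicator f0 with hc
  have hf0c : Continuous f0 := by
    rw [hf0]
    fun_prop
  have hcm : Measurable c := hf0c.measurable.indicator isClosed_closedBall.measurableSet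
  have hcA : ∀ x, ‖c x‖ ≤ A := by
    intro x
    rw [hc]
    by_cases hx : x ∈ closedBall (0 : V) R
    · rw [Set.indicator_of_mem hx, hf0]
      simp only
      rw [norm_mul, Complex.norm_exp_ofReal_mul_I, one_mul, Complex.norm_real, Real.norm_eq_abs,
        abs_of_pos (Real.exp_pos _), hA, Real.exp_le_exp]
      rw [mem_closedBall, dist_zero_right] at hx
      have := pow_le_pow_left₀ (norm_nonneg _) hx 2
      linarith
    · rw [Set.indicator_of_notMem hx, norm_zero]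
      exact hA0.le
  set Φ := A4b_Phi μ c with hΦ
  have hΦm : Measurable Φ := A4b_Phi_meas μ hcm
  have hΦn : ∀ ξ, ‖Φ ξ‖ ≤ A := A4b_Phi_norm μ hcA
  -- step 1
  have s1 : ∀ y : V, ‖∫ x, Complex.exp (((t * dist x y ^ 2 : ℝ) : ℂ) * Complex.I) ∂μ‖ =
      ‖∫ x, c x * (A4b_g (1 / (4 * (1 / 2))) x : ℂ) * A4b_e x ((2 * t) • y) ∂μ‖ := by
    intro y
    have h1 : ∫ x, Complex.exp (((t * dist x y ^ 2 : ℝ) : ℂ) * Complex.I) ∂μ =
        ∫ x, Complex.exp (((t * ‖y‖ ^ 2 : ℝ) : ℂ) * Complex.I) *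
          (c x * (A4b_g (1 / (4 * (1 / 2))) x : ℂ) * A4b_e x ((2 * t) • y)) ∂μ := by
      refine integral_congr_ae (hR.mono fun x hx => ?_)
      simp only
      have hx' : x ∈ closedBall (0 : V) R := by
        rw [mem_closedBall, dist_zero_right]; exact hx
      rw [hc, Set.indicator_of_mem hx', hf0]
      simp only
      unfold A4b_g A4b_e
      rw [Complex.ofReal_exp, Complex.ofReal_exp, ← Complex.exp_add, ← Complex.exp_add,
        ← Complex.exp_add, ← Complex.exp_add]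
      congr 1
      rw [dist_eq_norm, norm_sub_sq_real, inner_smul_right]
      push_cast
      ring
    rw [h1, integral_const_mul, norm_mul, Complex.norm_exp_ofReal_mul_I, one_mul]
  -- step 2
  have s2 : ∀ y : V, W * ‖∫ x, Complex.exp (((t * dist x y ^ 2 : ℝ) : ℂ) * Complex.I) ∂μ‖ ^ 2 ≤
      ∫ ξ, A4b_g (1 / 2) (ξ - (2 * t) • y) * ‖Φ ξ‖ ^ 2 := by
    intro y
    rw [s1 y]
    have h1 := A4b_rep μ (b := 1 / 2) (by norm_num) hcm hcA ((2 * t) • y)
    set J := ‖∫ x, c x * (A4b_g (1 / (4 * (1 / 2))) x : ℂ) * A4b_e x ((2 * t) • y) ∂μ‖ with hJ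
    have hgi : Integrable (fun ξ : V => A4b_g (1 / 2) (ξ - (2 * t) • y)) :=
      (A4b_g_int (by norm_num)).comp_sub_right _
    have hgW : ∫ ξ : V, A4b_g (1 / 2) (ξ - (2 * t) • y) = W := by
      rw [integral_sub_right_eq_self (A4b_g (1 / 2) : V → ℝ) ((2 * t) • y), A4b_g_integral (by norm_num)]
    have h2 : W * J ≤ ∫ ξ, A4b_g (1 / 2) (ξ - (2 * t) • y) * ‖Φ ξ‖ := by
      have h3 : W * J = ‖∫ ξ, (A4b_g (1 / 2) (ξ - (2 * t) • y) : ℂ) * Φ ξ‖ := by
        rw [h1, norm_mul, Complex.norm_real, Real.norm_eq_abs, abs_of_pos hW0]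
      rw [h3]
      refine (norm_integral_le_integral_norm _).trans (le_of_eq ?_)
      refine integral_congr_ae (Filter.Eventually.of_forall fun ξ => ?_)
      simp only
      rw [norm_mul, Complex.norm_real, Real.norm_eq_abs, abs_of_pos (A4b_g_pos _ _)]
    have h4 := A4b_jensen (ν := volume) (fun ξ : V => A4b_g (1 / 2) (ξ - (2 * t) • y))
      (fun ξ => ‖Φ ξ‖) hgi (fun v => (A4b_g_pos _ _).le) hΦm.norm A
      (fun v => by rw [abs_of_nonneg (norm_nonneg _)]; exact hΦn v) (by rw [hgW]; exact hW0)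
    rw [hgW] at h4
    have hJ0 : 0 ≤ J := norm_nonneg _
    have h5 : (W * J) ^ 2 ≤ W * ∫ ξ, A4b_g (1 / 2) (ξ - (2 * t) • y) * ‖Φ ξ‖ ^ 2 :=
      (pow_le_pow_left₀ (by positivity) h2 2).trans h4
    have h6 : W * (W * J ^ 2) ≤ W * ∫ ξ, A4b_g (1 / 2) (ξ - (2 * t) • y) * ‖Φ ξ‖ ^ 2 := by
      calc W * (W * J ^ 2) = (W * J) ^ 2 := by ring
        _ ≤ _ := h5
    exact le_of_mul_le_mul_left h6 hW0
  -- step 3
  set h : V → V → ℝ := fun y ξ => Real.exp (R ^ 2) * A4b_g b' ξ *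
      Real.exp (-(|t| ^ 2 * dist y ((1 / (2 * t)) • ξ) ^ 2)) * ‖Φ ξ‖ ^ 2 with hh
  have hh0 : ∀ y ξ, 0 ≤ h y ξ := fun y ξ => by
    rw [hh]
    have := A4b_g_pos b' ξ
    positivity
  have hhm : Measurable (Function.uncurry h) := by
    rw [hh]
    refine Measurable.mul (Measurable.mul ?_ ?_) ?_
    · exact measurable_const.mul ((A4b_g_cont b').measurable.comp measurable_snd)
    · have : Continuous (fun p : V × V => Real.exp (-(|t| ^ 2 * dist p.1 ((1 / (2 * t)) • p.2) ^ 2))) := by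
        fun_prop
      exact this.measurable
    · exact ((hΦm.comp measurable_snd).norm).pow_const 2
  have hhi : Integrable (Function.uncurry h) (μ.prod volume) := by
    refine A4b_prod_int μ hhm.aestronglyMeasurable (A4b_g_int hb'0) (Real.exp (R ^ 2) * A ^ 2)
      (fun p => ?_)
    rw [Function.uncurry, Real.norm_eq_abs, abs_of_nonneg (hh0 _ _), hh]
    simp only
    have e1 : Real.exp (-(|t| ^ 2 * dist p.1 ((1 / (2 * t)) • p.2) ^ 2)) ≤ 1 := by
      rw [Real.exp_le_one_iff]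
      have : 0 ≤ |t| ^ 2 * dist p.1 ((1 / (2 * t)) • p.2) ^ 2 := by positivity
      linarith
    have e2 : ‖Φ p.2‖ ^ 2 ≤ A ^ 2 := pow_le_pow_left₀ (norm_nonneg _) (hΦn _) 2
    have e3 := A4b_g_pos b' p.2
    calc Real.exp (R ^ 2) * A4b_g b' p.2 *
        Real.exp (-(|t| ^ 2 * dist p.1 ((1 / (2 * t)) • p.2) ^ 2)) * ‖Φ p.2‖ ^ 2
        ≤ Real.exp (R ^ 2) * A4b_g b' p.2 * 1 * A ^ 2 := by gcongr
      _ = _ := by ring
  have s3 : ∫ y, ‖∫ x, Complex.exp (((t * dist x y ^ 2 : ℝ) : ℂ) * Complex.I) ∂μ‖ ^ 2 ∂μ ≤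
      W⁻¹ * ∫ y, (∫ ξ, h y ξ) ∂μ := by
    rw [← integral_const_mul]
    refine integral_mono_of_nonneg (Filter.Eventually.of_forall fun y => sq_nonneg _)
      (hhi.integral_prod_left.const_mul _) (hR.mono fun y hy => ?_)
    simp only
    have e1 : W * ‖∫ x, Complex.exp (((t * dist x y ^ 2 : ℝ) : ℂ) * Complex.I) ∂μ‖ ^ 2 ≤
        ∫ ξ, h y ξ := by
      refine (s2 y).trans ?_
      have hyi : Integrable (fun ξ => h y ξ) := by
        have : Integrable (fun ξ : V => (Real.exp (R ^ 2) * A ^ 2) * A4b_g b' ξ) :=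
          (A4b_g_int hb'0).const_mul _
        refine this.mono' ((hhm.comp (measurable_const.prodMk measurable_id :
          Measurable (fun ξ : V => (y, ξ)))).aestronglyMeasurable)
          (Filter.Eventually.of_forall fun ξ => ?_)
        change ‖h y ξ‖ ≤ _
        rw [Real.norm_eq_abs, abs_of_nonneg (hh0 _ _), hh]
        simp only
        have e1 : Real.exp (-(|t| ^ 2 * dist y ((1 / (2 * t)) • ξ) ^ 2)) ≤ 1 := by
          rw [Real.exp_le_one_iff]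
          have : 0 ≤ |t| ^ 2 * dist y ((1 / (2 * t)) • ξ) ^ 2 := by positivity
          linarith
        have e2 : ‖Φ ξ‖ ^ 2 ≤ A ^ 2 := pow_le_pow_left₀ (norm_nonneg _) (hΦn _) 2
        have e3 := A4b_g_pos b' ξ
        calc Real.exp (R ^ 2) * A4b_g b' ξ *
            Real.exp (-(|t| ^ 2 * dist y ((1 / (2 * t)) • ξ) ^ 2)) * ‖Φ ξ‖ ^ 2
            ≤ Real.exp (R ^ 2) * A4b_g b' ξ * 1 * A ^ 2 := by gcongr
          _ = _ := by ring
      refine integral_mono_of_nonneg (Filter.Eventually.of_forall fun ξ =>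
        mul_nonneg (A4b_g_pos _ _).le (sq_nonneg _)) hyi (Filter.Eventually.of_forall fun ξ => ?_)
      exact mul_le_mul_of_nonneg_right (A4b_pt ξ y R t ht hy) (sq_nonneg _)
    calc ‖∫ x, Complex.exp (((t * dist x y ^ 2 : ℝ) : ℂ) * Complex.I) ∂μ‖ ^ 2
        = W⁻¹ * (W * ‖∫ x, Complex.exp (((t * dist x y ^ 2 : ℝ) : ℂ) * Complex.I) ∂μ‖ ^ 2) := by
          rw [← mul_assoc, inv_mul_cancel₀ hW0.ne', one_mul]
      _ ≤ _ := mul_le_mul_of_nonneg_left e1 (inv_nonneg.2 hW0.le)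
  -- step 4
  have hJi : Integrable (fun ξ : V => A4b_g b' ξ * ‖Φ ξ‖ ^ 2) := by
    refine ((A4b_g_int hb'0).mul_const (A ^ 2)).mono'
      ((A4b_g_cont b').measurable.mul (hΦm.norm.pow_const 2)).aestronglyMeasurable
      (Filter.Eventually.of_forall fun ξ => ?_)
    rw [Real.norm_eq_abs, abs_of_nonneg (mul_nonneg (A4b_g_pos _ _).le (sq_nonneg _))]
    exact mul_le_mul_of_nonneg_left (pow_le_pow_left₀ (norm_nonneg _) (hΦn _) 2)
      (A4b_g_pos _ _).le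
  have s4 : ∫ y, (∫ ξ, h y ξ) ∂μ ≤
      (Real.exp (R ^ 2) * (C₁ * |t| ^ (-α))) * ∫ ξ, A4b_g b' ξ * ‖Φ ξ‖ ^ 2 := by
    have hswap := integral_integral_swap hhi
    rw [hswap, ← integral_const_mul]
    refine integral_mono_of_nonneg (Filter.Eventually.of_forall fun ξ =>
      integral_nonneg fun y => hh0 y ξ) (hJi.const_mul _) (Filter.Eventually.of_forall fun ξ => ?_)
    simp only
    have e1 : ∫ y, h y ξ ∂μ = (Real.exp (R ^ 2) * (A4b_g b' ξ * ‖Φ ξ‖ ^ 2)) *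
        ∫ y, Real.exp (-(|t| ^ 2 * dist y ((1 / (2 * t)) • ξ) ^ 2)) ∂μ := by
      rw [← integral_const_mul]
      refine integral_congr_ae (Filter.Eventually.of_forall fun y => ?_)
      simp only [hh]
      ring
    rw [e1]
    have e2 := hG |t| ((1 / (2 * t)) • ξ) ht0
    have e3 := A4b_g_pos b' ξ
    calc (Real.exp (R ^ 2) * (A4b_g b' ξ * ‖Φ ξ‖ ^ 2)) *
        ∫ y, Real.exp (-(|t| ^ 2 * dist y ((1 / (2 * t)) • ξ) ^ 2)) ∂μ
        ≤ (Real.exp (R ^ 2) * (A4b_g b' ξ * ‖Φ ξ‖ ^ 2)) * (C₁ * |t| ^ (-α)) :=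
          mul_le_mul_of_nonneg_left e2 (by positivity)
      _ = _ := by ring
  -- step 5
  have s5 : ∫ ξ, A4b_g b' ξ * ‖Φ ξ‖ ^ 2 ≤ A * (A * ((Real.pi / b') ^
      ((Module.finrank ℝ V : ℝ) / 2)) * (C₁ * (Real.sqrt 2 * |t|) ^ (-α))) := by
    refine A4b_J μ hb'0 hcm hcA _ (fun x => ?_)
    have e1 := hG (Real.sqrt 2 * |t|) x (by positivity)
    refine le_trans (le_of_eq ?_) e1
    refine integral_congr_ae (Filter.Eventually.of_forall fun x' => ?_)
    simp only [A4b_g]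
    congr 2
    rw [dist_comm, dist_eq_norm, mul_pow, Real.sq_sqrt (by norm_num), sq_abs, hb']
    field_simp
    ring
  -- conclusion
  have hconst : (Real.pi / b') ^ ((Module.finrank ℝ V : ℝ) / 2) =
      (8 * Real.pi) ^ ((Module.finrank ℝ V : ℝ) / 2) * |t| ^ (Module.finrank ℝ V : ℝ) := by
    have e1 : Real.pi / b' = (8 * Real.pi) * |t| ^ (2 : ℝ) := by
      rw [hb', Real.rpow_two, sq_abs]
      field_simp
    rw [e1, Real.mul_rpow (by positivity) (by positivity), ← Real.rpow_mul ht0.le]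
    congr 2
    ring
  have hsplit : (Real.sqrt 2 * |t|) ^ (-α) = (Real.sqrt 2) ^ (-α) * |t| ^ (-α) :=
    Real.mul_rpow (by positivity) ht0.le
  have hpow : |t| ^ ((Module.finrank ℝ V : ℝ) - 2 * α) =
      |t| ^ (Module.finrank ℝ V : ℝ) * |t| ^ (-α) * |t| ^ (-α) := by
    rw [← Real.rpow_add ht0, ← Real.rpow_add ht0]
    congr 1
    ring
  rw [hconst, hsplit] at s5
  have s6 : ∫ y, (∫ ξ, h y ξ) ∂μ ≤ (Real.exp (R ^ 2) * (C₁ * |t| ^ (-α))) *
      (A * (A * ((8 * Real.pi) ^ ((Module.finrank ℝ V : ℝ) / 2) * |t| ^ (Module.finrank ℝ V : ℝ)) *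
        (C₁ * ((Real.sqrt 2) ^ (-α) * |t| ^ (-α))))) :=
    s4.trans (mul_le_mul_of_nonneg_left s5 (by positivity))
  refine s3.trans ((mul_le_mul_of_nonneg_left s6 (inv_nonneg.2 hW0.le)).trans (le_of_eq ?_))
  rw [hpow]
  field_simp

end pin

theorem pinned_fourier (n : ℕ) (μ : Measure (EuclideanSpace ℝ (Fin n))) [IsProbabilityMeasure μ]
    (R C α : ℝ) (hR : ∀ᵐ x ∂μ, ‖x‖ ≤ R) (hC : 0 < C) (hα : 0 ≤ α)
    (hμ : ∀ (x : EuclideanSpace ℝ (Fin n)) (r : ℝ), 0 < r →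
      μ (closedBall x r) ≤ ENNReal.ofReal (C * r ^ α)) :
    ∃ C' : ℝ, 0 < C' ∧ ∀ t : ℝ, 1 ≤ |t| →
      ∫ y, ‖∫ x, Complex.exp (((t * dist x y ^ 2 : ℝ) : ℂ) * Complex.I) ∂μ‖ ^ 2 ∂μ
        ≤ C' * |t| ^ ((n : ℝ) - 2 * α) := by
  obtain ⟨C₁, hC₁, hG⟩ := gauss_frostman μ C α hC hα hμ
  refine ⟨Real.exp (R ^ 2) * C₁ * (Real.exp (R ^ 2 / 2) * (Real.exp (R ^ 2 / 2) *
        (8 * Real.pi) ^ ((n : ℝ) / 2) * (C₁ * (Real.sqrt 2) ^ (-α)))) /
        (Real.pi / (1 / 2)) ^ ((n : ℝ) / 2), by positivity, fun t ht => ?_⟩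
  have h := A4b_main μ hR ht hC₁ hG
  rw [show (Module.finrank ℝ (EuclideanSpace ℝ (Fin n)) : ℝ) = (n : ℝ) by
    rw [finrank_euclideanSpace_fin]] at h
  exact h

end Pool.Agent.H744R2.Falc
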