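import Pool.Agent.H744R2.Falc.Defs

set_option autoImplicit false

/-! Task A6: a collision bound gives positive measure. -/

namespace Pool.Agent.H744R2.Falc

open MeasureTheory Set Metric Filter Topology
open scoped ENNReal

namespace VolAux

variable {Ω : Type*} [MeasurableSpace Ω]

theorem key (P : Measure Ω) [IsProbabilityMeasure P] (a : Ω → ℝ) (ha : Measurable a)
    (V : Set ℝ) (δ : ℝ) (hδ : 0 < δ)
    (haV : ∀ᵐ ω ∂P, Icc (a ω - δ) (a ω + δ) ⊆ V) :
    ENNReal.ofReal (2 * δ) ≤ volume V * (P.prod P) {p | |a p.1 - a p.2| ≤ 2 * δ} := by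
  set S : Set (Ω × ℝ) := {q | |q.2 - a q.1| ≤ δ} with hS
  have hSm : MeasurableSet S :=
    measurableSet_le ((measurable_snd.sub (ha.comp measurable_fst)).norm) measurable_const
  set m : ℝ → ℝ≥0∞ := fun τ => P ((fun ω => (ω, τ)) ⁻¹' S) with hm
  have hmm : Measurable m := measurable_measure_prodMk_right hSm
  have hslice : ∀ ω, (Prod.mk ω ⁻¹' S) = Icc (a ω - δ) (a ω + δ) := by
    intro ω
    ext τ
    simp only [hS, mem_preimage, mem_Icc, Set.mem_ofPred_eq, abs_le]
    constructor
    · rintro ⟨h1, h2⟩; constructor <;> linarith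
    · rintro ⟨h1, h2⟩; constructor <;> linarith
  have h1 : ∫⁻ τ in V, m τ = ENNReal.ofReal (2 * δ) := by
    have e1 : (P.prod (volume.restrict V)) S = ∫⁻ τ in V, m τ := Measure.prod_apply_symm hSm
    have e2 : (P.prod (volume.restrict V)) S = ENNReal.ofReal (2 * δ) := by
      rw [Measure.prod_apply hSm]
      calc ∫⁻ ω, (volume.restrict V) (Prod.mk ω ⁻¹' S) ∂P
          = ∫⁻ _, ENNReal.ofReal (2 * δ) ∂P := by
            refine lintegral_congr_ae (haV.mono fun ω hω => ?_)
            simp only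
            rw [hslice, Measure.restrict_apply measurableSet_Icc, inter_eq_left.2 hω,
              Real.volume_Icc]
            congr 1
            ring
        _ = ENNReal.ofReal (2 * δ) := by simp
    rw [← e1, e2]
  have h2 : (∫⁻ τ in V, m τ) ^ 2 ≤ volume V * ∫⁻ τ in V, m τ ^ 2 := by
    have hH := ENNReal.lintegral_mul_le_Lp_mul_Lq (volume.restrict V)
      (Real.HolderConjugate.two_two) hmm.aemeasurable (g := fun _ => (1 : ℝ≥0∞))
      aemeasurable_const
    simp only [Pi.mul_apply, mul_one, ENNReal.one_rpow, lintegral_const, one_mul,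
      Measure.restrict_apply MeasurableSet.univ, univ_inter] at hH
    calc (∫⁻ τ in V, m τ) ^ 2
        ≤ ((∫⁻ τ in V, m τ ^ (2 : ℝ)) ^ (1 / 2 : ℝ) * volume V ^ (1 / 2 : ℝ)) ^ 2 :=
          pow_le_pow_left' hH 2
      _ = (∫⁻ τ in V, m τ ^ (2 : ℝ)) * volume V := by
          rw [mul_pow, ← ENNReal.rpow_natCast, ← ENNReal.rpow_mul, ← ENNReal.rpow_natCast,
            ← ENNReal.rpow_mul]
          norm_num
      _ = volume V * ∫⁻ τ in V, m τ ^ 2 := by
          rw [mul_comm]
          congr 1
          refine lintegral_congr fun τ => ?_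
          exact ENNReal.rpow_two _
  have h3 : ∫⁻ τ, m τ ^ 2 ≤
      ENNReal.ofReal (2 * δ) * (P.prod P) {p | |a p.1 - a p.2| ≤ 2 * δ} := by
    set S2 : Set ((Ω × Ω) × ℝ) := {q | |q.2 - a q.1.1| ≤ δ ∧ |q.2 - a q.1.2| ≤ δ} with hS2
    have hS2m : MeasurableSet S2 :=
      (measurableSet_le ((measurable_snd.sub
        (ha.comp (measurable_fst.comp measurable_fst))).norm) measurable_const).inter
      (measurableSet_le ((measurable_snd.sub
        (ha.comp (measurable_snd.comp measurable_fst))).norm) measurable_const)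
    have e1 : ((P.prod P).prod volume) S2 = ∫⁻ τ, m τ ^ 2 := by
      rw [Measure.prod_apply_symm hS2m]
      refine lintegral_congr fun τ => ?_
      have : (fun p : Ω × Ω => (p, τ)) ⁻¹' S2 =
          ((fun ω => (ω, τ)) ⁻¹' S) ×ˢ ((fun ω => (ω, τ)) ⁻¹' S) := by
        ext p; rfl
      rw [this, Measure.prod_prod, pow_two]
    rw [← e1, Measure.prod_apply hS2m]
    have hTm : MeasurableSet {p : Ω × Ω | |a p.1 - a p.2| ≤ 2 * δ} :=
      measurableSet_le (((ha.comp measurable_fst).sub (ha.comp measurable_snd)).norm)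
        measurable_const
    calc ∫⁻ p, volume (Prod.mk p ⁻¹' S2) ∂(P.prod P)
        ≤ ∫⁻ p, ({p : Ω × Ω | |a p.1 - a p.2| ≤ 2 * δ}).indicator
            (fun _ => ENNReal.ofReal (2 * δ)) p ∂(P.prod P) := by
          refine lintegral_mono fun p => ?_
          simp only
          by_cases hp : p ∈ {p : Ω × Ω | |a p.1 - a p.2| ≤ 2 * δ}
          · rw [indicator_of_mem hp]
            calc volume (Prod.mk p ⁻¹' S2) ≤ volume (Icc (a p.1 - δ) (a p.1 + δ)) := by
                  apply measure_mono
                  rintro τ ⟨h1, -⟩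
                  simp only at h1
                  rw [abs_le] at h1
                  constructor <;> linarith [h1.1, h1.2]
              _ = ENNReal.ofReal (2 * δ) := by
                  rw [Real.volume_Icc]
                  congr 1
                  ring
          · rw [indicator_of_notMem hp]
            have : Prod.mk p ⁻¹' S2 = ∅ := by
              ext τ
              simp only [mem_preimage, mem_empty_iff_false, iff_false]
              rintro ⟨h1, h2⟩
              apply hp
              simp only at h1 h2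
              simp only [Set.mem_ofPred_eq]
              rw [abs_le] at h1 h2 ⊢
              constructor <;> linarith [h1.1, h1.2, h2.1, h2.2]
            rw [this, measure_empty]
      _ = ENNReal.ofReal (2 * δ) * (P.prod P) {p | |a p.1 - a p.2| ≤ 2 * δ} := by
          rw [lintegral_indicator hTm, setLIntegral_const]
  have h4 : ENNReal.ofReal (2 * δ) * ENNReal.ofReal (2 * δ) ≤ ENNReal.ofReal (2 * δ) *
      (volume V * (P.prod P) {p | |a p.1 - a p.2| ≤ 2 * δ}) := by
    calc ENNReal.ofReal (2 * δ) * ENNReal.ofReal (2 * δ) = (∫⁻ τ in V, m τ) ^ 2 := by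
          rw [h1, pow_two]
      _ ≤ volume V * ∫⁻ τ in V, m τ ^ 2 := h2
      _ ≤ volume V * (ENNReal.ofReal (2 * δ) * (P.prod P) {p | |a p.1 - a p.2| ≤ 2 * δ}) := by
          gcongr
          exact (setLIntegral_le_lintegral _ _).trans h3
      _ = _ := by ring
  have h5 : ENNReal.ofReal (2 * δ) ≠ 0 := by
    rw [Ne, ENNReal.ofReal_eq_zero, not_le]; positivity
  exact (ENNReal.mul_le_mul_iff_right h5 ENNReal.ofReal_ne_top).1 h4

end VolAux

theorem volume_pos_of_collision {Ω Y : Type*} [MeasurableSpace Ω] [MeasurableSpace Y]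
    (P : Measure Ω) [IsProbabilityMeasure P] (Q : Measure Y) [IsProbabilityMeasure Q]
    (f : Ω → Y → ℝ) (hf : Measurable (Function.uncurry f)) (D : Set ℝ) (hD : IsCompact D)
    (hfD : ∀ᵐ y ∂Q, ∀ᵐ ω ∂P, f ω y ∈ D) (A : ℝ)
    (hA : ∀ δ : ℝ, 0 < δ → δ ≤ 1 →
      ∫⁻ y, (P.prod P) {p | |f p.1 y - f p.2 y| ≤ δ} ∂Q ≤ ENNReal.ofReal (A * δ)) :
    0 < volume D := by
  have hmain : ∀ δ : ℝ, 0 < δ → δ ≤ 1 / 2 →
      1 ≤ volume (cthickening δ D) * ENNReal.ofReal A := by
    intro δ hδ hδ1
    have hVfin : volume (cthickening δ D) ≠ ⊤ := hD.cthickening.measure_lt_top.ne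
    have h1 : ENNReal.ofReal (2 * δ) ≤
        volume (cthickening δ D) * ENNReal.ofReal (A * (2 * δ)) := by
      calc ENNReal.ofReal (2 * δ) = ∫⁻ _, ENNReal.ofReal (2 * δ) ∂Q := by simp
        _ ≤ ∫⁻ y, volume (cthickening δ D) *
              (P.prod P) {p | |f p.1 y - f p.2 y| ≤ 2 * δ} ∂Q := by
            refine lintegral_mono_ae (hfD.mono fun y hy => ?_)
            have hay : Measurable fun ω => f ω y := hf.comp measurable_prodMk_right
            refine VolAux.key P (fun ω => f ω y) hay _ δ hδ (hy.mono fun ω hω => ?_)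
            rw [← Real.closedBall_eq_Icc]
            exact closedBall_subset_cthickening hω δ
        _ = volume (cthickening δ D) *
              ∫⁻ y, (P.prod P) {p | |f p.1 y - f p.2 y| ≤ 2 * δ} ∂Q :=
            lintegral_const_mul' _ _ hVfin
        _ ≤ _ := by
            gcongr
            exact hA (2 * δ) (by positivity) (by linarith)
    have h5 : ENNReal.ofReal (2 * δ) ≠ 0 := by
      rw [Ne, ENNReal.ofReal_eq_zero, not_le]; positivity
    rw [ENNReal.ofReal_mul' (by positivity : (0 : ℝ) ≤ 2 * δ)] at h1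
    have h6 : ENNReal.ofReal (2 * δ) * 1 ≤
        ENNReal.ofReal (2 * δ) * (volume (cthickening δ D) * ENNReal.ofReal A) := by
      rw [mul_one]
      refine h1.trans_eq ?_
      ring
    exact (ENNReal.mul_le_mul_iff_right h5 ENNReal.ofReal_ne_top).1 h6
  by_contra h0
  rw [not_lt, nonpos_iff_eq_zero] at h0
  have ht : Tendsto (fun r => volume (cthickening r D) * ENNReal.ofReal A) (𝓝[>] 0)
      (𝓝 (volume D * ENNReal.ofReal A)) :=
    ENNReal.Tendsto.mul_const ((tendsto_measure_cthickening_of_isCompact hD).mono_left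
      nhdsWithin_le_nhds) (Or.inr ENNReal.ofReal_ne_top)
  have h1 : (1 : ℝ≥0∞) ≤ volume D * ENNReal.ofReal A := by
    refine ge_of_tendsto ht ?_
    have : Ioc (0 : ℝ) (1 / 2) ∈ 𝓝[>] (0 : ℝ) := Ioc_mem_nhdsGT (by norm_num)
    filter_upwards [this] with δ hδ
    exact hmain δ hδ.1 hδ.2
  rw [h0, zero_mul] at h1
  exact absurd h1 (by norm_num)

end Pool.Agent.H744R2.Falc
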