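import Pool.Agent.H744R2.Falc.GaussEnergy
import Pool.Agent.H744R2.Falc.Pin
import Pool.Agent.H744R2.Falc.Energy
import Pool.Agent.H744R2.Falc.Vol

set_option autoImplicit false

namespace Pool.Agent.H744R2.Falc

open MeasureTheory Set Metric

/-- the set `addDist D F` is compact -/
theorem isCompact_addDist {X : Type*} [MetricSpace X] {D : Set ℝ} {F : Set X} (hD : IsCompact D)
    (hF : IsCompact F) : IsCompact (addDist D F) := by
  have : addDist D F = (fun q : ℝ × (X × X) => q.1 + dist q.2.1 q.2.2 ^ 2) '' (D ×ˢ (F ×ˢ F)) := by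
    ext t
    constructor
    · rintro ⟨u, hu, x, hx, y, hy, rfl⟩
      exact ⟨(u, (x, y)), ⟨hu, hx, hy⟩, rfl⟩
    · rintro ⟨⟨u, x, y⟩, ⟨hu, hx, hy⟩, rfl⟩
      exact ⟨u, hu, x, hx, y, hy, rfl⟩
  rw [this]
  exact (hD.prod (hF.prod hF)).image (by fun_prop)

theorem collision_gauss {Ω : Type*} [MeasurableSpace Ω] (P : Measure Ω) [IsProbabilityMeasure P]
    (g : Ω → ℝ) (hg : Measurable g) (δ : ℝ) (hδ : 0 < δ) :
    (P.prod P) {p | |g p.1 - g p.2| ≤ δ} ≤
      ENNReal.ofReal (Real.exp (1 / 4) * (δ / Real.sqrt Real.pi)) *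
        ∫⁻ t : ℝ, ENNReal.ofReal (‖∫ ω, Complex.exp (((t * g ω : ℝ) : ℂ) * Complex.I) ∂P‖ ^ 2 *
          Real.exp (-(δ ^ 2 * t ^ 2))) := by
  have hint : Integrable (fun p : Ω × Ω => Real.exp (-((g p.1 - g p.2) ^ 2 / (4 * δ ^ 2)))) (P.prod P) := by
    refine Integrable.of_bound (by fun_prop) 1 ?_
    filter_upwards with p
    rw [Real.norm_eq_abs, abs_of_pos (Real.exp_pos _)]
    exact Real.exp_le_one_iff.2 (by have : 0 ≤ (g p.1 - g p.2) ^ 2 / (4 * δ ^ 2) := by positivity
                                    linarith)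
  have h1 : (P.prod P) {p | |g p.1 - g p.2| ≤ δ} ≤
      ENNReal.ofReal (Real.exp (1 / 4)) *
        ∫⁻ p, ENNReal.ofReal (Real.exp (-((g p.1 - g p.2) ^ 2 / (4 * δ ^ 2)))) ∂(P.prod P) := by
    rw [← lintegral_const_mul' _ _ ENNReal.ofReal_ne_top]
    have hm : MeasurableSet {p : Ω × Ω | |g p.1 - g p.2| ≤ δ} :=
      measurableSet_le (by fun_prop) measurable_const
    rw [← lintegral_indicator_one hm]
    refine lintegral_mono fun p => ?_
    by_cases hp : |g p.1 - g p.2| ≤ δ
    · rw [indicator_of_mem (by exact hp)]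
      rw [← ENNReal.ofReal_mul (by positivity), ← Real.exp_add]
      rw [Pi.one_apply, ← ENNReal.ofReal_one]
      refine ENNReal.ofReal_le_ofReal ?_
      refine Real.one_le_exp ?_
      have h3 : (g p.1 - g p.2) ^ 2 ≤ δ ^ 2 := by
        rw [← sq_abs]
        exact pow_le_pow_left₀ (abs_nonneg _) hp 2
      have h4 : (g p.1 - g p.2) ^ 2 / (4 * δ ^ 2) ≤ 1 / 4 := by
        rw [div_le_div_iff₀ (by positivity) (by norm_num)]
        linarith
      linarith
    · rw [indicator_of_notMem (by exact hp)]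
      exact zero_le
  refine h1.trans ?_
  rw [← ofReal_integral_eq_lintegral_ofReal hint (ae_of_all _ fun p => (Real.exp_pos _).le),
    gauss_energy P g hg δ hδ, ← ENNReal.ofReal_mul (Real.exp_pos _).le]
  rw [← mul_assoc]
  have hpi : (0 : ℝ) < Real.sqrt Real.pi := Real.sqrt_pos.2 Real.pi_pos
  rw [ENNReal.ofReal_mul (by positivity)]
  gcongr
  have hmeas : Measurable fun t : ℝ => ∫ ω, Complex.exp (((t * g ω : ℝ) : ℂ) * Complex.I) ∂P := by
    refine StronglyMeasurable.measurable ?_
    refine StronglyMeasurable.integral_prod_right (f := fun (t : ℝ) (ω : Ω) =>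
      Complex.exp (((t * g ω : ℝ) : ℂ) * Complex.I)) ?_
    refine Measurable.stronglyMeasurable ?_
    unfold Function.uncurry
    fun_prop
  rw [ofReal_integral_eq_lintegral_ofReal]
  · have hb := (integrable_exp_neg_mul_sq (b := δ ^ 2) (by positivity))
    refine hb.mono' (by fun_prop) ?_
    filter_upwards with t
    rw [Real.norm_eq_abs, abs_of_nonneg (by positivity)]
    have : ‖∫ ω, Complex.exp (((t * g ω : ℝ) : ℂ) * Complex.I) ∂P‖ ≤ 1 := by
      have := norm_integral_le_of_norm_le_const (μ := P) (C := 1)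
        (f := fun ω => Complex.exp (((t * g ω : ℝ) : ℂ) * Complex.I))
        (ae_of_all _ fun ω => by rw [Complex.norm_exp_ofReal_mul_I])
      simpa using this
    have h2 : ‖∫ ω, Complex.exp (((t * g ω : ℝ) : ℂ) * Complex.I) ∂P‖ ^ 2 ≤ 1 := by
      exact pow_le_one₀ (norm_nonneg _) this
    calc _ ≤ 1 * Real.exp (-(δ ^ 2 * t ^ 2)) := by gcongr
      _ = Real.exp (-δ ^ 2 * t ^ 2) := by rw [one_mul]; congr 1; ring
  · filter_upwards with t
    positivity

theorem positive_step (n : ℕ) (D : Set ℝ) (F : Set (EuclideanSpace ℝ (Fin n))) (hD : IsCompact D)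
    (hF : IsCompact F) (σ α : ℝ) (hσ : 0 ≤ σ) (hσ1 : σ ≤ 1) (hα : 0 ≤ α)
    (h : (n : ℝ) + 1 < σ + 2 * α) (hDF : Fro D σ) (hFF : Fro F α) :
    0 < volume (addDist D F) := by
  obtain ⟨ν, hνp, hνD, Cν, hCν, hν⟩ := hDF
  obtain ⟨μ, hμp, hμF, Cμ, hCμ, hμ⟩ := hFF
  obtain ⟨R, hR⟩ := hF.isBounded.subset_closedBall 0
  have hRae : ∀ᵐ x ∂μ, ‖x‖ ≤ R := by
    have : ∀ᵐ x ∂μ, x ∈ F := by rw [ae_iff]; exact hμF
    filter_upwards [this] with x hx
    simpa using hR hx
  obtain ⟨C', hC', hH⟩ := pinned_fourier n μ R Cμ α hRae hCμ hα hμ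
  set β : ℝ := 2 * α - n with hβ
  have hE := fourier_energy ν Cν σ β hCν hσ hσ1 hν (by rw [hβ]; linarith)
  set EE : ENNReal := ∫⁻ t in {t : ℝ | 1 ≤ |t|},
      ENNReal.ofReal (‖∫ u, Complex.exp (((t * u : ℝ) : ℂ) * Complex.I) ∂ν‖ ^ 2 * |t| ^ (-β)) with hEE
  -- apply the volume lemma
  set f : ℝ × EuclideanSpace ℝ (Fin n) → EuclideanSpace ℝ (Fin n) → ℝ :=
    fun ω y => ω.1 + dist ω.2 y ^ 2 with hf
  have hpi : (0 : ℝ) < Real.sqrt Real.pi := Real.sqrt_pos.2 Real.pi_pos
  set B : ENNReal := ENNReal.ofReal (Real.exp (1 / 4) / Real.sqrt Real.pi) *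
    (2 + ENNReal.ofReal C' * EE) with hB
  have hBtop : B ≠ ⊤ := by
    rw [hB]
    refine ENNReal.mul_ne_top ENNReal.ofReal_ne_top ?_
    refine ENNReal.add_ne_top.2 ⟨by simp, ENNReal.mul_ne_top ENNReal.ofReal_ne_top hE.ne⟩
  refine volume_pos_of_collision (ν.prod μ) μ f (by unfold Function.uncurry; rw [hf]; fun_prop) _
    (isCompact_addDist hD hF) ?_ B.toReal ?_
  · have h1 : ∀ᵐ x ∂μ, x ∈ F := by rw [ae_iff]; exact hμF
    have h2 : ∀ᵐ x ∂ν, x ∈ D := by rw [ae_iff]; exact hνD
    filter_upwards [h1] with y hy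
    have h3 : ∀ᵐ ω ∂(ν.prod μ), ω.1 ∈ D ∧ ω.2 ∈ F := by
      have a1 : ∀ᵐ ω ∂(ν.prod μ), ω.1 ∈ D := Measure.quasiMeasurePreserving_fst.ae h2
      have a2 : ∀ᵐ ω ∂(ν.prod μ), ω.2 ∈ F := Measure.quasiMeasurePreserving_snd.ae h1
      filter_upwards [a1, a2] with ω b1 b2 using ⟨b1, b2⟩
    filter_upwards [h3] with ω hω
    exact ⟨ω.1, hω.1, ω.2, hω.2, y, hy, rfl⟩
  · intro δ hδ hδ1
    -- the characteristic function factorises
    set N : ℝ → ℝ := fun t => ‖∫ u, Complex.exp (((t * u : ℝ) : ℂ) * Complex.I) ∂ν‖ ^ 2 with hN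
    set Ht : ℝ → EuclideanSpace ℝ (Fin n) → ℝ := fun t y =>
      ‖∫ x, Complex.exp (((t * dist x y ^ 2 : ℝ) : ℂ) * Complex.I) ∂μ‖ ^ 2 with hHt
    have hfac : ∀ (t : ℝ) (y : EuclideanSpace ℝ (Fin n)),
        ‖∫ ω, Complex.exp (((t * f ω y : ℝ) : ℂ) * Complex.I) ∂(ν.prod μ)‖ ^ 2 = N t * Ht t y := by
      intro t y
      have e1 : ∫ ω, Complex.exp (((t * f ω y : ℝ) : ℂ) * Complex.I) ∂(ν.prod μ) =
          (∫ u, Complex.exp (((t * u : ℝ) : ℂ) * Complex.I) ∂ν) *
            ∫ x, Complex.exp (((t * dist x y ^ 2 : ℝ) : ℂ) * Complex.I) ∂μ := by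
        rw [← integral_prod_mul]
        congr 1
        funext ω
        rw [← Complex.exp_add, hf]
        congr 1
        push_cast
        ring
      rw [e1, norm_mul, mul_pow]
    have hNm : Measurable N := by
      have : Measurable fun t : ℝ => ∫ u, Complex.exp (((t * u : ℝ) : ℂ) * Complex.I) ∂ν := by
        refine StronglyMeasurable.measurable ?_
        refine StronglyMeasurable.integral_prod_right (f := fun (t : ℝ) (u : ℝ) =>
          Complex.exp (((t * u : ℝ) : ℂ) * Complex.I)) ?_
        refine Measurable.stronglyMeasurable ?_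
        unfold Function.uncurry
        fun_prop
      exact this.norm.pow_const 2
    have hHm : Measurable (fun q : EuclideanSpace ℝ (Fin n) × ℝ => Ht q.2 q.1) := by
      have : Measurable fun q : EuclideanSpace ℝ (Fin n) × ℝ =>
          ∫ x, Complex.exp (((q.2 * dist x q.1 ^ 2 : ℝ) : ℂ) * Complex.I) ∂μ := by
        refine StronglyMeasurable.measurable ?_
        refine StronglyMeasurable.integral_prod_right
          (f := fun (q : EuclideanSpace ℝ (Fin n) × ℝ) (x : EuclideanSpace ℝ (Fin n)) =>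
          Complex.exp (((q.2 * dist x q.1 ^ 2 : ℝ) : ℂ) * Complex.I)) ?_
        refine Measurable.stronglyMeasurable ?_
        unfold Function.uncurry
        fun_prop
      exact this.norm.pow_const 2
    have hN1 : ∀ t, N t ≤ 1 := by
      intro t
      have := norm_integral_le_of_norm_le_const (μ := ν) (C := 1)
        (f := fun u : ℝ => Complex.exp (((t * u : ℝ) : ℂ) * Complex.I))
        (ae_of_all _ fun ω => by rw [Complex.norm_exp_ofReal_mul_I])
      exact pow_le_one₀ (norm_nonneg _) (by simpa using this)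
    have hH1 : ∀ t y, Ht t y ≤ 1 := by
      intro t y
      have := norm_integral_le_of_norm_le_const (μ := μ) (C := 1)
        (f := fun x : EuclideanSpace ℝ (Fin n) => Complex.exp (((t * dist x y ^ 2 : ℝ) : ℂ) * Complex.I))
        (ae_of_all _ fun ω => by rw [Complex.norm_exp_ofReal_mul_I])
      exact pow_le_one₀ (norm_nonneg _) (by simpa using this)
    have hN0 : ∀ t, 0 ≤ N t := fun t => by rw [hN]; positivity
    have hH0 : ∀ t y, 0 ≤ Ht t y := fun t y => by rw [hHt]; positivity
    calc ∫⁻ y, ((ν.prod μ).prod (ν.prod μ)) {p | |f p.1 y - f p.2 y| ≤ δ} ∂μ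
        ≤ ∫⁻ y, (ENNReal.ofReal (Real.exp (1 / 4) * (δ / Real.sqrt Real.pi)) *
            (∫⁻ t : ℝ, ENNReal.ofReal (N t * Ht t y * Real.exp (-(δ ^ 2 * t ^ 2))))) ∂μ := by
          refine lintegral_mono fun y => ?_
          have := collision_gauss (ν.prod μ) (fun ω => f ω y) (by rw [hf]; fun_prop) δ hδ
          simp_rw [hfac] at this
          exact this
      _ = ENNReal.ofReal (Real.exp (1 / 4) * (δ / Real.sqrt Real.pi)) *
            ∫⁻ t : ℝ, ∫⁻ y, ENNReal.ofReal (N t * Ht t y * Real.exp (-(δ ^ 2 * t ^ 2))) ∂μ := by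
          rw [lintegral_const_mul' _ _ ENNReal.ofReal_ne_top, lintegral_lintegral_swap]
          refine Measurable.aemeasurable ?_
          unfold Function.uncurry
          refine Measurable.ennreal_ofReal ?_
          refine Measurable.mul (Measurable.mul (hNm.comp measurable_snd) hHm) (by fun_prop)
      _ ≤ ENNReal.ofReal (Real.exp (1 / 4) * (δ / Real.sqrt Real.pi)) *
            (2 + ENNReal.ofReal C' * EE) := by
          gcongr
          have hbd : ∀ t, ∫⁻ y, ENNReal.ofReal (N t * Ht t y * Real.exp (-(δ ^ 2 * t ^ 2))) ∂μ ≤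
              ENNReal.ofReal (N t) * ENNReal.ofReal (∫ y, Ht t y ∂μ) := by
            intro t
            rw [ofReal_integral_eq_lintegral_ofReal, ← lintegral_const_mul' _ _ ENNReal.ofReal_ne_top]
            · refine lintegral_mono fun y => ?_
              rw [← ENNReal.ofReal_mul (hN0 t)]
              refine ENNReal.ofReal_le_ofReal ?_
              have : Real.exp (-(δ ^ 2 * t ^ 2)) ≤ 1 := Real.exp_le_one_iff.2 (by
                have : 0 ≤ δ ^ 2 * t ^ 2 := by positivity
                linarith)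
              have h0 := mul_nonneg (hN0 t) (hH0 t y)
              nlinarith
            · refine Integrable.of_bound ?_ 1 ?_
              · exact (hHm.comp (measurable_id.prodMk measurable_const)).aestronglyMeasurable
              · filter_upwards with y
                rw [Real.norm_eq_abs, abs_of_nonneg (hH0 t y)]
                exact hH1 t y
            · filter_upwards with y using hH0 t y
          have hms : MeasurableSet {t : ℝ | 1 ≤ |t|} :=
            measurableSet_le measurable_const (by fun_prop)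
          calc ∫⁻ t : ℝ, ∫⁻ y, ENNReal.ofReal (N t * Ht t y * Real.exp (-(δ ^ 2 * t ^ 2))) ∂μ
              ≤ ∫⁻ t : ℝ, ENNReal.ofReal (N t) * ENNReal.ofReal (∫ y, Ht t y ∂μ) :=
                lintegral_mono hbd
            _ = (∫⁻ t in {t : ℝ | 1 ≤ |t|}, ENNReal.ofReal (N t) * ENNReal.ofReal (∫ y, Ht t y ∂μ)) +
                ∫⁻ t in {t : ℝ | 1 ≤ |t|}ᶜ, ENNReal.ofReal (N t) * ENNReal.ofReal (∫ y, Ht t y ∂μ) :=
                (lintegral_add_compl _ hms).symm
            _ ≤ ENNReal.ofReal C' * EE + 2 := by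
                gcongr
                · rw [hEE, ← lintegral_const_mul' _ _ ENNReal.ofReal_ne_top]
                  refine setLIntegral_mono' hms fun t ht => ?_
                  rw [← ENNReal.ofReal_mul (hN0 t), ← ENNReal.ofReal_mul hC'.le]
                  refine ENNReal.ofReal_le_ofReal ?_
                  have h5 := hH t ht
                  have e3 : (n : ℝ) - 2 * α = -β := by rw [hβ]; ring
                  rw [e3] at h5
                  calc N t * ∫ y, Ht t y ∂μ ≤ N t * (C' * |t| ^ (-β)) :=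
                        mul_le_mul_of_nonneg_left h5 (hN0 t)
                    _ = C' * (N t * |t| ^ (-β)) := by ring
                · calc ∫⁻ t in {t : ℝ | 1 ≤ |t|}ᶜ, ENNReal.ofReal (N t) * ENNReal.ofReal (∫ y, Ht t y ∂μ)
                      ≤ ∫⁻ t in {t : ℝ | 1 ≤ |t|}ᶜ, 1 := by
                        refine lintegral_mono fun t => ?_
                        have h6 : ∫ y, Ht t y ∂μ ≤ 1 := by
                          have : ∫ y, Ht t y ∂μ ≤ ∫ y, (1 : ℝ) ∂μ := by
                            refine integral_mono ?_ (integrable_const _) (fun y => hH1 t y)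
                            refine Integrable.of_bound ?_ 1 ?_
                            · exact (hHm.comp (measurable_id.prodMk measurable_const)).aestronglyMeasurable
                            · filter_upwards with y
                              rw [Real.norm_eq_abs, abs_of_nonneg (hH0 t y)]
                              exact hH1 t y
                          simpa using this
                        calc _ ≤ ENNReal.ofReal 1 * ENNReal.ofReal 1 := by
                              gcongr
                              · exact hN1 t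
                          _ = 1 := by simp
                    _ = volume ({t : ℝ | 1 ≤ |t|}ᶜ) := by simp
                    _ ≤ volume (Ioo (-1 : ℝ) 1) := by
                        refine measure_mono ?_
                        intro t ht
                        simp only [mem_compl_iff, mem_ofPred_eq, not_le] at ht
                        exact abs_lt.1 ht
                    _ = 2 := by
                        rw [Real.volume_Ioo]; norm_num
            _ = 2 + ENNReal.ofReal C' * EE := by rw [add_comm]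
      _ = ENNReal.ofReal (B.toReal * δ) := by
          rw [ENNReal.ofReal_mul ENNReal.toReal_nonneg, ENNReal.ofReal_toReal hBtop, hB]
          rw [show Real.exp (1 / 4) * (δ / Real.sqrt Real.pi) =
            Real.exp (1 / 4) / Real.sqrt Real.pi * δ by ring, ENNReal.ofReal_mul (by positivity)]
          ring

end Pool.Agent.H744R2.Falc
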