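import Pool.Agent.H744R2.Falc.Defs

set_option autoImplicit false

/-! Task A1a : generic Frostman lemma -/

namespace Pool.Agent.H744R2.Falc

open MeasureTheory Set Metric

namespace FrostG

/-- nesting, iterated -/
theorem nest_le {X ι : Type*} (q : ℕ → X → ι)
    (hnest : ∀ j x y, q (j + 1) x = q (j + 1) y → q j x = q j y) {i j : ℕ} (hij : i ≤ j)
    {x y : X} (h : q j x = q j y) : q i x = q i y := by
  induction j, hij using Nat.le_induction with
  | base => exact h
  | succ j _ ih => exact ih (hnest j x y h)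

/-- the level sums -/
noncomputable def SS {X ι : Type*} [Fintype X] (q : ℕ → X → ι) (i : ℕ) (a : X) (w : X → ℝ) : ℝ := by
  classical
  exact ∑ p, if q i p = q i a then w p else 0

open Classical in
theorem SS_def {X ι : Type*} [Fintype X] (q : ℕ → X → ι) (i : ℕ) (a : X) (w : X → ℝ) :
    SS q i a w = ∑ p, if q i p = q i a then w p else 0 := by
  unfold SS
  rfl

theorem SS_congr {X ι : Type*} [Fintype X] (q : ℕ → X → ι) (i : ℕ) {a b : X} (w : X → ℝ)
    (h : q i a = q i b) : SS q i a w = SS q i b w := by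
  classical
  rw [SS_def, SS_def, h]

/-- existence of a maximal weight, hence of a good weight (finite step) -/
theorem exists_weight {X ι : Type*} [Fintype X] (q : ℕ → X → ι) (W : ℕ → ℝ)
    (hW : ∀ i, 0 < W i) (m : ℕ) :
    ∃ w : X → ℝ, (∀ p, 0 ≤ w p) ∧ (∀ i ≤ m, ∀ a, SS q i a w ≤ W i) ∧
      (∀ a, ∃ i ≤ m, SS q i a w = W i) := by
  classical
  set Ω : Set (X → ℝ) := {w | (∀ p, 0 ≤ w p) ∧ ∀ i ≤ m, ∀ a, SS q i a w ≤ W i} with hΩ
  have hcont : ∀ i a, Continuous fun w : X → ℝ => SS q i a w := by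
    intro i a
    simp_rw [SS_def]
    apply continuous_finsetSum
    intro p _
    split_ifs
    · exact continuous_apply p
    · exact continuous_const
  have hclosed : IsClosed Ω := by
    have h1 : Ω = (⋂ p, {w : X → ℝ | 0 ≤ w p}) ∩
        ⋂ i, ⋂ (_ : i ≤ m), ⋂ a, {w : X → ℝ | SS q i a w ≤ W i} := by
      ext w
      simp [hΩ]
    rw [h1]
    apply IsClosed.inter
    · exact isClosed_iInter fun p => isClosed_le continuous_const (continuous_apply p)
    · exact isClosed_iInter fun i => isClosed_iInter fun _ => isClosed_iInter fun a =>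
        isClosed_le (hcont i a) continuous_const
  have hle : ∀ w ∈ Ω, ∀ p, w p ≤ W 0 := by
    intro w hw p
    refine le_trans ?_ (hw.2 0 (Nat.zero_le _) p)
    rw [SS_def]
    have h2 := Finset.single_le_sum (f := fun p' => if q 0 p' = q 0 p then w p' else 0)
      (fun p' _ => by
        split_ifs
        · exact hw.1 p'
        · exact le_rfl) (Finset.mem_univ p)
    simpa using h2
  have hcomp : IsCompact Ω := by
    refine IsCompact.of_isClosed_subset (isCompact_Icc (a := fun _ : X => (0 : ℝ))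
      (b := fun _ => W 0)) hclosed ?_
    intro w hw
    exact ⟨fun p => hw.1 p, fun p => hle w hw p⟩
  have hne : Ω.Nonempty := by
    refine ⟨fun _ => 0, fun _ => le_rfl, fun i _ a => ?_⟩
    rw [SS_def]
    simp [(hW i).le]
  obtain ⟨w, hwΩ, hmax⟩ := hcomp.exists_isMaxOn hne
    (f := fun w : X → ℝ => ∑ p, w p) (continuous_finsetSum _ fun p _ =>
      continuous_apply p).continuousOn
  refine ⟨w, hwΩ.1, hwΩ.2, ?_⟩
  intro a
  by_contra hc
  push Not at hc
  have hlt : ∀ i ≤ m, SS q i a w < W i := fun i hi => lt_of_le_of_ne (hwΩ.2 i hi a) (hc i hi)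
  obtain ⟨i0, hi0, hmin⟩ := Finset.exists_min_image (Finset.range (m + 1))
    (fun i => W i - SS q i a w) ⟨0, by simp⟩
  set δ := W i0 - SS q i0 a w with hδ
  have hδ0 : 0 < δ := by
    have := hlt i0 (by simpa [Nat.lt_succ_iff] using hi0)
    linarith
  set e : X → ℝ := fun p => if p = a then δ else 0 with he
  have hup : ∀ i b, SS q i b (w + e) =
      SS q i b w + (if q i a = q i b then δ else 0) := by
    intro i b
    rw [SS_def, SS_def]
    have h1 : ∀ p, (if q i p = q i b then (w + e) p else 0) =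
        (if q i p = q i b then w p else 0) +
        (if p = a then (if q i a = q i b then δ else 0) else 0) := by
      intro p
      by_cases hpa : p = a
      · subst hpa
        by_cases hq : q i p = q i b
        · simp [hq, he]
        · simp [hq]
      · simp [he, hpa]
    simp_rw [h1]
    rw [Finset.sum_add_distrib]
    simp
  have hmem : w + e ∈ Ω := by
    refine ⟨fun p => ?_, fun i hi b => ?_⟩
    · have h1 : 0 ≤ e p := by
        rw [he]
        dsimp only
        split_ifs
        · exact hδ0.le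
        · exact le_rfl
      exact add_nonneg (hwΩ.1 p) h1
    · rw [hup]
      by_cases hq : q i a = q i b
      · rw [if_pos hq, ← SS_congr q i w hq]
        have := hmin i (Finset.mem_range.mpr (Nat.lt_succ_of_le hi))
        linarith
      · rw [if_neg hq, add_zero]
        exact hwΩ.2 i hi b
  have h2 := hmax hmem
  simp only [Set.mem_ofPred_eq, Pi.add_apply] at h2
  rw [Finset.sum_add_distrib, he, Finset.sum_ite_eq' Finset.univ a (fun _ => δ),
    if_pos (Finset.mem_univ a)] at h2
  linarith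

/-- the total weight is at least the covering constant -/
theorem total_weight {X ι : Type*} [Fintype X] (q : ℕ → X → ι)
    (hnest : ∀ j x y, q (j + 1) x = q (j + 1) y → q j x = q j y) (W : ℕ → ℝ)
    (m : ℕ) (w : X → ℝ) (hw0 : ∀ p, 0 ≤ w p)
    (hw2 : ∀ a, ∃ i ≤ m, SS q i a w = W i) :
    ∃ F : Finset (ℕ × ι), (∀ a, ∃ i ≤ m, (i, q i a) ∈ F) ∧ ∑ p ∈ F, W p.1 ≤ ∑ p, w p := by
  classical
  have hex : ∀ a, ∃ i, i ≤ m ∧ SS q i a w = W i := fun a => by
    obtain ⟨i, h1, h2⟩ := hw2 a
    exact ⟨i, h1, h2⟩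
  set n : X → ℕ := fun a => Nat.find (hex a) with hn
  have hn1 : ∀ a, n a ≤ m := fun a => (Nat.find_spec (hex a)).1
  have hn2 : ∀ a, SS q (n a) a w = W (n a) := fun a => (Nat.find_spec (hex a)).2
  have hn3 : ∀ a i, i ≤ m → SS q i a w = W i → n a ≤ i := fun a i h1 h2 =>
    Nat.find_min' (hex a) ⟨h1, h2⟩
  set F : Finset (ℕ × ι) := Finset.univ.image fun a => (n a, q (n a) a) with hF
  refine ⟨F, fun a => ⟨n a, hn1 a, Finset.mem_image_of_mem _ (Finset.mem_univ a)⟩, ?_⟩
  -- cells of `F` containing the same point coincide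
  have key : ∀ a b p : X, n a ≤ n b → q (n a) p = q (n a) a → q (n b) p = q (n b) b →
      (n a, q (n a) a) = (n b, q (n b) b) := by
    intro a b p hab ha hb
    have h1 : q (n a) b = q (n a) a := by
      rw [← nest_le q hnest hab hb, ha]
    have h2 : n b ≤ n a := hn3 b (n a) (hn1 a) (by rw [SS_congr q (n a) w h1, hn2 a])
    have h3 : n a = n b := le_antisymm hab h2
    rw [Prod.mk.injEq]
    refine ⟨h3, ?_⟩
    rw [← h1, h3]
  have h1 : ∀ x ∈ F, W x.1 = ∑ p, if q x.1 p = x.2 then w p else 0 := by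
    intro x hx
    rw [hF, Finset.mem_image] at hx
    obtain ⟨a, _, rfl⟩ := hx
    rw [← hn2 a, SS_def]
  rw [Finset.sum_congr rfl h1, Finset.sum_comm]
  apply Finset.sum_le_sum
  intro p _
  have h2 : ∀ x ∈ F, ∀ y ∈ F, q x.1 p = x.2 → q y.1 p = y.2 → x = y := by
    intro x hx y hy hxp hyp
    rw [hF, Finset.mem_image] at hx hy
    obtain ⟨a, _, rfl⟩ := hx
    obtain ⟨b, _, rfl⟩ := hy
    rcases le_total (n a) (n b) with h | h
    · exact key a b p h hxp hyp
    · exact (key b a p h hyp hxp).symm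
  rw [← Finset.sum_filter]
  have h3 : (F.filter fun x => q x.1 p = x.2).card ≤ 1 := by
    rw [Finset.card_le_one]
    intro x hx y hy
    rw [Finset.mem_filter] at hx hy
    exact h2 x hx.1 y hy.1 hx.2 hy.2
  rw [Finset.sum_const, nsmul_eq_mul]
  have h4 : ((F.filter fun x => q x.1 p = x.2).card : ℝ) ≤ 1 := by exact_mod_cast h3
  nlinarith [hw0 p]

/-- bound on a set meeting few cells -/
theorem ball_weight {X ι : Type*} [Fintype X] (q : ℕ → X → ι) (W : ℕ → ℝ)
    (hW : ∀ i, 0 < W i) (w : X → ℝ) (hw0 : ∀ p, 0 ≤ w p) (i : ℕ)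
    (hw1 : ∀ a, SS q i a w ≤ W i) (A : ℕ) (B : Finset X) (G : Finset ι) (hG : G.card ≤ A)
    (hB : ∀ p ∈ B, q i p ∈ G) : ∑ p ∈ B, w p ≤ A * W i := by
  classical
  have h1 : ∑ p ∈ B, w p ≤ ∑ g ∈ G, ∑ p, if q i p = g then w p else 0 := by
    rw [Finset.sum_comm]
    calc ∑ p ∈ B, w p ≤ ∑ p ∈ B, ∑ g ∈ G, (if q i p = g then w p else 0) := by
          apply Finset.sum_le_sum
          intro p hp
          rw [Finset.sum_ite_eq G (q i p) (fun _ => w p), if_pos (hB p hp)]
      _ ≤ ∑ p, ∑ g ∈ G, (if q i p = g then w p else 0) := by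
          apply Finset.sum_le_univ_sum_of_nonneg
          intro p
          apply Finset.sum_nonneg
          intro g _
          split_ifs
          · exact hw0 p
          · exact le_rfl
  refine h1.trans ?_
  calc ∑ g ∈ G, ∑ p, (if q i p = g then w p else 0) ≤ ∑ _g ∈ G, W i := by
        apply Finset.sum_le_sum
        intro g _
        by_cases hg : ∃ a, q i a = g
        · obtain ⟨a, rfl⟩ := hg
          rw [← SS_def]
          exact hw1 a
        · push Not at hg
          simp only [hg, if_false]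
          simp [(hW i).le]
    _ = G.card * W i := by rw [Finset.sum_const, nsmul_eq_mul]
    _ ≤ A * W i := by
        apply mul_le_mul_of_nonneg_right _ (hW i).le
        exact_mod_cast hG

/-- the approximating measures -/
theorem finite_step {X : Type*} [MetricSpace X] [MeasurableSpace X] [BorelSpace X]
    {ι : Type*} (q : ℕ → X → ι) (A : ℕ) (W : ℕ → ℝ) (hW : ∀ i, 0 < W i)
    (hnest : ∀ j x y, q (j + 1) x = q (j + 1) y → q j x = q j y)
    (K : Set X) (hKn : K.Nonempty) (hfin : ∀ j, (q j '' K).Finite) (c : ℝ) (hc : 0 < c)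
    (hcov : ∀ F : Finset (ℕ × ι), (∀ x ∈ K, ∃ j, (j, q j x) ∈ F) → c < ∑ p ∈ F, W p.1)
    (m : ℕ) : ∃ μ : ProbabilityMeasure K, ∀ i ≤ m, ∀ B : Set X, MeasurableSet B →
      (∃ F : Finset ι, F.card ≤ A ∧ ∀ y ∈ B, q i y ∈ F) →
      (μ : Measure K) (Subtype.val ⁻¹' B) ≤ ENNReal.ofReal (A * W i / c) := by
  classical
  -- representatives
  have hrep : ∀ g : ι, ∃ x : X, g ∈ q m '' K → x ∈ K ∧ q m x = g := by
    intro g
    by_cases hg : g ∈ q m '' K
    · obtain ⟨x, hx, hxg⟩ := hg
      exact ⟨x, fun _ => ⟨hx, hxg⟩⟩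
    · obtain ⟨x, _⟩ := hKn
      exact ⟨x, fun h => absurd h hg⟩
  choose rep hrep using hrep
  set P : Finset X := ((hfin m).toFinset).image rep with hP
  have hPK : ∀ p ∈ P, p ∈ K := by
    intro p hp
    rw [hP, Finset.mem_image] at hp
    obtain ⟨g, hg, rfl⟩ := hp
    exact (hrep g ((hfin m).mem_toFinset.mp hg)).1
  have hPcov : ∀ x ∈ K, ∃ p ∈ P, q m p = q m x := by
    intro x hx
    have hg : q m x ∈ q m '' K := ⟨x, hx, rfl⟩
    exact ⟨rep (q m x), Finset.mem_image_of_mem _ ((hfin m).mem_toFinset.mpr hg),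
      (hrep _ hg).2⟩
  set q' : ℕ → P → ι := fun j p => q j p with hq'
  have hnest' : ∀ j (x y : P), q' (j + 1) x = q' (j + 1) y → q' j x = q' j y :=
    fun j x y h => hnest j x y h
  obtain ⟨w, hw0, hw1, hw2⟩ := exists_weight q' W hW m
  obtain ⟨F, hF1, hF2⟩ := total_weight q' hnest' W m w hw0 hw2
  have hT : c < ∑ p, w p := by
    refine lt_of_lt_of_le (hcov F ?_) hF2
    intro x hx
    obtain ⟨p, hp, hpx⟩ := hPcov x hx
    obtain ⟨i, hi, hiF⟩ := hF1 ⟨p, hp⟩
    refine ⟨i, ?_⟩
    have h1 : q i p = q i x := nest_le q hnest hi hpx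
    have h2 : q' i ⟨p, hp⟩ = q i p := rfl
    rw [h2, h1] at hiF
    exact hiF
  set T := ∑ p, w p with hTdef
  have hT0 : 0 < T := hc.trans hT
  set toK : P → K := fun p => ⟨p.1, hPK p.1 p.2⟩ with htoK
  set ν : Measure K := ∑ p : P, ENNReal.ofReal (w p / T) • Measure.dirac (toK p) with hν
  have hνapp : ∀ B : Set X, MeasurableSet B → ν (Subtype.val ⁻¹' B) =
      ENNReal.ofReal ((∑ p ∈ Finset.univ.filter (fun p : P => (p : X) ∈ B), w p) / T) := by
    intro B hB
    have hBK : MeasurableSet ((Subtype.val : K → X) ⁻¹' B) := measurable_subtype_coe hB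
    rw [hν, Measure.finsetSum_apply, Finset.sum_div, ENNReal.ofReal_sum_of_nonneg,
      Finset.sum_filter]
    · apply Finset.sum_congr rfl
      intro p _
      rw [Measure.smul_apply, Measure.dirac_apply' _ hBK, smul_eq_mul]
      by_cases hpB : (p : X) ∈ B
      · rw [if_pos hpB, indicator_of_mem (by exact hpB)]
        simp
      · rw [if_neg hpB, indicator_of_notMem (by exact hpB)]
        simp
    · intro p _
      exact div_nonneg (hw0 p) hT0.le
  have hprob : IsProbabilityMeasure ν := by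
    constructor
    have h1 := hνapp univ MeasurableSet.univ
    rw [preimage_univ] at h1
    rw [h1]
    simp only [mem_univ, Finset.filter_true]
    rw [← hTdef, div_self hT0.ne', ENNReal.ofReal_one]
  refine ⟨⟨ν, hprob⟩, ?_⟩
  intro i hi B hB hBF
  obtain ⟨G, hG, hGB⟩ := hBF
  change ν (Subtype.val ⁻¹' B) ≤ _
  rw [hνapp B hB]
  apply ENNReal.ofReal_le_ofReal
  have h2 := ball_weight q' W hW w hw0 i (hw1 i hi) A
    (Finset.univ.filter (fun p : P => (p : X) ∈ B)) G hG (fun p hp =>
      hGB p (Finset.mem_filter.mp hp).2)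
  calc (∑ p ∈ Finset.univ.filter (fun p : P => (p : X) ∈ B), w p) / T
      ≤ (A * W i) / T := div_le_div_of_nonneg_right h2 hT0.le
    _ ≤ A * W i / c := by
        apply div_le_div_of_nonneg_left _ hc hT.le
        have := (hW i).le
        positivity

end FrostG

open FrostG in
/-- generic Frostman dichotomy with respect to a system of nested partitions `q j : X → ι` -/
theorem frostman_generic {X : Type*} [MetricSpace X] [MeasurableSpace X] [BorelSpace X]
    {ι : Type*} (q : ℕ → X → ι) (A : ℕ) (s : ℝ) (hs : 0 < s)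
    (hnest : ∀ j x y, q (j + 1) x = q (j + 1) y → q j x = q j y)
    (hdiam : ∀ j x y, q j x = q j y → dist x y ≤ A * (2 : ℝ)⁻¹ ^ j)
    (hball : ∀ j x, ∃ F : Finset ι, F.card ≤ A ∧ ∀ y ∈ closedBall x ((2 : ℝ)⁻¹ ^ j), q j y ∈ F)
    (K : Set X) (hK : IsCompact K) (hKn : K.Nonempty) (hfin : ∀ j, (q j '' K).Finite) :
    Fro K s ∨ ∀ ε : ℝ, 0 < ε → ∃ F : Finset (ℕ × ι),
      ∑ p ∈ F, ((2 : ℝ)⁻¹ ^ p.1) ^ s ≤ ε ∧ ∀ x ∈ K, ∃ j, (j, q j x) ∈ F := by
  by_cases hsmall : ∀ ε : ℝ, 0 < ε → ∃ F : Finset (ℕ × ι),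
      ∑ p ∈ F, ((2 : ℝ)⁻¹ ^ p.1) ^ s ≤ ε ∧ ∀ x ∈ K, ∃ j, (j, q j x) ∈ F
  · exact Or.inr hsmall
  left
  push Not at hsmall
  obtain ⟨c, hc, hcov⟩ := hsmall
  set W : ℕ → ℝ := fun i => ((2 : ℝ)⁻¹ ^ i) ^ s with hWdef
  have hW : ∀ i, 0 < W i := fun i => Real.rpow_pos_of_pos (by positivity) s
  have hcov' : ∀ F : Finset (ℕ × ι), (∀ x ∈ K, ∃ j, (j, q j x) ∈ F) →
      c < ∑ p ∈ F, W p.1 := by
    intro F hF
    by_contra hlt
    push Not at hlt
    obtain ⟨x, hx, hxF⟩ := hcov F hlt
    obtain ⟨j, hj⟩ := hF x hx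
    exact hxF j hj
  have hstep := fun m => finite_step q A W hW hnest K hKn hfin c hc hcov' m
  choose μs hμs using hstep
  have hcK : CompactSpace K := isCompact_iff_compactSpace.mp hK
  -- a limit along an ultrafilter
  obtain ⟨μ, -, hμ⟩ : ∃ μ ∈ (univ : Set (ProbabilityMeasure K)),
      (Filter.map μs (Filter.hyperfilter ℕ : Filter ℕ)) ≤ nhds μ :=
    isCompact_iff_ultrafilter_le_nhds.mp isCompact_univ
      ((Filter.hyperfilter ℕ).map μs) (by simp)
  have hlim : Filter.Tendsto μs (Filter.hyperfilter ℕ : Filter ℕ) (nhds μ) := hμ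
  have hbound : ∀ (x : X) (r : ℝ) (i : ℕ), 0 < r → 2 * r ≤ (2 : ℝ)⁻¹ ^ i →
      (μ : Measure K) (Subtype.val ⁻¹' (closedBall x r)) ≤ ENNReal.ofReal (A * W i / c) := by
    intro x r i hr hri
    have hopen : IsOpen ((Subtype.val : K → X) ⁻¹' (ball x (2 * r))) :=
      isOpen_ball.preimage continuous_subtype_val
    calc (μ : Measure K) (Subtype.val ⁻¹' (closedBall x r))
        ≤ (μ : Measure K) (Subtype.val ⁻¹' (ball x (2 * r))) := by
          apply measure_mono
          apply preimage_mono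
          exact closedBall_subset_ball (by linarith)
      _ ≤ (Filter.hyperfilter ℕ : Filter ℕ).liminf fun m =>
          (μs m : Measure K) (Subtype.val ⁻¹' (ball x (2 * r))) :=
          ProbabilityMeasure.le_liminf_measure_open_of_tendsto hlim hopen
      _ ≤ ENNReal.ofReal (A * W i / c) := by
          apply Filter.liminf_le_of_frequently_le'
          apply Filter.Eventually.frequently
          have hev : ∀ᶠ m : ℕ in (Filter.hyperfilter ℕ : Filter ℕ), i ≤ m :=
            (Nat.hyperfilter_le_atTop) (Filter.eventually_ge_atTop i)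
          filter_upwards [hev] with m hm
          calc (μs m : Measure K) (Subtype.val ⁻¹' (ball x (2 * r)))
              ≤ (μs m : Measure K) (Subtype.val ⁻¹' (closedBall x ((2 : ℝ)⁻¹ ^ i))) := by
                apply measure_mono
                apply preimage_mono
                exact ball_subset_closedBall.trans (closedBall_subset_closedBall hri)
            _ ≤ _ := hμs m i hm _ isClosed_closedBall.measurableSet (hball i x)
  refine ⟨(μ : Measure K).map Subtype.val, ?_, ?_, 2 ^ s + A * 4 ^ s / c, by positivity, ?_⟩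
  · exact Measure.isProbabilityMeasure_map measurable_subtype_coe.aemeasurable
  · rw [Measure.map_apply measurable_subtype_coe hK.isClosed.measurableSet.compl]
    have h1 : (Subtype.val : K → X) ⁻¹' Kᶜ = ∅ := by
      ext x
      simp
    rw [h1, measure_empty]
  · intro x r hr
    rw [Measure.map_apply measurable_subtype_coe isClosed_closedBall.measurableSet]
    have hrs : 0 < r ^ s := Real.rpow_pos_of_pos hr s
    by_cases h2r : 2 * r ≤ 1
    · obtain ⟨i, hi1, hi2⟩ := exists_nat_pow_near_of_lt_one (x := 2 * r) (y := (2 : ℝ)⁻¹)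
        (by linarith) h2r (by norm_num) (by norm_num)
      refine (hbound x r i hr hi2).trans (ENNReal.ofReal_le_ofReal ?_)
      have h1 : (2 : ℝ)⁻¹ ^ i ≤ 4 * r := by
        rw [pow_succ] at hi1
        linarith
      have h2 : W i ≤ 4 ^ s * r ^ s := by
        rw [hWdef]
        simp only
        rw [← Real.mul_rpow (by norm_num) hr.le]
        exact Real.rpow_le_rpow (by positivity) h1 hs.le
      have h3 : A * W i / c ≤ A * 4 ^ s / c * r ^ s := by
        rw [div_mul_eq_mul_div]
        apply div_le_div_of_nonneg_right _ hc.le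
        rw [mul_assoc]
        exact mul_le_mul_of_nonneg_left h2 (Nat.cast_nonneg A)
      have h4 : (0 : ℝ) ≤ 2 ^ s * r ^ s := by positivity
      rw [add_mul]
      linarith
    · push Not at h2r
      refine (prob_le_one).trans ?_
      rw [← ENNReal.ofReal_one]
      apply ENNReal.ofReal_le_ofReal
      have h1 : 1 ≤ (2 * r) ^ s := Real.one_le_rpow h2r.le hs.le
      rw [Real.mul_rpow (by norm_num) hr.le] at h1
      have h4 : (0 : ℝ) ≤ A * 4 ^ s / c * r ^ s := by positivity
      rw [add_mul]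
      linarith

end Pool.Agent.H744R2.Falc
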