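import Mathlib
import Pool.Agent.H744R2.Falc.FrostG

set_option autoImplicit false

/-! Frostman's lemma on the line. -/

namespace Pool.Agent.H744R2.Falc

open MeasureTheory Set Metric

/-- floors of dyadic multiples are nested -/
lemma floor_nest (j : ℕ) (x y : ℝ)
    (h : ⌊(2 : ℝ) ^ (j + 1) * x⌋ = ⌊(2 : ℝ) ^ (j + 1) * y⌋) :
    ⌊(2 : ℝ) ^ j * x⌋ = ⌊(2 : ℝ) ^ j * y⌋ := by
  symm
  rw [Int.floor_eq_iff]
  have h1 := Int.floor_le ((2 : ℝ) ^ j * x)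
  have h2 := Int.lt_floor_add_one ((2 : ℝ) ^ j * x)
  set m : ℤ := ⌊(2 : ℝ) ^ j * x⌋ with hm
  have e : ∀ z : ℝ, (2 : ℝ) ^ (j + 1) * z = 2 * ((2 : ℝ) ^ j * z) := by
    intro z
    rw [pow_succ]
    ring
  have h3 : 2 * m ≤ ⌊(2 : ℝ) ^ (j + 1) * x⌋ := by
    rw [Int.le_floor, e]
    push_cast
    linarith
  have h4 : ⌊(2 : ℝ) ^ (j + 1) * x⌋ < 2 * m + 2 := by
    rw [Int.floor_lt, e]
    push_cast
    linarith
  rw [h] at h3 h4
  constructor
  · have h5 : ((2 * m : ℤ) : ℝ) ≤ (2 : ℝ) ^ (j + 1) * y := Int.le_floor.1 h3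
    rw [e] at h5
    push_cast at h5
    linarith
  · have h5 : (2 : ℝ) ^ (j + 1) * y < ((2 * m + 2 : ℤ) : ℝ) := Int.floor_lt.1 h4
    rw [e] at h5
    push_cast at h5
    linarith

lemma floor_diam (j : ℕ) (x y : ℝ) (h : ⌊(2 : ℝ) ^ j * x⌋ = ⌊(2 : ℝ) ^ j * y⌋) :
    |x - y| ≤ (2 : ℝ)⁻¹ ^ j := by
  have h1 := Int.abs_sub_lt_one_of_floor_eq_floor h
  rw [← mul_sub, abs_mul, abs_of_pos (by positivity : (0 : ℝ) < 2 ^ j)] at h1
  rw [inv_pow, inv_eq_one_div, le_div_iff₀ (by positivity), mul_comm]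
  exact h1.le

lemma floor_ball (j : ℕ) (x y : ℝ) (h : |y - x| ≤ (2 : ℝ)⁻¹ ^ j) :
    ⌊(2 : ℝ) ^ j * y⌋ ∈ Finset.Icc (⌊(2 : ℝ) ^ j * x⌋ - 1) (⌊(2 : ℝ) ^ j * x⌋ + 1) := by
  have h1 := Int.floor_le ((2 : ℝ) ^ j * x)
  have h2 := Int.lt_floor_add_one ((2 : ℝ) ^ j * x)
  have h0 : (0 : ℝ) < 2 ^ j := by positivity
  rw [inv_pow, inv_eq_one_div, le_div_iff₀ h0] at h
  have h3 : |(2 : ℝ) ^ j * y - (2 : ℝ) ^ j * x| ≤ 1 := by
    rw [← mul_sub, abs_mul, abs_of_pos h0, mul_comm]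
    exact h
  obtain ⟨h4, h5⟩ := abs_le.1 h3
  rw [Finset.mem_Icc]
  constructor
  · rw [Int.le_floor]
    push_cast
    linarith
  · rw [← Int.lt_add_one_iff, Int.floor_lt]
    push_cast
    linarith

lemma floor_fin (D : Set ℝ) (hD : Bornology.IsBounded D) (j : ℕ) :
    ((fun x : ℝ => ⌊(2 : ℝ) ^ j * x⌋) '' D).Finite := by
  obtain ⟨R, hR⟩ := hD.subset_closedBall 0
  apply (Set.finite_Icc (⌊-((2 : ℝ) ^ j * R)⌋) (⌊(2 : ℝ) ^ j * R⌋)).subset
  rintro _ ⟨x, hx, rfl⟩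
  have h1 := hR hx
  rw [mem_closedBall, Real.dist_eq, sub_zero, abs_le] at h1
  have h0 : (0 : ℝ) < 2 ^ j := by positivity
  constructor
  · apply Int.floor_le_floor
    nlinarith [h1.1]
  · apply Int.floor_le_floor
    nlinarith [h1.2]

lemma fro_zero {X : Type*} [MetricSpace X] [MeasurableSpace X] [BorelSpace X] (K : Set X)
    (hK : MeasurableSet K) (hKn : K.Nonempty) : Fro K 0 := by
  obtain ⟨x0, hx0⟩ := hKn
  refine ⟨Measure.dirac x0, inferInstance, ?_, 1, one_pos, ?_⟩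
  · rw [Measure.dirac_apply' _ hK.compl]
    simp [hx0]
  · intro x r _
    rw [Real.rpow_zero, mul_one, ENNReal.ofReal_one]
    exact prob_le_one

/-- the sum condition forces high levels -/
lemma level_of_sum {ι : Type*} (F : Finset (ℕ × ι)) (s : ℝ) (hs : 0 < s) (j₀ : ℕ)
    (hF : ∑ p ∈ F, ((2 : ℝ)⁻¹ ^ p.1) ^ s ≤ (((2 : ℝ)⁻¹ ^ j₀) ^ s) / 2) :
    ∀ p ∈ F, j₀ ≤ p.1 := by
  intro p hp
  by_contra hcon
  push Not at hcon
  have h1 : ((2 : ℝ)⁻¹ ^ p.1) ^ s ≤ ∑ p ∈ F, ((2 : ℝ)⁻¹ ^ p.1) ^ s :=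
    Finset.single_le_sum (f := fun p : ℕ × ι => ((2 : ℝ)⁻¹ ^ p.1) ^ s)
      (fun _ _ => by positivity) hp
  have h2 : ((2 : ℝ)⁻¹ ^ j₀) ^ s ≤ ((2 : ℝ)⁻¹ ^ p.1) ^ s := by
    apply Real.rpow_le_rpow (by positivity) _ hs.le
    exact pow_le_pow_of_le_one (by norm_num) (by norm_num) hcon.le
  have h3 : (0 : ℝ) < ((2 : ℝ)⁻¹ ^ j₀) ^ s := by positivity
  linarith

/-- Frostman's lemma for compact subsets of the line, in dichotomy form -/
theorem frostman_real (D : Set ℝ) (hD : IsCompact D) (hDn : D.Nonempty) (s : ℝ) (hs : 0 ≤ s) :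
    Fro D s ∨ SmallCover D s := by
  classical
  rcases hs.eq_or_lt with rfl | hs
  · exact Or.inl (fro_zero D hD.measurableSet hDn)
  rcases frostman_generic (fun j (x : ℝ) => ⌊(2 : ℝ) ^ j * x⌋) 3 s hs
    (fun j x y h => floor_nest j x y h)
    (fun j x y h => by
      rw [Real.dist_eq]
      have h1 := floor_diam j x y h
      have h2 : (0 : ℝ) < (2 : ℝ)⁻¹ ^ j := by positivity
      push_cast
      linarith)
    (fun j x => ⟨Finset.Icc (⌊(2 : ℝ) ^ j * x⌋ - 1) (⌊(2 : ℝ) ^ j * x⌋ + 1), by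
      rw [Int.card_Icc]
      omega, fun y hy => by
        rw [mem_closedBall, Real.dist_eq] at hy
        exact floor_ball j x y hy⟩) D hD hDn (fun j => floor_fin D hD.isBounded j) with h | h
  · exact Or.inl h
  · right
    intro j₀
    obtain ⟨F, hF, hcov⟩ := h ((((2 : ℝ)⁻¹ ^ j₀) ^ s) / 2) (by positivity)
    have hlev := level_of_sum F s hs j₀ hF
    refine ⟨fun j => (F.filter (fun p => p.1 = j)).image Prod.snd, ?_, ?_, ?_⟩
    · intro j hj
      rw [Finset.image_eq_empty, Finset.filter_eq_empty_iff]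
      intro p hp hpj
      have := hlev p hp
      omega
    · intro j
      have h1 : ((((F.filter (fun p => p.1 = j)).image Prod.snd).card : ℝ)) *
          ((2 : ℝ)⁻¹ ^ j) ^ s ≤ ∑ p ∈ F, ((2 : ℝ)⁻¹ ^ p.1) ^ s := by
        calc ((((F.filter (fun p => p.1 = j)).image Prod.snd).card : ℝ)) * ((2 : ℝ)⁻¹ ^ j) ^ s
            ≤ ((F.filter (fun p => p.1 = j)).card : ℝ) * ((2 : ℝ)⁻¹ ^ j) ^ s := by
              apply mul_le_mul_of_nonneg_right _ (by positivity)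
              exact_mod_cast Finset.card_image_le
          _ = ∑ p ∈ F.filter (fun p => p.1 = j), ((2 : ℝ)⁻¹ ^ p.1) ^ s := by
              rw [← nsmul_eq_mul, ← Finset.sum_const]
              apply Finset.sum_congr rfl
              intro p hp
              rw [(Finset.mem_filter.1 hp).2]
          _ ≤ ∑ p ∈ F, ((2 : ℝ)⁻¹ ^ p.1) ^ s :=
              Finset.sum_le_sum_of_subset_of_nonneg (Finset.filter_subset _ _)
                (fun _ _ _ => by positivity)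
      have h2 : ((2 : ℝ)⁻¹ ^ j₀) ^ s ≤ 1 := by
        apply Real.rpow_le_one (by positivity) _ hs.le
        exact pow_le_one₀ (by norm_num) (by norm_num)
      have h3 : ((2 : ℝ)⁻¹ ^ j) ^ s * (2 : ℝ) ^ (s * j) = 1 := by
        rw [inv_pow, Real.inv_rpow (by positivity), ← Real.rpow_natCast, ← Real.rpow_mul (by norm_num),
          mul_comm (j : ℝ) s]
        exact inv_mul_cancel₀ (by positivity)
      have h4 : (0 : ℝ) < (2 : ℝ) ^ (s * j) := by positivity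
      calc ((((F.filter (fun p => p.1 = j)).image Prod.snd).card : ℝ))
          = ((((F.filter (fun p => p.1 = j)).image Prod.snd).card : ℝ) * ((2 : ℝ)⁻¹ ^ j) ^ s) *
            (2 : ℝ) ^ (s * j) := by rw [mul_assoc, h3, mul_one]
        _ ≤ 1 * (2 : ℝ) ^ (s * j) := by
            apply mul_le_mul_of_nonneg_right _ h4.le
            linarith
        _ = (2 : ℝ) ^ (s * j) := one_mul _
    · intro t ht
      obtain ⟨j, hj⟩ := hcov t ht
      refine ⟨j, Finset.mem_image.2 ⟨(j, ⌊(2 : ℝ) ^ j * t⌋), Finset.mem_filter.2 ⟨hj, rfl⟩, rfl⟩⟩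

end Pool.Agent.H744R2.Falc
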