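import Mathlib
import Pool.Agent.H744R2.Falc.FrostR

set_option autoImplicit false

/-! Frostman's lemma, Hausdorff dimension form. -/

namespace Pool.Agent.H744R2.Falc

open MeasureTheory Set Metric Filter Topology

/-- the hcell of a point -/
noncomputable def hcell (n j : ℕ) (x : EuclideanSpace ℝ (Fin n)) : Fin n → ℤ :=
  fun i => ⌊(2 : ℝ) ^ j * x i⌋

lemma cell_diam (n j : ℕ) (x y : EuclideanSpace ℝ (Fin n)) (h : hcell n j x = hcell n j y) :
    dist x y ≤ ((n : ℝ) + 1) * (2 : ℝ)⁻¹ ^ j := by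
  have h0 : (0 : ℝ) < (2 : ℝ)⁻¹ ^ j := by positivity
  rw [EuclideanSpace.dist_eq]
  apply Real.sqrt_le_iff.2
  refine ⟨by positivity, ?_⟩
  calc ∑ i, dist (x i) (y i) ^ 2 ≤ ∑ _i : Fin n, ((2 : ℝ)⁻¹ ^ j) ^ 2 := by
        apply Finset.sum_le_sum
        intro i _
        apply pow_le_pow_left₀ dist_nonneg
        rw [Real.dist_eq]
        exact floor_diam j (x i) (y i) (congrFun h i)
    _ = (n : ℝ) * ((2 : ℝ)⁻¹ ^ j) ^ 2 := by simp
    _ ≤ (((n : ℝ) + 1) * (2 : ℝ)⁻¹ ^ j) ^ 2 := by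
        rw [mul_pow]
        apply mul_le_mul_of_nonneg_right _ (by positivity)
        have : (0 : ℝ) ≤ n := Nat.cast_nonneg n
        nlinarith

lemma abs_coord_le (n : ℕ) (x y : EuclideanSpace ℝ (Fin n)) (i : Fin n) :
    |y i - x i| ≤ dist y x := by
  rw [dist_eq_norm]
  have h := PiLp.norm_apply_le (y - x) i
  exact h

/-- Frostman's lemma for compact subsets of Euclidean space, Hausdorff dimension form -/
theorem frostman_dimH (n : ℕ) (K : Set (EuclideanSpace ℝ (Fin n))) (hK : IsCompact K) (s : ℝ)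
    (hs : 0 ≤ s) (h : ENNReal.ofReal s < dimH K) : Fro K s := by
  classical
  have hKn : K.Nonempty := by
    by_contra hne
    rw [not_nonempty_iff_eq_empty] at hne
    rw [hne, dimH_empty] at h
    exact absurd h not_lt_zero
  rcases hs.eq_or_lt with rfl | hs0
  · exact fro_zero K hK.measurableSet hKn
  rcases frostman_generic (hcell n) (3 ^ n + (n + 1)) s hs0
    (fun j x y h => by
      funext i
      exact floor_nest j (x i) (y i) (congrFun h i))
    (fun j x y h => by
      refine (cell_diam n j x y h).trans ?_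
      apply mul_le_mul_of_nonneg_right _ (by positivity)
      push_cast
      have : (0 : ℝ) ≤ 3 ^ n := by positivity
      linarith)
    (fun j x => ⟨Fintype.piFinset (fun i => Finset.Icc (⌊(2 : ℝ) ^ j * x i⌋ - 1)
      (⌊(2 : ℝ) ^ j * x i⌋ + 1)), by
      rw [Fintype.card_piFinset]
      have : ∀ i : Fin n, (Finset.Icc (⌊(2 : ℝ) ^ j * x i⌋ - 1)
          (⌊(2 : ℝ) ^ j * x i⌋ + 1)).card = 3 := by
        intro i
        rw [Int.card_Icc]
        omega
      rw [Finset.prod_congr rfl (fun i _ => this i)]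
      simp, fun y hy => by
        rw [Fintype.mem_piFinset]
        intro i
        rw [mem_closedBall] at hy
        exact floor_ball j (x i) (y i) ((abs_coord_le n x y i).trans hy)⟩) K hK hKn
    (fun j => by
      have h1 : ∀ i : Fin n, ((fun x : ℝ => ⌊(2 : ℝ) ^ j * x⌋) ''
          ((fun x : EuclideanSpace ℝ (Fin n) => x i) '' K)).Finite := by
        intro i
        apply floor_fin
        apply IsCompact.isBounded
        exact hK.image (by fun_prop)
      apply (Set.Finite.pi' h1).subset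
      rintro _ ⟨x, hx, rfl⟩ i
      exact ⟨x i, ⟨x, hx, rfl⟩, rfl⟩) with h1 | h1
  · exact h1
  exfalso
  -- the Hausdorff measure vanishes
  choose F hF hcov using fun m : ℕ => h1 (1 / ((m : ℝ) + 1)) (by positivity)
  let B : ℝ := (n : ℝ) + 1
  have hB : 0 < B := by positivity
  have hdiam : ∀ (m : ℕ) (p : F m),
      Metric.ediam {x : EuclideanSpace ℝ (Fin n) | hcell n p.1.1 x = p.1.2} ≤
        ENNReal.ofReal (B * (2 : ℝ)⁻¹ ^ p.1.1) := by
    intro m p
    apply Metric.ediam_le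
    intro x hx y hy
    rw [edist_dist]
    apply ENNReal.ofReal_le_ofReal
    exact cell_diam n _ x y (hx.trans hy.symm)
  have hsmall : ∀ (m : ℕ) (p : F m), (2 : ℝ)⁻¹ ^ p.1.1 ≤ (1 / ((m : ℝ) + 1)) ^ (1 / s) := by
    intro m p
    have h2 : ((2 : ℝ)⁻¹ ^ p.1.1) ^ s ≤ 1 / ((m : ℝ) + 1) :=
      (Finset.single_le_sum (f := fun p : ℕ × (Fin n → ℤ) => ((2 : ℝ)⁻¹ ^ p.1) ^ s)
        (fun _ _ => by positivity) p.2).trans (hF m)
    have h3 : (2 : ℝ)⁻¹ ^ p.1.1 = (((2 : ℝ)⁻¹ ^ p.1.1) ^ s) ^ (1 / s) := by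
      rw [← Real.rpow_mul (by positivity), mul_one_div_cancel hs0.ne', Real.rpow_one]
    rw [h3]
    exact Real.rpow_le_rpow (by positivity) h2 (by positivity)
  have hr0 : Tendsto (fun m : ℕ => (1 / ((m : ℝ) + 1)) ^ (1 / s)) atTop (𝓝 0) := by
    have h2 := tendsto_one_div_add_atTop_nhds_zero_nat (𝕜 := ℝ)
    have h3 := h2.rpow_const (p := 1 / s) (Or.inr (by positivity))
    rwa [Real.zero_rpow (by positivity)] at h3
  have hr : Tendsto (fun m : ℕ => ENNReal.ofReal (B * (1 / ((m : ℝ) + 1)) ^ (1 / s))) atTop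
      (𝓝 0) := by
    have h2 := (hr0.const_mul B)
    rw [mul_zero] at h2
    have h3 := ENNReal.tendsto_ofReal h2
    rwa [ENNReal.ofReal_zero] at h3
  have hle := Measure.hausdorffMeasure_le_liminf_sum (β := ℕ) (ι := fun m => F m) s K
    (fun m : ℕ => ENNReal.ofReal (B * (1 / ((m : ℝ) + 1)) ^ (1 / s))) hr
    (fun m p => {x : EuclideanSpace ℝ (Fin n) | hcell n p.1.1 x = p.1.2})
    (Filter.Eventually.of_forall fun m p => (hdiam m p).trans (ENNReal.ofReal_le_ofReal
      (mul_le_mul_of_nonneg_left (hsmall m p) hB.le)))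
    (Filter.Eventually.of_forall fun m x hx => by
      obtain ⟨j, hj⟩ := hcov m x hx
      exact mem_iUnion.2 ⟨⟨(j, hcell n j x), hj⟩, rfl⟩)
  have hsum : ∀ m : ℕ, ∑ p : F m,
      Metric.ediam {x : EuclideanSpace ℝ (Fin n) | hcell n p.1.1 x = p.1.2} ^ s ≤
        ENNReal.ofReal (B ^ s * (1 / ((m : ℝ) + 1))) := by
    intro m
    calc ∑ p : F m, Metric.ediam {x : EuclideanSpace ℝ (Fin n) | hcell n p.1.1 x = p.1.2} ^ s
        ≤ ∑ p : F m, ENNReal.ofReal (B ^ s * ((2 : ℝ)⁻¹ ^ p.1.1) ^ s) := by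
          apply Finset.sum_le_sum
          intro p _
          refine (ENNReal.rpow_le_rpow (hdiam m p) hs0.le).trans ?_
          rw [ENNReal.ofReal_rpow_of_nonneg (by positivity) hs0.le,
            Real.mul_rpow hB.le (by positivity)]
      _ = ENNReal.ofReal (∑ p : F m, B ^ s * ((2 : ℝ)⁻¹ ^ p.1.1) ^ s) := by
          rw [ENNReal.ofReal_sum_of_nonneg (fun _ _ => by positivity)]
      _ ≤ ENNReal.ofReal (B ^ s * (1 / ((m : ℝ) + 1))) := by
          apply ENNReal.ofReal_le_ofReal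
          rw [← Finset.mul_sum]
          apply mul_le_mul_of_nonneg_left _ (by positivity)
          have := hF m
          rw [← Finset.sum_coe_sort (F m) (fun p : ℕ × (Fin n → ℤ) => ((2 : ℝ)⁻¹ ^ p.1) ^ s)]
            at this
          exact this
  have hlim : Tendsto (fun m : ℕ => ENNReal.ofReal (B ^ s * (1 / ((m : ℝ) + 1)))) atTop
      (𝓝 0) := by
    have h2 := (tendsto_one_div_add_atTop_nhds_zero_nat (𝕜 := ℝ)).const_mul (B ^ s)
    rw [mul_zero] at h2
    have h3 := ENNReal.tendsto_ofReal h2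
    rwa [ENNReal.ofReal_zero] at h3
  have hzero : μH[s] K = 0 := by
    rw [← nonpos_iff_eq_zero]
    refine hle.trans ?_
    rw [← hlim.liminf_eq]
    exact liminf_le_liminf (Filter.Eventually.of_forall hsum)
  have htop : μH[s] K = ⊤ := by
    have h2 : ((s.toNNReal : NNReal) : ENNReal) < dimH K := h
    have h3 := hausdorffMeasure_of_lt_dimH h2
    rwa [Real.coe_toNNReal s hs] at h3
  rw [hzero] at htop
  exact absurd htop (by simp)

end Pool.Agent.H744R2.Falc
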