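import Pool.Agent.H744R2.Falc.Defs

set_option autoImplicit false

namespace Pool.Agent.H744R2.Falc

open MeasureTheory Set Metric

/-- Gaussian Fourier transform on the line, real form -/
theorem gauss_ft (δ v : ℝ) (hδ : 0 < δ) :
    ∫ t : ℝ, Complex.exp (((t * v : ℝ) : ℂ) * Complex.I) * ((Real.exp (-(δ ^ 2 * t ^ 2)) : ℝ) : ℂ) =
      ((Real.sqrt Real.pi / δ * Real.exp (-(v ^ 2 / (4 * δ ^ 2))) : ℝ) : ℂ) := by
  have h := fourierIntegral_gaussian (b := ((δ ^ 2 : ℝ) : ℂ)) (by rw [Complex.ofReal_re]; positivity) (v : ℂ)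
  have e1 : (fun t : ℝ => Complex.exp (((t * v : ℝ) : ℂ) * Complex.I) *
      ((Real.exp (-(δ ^ 2 * t ^ 2)) : ℝ) : ℂ)) =
      fun x : ℝ => Complex.exp (Complex.I * (v : ℂ) * x) * Complex.exp (-((δ ^ 2 : ℝ) : ℂ) * (x : ℂ) ^ 2) := by
    funext t
    push_cast
    congr 1
    · congr 1; ring
    · congr 1; ring
  rw [e1, h]
  have e2 : ((Real.pi : ℂ) / ((δ ^ 2 : ℝ) : ℂ)) ^ (1 / 2 : ℂ) = ((Real.sqrt Real.pi / δ : ℝ) : ℂ) := by
    rw [show ((Real.pi : ℂ) / ((δ ^ 2 : ℝ) : ℂ)) = ((Real.pi / δ ^ 2 : ℝ) : ℂ) by push_cast; ring,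
      show (1 / 2 : ℂ) = ((1 / 2 : ℝ) : ℂ) by push_cast; ring,
      ← Complex.ofReal_cpow (by positivity), ← Real.sqrt_eq_rpow, Real.sqrt_div (by positivity),
      Real.sqrt_sq hδ.le]
  rw [e2]
  push_cast
  congr 1
  congr 1
  ring


/-- the collision probability of a random variable, at scale `δ`, is the Gaussian-weighted energy of
its characteristic function -/
theorem gauss_energy {Ω : Type*} [MeasurableSpace Ω] (P : Measure Ω) [IsProbabilityMeasure P]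
    (g : Ω → ℝ) (hg : Measurable g) (δ : ℝ) (hδ : 0 < δ) :
    ∫ p, Real.exp (-((g p.1 - g p.2) ^ 2 / (4 * δ ^ 2))) ∂(P.prod P) =
      δ / Real.sqrt Real.pi *
        ∫ t : ℝ, ‖∫ ω, Complex.exp (((t * g ω : ℝ) : ℂ) * Complex.I) ∂P‖ ^ 2 *
          Real.exp (-(δ ^ 2 * t ^ 2)) := by
  have hpi : (0 : ℝ) < Real.sqrt Real.pi := Real.sqrt_pos.2 Real.pi_pos
  -- the squared norm as a double integral
  have h1 : ∀ t : ℝ, ((‖∫ ω, Complex.exp (((t * g ω : ℝ) : ℂ) * Complex.I) ∂P‖ ^ 2 : ℝ) : ℂ) =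
      ∫ p, Complex.exp (((t * (g p.1 - g p.2) : ℝ) : ℂ) * Complex.I) ∂(P.prod P) := by
    intro t
    have h2 : ∫ p, Complex.exp (((t * (g p.1 - g p.2) : ℝ) : ℂ) * Complex.I) ∂(P.prod P) =
        (∫ ω, Complex.exp (((t * g ω : ℝ) : ℂ) * Complex.I) ∂P) *
          ∫ ω, Complex.exp (-(((t * g ω : ℝ) : ℂ) * Complex.I)) ∂P := by
      rw [← integral_prod_mul]
      congr 1
      funext p
      rw [← Complex.exp_add]
      congr 1
      push_cast
      ring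
    have h3 : ∫ ω, Complex.exp (-(((t * g ω : ℝ) : ℂ) * Complex.I)) ∂P =
        (starRingEnd ℂ) (∫ ω, Complex.exp (((t * g ω : ℝ) : ℂ) * Complex.I) ∂P) := by
      rw [← integral_conj]
      congr 1
      funext ω
      rw [← Complex.exp_conj]
      congr 1
      simp [Complex.conj_I]
    rw [h2, h3, Complex.mul_conj, Complex.normSq_eq_norm_sq]
  have hmeas : Measurable (fun q : ℝ × (Ω × Ω) =>
      Complex.exp (((q.1 * (g q.2.1 - g q.2.2) : ℝ) : ℂ) * Complex.I)) := by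
    fun_prop
  have hint : Integrable (fun q : ℝ × (Ω × Ω) =>
      Complex.exp (((q.1 * (g q.2.1 - g q.2.2) : ℝ) : ℂ) * Complex.I) *
        ((Real.exp (-(δ ^ 2 * q.1 ^ 2)) : ℝ) : ℂ)) ((volume : Measure ℝ).prod (P.prod P)) := by
    have hb : Integrable (fun q : ℝ × (Ω × Ω) => ((Real.exp (-(δ ^ 2 * q.1 ^ 2)) : ℝ) : ℂ))
        ((volume : Measure ℝ).prod (P.prod P)) := by
      have := (integrable_exp_neg_mul_sq (b := δ ^ 2) (by positivity)).ofReal (𝕜 := ℂ)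
      have h5 := this.mul_prod (integrable_const (μ := P.prod P) (1 : ℂ))
      refine h5.congr ?_
      filter_upwards with q
      simp
    refine hb.bdd_mul (c := 1) (hmeas.aestronglyMeasurable) ?_
    filter_upwards with q
    rw [Complex.norm_exp_ofReal_mul_I]
  have h4 : ((∫ t : ℝ, ‖∫ ω, Complex.exp (((t * g ω : ℝ) : ℂ) * Complex.I) ∂P‖ ^ 2 *
          Real.exp (-(δ ^ 2 * t ^ 2)) : ℝ) : ℂ) =
      ((Real.sqrt Real.pi / δ * ∫ p, Real.exp (-((g p.1 - g p.2) ^ 2 / (4 * δ ^ 2))) ∂(P.prod P) : ℝ) : ℂ) := by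
    rw [← integral_complex_ofReal]
    have e1 : ∀ t : ℝ, (((‖∫ ω, Complex.exp (((t * g ω : ℝ) : ℂ) * Complex.I) ∂P‖ ^ 2 *
          Real.exp (-(δ ^ 2 * t ^ 2)) : ℝ)) : ℂ) =
        ∫ p, Complex.exp (((t * (g p.1 - g p.2) : ℝ) : ℂ) * Complex.I) *
          ((Real.exp (-(δ ^ 2 * t ^ 2)) : ℝ) : ℂ) ∂(P.prod P) := by
      intro t
      rw [Complex.ofReal_mul, h1 t, ← integral_mul_const]
    simp_rw [e1]
    rw [integral_integral_swap hint]
    simp_rw [gauss_ft δ _ hδ]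
    rw [integral_complex_ofReal, integral_const_mul]
  have h5 := Complex.ofReal_injective h4
  rw [h5]
  field_simp

end Pool.Agent.H744R2.Falc
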