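import Pool.Agent.H744R2.Falc.Defs

set_option autoImplicit false

/-! Task A3: halving of the gap (the pair lemma is taken as a hypothesis). -/

namespace Pool.Agent.H744R2.Falc

open MeasureTheory Set Metric
open scoped ENNReal

/-- the statement of the pair lemma -/
def PairSt : Prop := ∀ (μ : Measure E2) [IsProbabilityMeasure μ] (R C s : ℝ),
    (∀ᵐ x ∂μ, ‖x‖ ≤ R) → 0 < C → 1 < s → s < 2 →
    (∀ (x : E2) (r : ℝ), 0 < r → μ (closedBall x r) ≤ ENNReal.ofReal (C * r ^ s)) →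
    ∃ C' : ℝ, 0 < C' ∧ ∃ c : ℝ, 0 < c ∧ ∀ δ : ℝ, 0 < δ → δ ≤ 1 → ∀ M : ℝ, 1 ≤ M →
      (μ.prod μ) {p | ENNReal.ofReal (M * δ) <
        (μ.prod μ) {q | |inner ℝ (q.1 - q.2) (p.1 - p.2)| ≤ δ * ‖p.1 - p.2‖}}
      ≤ ENNReal.ofReal (C' * M ^ (-c))

theorem hv_sum_sq {ι : Type*} (S : Finset ι) (a : ι → ℝ≥0∞) (ha : ∀ i ∈ S, a i ≠ ⊤) :
    (∑ c ∈ S, a c) ^ 2 ≤ (S.card : ℝ≥0∞) * ∑ c ∈ S, a c ^ 2 := by
  have h1 : ∀ i ∈ S, a i = ENNReal.ofReal (a i).toReal := fun i hi =>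
    (ENNReal.ofReal_toReal (ha i hi)).symm
  rw [Finset.sum_congr rfl h1, ← ENNReal.ofReal_sum_of_nonneg (fun i _ => ENNReal.toReal_nonneg),
    ← ENNReal.ofReal_pow (Finset.sum_nonneg fun i _ => ENNReal.toReal_nonneg)]
  have h2 : ∑ c ∈ S, a c ^ 2 = ENNReal.ofReal (∑ c ∈ S, (a c).toReal ^ 2) := by
    rw [ENNReal.ofReal_sum_of_nonneg (fun i _ => by positivity)]
    refine Finset.sum_congr rfl fun i hi => ?_
    rw [ENNReal.ofReal_pow ENNReal.toReal_nonneg, ← h1 i hi]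
  rw [h2, ← ENNReal.ofReal_natCast, ← ENNReal.ofReal_mul (Nat.cast_nonneg _)]
  exact ENNReal.ofReal_le_ofReal sq_sum_le_card_mul_sum_sq

/-- collision inequality -/
theorem hv_collision {Z ι : Type*} [MeasurableSpace Z] (κ : Measure Z) [IsProbabilityMeasure κ]
    (Φ : Z → ι) (hΦ : ∀ c, MeasurableSet (Φ ⁻¹' {c})) (S : Finset ι) :
    κ (Φ ⁻¹' (S : Set ι)) ^ 2 ≤ (S.card : ℝ≥0∞) * (κ.prod κ) {p | Φ p.1 = Φ p.2} := by
  classical
  have h1 : κ (Φ ⁻¹' (S : Set ι)) = ∑ c ∈ S, κ (Φ ⁻¹' {c}) :=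
    (sum_measure_preimage_singleton S (fun y _ => hΦ y)).symm
  have h3 : ∑ c ∈ S, κ (Φ ⁻¹' {c}) ^ 2 ≤ (κ.prod κ) {p | Φ p.1 = Φ p.2} := by
    have e1 : ∀ c ∈ S, κ (Φ ⁻¹' {c}) ^ 2 = (κ.prod κ) ((Φ ⁻¹' {c}) ×ˢ (Φ ⁻¹' {c})) := by
      intro c _
      rw [Measure.prod_prod, sq]
    rw [Finset.sum_congr rfl e1, ← measure_biUnion_finset]
    · apply measure_mono
      intro p hp
      simp only [mem_iUnion, mem_prod, mem_preimage, mem_singleton_iff, exists_prop] at hp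
      obtain ⟨c, _, h1, h2⟩ := hp
      show Φ p.1 = Φ p.2
      rw [h1, h2]
    · intro c _ c' _ hcc
      rw [Function.onFun, Set.disjoint_left]
      rintro p ⟨h1, _⟩ ⟨h2, _⟩
      apply hcc
      rw [mem_preimage, mem_singleton_iff] at h1 h2
      rw [← h1, ← h2]
    · intro c _
      exact (hΦ c).prod (hΦ c)
  rw [h1]
  exact (hv_sum_sq S _ (fun i _ => measure_ne_top _ _)).trans (by gcongr)

/-- Cauchy-Schwarz -/
theorem hv_cs {Z : Type*} [MeasurableSpace Z] (κ : Measure Z) [IsProbabilityMeasure κ]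
    (f : Z → ℝ≥0∞) (hf : Measurable f) : (∫⁻ z, f z ∂κ) ^ 2 ≤ ∫⁻ z, f z ^ 2 ∂κ := by
  have h := ENNReal.lintegral_mul_le_Lp_mul_Lq κ Real.HolderConjugate.two_two hf.aemeasurable
    (g := fun _ => 1) aemeasurable_const
  simp only [Pi.mul_apply, mul_one, ENNReal.one_rpow, lintegral_const, measure_univ] at h
  have h2 : (∫⁻ z, f z ∂κ) ^ 2 ≤ ((∫⁻ a, f a ^ (2 : ℝ) ∂κ) ^ ((1 : ℝ) / 2)) ^ 2 := by
    gcongr
  refine h2.trans (le_of_eq ?_)
  rw [← ENNReal.rpow_natCast, ← ENNReal.rpow_mul]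
  norm_num

/-- second moment and Fubini -/
theorem hv_fubini {Z Y : Type*} [MeasurableSpace Z] [MeasurableSpace Y] (κ : Measure Z)
    [IsProbabilityMeasure κ] (μ : Measure Y) [IsProbabilityMeasure μ] (G : Set (Z × Y))
    (hG : MeasurableSet G) :
    (κ.prod μ) G ^ 2 ≤ ∫⁻ p, κ {z | (z, p.1) ∈ G ∧ (z, p.2) ∈ G} ∂(μ.prod μ) := by
  have hG2 : MeasurableSet {w : Z × (Y × Y) | (w.1, w.2.1) ∈ G ∧ (w.1, w.2.2) ∈ G} := by
    apply MeasurableSet.inter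
    · exact (measurable_fst.prodMk (measurable_fst.comp measurable_snd)) hG
    · exact (measurable_fst.prodMk (measurable_snd.comp measurable_snd)) hG
  have h1 := Measure.prod_apply (μ := κ) (ν := μ.prod μ) hG2
  have h2 := Measure.prod_apply_symm (μ := κ) (ν := μ.prod μ) hG2
  have h3 : ∫⁻ p, κ {z | (z, p.1) ∈ G ∧ (z, p.2) ∈ G} ∂(μ.prod μ) =
      ∫⁻ z, μ (Prod.mk z ⁻¹' G) ^ 2 ∂κ := by
    have e1 : ∫⁻ p, κ {z | (z, p.1) ∈ G ∧ (z, p.2) ∈ G} ∂(μ.prod μ) =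
        (κ.prod (μ.prod μ)) {w : Z × (Y × Y) | (w.1, w.2.1) ∈ G ∧ (w.1, w.2.2) ∈ G} := h2.symm
    rw [e1, h1]
    refine lintegral_congr fun z => ?_
    rw [sq, ← Measure.prod_prod]
    rfl
  rw [h3, Measure.prod_apply hG]
  exact hv_cs κ _ (measurable_measure_prodMk_left hG)

/-- the number of collisions for a fixed pair of pins -/
theorem hv_pins (ν : Measure ℝ) [IsProbabilityMeasure ν] (μ : Measure E2) [IsProbabilityMeasure μ]
    (B : ℝ≥0∞) (δ : ℝ) (hν : ∀ x, ν (closedBall x δ) ≤ B) (y y' : E2) :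
    ((ν.prod μ).prod (ν.prod μ)) {p | |inner ℝ (p.1.2 - p.2.2) (y - y')| ≤ δ ∧
      |(p.1.1 + dist p.1.2 y ^ 2) - (p.2.1 + dist p.2.2 y ^ 2)| ≤ δ} ≤
      B * (μ.prod μ) {q | |inner ℝ (q.1 - q.2) (y - y')| ≤ δ} := by
  have hT' : MeasurableSet {p : (ℝ × E2) × (ℝ × E2) | |inner ℝ (p.1.2 - p.2.2) (y - y')| ≤ δ ∧
      |(p.1.1 + dist p.1.2 y ^ 2) - (p.2.1 + dist p.2.2 y ^ 2)| ≤ δ} := by
    have c1 : IsClosed {p : (ℝ × E2) × (ℝ × E2) | |inner ℝ (p.1.2 - p.2.2) (y - y')| ≤ δ} :=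
      isClosed_le (by fun_prop) continuous_const
    have c2 : IsClosed {p : (ℝ × E2) × (ℝ × E2) |
        |(p.1.1 + dist p.1.2 y ^ 2) - (p.2.1 + dist p.2.2 y ^ 2)| ≤ δ} :=
      isClosed_le (by fun_prop) continuous_const
    exact c1.measurableSet.inter c2.measurableSet
  have hT : MeasurableSet {q : E2 × E2 | |inner ℝ (q.1 - q.2) (y - y')| ≤ δ} := by
    apply IsClosed.measurableSet
    exact isClosed_le (by fun_prop) continuous_const
  have hT2 : ∀ x : E2, MeasurableSet {x' : E2 | |inner ℝ (x - x') (y - y')| ≤ δ} := fun x => by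
    apply IsClosed.measurableSet
    exact isClosed_le (by fun_prop) continuous_const
  rw [Measure.prod_apply hT', Measure.prod_apply hT]
  have h1 : ∀ z : ℝ × E2, (ν.prod μ) (Prod.mk z ⁻¹' {p : (ℝ × E2) × (ℝ × E2) |
      |inner ℝ (p.1.2 - p.2.2) (y - y')| ≤ δ ∧
      |(p.1.1 + dist p.1.2 y ^ 2) - (p.2.1 + dist p.2.2 y ^ 2)| ≤ δ}) ≤
      B * μ (Prod.mk z.2 ⁻¹' {q : E2 × E2 | |inner ℝ (q.1 - q.2) (y - y')| ≤ δ}) := by
    intro z
    rw [Measure.prod_apply_symm (measurable_prodMk_left hT')]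
    have h2 : ∀ x' : E2, ν ((fun u' => (u', x')) ⁻¹' (Prod.mk z ⁻¹'
        {p : (ℝ × E2) × (ℝ × E2) | |inner ℝ (p.1.2 - p.2.2) (y - y')| ≤ δ ∧
        |(p.1.1 + dist p.1.2 y ^ 2) - (p.2.1 + dist p.2.2 y ^ 2)| ≤ δ})) ≤
        ({x' : E2 | |inner ℝ (z.2 - x') (y - y')| ≤ δ}).indicator (fun _ => B) x' := by
      intro x'
      by_cases hx : |inner ℝ (z.2 - x') (y - y')| ≤ δ
      · rw [Set.indicator_of_mem (show x' ∈ {x' : E2 | |inner ℝ (z.2 - x') (y - y')| ≤ δ} from hx)]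
        refine le_trans (measure_mono ?_) (hν (z.1 + dist z.2 y ^ 2 - dist x' y ^ 2))
        rintro u' ⟨_, h3⟩
        rw [mem_closedBall, Real.dist_eq, abs_sub_comm]
        have h4 : |(z.1 + dist z.2 y ^ 2) - (u' + dist x' y ^ 2)| ≤ δ := h3
        have h5 : z.1 + dist z.2 y ^ 2 - dist x' y ^ 2 - u' =
            (z.1 + dist z.2 y ^ 2) - (u' + dist x' y ^ 2) := by ring
        rw [h5]
        exact h4
      · rw [Set.indicator_of_notMem (show x' ∉ {x' : E2 | |inner ℝ (z.2 - x') (y - y')| ≤ δ}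
          from hx)]
        apply le_of_eq
        convert measure_empty (μ := ν)
        ext u'
        constructor
        · rintro ⟨h3, _⟩
          exact absurd h3 hx
        · intro h3
          exact absurd h3 (Set.notMem_empty _)
    refine (lintegral_mono h2).trans ?_
    rw [lintegral_indicator_const (hT2 z.2)]
    exact le_rfl
  refine (lintegral_mono h1).trans ?_
  have hm : Measurable (fun x : E2 => μ (Prod.mk x ⁻¹' {q : E2 × E2 |
      |inner ℝ (q.1 - q.2) (y - y')| ≤ δ})) := measurable_measure_prodMk_left hT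
  have hm2 : Measurable (fun z : ℝ × E2 => μ (Prod.mk z.2 ⁻¹' {q : E2 × E2 |
      |inner ℝ (q.1 - q.2) (y - y')| ≤ δ})) := hm.comp measurable_snd
  rw [lintegral_const_mul _ hm2]
  gcongr
  rw [lintegral_prod_symm _ hm2.aemeasurable]
  simp only [lintegral_const, measure_univ, mul_one]
  exact le_rfl

/-- floor cells: equal cells mean close values -/
theorem hv_cell (j : ℕ) (y y' : E2) (z z' : ℝ × E2)
    (h1 : ⌊(2 : ℝ) ^ j * (z.1 + dist z.2 y ^ 2)⌋ = ⌊(2 : ℝ) ^ j * (z'.1 + dist z'.2 y ^ 2)⌋)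
    (h2 : ⌊(2 : ℝ) ^ j * (z.1 + dist z.2 y' ^ 2)⌋ = ⌊(2 : ℝ) ^ j * (z'.1 + dist z'.2 y' ^ 2)⌋) :
    |inner ℝ (z.2 - z'.2) (y - y')| ≤ (2 : ℝ)⁻¹ ^ j ∧
      |(z.1 + dist z.2 y ^ 2) - (z'.1 + dist z'.2 y ^ 2)| ≤ (2 : ℝ)⁻¹ ^ j := by
  have key : ∀ a b : ℝ, ⌊(2 : ℝ) ^ j * a⌋ = ⌊(2 : ℝ) ^ j * b⌋ → |a - b| ≤ (2 : ℝ)⁻¹ ^ j := by
    intro a b hab
    have h := Int.abs_sub_lt_one_of_floor_eq_floor hab
    rw [← mul_sub, abs_mul, abs_of_pos (by positivity : (0 : ℝ) < 2 ^ j)] at h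
    rw [inv_pow, ← one_div, le_div_iff₀ (by positivity), mul_comm]
    exact h.le
  have e1 := key _ _ h1
  have e2 := key _ _ h2
  refine ⟨?_, e1⟩
  have e3 : inner ℝ (z.2 - z'.2) (y - y') = -(1 / 2) *
      (((z.1 + dist z.2 y ^ 2) - (z'.1 + dist z'.2 y ^ 2)) -
        ((z.1 + dist z.2 y' ^ 2) - (z'.1 + dist z'.2 y' ^ 2))) := by
    have d : ∀ x w : E2, dist x w ^ 2 = ‖x‖ ^ 2 - 2 * inner ℝ x w + ‖w‖ ^ 2 := by
      intro x w
      rw [dist_eq_norm, norm_sub_sq_real]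
    rw [d, d, d, d, inner_sub_left, inner_sub_right, inner_sub_right]
    ring
  rw [e3, abs_mul, abs_neg, abs_of_pos (by norm_num : (0 : ℝ) < 1 / 2)]
  have e4 := abs_sub (((z.1 + dist z.2 y ^ 2) - (z'.1 + dist z'.2 y ^ 2)))
    ((z.1 + dist z.2 y' ^ 2) - (z'.1 + dist z'.2 y' ^ 2))
  linarith

/-- the event that `u + |x - y|^2` lies in the given cells of level `j` -/
def hvG (j : ℕ) (I : Finset ℤ) : Set ((ℝ × E2) × E2) :=
  {q | ⌊(2 : ℝ) ^ j * (q.1.1 + dist q.1.2 q.2 ^ 2)⌋ ∈ I}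

theorem hvG_meas (j : ℕ) (I : Finset ℤ) : MeasurableSet (hvG j I) := by
  have h1 : Measurable (fun q : (ℝ × E2) × E2 => (2 : ℝ) ^ j * (q.1.1 + dist q.1.2 q.2 ^ 2)) := by
    apply Continuous.measurable
    fun_prop
  have h2 : MeasurableSet ((I : Set ℤ)) := I.measurableSet
  exact (Int.measurable_floor.comp h1) h2

/-- the measure of the pins pairs seen from a good pair -/
theorem hv_good (ν : Measure ℝ) [IsProbabilityMeasure ν] (μ : Measure E2) [IsProbabilityMeasure μ]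
    (j : ℕ) (I : Finset ℤ) (B T : ℝ≥0∞) (hν : ∀ x, ν (closedBall x ((2 : ℝ)⁻¹ ^ j)) ≤ B)
    (y y' : E2) (hT : (μ.prod μ) {q | |inner ℝ (q.1 - q.2) (y - y')| ≤ (2 : ℝ)⁻¹ ^ j} ≤ T) :
    (ν.prod μ) {z | (z, y) ∈ hvG j I ∧ (z, y') ∈ hvG j I} ^ 2 ≤
      ((I.card : ℝ≥0∞) ^ 2) * (B * T) := by
  classical
  let Φ : ℝ × E2 → ℤ × ℤ := fun z => (⌊(2 : ℝ) ^ j * (z.1 + dist z.2 y ^ 2)⌋,
    ⌊(2 : ℝ) ^ j * (z.1 + dist z.2 y' ^ 2)⌋)
  have hΦm : Measurable Φ := by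
    apply Measurable.prodMk
    · apply Int.measurable_floor.comp
      apply Continuous.measurable
      fun_prop
    · apply Int.measurable_floor.comp
      apply Continuous.measurable
      fun_prop
  have h1 := hv_collision (ν.prod μ) Φ (fun c => hΦm (measurableSet_singleton c)) (I ×ˢ I)
  have h2 : {z | (z, y) ∈ hvG j I ∧ (z, y') ∈ hvG j I} = Φ ⁻¹' ((I ×ˢ I : Finset (ℤ × ℤ)) : Set (ℤ × ℤ)) := by
    ext z
    simp only [Finset.coe_product, mem_preimage, mem_prod, Finset.mem_coe]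
    exact Iff.rfl
  rw [h2]
  refine h1.trans ?_
  rw [Finset.card_product]
  push_cast
  rw [sq]
  gcongr
  refine le_trans (measure_mono ?_) ((hv_pins ν μ B ((2 : ℝ)⁻¹ ^ j) hν y y').trans (by gcongr))
  rintro ⟨z, z'⟩ hz
  have hz' : Φ z = Φ z' := hz
  have e1 := congrArg Prod.fst hz'
  have e2 := congrArg Prod.snd hz'
  exact hv_cell j y y' z z' e1 e2

/-- splitting the pairs of pins -/
theorem hv_level (ν : Measure ℝ) [IsProbabilityMeasure ν] (μ : Measure E2) [IsProbabilityMeasure μ]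
    (j : ℕ) (I : Finset ℤ) (B : ℝ≥0∞) (hν : ∀ x, ν (closedBall x ((2 : ℝ)⁻¹ ^ j)) ≤ B)
    (ρ δ' M : ℝ) (hρ : (2 : ℝ)⁻¹ ^ j ≤ δ' * ρ) (hδ' : 0 ≤ δ') (W : ℝ≥0∞)
    (hW : ((I.card : ℝ≥0∞) ^ 2) * (B * ENNReal.ofReal (M * δ')) ≤ W ^ 2) :
    ((ν.prod μ).prod μ) (hvG j I) ^ 2 ≤ (μ.prod μ) {p | dist p.1 p.2 ≤ ρ} +
      (μ.prod μ) {p | ENNReal.ofReal (M * δ') <
        (μ.prod μ) {q | |inner ℝ (q.1 - q.2) (p.1 - p.2)| ≤ δ' * ‖p.1 - p.2‖}} + W := by
  refine (hv_fubini (ν.prod μ) μ (hvG j I) (hvG_meas j I)).trans ?_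
  set S1 : Set (E2 × E2) := {p | dist p.1 p.2 ≤ ρ} with hS1
  set S2 : Set (E2 × E2) := {p | ENNReal.ofReal (M * δ') <
        (μ.prod μ) {q | |inner ℝ (q.1 - q.2) (p.1 - p.2)| ≤ δ' * ‖p.1 - p.2‖}} with hS2
  have hS1m : MeasurableSet S1 := by
    have : IsClosed S1 := isClosed_le (by fun_prop) continuous_const
    exact this.measurableSet
  have hpt : ∀ p : E2 × E2, (ν.prod μ) {z | (z, p.1) ∈ hvG j I ∧ (z, p.2) ∈ hvG j I} ≤
      S1.indicator 1 p + S2.indicator 1 p + W := by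
    intro p
    by_cases h1 : p ∈ S1
    · rw [Set.indicator_of_mem h1]
      refine (prob_le_one).trans ?_
      rw [add_assoc]
      exact le_self_add
    by_cases h2 : p ∈ S2
    · rw [Set.indicator_of_mem h2]
      refine (prob_le_one).trans ?_
      rw [add_comm (S1.indicator 1 p), add_assoc]
      exact le_self_add
    refine le_trans ?_ le_add_self
    have h3 : ρ < dist p.1 p.2 := not_le.1 h1
    have h4 : (μ.prod μ) {q | |inner ℝ (q.1 - q.2) (p.1 - p.2)| ≤ (2 : ℝ)⁻¹ ^ j} ≤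
        ENNReal.ofReal (M * δ') := by
      refine le_trans (measure_mono ?_) (not_lt.1 h2)
      intro q hq
      have hq' : |inner ℝ (q.1 - q.2) (p.1 - p.2)| ≤ (2 : ℝ)⁻¹ ^ j := hq
      show |inner ℝ (q.1 - q.2) (p.1 - p.2)| ≤ δ' * ‖p.1 - p.2‖
      rw [← dist_eq_norm]
      exact hq'.trans (hρ.trans (mul_le_mul_of_nonneg_left h3.le hδ'))
    have h5 := (hv_good ν μ j I B _ hν p.1 p.2 h4).trans hW
    exact (ENNReal.pow_le_pow_left_iff (two_ne_zero)).1 h5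
  refine (lintegral_mono hpt).trans ?_
  rw [lintegral_add_right _ measurable_const, lintegral_add_left (measurable_one.indicator hS1m)]
  simp only [lintegral_const, measure_univ, mul_one]
  gcongr
  · exact lintegral_indicator_one_le _
  · exact lintegral_indicator_one_le _

/-- close pairs are rare -/
theorem hv_close (μ : Measure E2) [IsProbabilityMeasure μ] (ρ : ℝ) (B : ℝ≥0∞)
    (hB : ∀ x, μ (closedBall x ρ) ≤ B) : (μ.prod μ) {p | dist p.1 p.2 ≤ ρ} ≤ B := by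
  have hS1m : MeasurableSet {p : E2 × E2 | dist p.1 p.2 ≤ ρ} := by
    have : IsClosed {p : E2 × E2 | dist p.1 p.2 ≤ ρ} := isClosed_le (by fun_prop) continuous_const
    exact this.measurableSet
  rw [Measure.prod_apply hS1m]
  have h1 : ∀ x : E2, μ (Prod.mk x ⁻¹' {p : E2 × E2 | dist p.1 p.2 ≤ ρ}) ≤ B := by
    intro x
    refine le_trans (measure_mono ?_) (hB x)
    intro y hy
    rw [mem_closedBall, dist_comm]
    exact hy
  refine (lintegral_mono h1).trans ?_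
  simp

/-- each level has exponentially small measure -/
theorem hv_decay (hP : PairSt) (ν : Measure ℝ) [IsProbabilityMeasure ν] (μ : Measure E2)
    [IsProbabilityMeasure μ] (R Cν Cμ σ s σ' : ℝ) (hR : ∀ᵐ x ∂μ, ‖x‖ ≤ R)
    (hCν : 0 < Cν) (hCμ : 0 < Cμ) (hs : 1 < s) (hs2 : s < 2)
    (hν : ∀ (x : ℝ) (r : ℝ), 0 < r → ν (closedBall x r) ≤ ENNReal.ofReal (Cν * r ^ σ))
    (hμ : ∀ (x : E2) (r : ℝ), 0 < r → μ (closedBall x r) ≤ ENNReal.ofReal (Cμ * r ^ s))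
    (h : σ' < (1 + σ) / 2) :
    ∃ C r : ℝ, 0 < C ∧ 0 < r ∧ r < 1 ∧ ∀ (j : ℕ) (I : Finset ℤ),
      ((I.card : ℝ) ≤ (2 : ℝ) ^ (σ' * j)) →
      ((ν.prod μ).prod μ) (hvG j I) ≤ ENNReal.ofReal (C * r ^ j) := by
  obtain ⟨C1, hC1, c, hc, hpair⟩ := hP μ R Cμ s hR hCμ hs hs2 hμ
  obtain ⟨θ, hθ⟩ : ∃ θ : ℝ, θ = 1 + σ - 2 * σ' := ⟨_, rfl⟩
  have hθ0 : 0 < θ := by linarith
  obtain ⟨a, ha⟩ : ∃ a : ℝ, a = min (θ / 4) (1 / 2) := ⟨_, rfl⟩
  have ha0 : 0 < a := by rw [ha]; positivity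
  have ha1 : a ≤ θ / 4 := by rw [ha]; exact min_le_left _ _
  have ha2 : a ≤ 1 / 2 := by rw [ha]; exact min_le_right _ _
  obtain ⟨b, hb⟩ : ∃ b : ℝ, b = min (min (a * s) (a * c)) (θ / 4) := ⟨_, rfl⟩
  have hb0 : 0 < b := by
    rw [hb]
    have : 0 < s := by linarith
    positivity
  have hb1 : b ≤ a * s := by rw [hb]; exact (min_le_left _ _).trans (min_le_left _ _)
  have hb2 : b ≤ a * c := by rw [hb]; exact (min_le_left _ _).trans (min_le_right _ _)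
  have hb3 : b ≤ θ / 4 := by rw [hb]; exact min_le_right _ _
  refine ⟨Real.sqrt (Cμ + C1 + Real.sqrt Cν), (2 : ℝ)⁻¹ ^ (b / 2), by positivity, by positivity,
    Real.rpow_lt_one (by norm_num) (by norm_num) (by positivity), ?_⟩
  intro j I hI
  obtain ⟨δ, hδ⟩ : ∃ δ : ℝ, δ = (2 : ℝ)⁻¹ ^ j := ⟨_, rfl⟩
  have hδ0 : 0 < δ := by rw [hδ]; positivity
  have hδ1 : δ ≤ 1 := by rw [hδ]; exact pow_le_one₀ (by norm_num) (by norm_num)
  have hM1 : (1 : ℝ) ≤ δ ^ (-a) :=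
    Real.one_le_rpow_of_pos_of_le_one_of_nonpos hδ0 hδ1 (by linarith)
  have hd1 : δ ^ (1 - a) ≤ 1 := Real.rpow_le_one hδ0.le hδ1 (by linarith)
  have hd0 : 0 < δ ^ (1 - a) := Real.rpow_pos_of_pos hδ0 _
  have hcard : (I.card : ℝ) ≤ δ ^ (-σ') := by
    refine hI.trans (le_of_eq ?_)
    rw [hδ, ← Real.rpow_natCast, ← Real.rpow_mul (by norm_num), Real.inv_rpow (by norm_num),
      ← Real.rpow_neg (by norm_num)]
    congr 1
    ring
  have hlev := hv_level ν μ j I (ENNReal.ofReal (Cν * δ ^ σ)) (fun x => by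
      rw [← hδ]; exact hν x δ hδ0) (δ ^ a) (δ ^ (1 - a)) (δ ^ (-a)) (by
      rw [← hδ, ← Real.rpow_add hδ0]
      have : 1 - a + a = 1 := by ring
      rw [this, Real.rpow_one]) hd0.le
    (ENNReal.ofReal (Real.sqrt Cν * δ ^ (θ / 4))) (by
      have e1 : (I.card : ℝ≥0∞) = ENNReal.ofReal (I.card : ℝ) := by
        rw [ENNReal.ofReal_natCast]
      rw [e1, ← ENNReal.ofReal_pow (Nat.cast_nonneg _), ← ENNReal.ofReal_mul (by positivity),
        ← ENNReal.ofReal_mul (by positivity), ← ENNReal.ofReal_pow (by positivity)]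
      apply ENNReal.ofReal_le_ofReal
      have e2 : δ ^ (-a) * δ ^ (1 - a) = δ ^ (1 - 2 * a) := by
        rw [← Real.rpow_add hδ0]; congr 1; ring
      have e3 : (I.card : ℝ) ^ 2 ≤ δ ^ (-(2 * σ')) := by
        have : δ ^ (-(2 * σ')) = (δ ^ (-σ')) ^ 2 := by
          rw [← Real.rpow_natCast, ← Real.rpow_mul hδ0.le]; congr 1; push_cast; ring
        rw [this]
        exact pow_le_pow_left₀ (Nat.cast_nonneg _) hcard 2
      have e4 : (Real.sqrt Cν * δ ^ (θ / 4)) ^ 2 = Cν * δ ^ (θ / 2) := by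
        rw [mul_pow, Real.sq_sqrt hCν.le, ← Real.rpow_natCast, ← Real.rpow_mul hδ0.le]
        congr 2; push_cast; ring
      rw [e2, e4]
      calc (I.card : ℝ) ^ 2 * (Cν * δ ^ σ * δ ^ (1 - 2 * a))
          ≤ δ ^ (-(2 * σ')) * (Cν * δ ^ σ * δ ^ (1 - 2 * a)) := by
            apply mul_le_mul_of_nonneg_right e3 (by positivity)
        _ = Cν * δ ^ (θ - 2 * a) := by
            have : δ ^ (θ - 2 * a) = δ ^ (-(2 * σ')) * (δ ^ σ * δ ^ (1 - 2 * a)) := by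
              rw [← Real.rpow_add hδ0, ← Real.rpow_add hδ0]; congr 1; rw [hθ]; ring
            rw [this]; ring
        _ ≤ Cν * δ ^ (θ / 2) := by
            apply mul_le_mul_of_nonneg_left _ hCν.le
            exact Real.rpow_le_rpow_of_exponent_ge hδ0 hδ1 (by linarith))
  have hA := hv_close μ (δ ^ a) (ENNReal.ofReal (Cμ * δ ^ (a * s))) (fun x => by
    rw [Real.rpow_mul hδ0.le]
    exact hμ x _ (Real.rpow_pos_of_pos hδ0 _))
  have hB := hpair (δ ^ (1 - a)) hd0 hd1 (δ ^ (-a)) hM1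
  rw [← Real.rpow_mul hδ0.le] at hB
  have e5 : -a * -c = a * c := by ring
  rw [e5] at hB
  have hsum : ((ν.prod μ).prod μ) (hvG j I) ^ 2 ≤
      ENNReal.ofReal ((Cμ + C1 + Real.sqrt Cν) * δ ^ b) := by
    refine (hlev.trans (add_le_add (add_le_add hA hB) le_rfl)).trans ?_
    rw [← ENNReal.ofReal_add (by positivity) (by positivity),
      ← ENNReal.ofReal_add (by positivity) (by positivity)]
    apply ENNReal.ofReal_le_ofReal
    rw [add_mul, add_mul]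
    have f1 := mul_le_mul_of_nonneg_left (Real.rpow_le_rpow_of_exponent_ge hδ0 hδ1 hb1) hCμ.le
    have f2 := mul_le_mul_of_nonneg_left (Real.rpow_le_rpow_of_exponent_ge hδ0 hδ1 hb2) hC1.le
    have f3 := mul_le_mul_of_nonneg_left (Real.rpow_le_rpow_of_exponent_ge hδ0 hδ1 hb3)
      (Real.sqrt_nonneg Cν)
    linarith
  have hfin : ENNReal.ofReal ((Cμ + C1 + Real.sqrt Cν) * δ ^ b) =
      ENNReal.ofReal (Real.sqrt (Cμ + C1 + Real.sqrt Cν) * ((2 : ℝ)⁻¹ ^ (b / 2)) ^ j) ^ 2 := by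
    have hq : (0 : ℝ) ≤ Real.sqrt (Cμ + C1 + Real.sqrt Cν) * ((2 : ℝ)⁻¹ ^ (b / 2)) ^ j := by
      positivity
    rw [← ENNReal.ofReal_pow hq, mul_pow, Real.sq_sqrt (by positivity)]
    congr 2
    rw [hδ, ← Real.rpow_natCast, ← Real.rpow_natCast, ← Real.rpow_natCast,
      ← Real.rpow_mul (by positivity), ← Real.rpow_mul (by positivity),
      ← Real.rpow_mul (by positivity)]
    congr 1
    push_cast
    ring
  rw [hfin] at hsum
  exact (ENNReal.pow_le_pow_left_iff two_ne_zero).1 hsum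

/-- halving of the gap, from the pair lemma -/
theorem halving_of (hP : PairSt) (D : Set ℝ) (E : Set E2) (hE : IsCompact E)
    (σ s σ' : ℝ) (hs : 1 < s) (hDF : Fro D σ) (hEF : Fro E s)
    (h : σ' < (1 + σ) / 2) : ¬ SmallCover (addDist D E) σ' := by
  intro hcov
  obtain ⟨ν, hνp, hνD, Cν, hCν, hν⟩ := hDF
  obtain ⟨μ, hμp, hμE, Cμ, hCμ, hμ⟩ := hEF
  obtain ⟨R, hR⟩ := hE.isBounded.subset_closedBall (0 : E2)
  have hR' : ∀ᵐ x ∂μ, ‖x‖ ≤ R := by
    refine measure_mono_null ?_ hμE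
    intro x hx hxE
    apply hx
    have := hR hxE
    rwa [mem_closedBall, dist_zero_right] at this
  have hμ' : ∀ (x : E2) (r : ℝ), 0 < r →
      μ (closedBall x r) ≤ ENNReal.ofReal (max Cμ 1 * r ^ (min s (3 / 2))) := by
    intro x r hr
    rcases le_total r 1 with h1 | h1
    · refine (hμ x r hr).trans (ENNReal.ofReal_le_ofReal ?_)
      apply mul_le_mul (le_max_left _ _) _ (by positivity) (by positivity)
      exact Real.rpow_le_rpow_of_exponent_ge hr h1 (min_le_left _ _)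
    · refine prob_le_one.trans ?_
      rw [← ENNReal.ofReal_one]
      apply ENNReal.ofReal_le_ofReal
      have h2 : 1 ≤ r ^ (min s (3 / 2)) := Real.one_le_rpow h1 (by positivity)
      have h3 : (1 : ℝ) ≤ max Cμ 1 := le_max_right _ _
      nlinarith
  obtain ⟨C, r, hC, hr0, hr1, hdec⟩ := hv_decay hP ν μ R Cν (max Cμ 1) σ (min s (3 / 2)) σ' hR' hCν
    (by positivity) (lt_min hs (by norm_num)) ((min_le_right _ _).trans_lt (by norm_num)) hν hμ' h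
  -- choose the starting level
  obtain ⟨j₀, hj₀⟩ : ∃ j₀ : ℕ, C * r ^ j₀ * (1 - r)⁻¹ < 1 := by
    have h1 : Filter.Tendsto (fun j : ℕ => C * r ^ j * (1 - r)⁻¹) Filter.atTop (nhds 0) := by
      have := ((tendsto_pow_atTop_nhds_zero_of_lt_one hr0.le hr1).const_mul C).mul_const (1 - r)⁻¹
      simpa using this
    exact (h1.eventually_lt_const one_pos).exists
  obtain ⟨I, hI0, hIc, hIcov⟩ := hcov j₀
  have hN : ((ν.prod μ).prod μ) {q | q.1.1 ∉ D ∨ q.1.2 ∉ E ∨ q.2 ∉ E} = 0 := by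
    have e1 : {q : (ℝ × E2) × E2 | q.1.1 ∉ D ∨ q.1.2 ∉ E ∨ q.2 ∉ E} ⊆
        ((Dᶜ ×ˢ univ) ×ˢ univ) ∪ (((univ ×ˢ Eᶜ) ×ˢ univ) ∪ (univ ×ˢ Eᶜ)) := by
      rintro ⟨⟨u, x⟩, y⟩ (h1 | h1 | h1)
      · left
        exact ⟨⟨h1, mem_univ _⟩, mem_univ _⟩
      · right; left
        exact ⟨⟨mem_univ _, h1⟩, mem_univ _⟩
      · right; right
        exact ⟨mem_univ _, h1⟩
    refine measure_mono_null e1 (measure_union_null ?_ (measure_union_null ?_ ?_))
    · rw [Measure.prod_prod, Measure.prod_prod, hνD]; simp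
    · rw [Measure.prod_prod, Measure.prod_prod, hμE]; simp
    · rw [Measure.prod_prod, hμE]; simp
  have hcover : (univ : Set ((ℝ × E2) × E2)) ⊆ {q | q.1.1 ∉ D ∨ q.1.2 ∉ E ∨ q.2 ∉ E} ∪
      ⋃ k : ℕ, hvG (k + j₀) (I (k + j₀)) := by
    rintro ⟨⟨u, x⟩, y⟩ _
    by_cases hu : u ∈ D
    · by_cases hx : x ∈ E
      · by_cases hy : y ∈ E
        · right
          obtain ⟨j, hj⟩ := hIcov (u + dist x y ^ 2) ⟨u, hu, x, hx, y, hy, rfl⟩
          have hjj : j₀ ≤ j := by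
            by_contra hcon
            rw [hI0 j (not_le.1 hcon)] at hj
            exact absurd hj (Finset.notMem_empty _)
          rw [mem_iUnion]
          refine ⟨j - j₀, ?_⟩
          rw [Nat.sub_add_cancel hjj]
          exact hj
        · left; exact Or.inr (Or.inr hy)
      · left; exact Or.inr (Or.inl hx)
    · left; exact Or.inl hu
  have h1 : (1 : ℝ≥0∞) ≤ ∑' k : ℕ, ENNReal.ofReal (C * r ^ (k + j₀)) := by
    calc (1 : ℝ≥0∞) = ((ν.prod μ).prod μ) univ := by rw [measure_univ]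
      _ ≤ ((ν.prod μ).prod μ) ({q | q.1.1 ∉ D ∨ q.1.2 ∉ E ∨ q.2 ∉ E} ∪
          ⋃ k : ℕ, hvG (k + j₀) (I (k + j₀))) := measure_mono hcover
      _ ≤ 0 + ∑' k : ℕ, ((ν.prod μ).prod μ) (hvG (k + j₀) (I (k + j₀))) := by
          refine (measure_union_le _ _).trans (add_le_add hN.le (measure_iUnion_le _))
      _ ≤ ∑' k : ℕ, ENNReal.ofReal (C * r ^ (k + j₀)) := by
          rw [zero_add]
          exact ENNReal.tsum_le_tsum fun k => hdec _ _ (hIc _)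
  have h2 : ∑' k : ℕ, ENNReal.ofReal (C * r ^ (k + j₀)) =
      ENNReal.ofReal (C * r ^ j₀ * (1 - r)⁻¹) := by
    have hsumm : Summable (fun k : ℕ => C * r ^ (k + j₀)) := by
      have := (summable_geometric_of_lt_one hr0.le hr1).mul_left (C * r ^ j₀)
      refine this.congr fun k => ?_
      rw [pow_add]; ring
    rw [← ENNReal.ofReal_tsum_of_nonneg (fun k => by positivity) hsumm]
    congr 1
    have : ∀ k : ℕ, C * r ^ (k + j₀) = C * r ^ j₀ * r ^ k := fun k => by rw [pow_add]; ring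
    rw [tsum_congr this, tsum_mul_left, tsum_geometric_of_lt_one hr0.le hr1]
  rw [h2, ← ENNReal.ofReal_one, ENNReal.ofReal_le_ofReal_iff'] at h1
  rcases h1 with h1 | h1
  · linarith
  · linarith

end Pool.Agent.H744R2.Falc
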