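import Pool.Agent.H744R2.Falc.DefsB

/-! Task B3: pruning. -/

set_option autoImplicit false

namespace Pool.Agent.H744R2.Falc

open MeasureTheory Set Metric
open scoped ENNReal

namespace PruneAux

theorem measurable_q2 (l : ℕ) : Measurable (q2 l) := by
  unfold q2
  have h0 : Measurable fun x : E2 => (2 : ℝ) ^ l * x 0 := by
    have : Continuous fun x : E2 => (2 : ℝ) ^ l * x 0 := by fun_prop
    exact this.measurable
  have h1 : Measurable fun x : E2 => (2 : ℝ) ^ l * x 1 := by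
    have : Continuous fun x : E2 => (2 : ℝ) ^ l * x 1 := by fun_prop
    exact this.measurable
  exact (Int.measurable_floor.comp h0).prodMk (Int.measurable_floor.comp h1)

/-- the cell with index `k` -/
def cl (l : ℕ) (k : ℤ × ℤ) : Set E2 := {z | q2 l z = k}

theorem cell_eq (l : ℕ) (x : E2) : cell l x = cl l (q2 l x) := rfl

theorem measurable_cl (l : ℕ) (k : ℤ × ℤ) : MeasurableSet (cl l k) :=
  measurable_q2 l (measurableSet_singleton k)

theorem floor_div {u : ℝ} (l' l : ℕ) (h : l' ≤ l) :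
    ⌊(2 : ℝ) ^ l' * u⌋ = ⌊(2 : ℝ) ^ l * u⌋ / (2 ^ (l - l') : ℤ) := by
  have h1 : (2 : ℝ) ^ l' * u = ((2 : ℝ) ^ l * u) / ((2 ^ (l - l') : ℕ) : ℝ) := by
    push_cast
    rw [eq_div_iff (by positivity)]
    calc (2 : ℝ) ^ l' * u * 2 ^ (l - l') = (2 ^ l' * 2 ^ (l - l')) * u := by ring
      _ = 2 ^ l * u := by rw [← pow_add, Nat.add_sub_cancel' h]
  rw [h1, Int.floor_div_natCast]
  push_cast
  rfl

/-- cells of finer levels are contained in cells of coarser levels -/
theorem q2_coarse {l' l : ℕ} (h : l' ≤ l) {z x : E2} (hz : q2 l z = q2 l x) :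
    q2 l' z = q2 l' x := by
  unfold q2 at hz ⊢
  have h0 := congrArg Prod.fst hz
  have h1 := congrArg Prod.snd hz
  simp only at h0 h1
  rw [floor_div l' l h, floor_div l' l h, floor_div (u := x 0) l' l h, floor_div (u := x 1) l' l h,
    h0, h1]

open scoped Classical in
/-- one pruning step: remove from `Y` all cells of level `l` in which `Y` has mass less than
`ε` times the mass of the cell -/
noncomputable def rem (μ : Measure E2) (ε : ℝ≥0∞) (l : ℕ) (Y : Set E2) : Set E2 :=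
  {x | x ∈ Y ∧ ε * μ (cell l x) ≤ μ (Y ∩ cell l x)}

theorem rem_sub (μ : Measure E2) (ε : ℝ≥0∞) (l : ℕ) (Y : Set E2) : rem μ ε l Y ⊆ Y :=
  fun _ h => h.1

theorem rem_eq (μ : Measure E2) (ε : ℝ≥0∞) (l : ℕ) (Y : Set E2) :
    rem μ ε l Y = Y \ ⋃ k : {k : ℤ × ℤ // μ (Y ∩ cl l k) < ε * μ (cl l k)}, (Y ∩ cl l k) := by
  ext x
  simp only [rem, mem_ofPred_eq, mem_sdiff, mem_iUnion, mem_inter_iff, Subtype.exists, not_exists,
    not_and, exists_prop]
  constructor
  · rintro ⟨h1, h2⟩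
    refine ⟨h1, fun k hk _ hx => ?_⟩
    have : q2 l x = k := hx
    subst this
    exact absurd h2 (not_le.mpr hk)
  · rintro ⟨h1, h2⟩
    refine ⟨h1, ?_⟩
    by_contra hcon
    exact h2 (q2 l x) (not_le.mp hcon) h1 rfl

theorem measurable_rem (μ : Measure E2) (ε : ℝ≥0∞) (l : ℕ) {Y : Set E2} (hY : MeasurableSet Y) :
    MeasurableSet (rem μ ε l Y) := by
  rw [rem_eq]
  exact hY.diff (MeasurableSet.iUnion fun k => hY.inter (measurable_cl l k))

theorem measure_rem (μ : Measure E2) [IsProbabilityMeasure μ] (ε : ℝ≥0∞) (l : ℕ) {Y : Set E2}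
    (hY : MeasurableSet Y) : μ Y ≤ μ (rem μ ε l Y) + ε := by
  classical
  set B := ⋃ k : {k : ℤ × ℤ // μ (Y ∩ cl l k) < ε * μ (cl l k)}, (Y ∩ cl l (k : ℤ × ℤ)) with hB
  have h1 : μ B ≤ ε := by
    have hdisj : Pairwise (Function.onFun Disjoint
        (fun k : {k : ℤ × ℤ // μ (Y ∩ cl l k) < ε * μ (cl l k)} => cl l (k : ℤ × ℤ))) := by
      intro k k' hkk
      rw [Function.onFun, Set.disjoint_left]
      intro x hx hx'
      apply hkk
      have e1 : q2 l x = k := hx
      have e2 : q2 l x = k' := hx'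
      exact Subtype.ext (e1.symm.trans e2)
    calc μ B ≤ ∑' k : {k : ℤ × ℤ // μ (Y ∩ cl l k) < ε * μ (cl l k)}, μ (Y ∩ cl l (k : ℤ × ℤ)) :=
          measure_iUnion_le _
      _ ≤ ∑' k : {k : ℤ × ℤ // μ (Y ∩ cl l k) < ε * μ (cl l k)}, ε * μ (cl l (k : ℤ × ℤ)) :=
          ENNReal.tsum_le_tsum fun k => k.2.le
      _ = ε * ∑' k : {k : ℤ × ℤ // μ (Y ∩ cl l k) < ε * μ (cl l k)}, μ (cl l (k : ℤ × ℤ)) :=
          ENNReal.tsum_mul_left
      _ = ε * μ (⋃ k : {k : ℤ × ℤ // μ (Y ∩ cl l k) < ε * μ (cl l k)}, cl l (k : ℤ × ℤ)) := by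
          rw [measure_iUnion hdisj (fun k => measurable_cl l _)]
      _ ≤ ε * 1 := by gcongr; exact prob_le_one
      _ = ε := mul_one _
  have h2 : Y ⊆ rem μ ε l Y ∪ B := by
    intro x hx
    by_cases hxB : x ∈ B
    · exact Or.inr hxB
    · left; rw [rem_eq]; exact ⟨hx, hxB⟩
  calc μ Y ≤ μ (rem μ ε l Y ∪ B) := measure_mono h2
    _ ≤ μ (rem μ ε l Y) + μ B := measure_union_le _ _
    _ ≤ μ (rem μ ε l Y) + ε := by gcongr

/-- in a surviving cell of a finer level nothing is removed -/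
theorem rem_inter (μ : Measure E2) (ε : ℝ≥0∞) {l' l : ℕ} (h : l' ≤ l) (Y : Set E2) {x : E2}
    (hx : x ∈ rem μ ε l' Y) : rem μ ε l' Y ∩ cell l x = Y ∩ cell l x := by
  ext z
  constructor
  · rintro ⟨h1, h2⟩; exact ⟨h1.1, h2⟩
  · rintro ⟨h1, h2⟩
    refine ⟨⟨h1, ?_⟩, h2⟩
    have e : cell l' z = cell l' x := by
      have : q2 l' z = q2 l' x := q2_coarse h h2
      unfold cell; rw [this]
    rw [e]
    exact hx.2

/-- iterated pruning -/
noncomputable def it (μ : Measure E2) (ε : ℝ≥0∞) (l : ℕ → ℕ) (X : Set E2) : ℕ → Set E2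
  | 0 => X
  | i + 1 => rem μ ε (l i) (it μ ε l X i)

end PruneAux

open PruneAux

theorem prune (μ : Measure E2) [IsProbabilityMeasure μ] (X : Set E2) (hX : MeasurableSet X)
    (m : ℕ) (l : ℕ → ℕ) (hl : ∀ i < m, l (i + 1) ≤ l i) :
    ∃ X' ⊆ X, MeasurableSet X' ∧ μ X ≤ 2 * μ X' ∧ ∀ i ≤ m, ∀ x ∈ X',
      μ X * μ (cell (l i) x) ≤ 2 * (m + 1) * μ (X' ∩ cell (l i) x) := by
  set ε : ℝ≥0∞ := μ X / (2 * (m + 1)) with hε
  have hm0 : (2 * ((m : ℝ≥0∞) + 1)) ≠ 0 := by simp
  have hmt : (2 * ((m : ℝ≥0∞) + 1)) ≠ ∞ := by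
    apply ENNReal.mul_ne_top (by simp)
    simp
  have hsub : ∀ i, it μ ε l X i ⊆ X := by
    intro i
    induction i with
    | zero => exact subset_rfl
    | succ i ih => exact (rem_sub _ _ _ _).trans ih
  have hmeas : ∀ i, MeasurableSet (it μ ε l X i) := by
    intro i
    induction i with
    | zero => exact hX
    | succ i ih => exact measurable_rem _ _ _ ih
  have hmass : ∀ i : ℕ, μ X ≤ μ (it μ ε l X i) + i * ε := by
    intro i
    induction i with
    | zero => simp [it]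
    | succ i ih =>
      calc μ X ≤ μ (it μ ε l X i) + i * ε := ih
        _ ≤ (μ (it μ ε l X (i + 1)) + ε) + i * ε := by
            gcongr
            exact measure_rem μ ε (l i) (hmeas i)
        _ = μ (it μ ε l X (i + 1)) + ((i + 1 : ℕ) : ℝ≥0∞) * ε := by push_cast; ring
  have hmono : ∀ i j, i ≤ j → j ≤ m → l j ≤ l i := by
    intro i j hij
    induction j with
    | zero => intro _; have : i = 0 := by omega
              subst this; exact le_rfl
    | succ j ih =>
      intro hj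
      rcases Nat.lt_or_ge i (j + 1) with h | h
      · exact (hl j (by omega)).trans (ih (by omega) (by omega))
      · have : i = j + 1 := by omega
        subst this; exact le_rfl
  refine ⟨it μ ε l X (m + 1), hsub _, hmeas _, ?_, ?_⟩
  · have h1 := hmass (m + 1)
    have h2 : ((m + 1 : ℕ) : ℝ≥0∞) * ε = μ X / 2 := by
      rw [hε]
      push_cast
      rw [ENNReal.div_eq_inv_mul, ENNReal.mul_inv (by simp) (by simp), ENNReal.div_eq_inv_mul]
      calc ((m : ℝ≥0∞) + 1) * (2⁻¹ * ((m : ℝ≥0∞) + 1)⁻¹ * μ X)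
          = (((m : ℝ≥0∞) + 1) * ((m : ℝ≥0∞) + 1)⁻¹) * (2⁻¹ * μ X) := by ring
        _ = 2⁻¹ * μ X := by
            rw [ENNReal.mul_inv_cancel (by simp) (by simp), one_mul]
    rw [h2] at h1
    have hXt : μ X ≠ ∞ := measure_ne_top _ _
    have h3 : μ X / 2 ≤ μ (it μ ε l X (m + 1)) := by
      have h4 : μ X / 2 + μ X / 2 ≤ μ (it μ ε l X (m + 1)) + μ X / 2 := by
        rw [ENNReal.add_halves]; exact h1
      exact (ENNReal.add_le_add_iff_right (ENNReal.div_ne_top hXt (by simp))).mp h4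
    calc μ X = 2 * (μ X / 2) := by rw [ENNReal.mul_div_cancel (by simp) (by simp)]
      _ ≤ _ := by gcongr
  · intro i hi x hx
    -- nothing is removed after step `i`
    have hstep : ∀ j, i ≤ j → j ≤ m + 1 → x ∈ it μ ε l X j → ∀ k, j ≤ k → k ≤ m + 1 →
        x ∈ it μ ε l X k → it μ ε l X k ∩ cell (l i) x = it μ ε l X j ∩ cell (l i) x := by
      intro j hij hj _ k hjk
      induction k with
      | zero => intro _ _; have : j = 0 := by omega
                subst this; rfl
      | succ k ih =>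
        intro hk hxk
        rcases Nat.lt_or_ge j (k + 1) with h | h
        · have hxk' : x ∈ it μ ε l X k := rem_sub _ _ _ _ hxk
          rw [← ih (by omega) (by omega) hxk']
          exact rem_inter μ ε (hmono i k (by omega) (by omega)) _ hxk
        · have : j = k + 1 := by omega
          subst this; rfl
    have hback : ∀ k, k ≤ m + 1 → x ∈ it μ ε l X k := by
      intro k hk
      induction hn : (m + 1 - k) generalizing k with
      | zero => have : k = m + 1 := by omega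
                subst this; exact hx
      | succ n ih => exact rem_sub _ _ _ _ (ih (k + 1) (by omega) (by omega))
    have hxi1 := hback (i + 1) (by omega)
    have h1 : ε * μ (cell (l i) x) ≤ μ (it μ ε l X i ∩ cell (l i) x) := hxi1.2
    rw [hstep i le_rfl (by omega) (hback i (by omega)) (m + 1) (by omega) le_rfl hx]
    calc μ X * μ (cell (l i) x) = 2 * (m + 1) * (ε * μ (cell (l i) x)) := by
          rw [← mul_assoc, hε, ENNReal.mul_div_cancel hm0 hmt]
      _ ≤ _ := by gcongr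

end Pool.Agent.H744R2.Falc
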