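import Pool.Agent.H744R2.Falc.DefsB
import Pool.Agent.H744R2.Falc.Cone
import Pool.Agent.H744R2.Falc.Prune

/-! Task B2b: local strips. -/

set_option autoImplicit false

namespace Pool.Agent.H744R2.Falc

open MeasureTheory Set Metric
open scoped ENNReal

namespace LocalAux

open PruneAux ConeAux

/-- Riesz potential of a Frostman measure -/
theorem riesz (μ : Measure E2) [IsProbabilityMeasure μ] (C s : ℝ) (hC : 0 < C) (hs : 1 < s)
    (hμ : ∀ (x : E2) (r : ℝ), 0 < r → μ (closedBall x r) ≤ ENNReal.ofReal (C * r ^ s)) :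
    ∃ C2 : ℝ, 0 < C2 ∧ ∀ (x : E2) (r0 : ℝ), 0 < r0 →
      ∫⁻ z in closedBall x (2 * r0), ENNReal.ofReal (1 / ‖z - x‖) ∂μ ≤
        ENNReal.ofReal (C2 * r0 ^ (s - 1)) := by
  set q : ℝ := (2 : ℝ) ^ (-(s - 1)) with hq
  have hq0 : 0 < q := by positivity
  have hq1 : q < 1 := Real.rpow_lt_one_of_one_lt_of_neg (by norm_num) (by linarith)
  refine ⟨C * (2 : ℝ) ^ s * (1 - q)⁻¹, by
    have : 0 < 1 - q := by linarith
    positivity, ?_⟩
  intro x r0 hr0
  set a : ℕ → ℝ := fun i => 2 ^ i / r0 with ha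
  set B : ℕ → Set E2 := fun i => closedBall x (2 * r0 * (2 : ℝ)⁻¹ ^ i) with hB
  have hpt : ∀ z ∈ closedBall x (2 * r0), ENNReal.ofReal (1 / ‖z - x‖) ≤
      ∑' i, (B i).indicator (fun _ => ENNReal.ofReal (a i)) z := by
    intro z hz
    rw [mem_closedBall, dist_eq_norm] at hz
    by_cases hzx : z = x
    · subst hzx; simp
    · have ht : 0 < ‖z - x‖ := norm_pos_iff.mpr (sub_ne_zero.mpr hzx)
      obtain ⟨i, h1, h2⟩ := exists_nat_pow_near_of_lt_one (x := ‖z - x‖ / (2 * r0)) (y := (2 : ℝ)⁻¹)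
        (by positivity) (by rw [div_le_one (by positivity)]; exact hz) (by norm_num) (by norm_num)
      rw [div_le_iff₀ (by positivity)] at h2
      rw [lt_div_iff₀ (by positivity)] at h1
      refine le_trans ?_ (ENNReal.le_tsum i)
      have hzB : z ∈ B i := by
        rw [hB, mem_closedBall, dist_eq_norm]; linarith
      rw [indicator_of_mem hzB]
      apply ENNReal.ofReal_le_ofReal
      rw [ha, div_le_div_iff₀ ht hr0, one_mul]
      have e : (2 : ℝ) ^ i * ((2 : ℝ)⁻¹ ^ (i + 1) * (2 * r0)) = r0 := by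
        rw [inv_pow, pow_succ]; field_simp
      calc r0 = (2 : ℝ) ^ i * ((2 : ℝ)⁻¹ ^ (i + 1) * (2 * r0)) := e.symm
        _ ≤ 2 ^ i * ‖z - x‖ := by gcongr
  have hterm : ∀ i, ENNReal.ofReal (a i) * μ (B i) ≤
      ENNReal.ofReal (C * (2 : ℝ) ^ s * r0 ^ (s - 1) * q ^ i) := by
    intro i
    have h1 := hμ x (2 * r0 * (2 : ℝ)⁻¹ ^ i) (by positivity)
    calc ENNReal.ofReal (a i) * μ (B i)
        ≤ ENNReal.ofReal (a i) * ENNReal.ofReal (C * (2 * r0 * (2 : ℝ)⁻¹ ^ i) ^ s) := by gcongr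
      _ = ENNReal.ofReal (a i * (C * (2 * r0 * (2 : ℝ)⁻¹ ^ i) ^ s)) := by
          rw [← ENNReal.ofReal_mul (by positivity)]
      _ = _ := by
          congr 1
          rw [ha, Real.mul_rpow (by positivity) (by positivity), Real.mul_rpow (by norm_num) hr0.le,
            hq, Real.rpow_sub_one hr0.ne']
          have e1 : ((2 : ℝ)⁻¹ ^ i) ^ s = (2 : ℝ) ^ (-(s * i)) := by
            rw [inv_pow, Real.inv_rpow (by positivity), ← Real.rpow_natCast, ← Real.rpow_mul (by norm_num),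
              ← Real.rpow_neg (by norm_num)]
            congr 1; ring
          have e2 : ((2 : ℝ) ^ (-(s - 1))) ^ i = (2 : ℝ) ^ (-(s * i)) * 2 ^ i := by
            rw [← Real.rpow_natCast, ← Real.rpow_mul (by norm_num), ← Real.rpow_natCast 2 i,
              ← Real.rpow_add (by norm_num)]
            congr 1; ring
          rw [e1, e2]
          ring
  calc ∫⁻ z in closedBall x (2 * r0), ENNReal.ofReal (1 / ‖z - x‖) ∂μ
      ≤ ∫⁻ z in closedBall x (2 * r0), ∑' i, (B i).indicator (fun _ => ENNReal.ofReal (a i)) z ∂μ :=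
        setLIntegral_mono' measurableSet_closedBall hpt
    _ ≤ ∫⁻ z, ∑' i, (B i).indicator (fun _ => ENNReal.ofReal (a i)) z ∂μ :=
        setLIntegral_le_lintegral _ _
    _ = ∑' i, ∫⁻ z, (B i).indicator (fun _ => ENNReal.ofReal (a i)) z ∂μ :=
        lintegral_tsum fun i => (measurable_const.indicator measurableSet_closedBall).aemeasurable
    _ = ∑' i, ENNReal.ofReal (a i) * μ (B i) := by
        apply tsum_congr; intro i
        rw [lintegral_indicator_const measurableSet_closedBall]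
    _ ≤ ∑' i, ENNReal.ofReal (C * (2 : ℝ) ^ s * r0 ^ (s - 1) * q ^ i) := ENNReal.tsum_le_tsum hterm
    _ = ENNReal.ofReal (∑' i, C * (2 : ℝ) ^ s * r0 ^ (s - 1) * q ^ i) := by
        rw [ENNReal.ofReal_tsum_of_nonneg]
        · intro i; positivity
        · exact (summable_geometric_of_lt_one hq0.le hq1).mul_left _
    _ = ENNReal.ofReal (C * (2 : ℝ) ^ s * (1 - q)⁻¹ * r0 ^ (s - 1)) := by
        rw [tsum_mul_left, tsum_geometric_of_lt_one hq0.le hq1]
        congr 1; ring

theorem cont_coord (i : Fin 2) : Continuous fun x : E2 => x i := by fun_prop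

theorem measurable_strip (μ : Measure E2) [IsProbabilityMeasure μ] (w : ℝ) :
    Measurable fun p : E2 × E2 => μ (strip w p.1 p.2) := by
  have hS : MeasurableSet {q : (E2 × E2) × E2 | |det2 (q.2 - q.1.1) (q.1.2 - q.1.1)| ≤
      w * ‖q.1.2 - q.1.1‖} := by
    apply IsClosed.measurableSet
    apply isClosed_le
    · unfold det2
      apply Continuous.abs
      have h1 : Continuous fun q : (E2 × E2) × E2 => q.2 - q.1.1 := by fun_prop
      have h2 : Continuous fun q : (E2 × E2) × E2 => q.1.2 - q.1.1 := by fun_prop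
      exact (((cont_coord 0).comp h1).mul ((cont_coord 1).comp h2)).sub
        (((cont_coord 1).comp h1).mul ((cont_coord 0).comp h2))
    · fun_prop
  exact measurable_measure_prodMk_left hS

/-- exchange of the last two variables -/
theorem mp_perm (μ : Measure E2) [IsProbabilityMeasure μ] :
    MeasurePreserving (fun q : (E2 × E2) × E2 => ((q.1.1, q.2), q.1.2))
      ((μ.prod μ).prod μ) ((μ.prod μ).prod μ) := by
  have a1 := measurePreserving_prodAssoc μ μ μ
  have a2 : MeasurePreserving (Prod.map id Prod.swap) (μ.prod (μ.prod μ)) (μ.prod (μ.prod μ)) :=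
    (MeasurePreserving.id _).prod Measure.measurePreserving_swap
  exact a1.symm.comp (a2.comp a1)

theorem dist_cell {l : ℕ} {x z : E2} (h : q2 l z = q2 l x) : ‖z - x‖ ≤ 2 * (2 : ℝ)⁻¹ ^ l := by
  have h0 := congrArg Prod.fst h
  have h1 := congrArg Prod.snd h
  simp only [q2] at h0 h1
  have g0 := Int.abs_sub_lt_one_of_floor_eq_floor h0
  have g1 := Int.abs_sub_lt_one_of_floor_eq_floor h1
  have hp : (0 : ℝ) < 2 ^ l := by positivity
  rw [← mul_sub, abs_mul, abs_of_pos hp] at g0 g1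
  have e : (2 : ℝ)⁻¹ ^ l * 2 ^ l = 1 := by rw [← mul_pow]; norm_num
  have hi : (0 : ℝ) < (2 : ℝ)⁻¹ ^ l := by positivity
  have k0 : |z 0 - x 0| ≤ (2 : ℝ)⁻¹ ^ l := by nlinarith [abs_nonneg (z 0 - x 0)]
  have k1 : |z 1 - x 1| ≤ (2 : ℝ)⁻¹ ^ l := by nlinarith [abs_nonneg (z 1 - x 1)]
  apply le_of_sq_le_sq _ (by positivity)
  rw [normsq_E2]
  have s0 : (z - x) 0 ^ 2 ≤ ((2 : ℝ)⁻¹ ^ l) ^ 2 := by
    rw [← sq_abs]; exact pow_le_pow_left₀ (abs_nonneg _) k0 2
  have s1 : (z - x) 1 ^ 2 ≤ ((2 : ℝ)⁻¹ ^ l) ^ 2 := by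
    rw [← sq_abs]; exact pow_le_pow_left₀ (abs_nonneg _) k1 2
  nlinarith

end LocalAux

open LocalAux PruneAux ConeAux

theorem local_strip (μ : Measure E2) [IsProbabilityMeasure μ] (R C s : ℝ) (hR1 : 1 ≤ R)
    (hR : ∀ᵐ x ∂μ, ‖x‖ ≤ R) (hC : 0 < C) (hs : 1 < s) (hs2 : s < 2)
    (hμ : ∀ (x : E2) (r : ℝ), 0 < r → μ (closedBall x r) ≤ ENNReal.ofReal (C * r ^ s))
    (E : Set E2) (hE : μ Eᶜ = 0) :
    ∃ C' : ℝ, 0 < C' ∧ ∀ l' l : ℕ, l' ≤ l → ∀ M ρ θ : ℝ, 1 ≤ M → 0 < ρ → ρ ≤ 1 → 0 < θ →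
      ∀ N : ℕ, (q2 l' '' E).encard ≤ N →
      (μ.prod μ) {p | ρ ≤ ‖p.2 - p.1‖ ∧
          μ (strip ((2 : ℝ)⁻¹ ^ l) p.1 p.2) ≤ ENNReal.ofReal (M * (2 : ℝ)⁻¹ ^ l) ∧
          ENNReal.ofReal θ * μ (cell l' p.1) <
            μ (cell l' p.1 ∩ {z | |inner ℝ (z - p.1) (p.2 - p.1)| ≤ 2 * (2 : ℝ)⁻¹ ^ l})}
      ≤ ENNReal.ofReal (C' * (M / ρ) * (2 : ℝ)⁻¹ ^ l * (((2 : ℝ)⁻¹ ^ l') ^ (s - 1)) * N / θ) := by
  classical
  obtain ⟨C1, hC1, hcone⟩ := cone_lemma μ R hR1 hR
  obtain ⟨C2, hC2, hriesz⟩ := riesz μ C s hC hs hμ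
  refine ⟨C1 * C2, by positivity, ?_⟩
  intro l' l _ M ρ θ hM hρ hρ1 hθ N hN
  set w : ℝ := (2 : ℝ)⁻¹ ^ l with hw
  have hw0 : 0 < w := by positivity
  set r0 : ℝ := (2 : ℝ)⁻¹ ^ l' with hr0
  have hr00 : 0 < r0 := by positivity
  set K : ℝ := C1 * M * w / ρ with hK
  have hK0 : 0 < K := by positivity
  set W : Set (E2 × E2) := {p | ρ ≤ ‖p.2 - p.1‖ ∧
          μ (strip w p.1 p.2) ≤ ENNReal.ofReal (M * w) ∧
          ENNReal.ofReal θ * μ (cell l' p.1) <
            μ (cell l' p.1 ∩ {z | |inner ℝ (z - p.1) (p.2 - p.1)| ≤ 2 * w})} with hW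
  -- points are null
  have hpoint : ∀ x : E2, μ {x} = 0 := by
    intro x
    have h1 : ∀ n : ℕ, μ {x} ≤ ENNReal.ofReal (C * ((1 / ((n : ℝ) + 1)) ^ s)) := by
      intro n
      refine le_trans (measure_mono ?_) (hμ x (1 / ((n : ℝ) + 1)) (by positivity))
      rw [singleton_subset_iff]; exact mem_closedBall_self (by positivity)
    have h2 : Filter.Tendsto (fun n : ℕ => ENNReal.ofReal (C * ((1 / ((n : ℝ) + 1)) ^ s)))
        Filter.atTop (nhds 0) := by
      have h3 : Filter.Tendsto (fun n : ℕ => C * ((1 / ((n : ℝ) + 1)) ^ s)) Filter.atTop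
          (nhds (C * (0 : ℝ) ^ s)) := by
        apply Filter.Tendsto.const_mul
        exact (tendsto_one_div_add_atTop_nhds_zero_nat).rpow_const (Or.inr (by linarith))
      rw [Real.zero_rpow (by linarith), mul_zero] at h3
      have := (ENNReal.continuous_ofReal.tendsto 0).comp h3
      rw [ENNReal.ofReal_zero] at this
      exact this
    exact le_antisymm (ge_of_tendsto' h2 h1) bot_le
  -- one cell
  have hcell : ∀ k : ℤ × ℤ, (μ.prod μ) (W ∩ {p | q2 l' p.1 = k}) ≤
      ENNReal.ofReal (K * (C2 * r0 ^ (s - 1)) / θ) := by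
    intro k
    set Q := cl l' k with hQ
    have hQm : MeasurableSet Q := measurable_cl l' k
    by_cases hc : μ Q = 0
    · have : W ∩ {p | q2 l' p.1 = k} = ∅ := by
        rw [eq_empty_iff_forall_notMem]
        rintro p ⟨⟨_, _, h3⟩, h4⟩
        have e : cell l' p.1 = Q := by
          have h4' : q2 l' p.1 = k := h4
          rw [cell_eq, h4']
        rw [e] at h3
        have h5 : μ (Q ∩ {z | |inner ℝ (z - p.1) (p.2 - p.1)| ≤ 2 * w}) ≤ 0 :=
          (measure_mono inter_subset_left).trans hc.le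
        exact absurd (lt_of_lt_of_le h3 h5) (by simp)
      rw [this]; simp
    · set S : Set ((E2 × E2) × E2) := {q | (ρ ≤ ‖q.1.2 - q.1.1‖ ∧
        μ (strip w q.1.1 q.1.2) ≤ ENNReal.ofReal (M * w)) ∧
        |inner ℝ (q.2 - q.1.1) (q.1.2 - q.1.1)| ≤ 2 * w ∧ q.1.1 ∈ Q ∧ q.2 ∈ Q} with hS
      have hSm : MeasurableSet S := by
        have m1 : MeasurableSet {q : (E2 × E2) × E2 | ρ ≤ ‖q.1.2 - q.1.1‖} :=
          (isClosed_le continuous_const (by fun_prop)).measurableSet
        have m2 : MeasurableSet {q : (E2 × E2) × E2 |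
            μ (strip w q.1.1 q.1.2) ≤ ENNReal.ofReal (M * w)} :=
          measurableSet_le ((measurable_strip μ w).comp measurable_fst) measurable_const
        have m3 : MeasurableSet {q : (E2 × E2) × E2 |
            |inner ℝ (q.2 - q.1.1) (q.1.2 - q.1.1)| ≤ 2 * w} :=
          (isClosed_le (by fun_prop) continuous_const).measurableSet
        have m4 : MeasurableSet {q : (E2 × E2) × E2 | q.1.1 ∈ Q} :=
          (measurable_fst.comp measurable_fst) hQm
        have m5 : MeasurableSet {q : (E2 × E2) × E2 | q.2 ∈ Q} := measurable_snd hQm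
        exact (m1.inter m2).inter (m3.inter (m4.inter m5))
      -- step 1
      have h1 : ENNReal.ofReal θ * μ Q * (μ.prod μ) (W ∩ {p | q2 l' p.1 = k}) ≤
          ((μ.prod μ).prod μ) S := by
        rw [Measure.prod_apply hSm]
        refine le_trans ?_ (mul_meas_ge_le_lintegral (measurable_measure_prodMk_left hSm)
          (ENNReal.ofReal θ * μ Q))
        gcongr
        rintro p ⟨⟨h2, h3, h4⟩, h5⟩
        have h5' : q2 l' p.1 = k := h5
        have e : cell l' p.1 = Q := by rw [cell_eq, h5']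
        rw [e] at h4
        refine h4.le.trans (measure_mono ?_)
        rintro z ⟨hz1, hz2⟩
        exact ⟨⟨h2, h3⟩, hz2, h5', hz1⟩
      -- step 2
      have h2 : ((μ.prod μ).prod μ) S = ∫⁻ x, ∫⁻ z, μ {y | ((x, y), z) ∈ S} ∂μ ∂μ := by
        have hmp := mp_perm μ
        rw [← hmp.measure_preimage hSm.nullMeasurableSet,
          Measure.prod_apply (hmp.measurable hSm)]
        rw [lintegral_prod _ (measurable_measure_prodMk_left (hmp.measurable hSm)).aemeasurable]
        rfl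
      -- step 3
      have h3 : ∫⁻ x, ∫⁻ z, μ {y | ((x, y), z) ∈ S} ∂μ ∂μ ≤
          ENNReal.ofReal (K * (C2 * r0 ^ (s - 1))) * μ Q := by
        have h4 : ∀ᵐ x ∂μ, ∫⁻ z, μ {y | ((x, y), z) ∈ S} ∂μ ≤
            Q.indicator (fun _ => ENNReal.ofReal (K * (C2 * r0 ^ (s - 1)))) x := by
          filter_upwards [hR] with x hxR
          by_cases hxQ : x ∈ Q
          · rw [indicator_of_mem hxQ]
            have h5 : ∀ᵐ z ∂μ, μ {y | ((x, y), z) ∈ S} ≤
                (closedBall x (2 * r0)).indicator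
                  (fun z => ENNReal.ofReal K * ENNReal.ofReal (1 / ‖z - x‖)) z := by
              have hne : ∀ᵐ z ∂μ, z ≠ x := by
                rw [ae_iff]; simp only [ne_eq, not_not]; exact hpoint x
              filter_upwards [hR, hne] with z hzR hzx
              by_cases hzQ : z ∈ Q
              · have hzx' : q2 l' z = q2 l' x := by
                  have e1 : q2 l' z = k := hzQ
                  have e2 : q2 l' x = k := hxQ
                  rw [e1, e2]
                have hball : z ∈ closedBall x (2 * r0) := by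
                  rw [mem_closedBall, dist_eq_norm]; exact dist_cell hzx'
                rw [indicator_of_mem hball, ← ENNReal.ofReal_mul hK0.le]
                have h6 := hcone x z hxR hzR (Ne.symm hzx) w ρ M hw0 hρ hρ1 hM
                have e3 : K * (1 / ‖z - x‖) = C1 * M * w / (ρ * ‖z - x‖) := by
                  rw [hK]; field_simp
                rw [e3]
                refine le_trans (measure_mono ?_) h6
                rintro y ⟨⟨g1, g2⟩, g3, _, _⟩
                exact ⟨g1, g2, g3⟩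
              · have : {y | ((x, y), z) ∈ S} = ∅ := by
                  rw [eq_empty_iff_forall_notMem]
                  rintro y ⟨_, _, _, g⟩; exact hzQ g
                rw [this]; simp
            refine (lintegral_mono_ae h5).trans ?_
            rw [lintegral_indicator measurableSet_closedBall, lintegral_const_mul' _ _ ENNReal.ofReal_ne_top,
              ENNReal.ofReal_mul hK0.le]
            gcongr
            exact hriesz x r0 hr00
          · rw [indicator_of_notMem hxQ]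
            have : ∀ z, {y | ((x, y), z) ∈ S} = ∅ := by
              intro z
              rw [eq_empty_iff_forall_notMem]
              rintro y ⟨_, _, g, _⟩; exact hxQ g
            simp [this]
        refine (lintegral_mono_ae h4).trans ?_
        rw [lintegral_indicator_const hQm]
      have h4 : ENNReal.ofReal θ * μ Q * (μ.prod μ) (W ∩ {p | q2 l' p.1 = k}) ≤
          ENNReal.ofReal (K * (C2 * r0 ^ (s - 1))) * μ Q := h1.trans (h2.le.trans h3)
      have hct : μ Q ≠ ∞ := measure_ne_top _ _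
      have h5 : ENNReal.ofReal θ * (μ.prod μ) (W ∩ {p | q2 l' p.1 = k}) ≤
          ENNReal.ofReal (K * (C2 * r0 ^ (s - 1))) := by
        have h6 : μ Q * (ENNReal.ofReal θ * (μ.prod μ) (W ∩ {p | q2 l' p.1 = k})) ≤
            μ Q * ENNReal.ofReal (K * (C2 * r0 ^ (s - 1))) := by
          calc μ Q * (ENNReal.ofReal θ * (μ.prod μ) (W ∩ {p | q2 l' p.1 = k}))
              = ENNReal.ofReal θ * μ Q * (μ.prod μ) (W ∩ {p | q2 l' p.1 = k}) := by ring
            _ ≤ _ := h4
            _ = _ := by ring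
        exact (ENNReal.mul_le_mul_iff_right hc hct).mp h6
      rw [ENNReal.ofReal_div_of_pos hθ]
      rw [ENNReal.le_div_iff_mul_le (Or.inl (by simp [hθ])) (Or.inl ENNReal.ofReal_ne_top), mul_comm]
      exact h5
  -- finitely many cells
  have hfin : (q2 l' '' E).Finite := by
    apply Set.finite_of_encard_le_coe hN
  have hcard : hfin.toFinset.card ≤ N := by
    rw [hfin.encard_eq_coe_toFinset_card] at hN
    exact_mod_cast hN
  have hcover : W ⊆ (⋃ k ∈ hfin.toFinset, (W ∩ {p | q2 l' p.1 = k})) ∪ Prod.fst ⁻¹' Eᶜ := by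
    intro p hp
    by_cases hpE : p.1 ∈ E
    · left
      simp only [mem_iUnion, exists_prop]
      exact ⟨q2 l' p.1, hfin.mem_toFinset.mpr (mem_image_of_mem _ hpE), hp, rfl⟩
    · right; exact hpE
  have hnull : (μ.prod μ) (Prod.fst ⁻¹' Eᶜ) = 0 :=
    Measure.quasiMeasurePreserving_fst.preimage_null hE
  calc (μ.prod μ) W ≤ (μ.prod μ) ((⋃ k ∈ hfin.toFinset, (W ∩ {p | q2 l' p.1 = k})) ∪
          Prod.fst ⁻¹' Eᶜ) := measure_mono hcover
    _ ≤ (μ.prod μ) (⋃ k ∈ hfin.toFinset, (W ∩ {p | q2 l' p.1 = k})) +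
          (μ.prod μ) (Prod.fst ⁻¹' Eᶜ) := measure_union_le _ _
    _ = (μ.prod μ) (⋃ k ∈ hfin.toFinset, (W ∩ {p | q2 l' p.1 = k})) := by rw [hnull, add_zero]
    _ ≤ ∑ k ∈ hfin.toFinset, (μ.prod μ) (W ∩ {p | q2 l' p.1 = k}) :=
        measure_biUnion_finset_le _ _
    _ ≤ ∑ k ∈ hfin.toFinset, ENNReal.ofReal (K * (C2 * r0 ^ (s - 1)) / θ) :=
        Finset.sum_le_sum fun k _ => hcell k
    _ = ENNReal.ofReal (hfin.toFinset.card * (K * (C2 * r0 ^ (s - 1)) / θ)) := by
        rw [Finset.sum_const, nsmul_eq_mul, ENNReal.ofReal_mul (p := (hfin.toFinset.card : ℝ))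
          (by positivity), ENNReal.ofReal_natCast]
    _ ≤ ENNReal.ofReal (C1 * C2 * (M / ρ) * w * (r0 ^ (s - 1)) * N / θ) := by
        apply ENNReal.ofReal_le_ofReal
        have hcard' : (hfin.toFinset.card : ℝ) ≤ N := by exact_mod_cast hcard
        calc (hfin.toFinset.card : ℝ) * (K * (C2 * r0 ^ (s - 1)) / θ)
            ≤ N * (K * (C2 * r0 ^ (s - 1)) / θ) := by gcongr
          _ = _ := by rw [hK]; ring

end Pool.Agent.H744R2.Falc
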