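import Pool.Agent.H744R2.Falc.Defs

set_option autoImplicit false

/-! Task A2c: monotonicity of the smoothed `L^2` norm of a projection. -/

namespace Pool.Agent.H744R2.Falc

open MeasureTheory Set Metric Filter Topology
open scoped ENNReal

/-- the projection `x ↦ x 1 - t x 0` -/
noncomputable def prj (t : ℝ) (x : E2) : ℝ := x 1 - t * x 0

/-- density at scale `w` of the projection of `μ` -/
noncomputable def mwM (μ : Measure E2) (t w τ : ℝ) : ℝ :=
  (μ {x | τ ≤ prj t x ∧ prj t x < τ + w}).toReal / w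

namespace MonoAux

theorem measurable_prj (t : ℝ) : Measurable (prj t) := by
  unfold prj
  exact (Continuous.measurable (by fun_prop))

theorem continuous_prj (t : ℝ) : Continuous (prj t) := by
  unfold prj
  fun_prop

theorem GG_eq (μ : Measure E2) (w t : ℝ) :
    GG μ w t = ∫ p, tent w (prj t p.1 - prj t p.2) ∂(μ.prod μ) := by
  unfold GG prj
  refine integral_congr_ae (Eventually.of_forall fun p => ?_)
  simp only
  congr 1
  ring

theorem tent_nonneg (w v : ℝ) (hw : 0 < w) : 0 ≤ tent w v := by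
  unfold tent; positivity

theorem tent_le (w v : ℝ) (hw : 0 < w) : tent w v ≤ 1 / w := by
  unfold tent
  gcongr
  have : 0 ≤ |v| / w := by positivity
  exact max_le (by norm_num) (by linarith)

theorem continuous_tent (w : ℝ) : Continuous (tent w) := by
  unfold tent
  fun_prop

theorem ofReal_tent (w v : ℝ) (hw : 0 < w) :
    ENNReal.ofReal (w - |v|) = ENNReal.ofReal (w ^ 2) * ENNReal.ofReal (tent w v) := by
  rw [← ENNReal.ofReal_mul (by positivity)]
  have : w ^ 2 * tent w v = max 0 (w - |v|) := by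
    unfold tent
    rw [← mul_div_assoc, mul_comm, mul_div_assoc, pow_two, mul_div_assoc, div_self hw.ne',
      mul_one, max_mul_of_nonneg _ _ hw.le]
    congr 1
    · ring
    · field_simp
  rw [this, ENNReal.ofReal_max, ENNReal.ofReal_zero]
  exact (max_eq_right bot_le).symm

theorem vol_slice (w a b : ℝ) :
    volume {τ : ℝ | (τ ≤ a ∧ a < τ + w) ∧ (τ ≤ b ∧ b < τ + w)} = ENNReal.ofReal (w - |a - b|) := by
  have h1 : {τ : ℝ | (τ ≤ a ∧ a < τ + w) ∧ (τ ≤ b ∧ b < τ + w)} =
      Ioc (max a b - w) (min a b) := by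
    ext τ
    simp only [Set.mem_ofPred_eq, mem_Ioc, le_min_iff, sub_lt_iff_lt_add, max_lt_iff]
    tauto
  rw [h1, Real.volume_Ioc]
  congr 1
  rcases le_total a b with h | h
  · rw [max_eq_right h, min_eq_left h, abs_of_nonpos (by linarith)]; ring
  · rw [max_eq_left h, min_eq_right h, abs_of_nonneg (by linarith)]; ring

theorem measurable_m (μ : Measure E2) [IsProbabilityMeasure μ] (t w : ℝ) :
    Measurable fun τ : ℝ => μ {x | τ ≤ prj t x ∧ prj t x < τ + w} := by
  have hS : MeasurableSet {q : E2 × ℝ | q.2 ≤ prj t q.1 ∧ prj t q.1 < q.2 + w} := by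
    have h1 : Measurable fun q : E2 × ℝ => prj t q.1 := (measurable_prj t).comp measurable_fst
    exact (measurableSet_le measurable_snd h1).inter
      (measurableSet_lt h1 (measurable_snd.add_const w))
  exact measurable_measure_prodMk_right hS

theorem measurable_mw (μ : Measure E2) [IsProbabilityMeasure μ] (t w : ℝ) :
    Measurable (mwM μ t w) := by
  unfold mwM
  exact ((measurable_m μ t w).ennreal_toReal).div_const w

theorem lint_m_sq (μ : Measure E2) [IsProbabilityMeasure μ] (t w : ℝ) (hw : 0 < w) :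
    ∫⁻ τ, (μ {x | τ ≤ prj t x ∧ prj t x < τ + w}) ^ 2 =
      ENNReal.ofReal (w ^ 2) *
        ∫⁻ p, ENNReal.ofReal (tent w (prj t p.1 - prj t p.2)) ∂(μ.prod μ) := by
  set S2 : Set ((E2 × E2) × ℝ) := {q | (q.2 ≤ prj t q.1.1 ∧ prj t q.1.1 < q.2 + w) ∧
    (q.2 ≤ prj t q.1.2 ∧ prj t q.1.2 < q.2 + w)} with hS2
  have hS2m : MeasurableSet S2 := by
    have h1 : Measurable fun q : (E2 × E2) × ℝ => prj t q.1.1 :=
      (measurable_prj t).comp (measurable_fst.comp measurable_fst)
    have h2 : Measurable fun q : (E2 × E2) × ℝ => prj t q.1.2 :=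
      (measurable_prj t).comp (measurable_snd.comp measurable_fst)
    exact ((measurableSet_le measurable_snd h1).inter
      (measurableSet_lt h1 (measurable_snd.add_const w))).inter
      ((measurableSet_le measurable_snd h2).inter
      (measurableSet_lt h2 (measurable_snd.add_const w)))
  have e1 : ((μ.prod μ).prod volume) S2 =
      ∫⁻ τ, (μ {x | τ ≤ prj t x ∧ prj t x < τ + w}) ^ 2 := by
    rw [Measure.prod_apply_symm hS2m]
    refine lintegral_congr fun τ => ?_
    have : (fun p : E2 × E2 => (p, τ)) ⁻¹' S2 =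
        {x | τ ≤ prj t x ∧ prj t x < τ + w} ×ˢ {x | τ ≤ prj t x ∧ prj t x < τ + w} := by
      ext p; rfl
    rw [this, Measure.prod_prod, pow_two]
  rw [← e1, Measure.prod_apply hS2m, ← lintegral_const_mul' _ _ ENNReal.ofReal_ne_top]
  refine lintegral_congr fun p => ?_
  rw [← ofReal_tent w _ hw, ← vol_slice]
  rfl

theorem lint_mw_sq (μ : Measure E2) [IsProbabilityMeasure μ] (t w : ℝ) (hw : 0 < w) :
    ∫⁻ τ, ENNReal.ofReal (mwM μ t w τ ^ 2) =
      ∫⁻ p, ENNReal.ofReal (tent w (prj t p.1 - prj t p.2)) ∂(μ.prod μ) := by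
  have h0 : ENNReal.ofReal (w ^ 2) ≠ 0 := by
    rw [Ne, ENNReal.ofReal_eq_zero, not_le]; positivity
  have h1 : ENNReal.ofReal (w ^ 2) * ∫⁻ τ, ENNReal.ofReal (mwM μ t w τ ^ 2) =
      ENNReal.ofReal (w ^ 2) *
        ∫⁻ p, ENNReal.ofReal (tent w (prj t p.1 - prj t p.2)) ∂(μ.prod μ) := by
    rw [← lint_m_sq μ t w hw, ← lintegral_const_mul' _ _ ENNReal.ofReal_ne_top]
    refine lintegral_congr fun τ => ?_
    rw [← ENNReal.ofReal_mul (by positivity)]
    have : w ^ 2 * mwM μ t w τ ^ 2 =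
        (μ {x | τ ≤ prj t x ∧ prj t x < τ + w}).toReal ^ 2 := by
      unfold mwM
      rw [← mul_pow, mul_div_cancel₀ _ hw.ne']
    rw [this, ENNReal.ofReal_pow ENNReal.toReal_nonneg, ENNReal.ofReal_toReal]
    exact measure_ne_top _ _
  exact (ENNReal.mul_right_inj h0 ENNReal.ofReal_ne_top).1 h1

theorem integrable_tent (μ : Measure E2) [IsProbabilityMeasure μ] (t w : ℝ) (hw : 0 < w) :
    Integrable (fun p : E2 × E2 => tent w (prj t p.1 - prj t p.2)) (μ.prod μ) := by
  have hc : Continuous fun p : E2 × E2 => tent w (prj t p.1 - prj t p.2) :=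
    (continuous_tent w).comp (((continuous_prj t).comp continuous_fst).sub
      ((continuous_prj t).comp continuous_snd))
  refine Integrable.of_bound (C := 1 / w) hc.measurable.aestronglyMeasurable
    (Eventually.of_forall fun p => ?_)
  rw [Real.norm_of_nonneg (tent_nonneg w _ hw)]
  exact tent_le w _ hw

theorem lint_mw_sq' (μ : Measure E2) [IsProbabilityMeasure μ] (t w : ℝ) (hw : 0 < w) :
    ∫⁻ τ, ENNReal.ofReal (mwM μ t w τ ^ 2) = ENNReal.ofReal (GG μ w t) := by
  rw [lint_mw_sq μ t w hw, GG_eq, ofReal_integral_eq_lintegral_ofReal (integrable_tent μ t w hw)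
    (Eventually.of_forall fun p => tent_nonneg w _ hw)]

theorem integrable_mw_sq (μ : Measure E2) [IsProbabilityMeasure μ] (t w : ℝ) (hw : 0 < w) :
    Integrable (fun τ => mwM μ t w τ ^ 2) := by
  refine ⟨((measurable_mw μ t w).pow_const 2).aestronglyMeasurable, ?_⟩
  rw [hasFiniteIntegral_iff_ofReal (Eventually.of_forall fun τ => by positivity),
    lint_mw_sq' μ t w hw]
  exact ENNReal.ofReal_lt_top

theorem GG_nonneg (μ : Measure E2) (w t : ℝ) (hw : 0 < w) : 0 ≤ GG μ w t :=
  integral_nonneg fun _ => tent_nonneg w _ hw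

theorem integral_mw_sq (μ : Measure E2) [IsProbabilityMeasure μ] (t w : ℝ) (hw : 0 < w) :
    ∫ τ, mwM μ t w τ ^ 2 = GG μ w t := by
  rw [integral_eq_lintegral_of_nonneg_ae (Eventually.of_forall fun τ => by positivity)
    ((measurable_mw μ t w).pow_const 2).aestronglyMeasurable, lint_mw_sq' μ t w hw,
    ENNReal.toReal_ofReal (GG_nonneg μ w t hw)]

theorem mw_two (μ : Measure E2) [IsProbabilityMeasure μ] (t w τ : ℝ) (hw : 0 < w) :
    mwM μ t (2 * w) τ = (mwM μ t w τ + mwM μ t w (τ + w)) / 2 := by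
  unfold mwM
  have h1 : {x | τ ≤ prj t x ∧ prj t x < τ + 2 * w} =
      {x | τ ≤ prj t x ∧ prj t x < τ + w} ∪ {x | τ + w ≤ prj t x ∧ prj t x < τ + w + w} := by
    ext x
    simp only [Set.mem_ofPred_eq, mem_union]
    constructor
    · rintro ⟨h1, h2⟩
      rcases lt_or_ge (prj t x) (τ + w) with h | h
      · exact Or.inl ⟨h1, h⟩
      · exact Or.inr ⟨h, by linarith⟩
    · rintro (⟨h1, h2⟩ | ⟨h1, h2⟩)
      · exact ⟨h1, by linarith⟩
      · exact ⟨by linarith, by linarith⟩
  have hdisj : Disjoint {x | τ ≤ prj t x ∧ prj t x < τ + w}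
      {x | τ + w ≤ prj t x ∧ prj t x < τ + w + w} := by
    rw [Set.disjoint_left]
    rintro x ⟨_, h2⟩ ⟨h3, _⟩
    exact absurd h2 (not_lt.2 h3)
  have hm : MeasurableSet {x | τ + w ≤ prj t x ∧ prj t x < τ + w + w} :=
    (measurableSet_le measurable_const (measurable_prj t)).inter
      (measurableSet_lt (measurable_prj t) measurable_const)
  rw [h1, measure_union hdisj hm, ENNReal.toReal_add (measure_ne_top _ _) (measure_ne_top _ _)]
  field_simp

end MonoAux

open MonoAux in
/-- the increment of the energy is an integral of squares -/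
theorem GG_sq (μ : Measure E2) [IsProbabilityMeasure μ] (w t : ℝ) (hw : 0 < w) :
    ∫ τ, (mwM μ t w τ - mwM μ t (2 * w) τ) ^ 2 = GG μ w t - GG μ (2 * w) t := by
  have i1 := integrable_mw_sq μ t w hw
  have i2 := integrable_mw_sq μ t (2 * w) (by positivity)
  have i3 : Integrable (fun τ => mwM μ t w (τ + w) ^ 2) := i1.comp_add_right w
  have e1 : ∀ τ, (mwM μ t w τ - mwM μ t (2 * w) τ) ^ 2 =
      (mwM μ t w τ ^ 2 + mwM μ t w (τ + w) ^ 2) / 2 - mwM μ t (2 * w) τ ^ 2 := by
    intro τ
    rw [mw_two μ t w τ hw]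
    ring
  have i4 : Integrable (fun τ => (mwM μ t w τ ^ 2 + mwM μ t w (τ + w) ^ 2) / 2) :=
    (i1.add i3).div_const 2
  simp_rw [e1]
  rw [integral_sub i4 i2, integral_div, integral_add i1 i3,
    integral_mw_sq μ t (2 * w) (by positivity)]
  have e2 : ∫ τ, mwM μ t w (τ + w) ^ 2 = ∫ τ, mwM μ t w τ ^ 2 :=
    integral_add_right_eq_self (fun τ => mwM μ t w τ ^ 2) w
  rw [e2, integral_mw_sq μ t w hw]
  ring

theorem GG_mono (μ : Measure E2) [IsProbabilityMeasure μ] (w t : ℝ) (hw : 0 < w) :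
    GG μ (2 * w) t ≤ GG μ w t := by
  have h := GG_sq μ w t hw
  have h1 : 0 ≤ ∫ τ, (mwM μ t w τ - mwM μ t (2 * w) τ) ^ 2 :=
    integral_nonneg fun τ => by positivity
  linarith

end Pool.Agent.H744R2.Falc
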