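import Pool.Agent.H744R2.Falc.Defs
import Pool.Agent.H744R2.Falc.EnergyGG
import Pool.Agent.H744R2.Falc.Mono

set_option autoImplicit false

namespace Pool.Agent.H744R2.Falc

open MeasureTheory Set Metric

namespace PairAux

/-! ### tents -/

theorem tent_nonneg' {w : ℝ} (hw : 0 < w) (v : ℝ) : 0 ≤ tent w v :=
  div_nonneg (le_max_left _ _) hw.le

theorem tent_le' {w : ℝ} (hw : 0 < w) (v : ℝ) : tent w v ≤ 1 / w := by
  unfold tent
  refine div_le_div_of_nonneg_right (max_le zero_le_one ?_) hw.le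
  have : 0 ≤ |v| / w := div_nonneg (abs_nonneg v) hw.le
  linarith

theorem tent_ge' {w : ℝ} (hw : 0 < w) {v : ℝ} (h : |v| ≤ w / 2) : 1 / (2 * w) ≤ tent w v := by
  unfold tent
  have h1 : |v| / w ≤ 1 / 2 := by
    rw [div_le_iff₀ hw]
    linarith
  have h2 : (1 / 2 : ℝ) ≤ max 0 (1 - |v| / w) := le_max_of_le_right (by linarith)
  calc 1 / (2 * w) = (1 / 2) / w := by field_simp
    _ ≤ max 0 (1 - |v| / w) / w := div_le_div_of_nonneg_right h2 hw.le

theorem tent_cont (w : ℝ) : Continuous (tent w) := by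
  unfold tent
  fun_prop

theorem tent_integrable {Ω : Type*} [MeasurableSpace Ω] (P : Measure Ω) [IsProbabilityMeasure P]
    {w : ℝ} (hw : 0 < w) {g : Ω → ℝ} (hg : Measurable g) : Integrable (fun ω => tent w (g ω)) P := by
  refine Integrable.of_bound ((tent_cont w).measurable.comp hg).aestronglyMeasurable (1 / w) ?_
  refine Filter.Eventually.of_forall fun ω => ?_
  rw [Real.norm_eq_abs, abs_of_nonneg (tent_nonneg' hw _)]
  exact tent_le' hw _

/-- small values are controlled by the tent integral -/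
theorem small_le_tent {Ω : Type*} [MeasurableSpace Ω] (P : Measure Ω) [IsProbabilityMeasure P]
    {w : ℝ} (hw : 0 < w) {g : Ω → ℝ} (hg : Measurable g) :
    P {ω | |g ω| ≤ w / 2} ≤ ENNReal.ofReal (2 * w * ∫ ω, tent w (g ω) ∂P) := by
  have hS : MeasurableSet {ω | |g ω| ≤ w / 2} := measurableSet_le (hg.abs) measurable_const
  have h1 : (P.real {ω | |g ω| ≤ w / 2}) * (1 / (2 * w)) ≤ ∫ ω, tent w (g ω) ∂P := by
    have h2 : ∫ ω, ({ω | |g ω| ≤ w / 2}.indicator (fun _ => (1 / (2 * w) : ℝ))) ω ∂P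
        = (P.real {ω | |g ω| ≤ w / 2}) * (1 / (2 * w)) := by
      rw [integral_indicator_const _ hS, smul_eq_mul]
    rw [← h2]
    refine integral_mono ((integrable_const _).indicator hS) (tent_integrable P hw hg) ?_
    intro ω
    by_cases h : ω ∈ {ω | |g ω| ≤ w / 2}
    · rw [indicator_of_mem h]
      exact tent_ge' hw h
    · rw [indicator_of_notMem h]
      exact tent_nonneg' hw _
  have h3 : P.real {ω | |g ω| ≤ w / 2} ≤ 2 * w * ∫ ω, tent w (g ω) ∂P := by
    have h4 := mul_le_mul_of_nonneg_left h1 (show (0 : ℝ) ≤ 2 * w by positivity)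
    generalize P.real {ω | |g ω| ≤ w / 2} = m at h4 ⊢
    calc m = 2 * w * (m * (1 / (2 * w))) := by
          field_simp
      _ ≤ _ := h4
  rw [← ENNReal.ofReal_toReal (measure_ne_top P {ω | |g ω| ≤ w / 2})]
  exact ENNReal.ofReal_le_ofReal h3

/-! ### elementary properties of `GG` -/

theorem GG_nonneg (μ : Measure E2) [IsProbabilityMeasure μ] {w : ℝ} (hw : 0 < w) (t : ℝ) :
    0 ≤ GG μ w t := integral_nonneg fun _ => tent_nonneg' hw _

theorem coord_meas (i : Fin 2) : Measurable (fun p : E2 × E2 => p.1 i - p.2 i) := by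
  have h1 : Continuous (fun p : E2 × E2 => p.1 i - p.2 i) := by fun_prop
  exact h1.measurable

theorem GG_le (μ : Measure E2) [IsProbabilityMeasure μ] {w : ℝ} (hw : 0 < w) (t : ℝ) :
    GG μ w t ≤ 1 / w := by
  unfold GG
  have hm : Measurable (fun p : E2 × E2 => (p.1 1 - p.2 1) - t * (p.1 0 - p.2 0)) :=
    (coord_meas 1).sub ((coord_meas 0).const_mul t)
  calc ∫ p, tent w ((p.1 1 - p.2 1) - t * (p.1 0 - p.2 0)) ∂(μ.prod μ)
      ≤ ∫ _p : E2 × E2, (1 / w : ℝ) ∂(μ.prod μ) :=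
        integral_mono (tent_integrable _ hw hm) (integrable_const _) fun p => tent_le' hw _
    _ = 1 / w := by simp

theorem GG_meas (μ : Measure E2) [IsProbabilityMeasure μ] (w : ℝ) : Measurable (GG μ w) := by
  unfold GG
  apply StronglyMeasurable.measurable
  have hc : Continuous (fun x : ℝ × (E2 × E2) =>
      tent w ((x.2.1 1 - x.2.2 1) - x.1 * (x.2.1 0 - x.2.2 0))) := by
    apply (tent_cont w).comp
    fun_prop
  exact hc.measurable.stronglyMeasurable.integral_prod_right'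

/-! ### the coordinate swap -/

/-- coordinate swap -/
noncomputable def sw : E2 ≃ₗᵢ[ℝ] E2 :=
  LinearIsometryEquiv.piLpCongrLeft 2 ℝ ℝ (Equiv.swap (0 : Fin 2) 1)

theorem sw_zero (x : E2) : sw x 0 = x 1 := by
  simp [sw, Equiv.piCongrLeft']

theorem sw_one (x : E2) : sw x 1 = x 0 := by
  simp [sw, Equiv.piCongrLeft']

theorem sw_sw (x : E2) : sw (sw x) = x := by
  ext i
  fin_cases i
  · exact (sw_zero _).trans (sw_one _)
  · exact (sw_one _).trans (sw_zero _)

/-- the swap as a measurable equivalence -/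
noncomputable def swm : E2 ≃ᵐ E2 := sw.toHomeomorph.toMeasurableEquiv

theorem swm_apply (x : E2) : swm x = sw x := rfl

theorem map_prod_apply (μ : Measure E2) [IsProbabilityMeasure μ] (S : Set (E2 × E2)) :
    ((μ.map sw).prod (μ.map sw)) S = (μ.prod μ) ((Prod.map sw sw) ⁻¹' S) := by
  have h1 : (μ.map sw).prod (μ.map sw) = (μ.prod μ).map (MeasurableEquiv.prodCongr swm swm) := by
    have := Measure.map_prod_map (f := sw) (g := sw) μ μ sw.continuous.measurable
      sw.continuous.measurable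
    rw [this]
    rfl
  rw [h1, MeasurableEquiv.map_apply]
  rfl

theorem GG_sw (μ : Measure E2) [IsProbabilityMeasure μ] (w t : ℝ) :
    GG (μ.map sw) w (-t) = ∫ q, tent w ((q.1 0 - q.2 0) + t * (q.1 1 - q.2 1)) ∂(μ.prod μ) := by
  unfold GG
  rw [Measure.map_prod_map (f := sw) (g := sw) μ μ sw.continuous.measurable
      sw.continuous.measurable, integral_map]
  · refine integral_congr_ae (Filter.Eventually.of_forall fun q => ?_)
    simp only [Prod.map_fst, Prod.map_snd, sw_zero, sw_one]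
    congr 1
    ring
  · exact (sw.continuous.prodMap sw.continuous).measurable.aemeasurable
  · have hc : Continuous (fun p : E2 × E2 =>
        tent w ((p.1 1 - p.2 1) - (-t) * (p.1 0 - p.2 0))) := by
      apply (tent_cont w).comp
      fun_prop
    exact hc.aestronglyMeasurable

/-! ### the bad pairs -/

/-- the bad pairs -/
def badSet (μ : Measure E2) (δ M : ℝ) : Set (E2 × E2) :=
  {p | ENNReal.ofReal (M * δ) <
        (μ.prod μ) {q | |inner ℝ (q.1 - q.2) (p.1 - p.2)| ≤ δ * ‖p.1 - p.2‖}}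

/-- the bad pairs in the first chart -/
def badI (μ : Measure E2) (δ M : ℝ) : Set (E2 × E2) :=
  badSet μ δ M ∩ {p | |p.1 1 - p.2 1| ≤ |p.1 0 - p.2 0| ∧ p.1 0 - p.2 0 ≠ 0}

theorem inner_two (x y : E2) : inner ℝ x y = x 0 * y 0 + x 1 * y 1 := by
  rw [PiLp.inner_apply, Fin.sum_univ_two]
  simp only [RCLike.inner_apply, conj_trivial]
  ring

theorem ae_prod_norm {μ : Measure E2} [IsProbabilityMeasure μ] {R : ℝ}
    (hR : ∀ᵐ x ∂μ, ‖x‖ ≤ R) : ∀ᵐ q ∂(μ.prod μ), ‖q.1‖ ≤ R ∧ ‖q.2‖ ≤ R := by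
  have h1 : ∀ᵐ q ∂(μ.prod μ), ‖q.1‖ ≤ R := Measure.quasiMeasurePreserving_fst.ae hR
  have h2 : ∀ᵐ q ∂(μ.prod μ), ‖q.2‖ ≤ R := Measure.quasiMeasurePreserving_snd.ae hR
  filter_upwards [h1, h2] with q h3 h4
  exact ⟨h3, h4⟩

theorem abs_coord_sub_le {x y : E2} {R : ℝ} (hx : ‖x‖ ≤ R) (hy : ‖y‖ ≤ R) (i : Fin 2) :
    |x i - y i| ≤ 2 * R := by
  have h1 : ‖x i‖ ≤ ‖x‖ := PiLp.norm_apply_le x i
  have h2 : ‖y i‖ ≤ ‖y‖ := PiLp.norm_apply_le y i
  rw [Real.norm_eq_abs] at h1 h2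
  calc |x i - y i| ≤ |x i| + |y i| := abs_sub _ _
    _ ≤ 2 * R := by linarith

theorem bad_t {μ : Measure E2} [IsProbabilityMeasure μ] {R : ℝ}
    (hR : ∀ᵐ x ∂μ, ‖x‖ ≤ R) {δ M : ℝ} (hδ : 0 < δ) {p : E2 × E2} (hp : p ∈ badI μ δ M) {t : ℝ}
    (ht : |t - (p.1 1 - p.2 1) / (p.1 0 - p.2 0)| ≤ δ) :
    ENNReal.ofReal (M * δ) < (μ.prod μ)
      {q | |(q.1 0 - q.2 0) + t * (q.1 1 - q.2 1)| ≤ 4 * (1 + R) * δ / 2} := by
  obtain ⟨hbad, hle, hne⟩ := hp
  refine lt_of_lt_of_le hbad (measure_mono_ae ?_)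
  filter_upwards [ae_prod_norm hR] with q hq hmem
  change |(q.1 0 - q.2 0) + t * (q.1 1 - q.2 1)| ≤ 4 * (1 + R) * δ / 2
  have hmem' : |inner ℝ (q.1 - q.2) (p.1 - p.2)| ≤ δ * ‖p.1 - p.2‖ := hmem
  rw [inner_two] at hmem'
  simp only [PiLp.sub_apply] at hmem'
  set z0 := p.1 0 - p.2 0 with hz0
  set z1 := p.1 1 - p.2 1 with hz1
  set a0 := q.1 0 - q.2 0 with ha0
  set a1 := q.1 1 - q.2 1 with ha1
  have hz0p : 0 < |z0| := abs_pos.2 hne
  have hnorm : ‖p.1 - p.2‖ ≤ 2 * |z0| := by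
    have h1 : ‖p.1 - p.2‖ ^ 2 = z0 ^ 2 + z1 ^ 2 := by
      rw [EuclideanSpace.real_norm_sq_eq, Fin.sum_univ_two]
      rfl
    have h2 : z1 ^ 2 ≤ z0 ^ 2 := sq_le_sq.2 hle
    have h3 : ‖p.1 - p.2‖ ^ 2 ≤ (2 * |z0|) ^ 2 := by
      rw [h1, mul_pow, sq_abs]
      nlinarith [sq_nonneg z0]
    exact le_of_sq_le_sq h3 (by positivity)
  have h1 : |a0 + z1 / z0 * a1| ≤ 2 * δ := by
    have h2 : a0 * z0 + a1 * z1 = (a0 + z1 / z0 * a1) * z0 := by
      field_simp
    rw [h2, abs_mul] at hmem'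
    have h3 : |a0 + z1 / z0 * a1| * |z0| ≤ 2 * δ * |z0| := by
      calc _ ≤ δ * ‖p.1 - p.2‖ := hmem'
        _ ≤ δ * (2 * |z0|) := by gcongr
        _ = 2 * δ * |z0| := by ring
    exact le_of_mul_le_mul_right h3 hz0p
  have h4 : |a1| ≤ 2 * R := abs_coord_sub_le hq.1 hq.2 1
  calc |a0 + t * a1| = |(a0 + z1 / z0 * a1) + (t - z1 / z0) * a1| := by congr 1; ring
    _ ≤ |a0 + z1 / z0 * a1| + |(t - z1 / z0) * a1| := abs_add_le _ _
    _ = |a0 + z1 / z0 * a1| + |t - z1 / z0| * |a1| := by rw [abs_mul]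
    _ ≤ 2 * δ + δ * (2 * R) := by gcongr
    _ = 4 * (1 + R) * δ / 2 := by ring

/-- the exceptional slopes -/
def slopes (μ : Measure E2) (R δ M : ℝ) : Set ℝ :=
  Icc (-2) 2 ∩ {t | M / (8 * (1 + R)) ≤ GG (μ.map sw) (4 * (1 + R) * δ) (-t)}

instance (μ : Measure E2) [IsProbabilityMeasure μ] : IsProbabilityMeasure (μ.map sw) :=
  Measure.isProbabilityMeasure_map sw.continuous.measurable.aemeasurable

theorem slopes_meas (μ : Measure E2) [IsProbabilityMeasure μ] (R δ M : ℝ) :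
    MeasurableSet (slopes μ R δ M) := by
  refine measurableSet_Icc.inter ?_
  exact measurableSet_le measurable_const ((GG_meas (μ.map sw) _).comp measurable_neg)

theorem mem_slopes {μ : Measure E2} [IsProbabilityMeasure μ] {R : ℝ} (hR1 : 0 ≤ R)
    (hR : ∀ᵐ x ∂μ, ‖x‖ ≤ R) {δ M : ℝ} (hδ : 0 < δ) (hδ1 : δ ≤ 1) {p : E2 × E2}
    (hp : p ∈ badI μ δ M) {t : ℝ}
    (ht : |t - (p.1 1 - p.2 1) / (p.1 0 - p.2 0)| ≤ δ) : t ∈ slopes μ R δ M := by
  have hw : 0 < 4 * (1 + R) * δ := by positivity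
  refine ⟨?_, ?_⟩
  · have h0 : |(p.1 1 - p.2 1) / (p.1 0 - p.2 0)| ≤ 1 := by
      rw [abs_div]
      exact div_le_one_of_le₀ hp.2.1 (abs_nonneg _)
    rw [abs_le] at ht h0
    constructor <;> linarith
  · have h1 := bad_t hR hδ hp ht
    have h2 := small_le_tent (μ.prod μ) hw
      (g := fun q : E2 × E2 => (q.1 0 - q.2 0) + t * (q.1 1 - q.2 1))
      ((coord_meas 0).add ((coord_meas 1).const_mul t))
    rw [← GG_sw] at h2
    have h3 := lt_of_lt_of_le h1 h2
    have h4 : M * δ < 2 * (4 * (1 + R) * δ) * GG (μ.map sw) (4 * (1 + R) * δ) (-t) :=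
      (ENNReal.ofReal_lt_ofReal_iff'.1 h3).1
    change M / (8 * (1 + R)) ≤ GG (μ.map sw) (4 * (1 + R) * δ) (-t)
    rw [div_le_iff₀ (by positivity)]
    have h5 : M * δ < GG (μ.map sw) (4 * (1 + R) * δ) (-t) * (8 * (1 + R)) * δ := by
      calc M * δ < _ := h4
        _ = _ := by ring
    exact (lt_of_mul_lt_mul_right h5 hδ.le).le

theorem GG_integrableOn (μ : Measure E2) [IsProbabilityMeasure μ] {w : ℝ} (hw : 0 < w) {B : Set ℝ}
    (hfin : volume B ≠ ⊤) : IntegrableOn (GG μ w) B := by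
  have : IsFiniteMeasure (volume.restrict B) := ⟨by
    rw [Measure.restrict_apply_univ]
    exact lt_top_iff_ne_top.2 hfin⟩
  refine Integrable.of_bound (GG_meas μ w).aestronglyMeasurable (1 / w) ?_
  refine Filter.Eventually.of_forall fun t => ?_
  rw [Real.norm_eq_abs, abs_of_nonneg (GG_nonneg μ hw t)]
  exact GG_le μ hw t

theorem slopes_finite (μ : Measure E2) [IsProbabilityMeasure μ] (R δ M : ℝ) :
    volume (slopes μ R δ M) ≠ ⊤ := by
  refine ne_top_of_le_ne_top ?_ (measure_mono inter_subset_left)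
  rw [Real.volume_Icc]
  exact ENNReal.ofReal_ne_top

/-- the bad pairs of the first chart are controlled by an integral over the exceptional slopes -/
theorem chartA {μ : Measure E2} [IsProbabilityMeasure μ] {R : ℝ} (hR1 : 0 ≤ R)
    (hR : ∀ᵐ x ∂μ, ‖x‖ ≤ R) {δ M : ℝ} (hδ : 0 < δ) (hδ1 : δ ≤ 1) :
    (μ.prod μ) (badI μ δ M) ≤ ENNReal.ofReal
      (4 * (1 + R) * ∫ t in slopes μ R δ M, GG μ (4 * (1 + R) * δ) t) := by
  set w : ℝ := 4 * (1 + R) * δ with hw_def
  have hw : 0 < w := by positivity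
  set B := slopes μ R δ M with hB_def
  have hBm : MeasurableSet B := slopes_meas μ R δ M
  set T : Set ((E2 × E2) × ℝ) :=
    {x | |(x.1.1 1 - x.1.2 1) - x.2 * (x.1.1 0 - x.1.2 0)| ≤ δ * |x.1.1 0 - x.1.2 0|} with hT_def
  have hT : MeasurableSet T := by
    apply IsClosed.measurableSet
    apply isClosed_le <;> fun_prop
  have h1 : ENNReal.ofReal (2 * δ) * (μ.prod μ) (badI μ δ M)
      ≤ ∫⁻ p, (volume.restrict B) (Prod.mk p ⁻¹' T) ∂(μ.prod μ) := by
    have hm : Measurable (fun p : E2 × E2 => (volume.restrict B) (Prod.mk p ⁻¹' T)) :=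
      measurable_measure_prodMk_left hT
    refine le_trans ?_ (mul_meas_ge_le_lintegral hm (ENNReal.ofReal (2 * δ)))
    refine mul_le_mul_right (measure_mono ?_) _
    intro p hp
    change ENNReal.ofReal (2 * δ) ≤ (volume.restrict B) (Prod.mk p ⁻¹' T)
    have hz0 : p.1 0 - p.2 0 ≠ 0 := hp.2.2
    have h2 : Icc ((p.1 1 - p.2 1) / (p.1 0 - p.2 0) - δ)
        ((p.1 1 - p.2 1) / (p.1 0 - p.2 0) + δ) ⊆ (Prod.mk p ⁻¹' T) ∩ B := by
      intro t ht
      have ht' : |t - (p.1 1 - p.2 1) / (p.1 0 - p.2 0)| ≤ δ := by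
        rw [abs_le]
        constructor <;> linarith [ht.1, ht.2]
      refine ⟨?_, mem_slopes hR1 hR hδ hδ1 hp ht'⟩
      change |(p.1 1 - p.2 1) - t * (p.1 0 - p.2 0)| ≤ δ * |p.1 0 - p.2 0|
      have h3 : (p.1 1 - p.2 1) - t * (p.1 0 - p.2 0)
          = -((t - (p.1 1 - p.2 1) / (p.1 0 - p.2 0)) * (p.1 0 - p.2 0)) := by
        field_simp
        ring
      rw [h3, abs_neg, abs_mul]
      gcongr
    rw [Measure.restrict_apply (measurable_prodMk_left hT)]
    refine le_trans ?_ (measure_mono h2)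
    rw [Real.volume_Icc]
    apply le_of_eq
    congr 1
    ring
  have h2 : ∫⁻ p, (volume.restrict B) (Prod.mk p ⁻¹' T) ∂(μ.prod μ)
      = ∫⁻ t in B, (μ.prod μ) ((fun p => (p, t)) ⁻¹' T) := by
    rw [← Measure.prod_apply hT, Measure.prod_apply_symm hT]
  have h3 : ∀ t, (μ.prod μ) ((fun p => (p, t)) ⁻¹' T) ≤ ENNReal.ofReal (2 * w * GG μ w t) := by
    intro t
    have h4 := small_le_tent (μ.prod μ) hw
      (g := fun p : E2 × E2 => (p.1 1 - p.2 1) - t * (p.1 0 - p.2 0))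
      ((coord_meas 1).sub ((coord_meas 0).const_mul t))
    refine le_trans (measure_mono_ae ?_) h4
    filter_upwards [ae_prod_norm hR] with p hp hmem
    change |(p.1 1 - p.2 1) - t * (p.1 0 - p.2 0)| ≤ w / 2
    have hmem' : |(p.1 1 - p.2 1) - t * (p.1 0 - p.2 0)| ≤ δ * |p.1 0 - p.2 0| := hmem
    refine hmem'.trans ?_
    have h5 := abs_coord_sub_le hp.1 hp.2 0
    calc δ * |p.1 0 - p.2 0| ≤ δ * (2 * R) := by gcongr
      _ ≤ w / 2 := by
        rw [hw_def]
        nlinarith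
  have h4 : ∫⁻ t in B, (μ.prod μ) ((fun p => (p, t)) ⁻¹' T)
      ≤ ENNReal.ofReal (2 * w * ∫ t in B, GG μ w t) := by
    refine (lintegral_mono h3).trans ?_
    rw [← integral_const_mul, ofReal_integral_eq_lintegral_ofReal]
    · exact ((GG_integrableOn μ hw (slopes_finite μ R δ M)).const_mul _)
    · exact Filter.Eventually.of_forall fun t => mul_nonneg (by positivity) (GG_nonneg μ hw t)
  have h5 : ENNReal.ofReal (2 * δ) * (μ.prod μ) (badI μ δ M)
      ≤ ENNReal.ofReal (2 * δ) * ENNReal.ofReal (4 * (1 + R) * ∫ t in B, GG μ w t) := by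
    rw [← ENNReal.ofReal_mul (by positivity)]
    refine (h1.trans (h2.le.trans h4)).trans (le_of_eq ?_)
    congr 1
    rw [hw_def]
    ring
  rwa [ENNReal.mul_le_mul_iff_right (by positivity) ENNReal.ofReal_ne_top] at h5

/-! ### averages over the exceptional slopes -/

theorem chi_nonneg (t : ℝ) : 0 ≤ chi t := le_max_left _ _

theorem chi_one {t : ℝ} (h : |t| ≤ 3) : chi t = 1 := by
  unfold chi
  rw [min_eq_left (by linarith), max_eq_right zero_le_one]

theorem chi_neg (t : ℝ) : chi (-t) = chi t := by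
  unfold chi
  rw [abs_neg]

theorem chi_le_one (t : ℝ) : chi t ≤ 1 := max_le zero_le_one (min_le_left _ _)

theorem chi_cont : Continuous chi := by
  unfold chi
  fun_prop

/-- a nonnegative bounded function integrates over `B ⊆ [-2,2]` to at most its `chi` average -/
theorem int_le_chi {g : ℝ → ℝ} (hg : Measurable g) (hg0 : ∀ t, 0 ≤ g t) {K : ℝ}
    (hgK : ∀ t, g t ≤ K) {B : Set ℝ} (hB : MeasurableSet B) (hB2 : B ⊆ Icc (-2) 2) :
    ∫ t in B, g t ≤ ∫ t in (-4 : ℝ)..4, chi t * g t := by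
  have h1 : ∫ t in B, g t = ∫ t in B, chi t * g t := by
    refine setIntegral_congr_fun hB fun t ht => ?_
    have h2 := hB2 ht
    have h3 : |t| ≤ 3 := by
      rw [abs_le]
      constructor <;> linarith [h2.1, h2.2]
    simp only [chi_one h3, one_mul]
  rw [h1, intervalIntegral.integral_of_le (by norm_num)]
  refine setIntegral_mono_set ?_ ?_ ?_
  · have : IsFiniteMeasure (volume.restrict (Ioc (-4 : ℝ) 4)) := ⟨by
      rw [Measure.restrict_apply_univ, Real.volume_Ioc]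
      exact ENNReal.ofReal_lt_top⟩
    refine Integrable.of_bound (chi_cont.measurable.mul hg).aestronglyMeasurable K ?_
    refine Filter.Eventually.of_forall fun t => ?_
    rw [Real.norm_eq_abs, abs_of_nonneg (mul_nonneg (chi_nonneg t) (hg0 t))]
    calc chi t * g t ≤ 1 * g t := mul_le_mul_of_nonneg_right (chi_le_one t) (hg0 t)
      _ ≤ K := by rw [one_mul]; exact hgK t
  · exact Filter.Eventually.of_forall fun t => mul_nonneg (chi_nonneg t) (hg0 t)
  · refine Filter.Eventually.of_forall fun t ht => ?_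
    have h2 := hB2 ht
    exact ⟨by linarith [h2.1], by linarith [h2.2]⟩

theorem GG_mono_pow (μ : Measure E2) [IsProbabilityMeasure μ] {w : ℝ} (hw : 0 < w) (t : ℝ)
    (k : ℕ) : GG μ (2 ^ k * w) t ≤ GG μ w t := by
  induction k with
  | zero => rw [pow_zero, one_mul]
  | succ k ih =>
    rw [pow_succ', mul_assoc]
    exact (GG_mono μ (2 ^ k * w) t (by positivity)).trans ih

theorem slopes_small {μ : Measure E2} [IsProbabilityMeasure μ] {R : ℝ} (hR1 : 0 ≤ R) {δ M C2 : ℝ}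
    (hδ : 0 < δ) (hw1 : 4 * (1 + R) * δ ≤ 1) (hM : 0 < M)
    (h : ∀ δ : ℝ, 0 < δ → δ ≤ 1 → ∫ t in (-4 : ℝ)..4, chi t * GG (μ.map sw) δ t ≤ C2) :
    (volume (slopes μ R δ M)).toReal ≤ 8 * (1 + R) * C2 / M := by
  set w : ℝ := 4 * (1 + R) * δ with hw_def
  have hw : 0 < w := by positivity
  set B := slopes μ R δ M with hB_def
  have hBm : MeasurableSet B := slopes_meas μ R δ M
  have hBf : volume B ≠ ⊤ := slopes_finite μ R δ M
  have hgm : Measurable (fun t => GG (μ.map sw) w (-t)) := (GG_meas (μ.map sw) w).comp measurable_neg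
  have h1 : (volume B).toReal * (M / (8 * (1 + R))) ≤ ∫ t in B, GG (μ.map sw) w (-t) := by
    have h2 : ∫ _t in B, (M / (8 * (1 + R)) : ℝ) = (volume B).toReal * (M / (8 * (1 + R))) := by
      rw [setIntegral_const, smul_eq_mul]
      rfl
    rw [← h2]
    have : IsFiniteMeasure (volume.restrict B) := ⟨by
      rw [Measure.restrict_apply_univ]
      exact lt_top_iff_ne_top.2 hBf⟩
    refine setIntegral_mono_on (integrable_const _) ?_ hBm fun t ht => ht.2
    refine Integrable.of_bound hgm.aestronglyMeasurable (1 / w) ?_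
    refine Filter.Eventually.of_forall fun t => ?_
    rw [Real.norm_eq_abs, abs_of_nonneg (GG_nonneg (μ.map sw) hw _)]
    exact GG_le (μ.map sw) hw _
  have h2 : ∫ t in B, GG (μ.map sw) w (-t) ≤ ∫ t in (-4 : ℝ)..4, chi t * GG (μ.map sw) w (-t) :=
    int_le_chi hgm (fun t => GG_nonneg (μ.map sw) hw _) (fun t => GG_le (μ.map sw) hw _) hBm
      inter_subset_left
  have h3 : ∫ t in (-4 : ℝ)..4, chi t * GG (μ.map sw) w (-t)
      = ∫ t in (-4 : ℝ)..4, chi t * GG (μ.map sw) w t := by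
    have h4 := intervalIntegral.integral_comp_neg (a := -4) (b := 4)
      (fun t => chi t * GG (μ.map sw) w t)
    rw [neg_neg] at h4
    rw [← h4]
    refine intervalIntegral.integral_congr fun t _ => ?_
    simp only [chi_neg]
  have h4 := h w hw hw1
  rw [le_div_iff₀ hM]
  have h5 : (volume B).toReal * (M / (8 * (1 + R))) ≤ C2 := by linarith
  have h6 : (volume B).toReal * (M / (8 * (1 + R))) = (volume B).toReal * M / (8 * (1 + R)) := by
    ring
  rw [h6, div_le_iff₀ (by positivity)] at h5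
  linarith

theorem chartB {μ : Measure E2} [IsProbabilityMeasure μ] {R : ℝ} (hR1 : 0 ≤ R)
    {δ M C1 C2 s : ℝ} (hδ : 0 < δ) (hM : 0 < M) (k : ℕ)
    (hW1 : 2 ^ k * (4 * (1 + R) * δ) ≤ 1)
    (h1 : ∀ δ w : ℝ, 0 < δ → δ ≤ w → w ≤ 1 →
        ∫ t in (-4 : ℝ)..4, chi t * (GG μ δ t - GG μ w t) ≤ C1 * w ^ (s - 1))
    (h2 : ∀ δ : ℝ, 0 < δ → δ ≤ 1 → ∫ t in (-4 : ℝ)..4, chi t * GG (μ.map sw) δ t ≤ C2) :
    ∫ t in slopes μ R δ M, GG μ (4 * (1 + R) * δ) t
      ≤ 8 * (1 + R) * C2 / M / (2 ^ k * (4 * (1 + R) * δ))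
        + C1 * (2 ^ k * (4 * (1 + R) * δ)) ^ (s - 1) := by
  set w : ℝ := 4 * (1 + R) * δ with hw_def
  have hw : 0 < w := by positivity
  set W : ℝ := 2 ^ k * w with hW_def
  have hW : 0 < W := by positivity
  have hwW : w ≤ W := by
    rw [hW_def]
    exact le_mul_of_one_le_left hw.le (one_le_pow₀ (by norm_num))
  set B := slopes μ R δ M with hB_def
  have hBm : MeasurableSet B := slopes_meas μ R δ M
  have hBf : volume B ≠ ⊤ := slopes_finite μ R δ M
  have hsmall := slopes_small (μ := μ) hR1 (M := M) hδ (hwW.trans hW1) hM h2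
  have e1 : ∫ t in B, GG μ w t = (∫ t in B, GG μ W t) + ∫ t in B, (GG μ w t - GG μ W t) := by
    rw [integral_sub (GG_integrableOn μ hw hBf) (GG_integrableOn μ hW hBf)]
    ring
  have e2 : ∫ t in B, GG μ W t ≤ (volume B).toReal / W := by
    have e3 : ∫ _t in B, (1 / W : ℝ) = (volume B).toReal / W := by
      rw [setIntegral_const, smul_eq_mul]
      change (volume B).toReal * (1 / W) = _
      ring
    rw [← e3]
    have : IsFiniteMeasure (volume.restrict B) := ⟨by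
      rw [Measure.restrict_apply_univ]
      exact lt_top_iff_ne_top.2 hBf⟩
    exact setIntegral_mono_on (GG_integrableOn μ hW hBf) (integrable_const _) hBm
      fun t _ => GG_le μ hW t
  have e4 : ∫ t in B, (GG μ w t - GG μ W t) ≤ ∫ t in (-4 : ℝ)..4, chi t * (GG μ w t - GG μ W t) := by
    refine int_le_chi (g := fun t => GG μ w t - GG μ W t) (K := 1 / w)
      ((GG_meas μ w).sub (GG_meas μ W))
      (fun t => sub_nonneg.2 (GG_mono_pow μ hw t k)) (fun t => ?_) hBm inter_subset_left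
    have := GG_le μ hw t
    have := GG_nonneg μ hW t
    linarith
  have e5 := h1 w W hw hwW hW1
  have e6 : (volume B).toReal / W ≤ 8 * (1 + R) * C2 / M / W :=
    div_le_div_of_nonneg_right hsmall hW.le
  rw [e1]
  linarith

/-- the measure of the bad pairs in the first chart -/
theorem chart {μ : Measure E2} [IsProbabilityMeasure μ] {R : ℝ} (hR1 : 0 ≤ R)
    (hR : ∀ᵐ x ∂μ, ‖x‖ ≤ R) {C1 C2 s : ℝ} (hC1 : 0 < C1) (hC2 : 0 < C2) (hs : 1 < s) (hs2 : s < 2)
    (h1 : ∀ δ w : ℝ, 0 < δ → δ ≤ w → w ≤ 1 →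
        ∫ t in (-4 : ℝ)..4, chi t * (GG μ δ t - GG μ w t) ≤ C1 * w ^ (s - 1))
    (h2 : ∀ δ : ℝ, 0 < δ → δ ≤ 1 → ∫ t in (-4 : ℝ)..4, chi t * GG (μ.map sw) δ t ≤ C2)
    {δ M : ℝ} (hδ : 0 < δ) (hδ1 : δ ≤ 1) (hM : 1 ≤ M) :
    (μ.prod μ) (badI μ δ M) ≤ ENNReal.ofReal
      ((4 * (1 + R) * (16 * (1 + R) * C2 + C1) + 4 * (1 + R)) * M ^ (-((s - 1) / 2))) := by
  have hM0 : 0 < M := by linarith
  have hpow0 : 0 < M ^ (-((s - 1) / 2)) := Real.rpow_pos_of_pos hM0 _
  set x : ℝ := M ^ (-(1 / 2) : ℝ) with hx_def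
  have hx0 : 0 < x := Real.rpow_pos_of_pos hM0 _
  have hx1 : x ≤ 1 := Real.rpow_le_one_of_one_le_of_nonpos hM (by norm_num)
  have hxs : x ^ (s - 1) = M ^ (-((s - 1) / 2)) := by
    rw [hx_def, ← Real.rpow_mul hM0.le]
    congr 1
    ring
  have hxx : x ≤ x ^ (s - 1) := by
    conv_lhs => rw [← Real.rpow_one x]
    exact Real.rpow_le_rpow_of_exponent_ge hx0 hx1 (by linarith)
  have hx2 : x * x = M⁻¹ := by
    rw [hx_def, ← Real.rpow_add hM0, ← Real.rpow_neg_one]
    norm_num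
  rw [← hxs]
  have hK : 0 < 4 * (1 + R) * (16 * (1 + R) * C2 + C1) := by positivity
  by_cases hMδ : 1 ≤ M * δ
  · -- nothing is bad
    have h0 : badI μ δ M = ∅ := by
      apply eq_empty_of_forall_notMem
      intro p hp
      have h3 : ENNReal.ofReal (M * δ) < (μ.prod μ) _ := hp.1
      have h4 : (1 : ENNReal) ≤ ENNReal.ofReal (M * δ) := by
        rw [← ENNReal.ofReal_one]
        exact ENNReal.ofReal_le_ofReal hMδ
      exact absurd (lt_of_le_of_lt h4 h3) (not_lt.2 prob_le_one)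
    rw [h0, measure_empty]
    exact zero_le
  push Not at hMδ
  by_cases hw : 4 * (1 + R) * δ ≤ x
  · -- the main case
    obtain ⟨k, hk1, hk2⟩ := exists_nat_pow_near (x := x / (4 * (1 + R) * δ)) (y := 2)
      (by rw [one_le_div (by positivity)]; exact hw) (by norm_num)
    rw [le_div_iff₀ (by positivity)] at hk1
    rw [div_lt_iff₀ (by positivity)] at hk2
    refine (chartA hR1 hR hδ hδ1).trans (ENNReal.ofReal_le_ofReal ?_)
    have h3 := chartB hR1 hδ hM0 k (hk1.trans hx1) h1 h2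
    set W : ℝ := 2 ^ k * (4 * (1 + R) * δ) with hW_def
    have hW : 0 < W := by positivity
    have hWx : x < 2 * W := by
      rw [hW_def]
      calc x < 2 ^ (k + 1) * (4 * (1 + R) * δ) := hk2
        _ = _ := by ring
    have h4 : 8 * (1 + R) * C2 / M / W ≤ 16 * (1 + R) * C2 * x := by
      rw [div_div, div_le_iff₀ (by positivity)]
      have h5 : x * (M * W) ≥ 1 / 2 := by
        have h6 : x * x * M = 1 := by rw [hx2]; field_simp
        nlinarith
      calc 8 * (1 + R) * C2 = 16 * (1 + R) * C2 * (1 / 2) := by ring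
        _ ≤ 16 * (1 + R) * C2 * (x * (M * W)) := by gcongr
        _ = _ := by ring
    have h5 : W ^ (s - 1) ≤ x ^ (s - 1) := Real.rpow_le_rpow hW.le hk1 (by linarith)
    have h6 : ∫ t in slopes μ R δ M, GG μ (4 * (1 + R) * δ) t
        ≤ (16 * (1 + R) * C2 + C1) * x ^ (s - 1) := by
      calc _ ≤ _ := h3
        _ ≤ 16 * (1 + R) * C2 * x + C1 * x ^ (s - 1) := by gcongr
        _ ≤ 16 * (1 + R) * C2 * x ^ (s - 1) + C1 * x ^ (s - 1) := by gcongr
        _ = _ := by ring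
    calc 4 * (1 + R) * ∫ t in slopes μ R δ M, GG μ (4 * (1 + R) * δ) t
        ≤ 4 * (1 + R) * ((16 * (1 + R) * C2 + C1) * x ^ (s - 1)) := by gcongr
      _ = 4 * (1 + R) * (16 * (1 + R) * C2 + C1) * x ^ (s - 1) := by ring
      _ ≤ (4 * (1 + R) * (16 * (1 + R) * C2 + C1) + 4 * (1 + R)) * x ^ (s - 1) := by
        gcongr
        linarith
  · -- trivial range
    push Not at hw
    refine le_trans prob_le_one ?_
    rw [← ENNReal.ofReal_one]
    apply ENNReal.ofReal_le_ofReal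
    have h3 : 1 ≤ 4 * (1 + R) * x := by
      -- `x² = 1/M > δ` and `4 (1+R) δ > x`
      have h4 : δ < x * x := by
        rw [hx2, lt_inv_comm₀ hδ hM0]
        rw [lt_inv_comm₀ hM0 hδ, ← one_div, lt_div_iff₀ hM0]
        linarith
      have h5 : x < 4 * (1 + R) * (x * x) := by
        calc x < 4 * (1 + R) * δ := hw
          _ ≤ 4 * (1 + R) * (x * x) := by gcongr
      have h6 : x * 1 < x * (4 * (1 + R) * x) := by
        calc x * 1 = x := mul_one x
          _ < 4 * (1 + R) * (x * x) := h5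
          _ = _ := by ring
      exact (lt_of_mul_lt_mul_left h6 hx0.le).le
    calc (1 : ℝ) ≤ 4 * (1 + R) * x := h3
      _ ≤ 4 * (1 + R) * x ^ (s - 1) := by gcongr
      _ ≤ _ := by
        gcongr
        linarith

/-! ### assembly -/

theorem diag_null {μ : Measure E2} [IsProbabilityMeasure μ] {C s : ℝ} (hs : 1 < s)
    (hμ : ∀ (x : E2) (r : ℝ), 0 < r → μ (closedBall x r) ≤ ENNReal.ofReal (C * r ^ s)) :
    (μ.prod μ) {p | p.1 = p.2} = 0 := by
  have h0 : ∀ x : E2, μ {x} = 0 := by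
    intro x
    have h1 : Filter.Tendsto (fun r : ℝ => ENNReal.ofReal (C * r ^ s)) (nhdsWithin 0 (Ioi 0))
        (nhds 0) := by
      have h2 : Filter.Tendsto (fun r : ℝ => C * r ^ s) (nhdsWithin 0 (Ioi 0)) (nhds (C * 0 ^ s)) := by
        apply Filter.Tendsto.mono_left _ nhdsWithin_le_nhds
        exact ((Real.continuous_rpow_const (by linarith)).tendsto 0).const_mul C
      rw [Real.zero_rpow (by linarith), mul_zero] at h2
      have h3 := (ENNReal.continuous_ofReal.tendsto 0).comp h2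
      rw [ENNReal.ofReal_zero] at h3
      exact h3
    refine le_antisymm ?_ zero_le
    refine ge_of_tendsto h1 ?_
    filter_upwards [self_mem_nhdsWithin] with r hr
    refine le_trans (measure_mono ?_) (hμ x r hr)
    intro y hy
    rw [mem_singleton_iff] at hy
    rw [hy]
    exact mem_closedBall_self (le_of_lt hr)
  have hm : MeasurableSet {p : E2 × E2 | p.1 = p.2} := measurableSet_eq_fun measurable_fst measurable_snd
  rw [Measure.prod_apply hm]
  have h1 : ∀ x : E2, μ (Prod.mk x ⁻¹' {p : E2 × E2 | p.1 = p.2}) = 0 := by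
    intro x
    have h2 : Prod.mk x ⁻¹' {p : E2 × E2 | p.1 = p.2} = {x} := by
      ext y
      exact eq_comm
    rw [h2, h0]
  simp_rw [h1]
  simp

theorem badSet_sw (μ : Measure E2) [IsProbabilityMeasure μ] (δ M : ℝ) :
    Prod.map sw sw ⁻¹' (badSet (μ.map sw) δ M) = badSet μ δ M := by
  ext p
  change (ENNReal.ofReal (M * δ) < ((μ.map sw).prod (μ.map sw)) _) ↔
    (ENNReal.ofReal (M * δ) < (μ.prod μ) _)
  rw [map_prod_apply]
  have h1 : Prod.map sw sw ⁻¹' {q : E2 × E2 | |inner ℝ (q.1 - q.2)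
      ((Prod.map sw sw p).1 - (Prod.map sw sw p).2)| ≤
        δ * ‖(Prod.map sw sw p).1 - (Prod.map sw sw p).2‖}
      = {q : E2 × E2 | |inner ℝ (q.1 - q.2) (p.1 - p.2)| ≤ δ * ‖p.1 - p.2‖} := by
    ext q
    simp only [mem_preimage, mem_ofPred_eq, Prod.map_fst, Prod.map_snd, ← map_sub,
      LinearIsometryEquiv.inner_map_map, LinearIsometryEquiv.norm_map]
  rw [h1]

theorem map_ball {μ : Measure E2} [IsProbabilityMeasure μ] {C s : ℝ}
    (hμ : ∀ (x : E2) (r : ℝ), 0 < r → μ (closedBall x r) ≤ ENNReal.ofReal (C * r ^ s)) :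
    ∀ (x : E2) (r : ℝ), 0 < r → (μ.map sw) (closedBall x r) ≤ ENNReal.ofReal (C * r ^ s) := by
  intro x r hr
  rw [Measure.map_apply sw.continuous.measurable isClosed_closedBall.measurableSet]
  have h1 : sw ⁻¹' closedBall x r = closedBall (sw x) r := by
    ext y
    rw [mem_preimage, mem_closedBall, mem_closedBall]
    have h2 : dist (sw y) x = dist (sw y) (sw (sw x)) := by rw [sw_sw]
    rw [h2, LinearIsometryEquiv.dist_map]
  rw [h1]
  exact hμ _ r hr

theorem map_norm {μ : Measure E2} [IsProbabilityMeasure μ] {R : ℝ}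
    (hR : ∀ᵐ x ∂μ, ‖x‖ ≤ R) : ∀ᵐ x ∂(μ.map sw), ‖x‖ ≤ R := by
  rw [ae_map_iff sw.continuous.measurable.aemeasurable
    (measurableSet_le continuous_norm.measurable measurable_const)]
  filter_upwards [hR] with x hx
  rw [LinearIsometryEquiv.norm_map]
  exact hx

theorem map_map_sw (μ : Measure E2) : (μ.map sw).map sw = μ := by
  rw [Measure.map_map sw.continuous.measurable sw.continuous.measurable]
  have h1 : (sw ∘ sw : E2 → E2) = id := funext sw_sw
  rw [h1, Measure.map_id]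

end PairAux

open PairAux in
/-- typical pairs of points of a set of dimension `> 1` in the plane span a direction in which the
projection of the set is spread -/
theorem pair_lemma (μ : Measure E2) [IsProbabilityMeasure μ] (R C s : ℝ)
    (hR : ∀ᵐ x ∂μ, ‖x‖ ≤ R) (hC : 0 < C) (hs : 1 < s) (hs2 : s < 2)
    (hμ : ∀ (x : E2) (r : ℝ), 0 < r → μ (closedBall x r) ≤ ENNReal.ofReal (C * r ^ s)) :
    ∃ C' : ℝ, 0 < C' ∧ ∃ c : ℝ, 0 < c ∧ ∀ δ : ℝ, 0 < δ → δ ≤ 1 → ∀ M : ℝ, 1 ≤ M →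
      (μ.prod μ) {p | ENNReal.ofReal (M * δ) <
        (μ.prod μ) {q | |inner ℝ (q.1 - q.2) (p.1 - p.2)| ≤ δ * ‖p.1 - p.2‖}}
      ≤ ENNReal.ofReal (C' * M ^ (-c)) := by
  have hR0 : 0 ≤ R := by
    obtain ⟨x, hx⟩ := hR.exists
    exact (norm_nonneg x).trans hx
  obtain ⟨C1, hC1, h1, h1'⟩ := GG_avg μ R C s hR hC hs hs2 hμ
  obtain ⟨C2, hC2, h2, h2'⟩ := GG_avg (μ.map sw) R C s (map_norm hR) hC hs hs2 (map_ball hμ)
  set K1 : ℝ := 4 * (1 + R) * (16 * (1 + R) * C2 + C1) + 4 * (1 + R) with hK1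
  set K2 : ℝ := 4 * (1 + R) * (16 * (1 + R) * C1 + C2) + 4 * (1 + R) with hK2
  have hK1p : 0 < K1 := by positivity
  have hK2p : 0 < K2 := by positivity
  refine ⟨K1 + K2, by positivity, (s - 1) / 2, by linarith, ?_⟩
  intro δ hδ hδ1 M hM
  have hM0 : 0 < M := by linarith
  have hpow : 0 ≤ M ^ (-((s - 1) / 2)) := (Real.rpow_pos_of_pos hM0 _).le
  have hcover : badSet μ δ M ⊆ ({p | p.1 = p.2} ∪ badI μ δ M) ∪
      Prod.map sw sw ⁻¹' (badI (μ.map sw) δ M) := by
    intro p hp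
    by_cases hd : p.1 = p.2
    · exact Or.inl (Or.inl hd)
    rcases le_total |p.1 1 - p.2 1| |p.1 0 - p.2 0| with hle | hle
    · refine Or.inl (Or.inr ⟨hp, hle, ?_⟩)
      intro h0
      apply hd
      rw [h0, abs_zero] at hle
      have h3 : p.1 1 - p.2 1 = 0 := abs_eq_zero.1 (le_antisymm hle (abs_nonneg _))
      ext i
      fin_cases i
      · exact sub_eq_zero.1 h0
      · exact sub_eq_zero.1 h3
    · refine Or.inr ⟨?_, ?_, ?_⟩
      · rw [← mem_preimage, badSet_sw]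
        exact hp
      · rw [Prod.map_fst, Prod.map_snd, sw_one, sw_one, sw_zero, sw_zero]
        exact hle
      · rw [Prod.map_fst, Prod.map_snd, sw_zero, sw_zero]
        intro h0
        apply hd
        rw [h0, abs_zero] at hle
        have h3 : p.1 0 - p.2 0 = 0 := abs_eq_zero.1 (le_antisymm hle (abs_nonneg _))
        ext i
        fin_cases i
        · exact sub_eq_zero.1 h3
        · exact sub_eq_zero.1 h0
  have e1 := chart hR0 hR hC1 hC2 hs hs2 h1' h2 hδ hδ1 hM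
  have e2 := chart (μ := μ.map sw) hR0 (map_norm hR) hC2 hC1 hs hs2 h2'
    (by rw [map_map_sw]; exact h1) hδ hδ1 hM
  rw [map_prod_apply] at e2
  calc (μ.prod μ) (badSet μ δ M) ≤ (μ.prod μ) (({p | p.1 = p.2} ∪ badI μ δ M) ∪
      Prod.map sw sw ⁻¹' (badI (μ.map sw) δ M)) := measure_mono hcover
    _ ≤ ((μ.prod μ) {p | p.1 = p.2} + (μ.prod μ) (badI μ δ M)) +
      (μ.prod μ) (Prod.map sw sw ⁻¹' (badI (μ.map sw) δ M)) :=
        (measure_union_le _ _).trans (add_le_add_left (measure_union_le _ _) _)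
    _ ≤ (0 + ENNReal.ofReal (K1 * M ^ (-((s - 1) / 2)))) +
        ENNReal.ofReal (K2 * M ^ (-((s - 1) / 2))) := by
        rw [diag_null hs hμ]
        gcongr
    _ = ENNReal.ofReal ((K1 + K2) * M ^ (-((s - 1) / 2))) := by
        rw [zero_add, ← ENNReal.ofReal_add (by positivity) (by positivity), ← add_mul]

end Pool.Agent.H744R2.Falc
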