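import Pool.Agent.H744R2.Falc.Assembly
import Pool.Agent.H744R2.Falc.FrostR
import Pool.Agent.H744R2.Falc.FrostH
import Pool.Agent.H744R2.Falc.Pair
import Pool.Agent.H744R2.Falc.Halving
import Pool.Agent.H744R2.Falc.Final

set_option autoImplicit false

namespace Pool.Agent.H744R2.Falc

open MeasureTheory Set Metric
open scoped ENNReal

theorem tools : Tools where
  frost := fun D hD hn s hs => frostman_real D hD hn s hs
  halv := fun D E hD hE σ s σ' hσ hs hDF hEF h =>
    halving_of (fun μ _ R C s h1 h2 h3 h4 h5 => pair_lemma μ R C s h1 h2 h3 h4 h5)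
      D E hE σ s σ' hs hDF hEF h

theorem main_A (K n d : ℕ) (e : (Fin K × Fin 2) ⊕ Fin n ≃ Fin d) (E : Fin K → Set E2)
    (F : Set (EuclideanSpace ℝ (Fin n))) (hE : ∀ i, IsCompact (E i)) (hEd : ∀ i, 1 < dimH (E i))
    (hF : IsCompact F) (hFd : (n : ℝ≥0∞) / 2 + (1 / 2) ^ (K + 1) < dimH F) :
    0 < volume (distanceSet (productSet e E F)) :=
  main_of tools (fun n D F hD hF σ α h1 h2 h3 h4 h5 h6 => positive_step n D F hD hF σ α h1 h2 h3 h4 h5 h6)
    (fun n K hK s hs h => frostman_dimH n K hK s hs h) K n d e E F hE hEd hF hFd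

end Pool.Agent.H744R2.Falc
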