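import Pool.Agent.H744R2.Falc.Mw
import Pool.Agent.H744R2.Falc.Pair

/-! Task B1: the radial lemma. -/

set_option autoImplicit false

namespace Pool.Agent.H744R2.Falc

open MeasureTheory Set Metric

namespace Rad

open MonoAux (measurable_prj continuous_prj measurable_m measurable_mw)
open PairAux (sw sw_zero sw_one sw_sw ae_prod_norm abs_coord_sub_le GG_le GG_meas int_le_chi
  map_prod_apply map_ball map_norm map_map_sw diag_null)

/-- mass of the slab around `x` -/
noncomputable def slab (μ : Measure E2) (b t : ℝ) (x : E2) : ENNReal :=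
  μ {z | |prj t z - prj t x| ≤ b}

/-- mass of a window -/
noncomputable def nn (μ : Measure E2) (t W τ : ℝ) : ENNReal :=
  μ {x | τ ≤ prj t x ∧ prj t x < τ + W}

theorem slab_meas2 (μ : Measure E2) [IsProbabilityMeasure μ] (b : ℝ) :
    Measurable (fun q : E2 × ℝ => slab μ b q.2 q.1) := by
  have hT : MeasurableSet {y : (E2 × ℝ) × E2 | |prj y.1.2 y.2 - prj y.1.2 y.1.1| ≤ b} := by
    apply IsClosed.measurableSet
    unfold prj
    apply isClosed_le <;> fun_prop
  exact measurable_measure_prodMk_left hT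

theorem slab_meas (μ : Measure E2) [IsProbabilityMeasure μ] (b t : ℝ) :
    Measurable (slab μ b t) :=
  (slab_meas2 μ b).comp (measurable_id.prodMk measurable_const)

/-- the bad pairs -/
def badR (μ : Measure E2) (w M : ℝ) : Set (E2 × E2) :=
  {p | ENNReal.ofReal (M * w) < μ (strip w p.1 p.2)}

/-- the bad pairs in the first chart -/
def badRI (μ : Measure E2) (w M : ℝ) : Set (E2 × E2) :=
  badR μ w M ∩ {p | |p.1 1 - p.2 1| ≤ |p.1 0 - p.2 0| ∧ p.1 0 - p.2 0 ≠ 0}

theorem strip_t {μ : Measure E2} [IsProbabilityMeasure μ] {R : ℝ}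
    (hR : ∀ᵐ x ∂μ, ‖x‖ ≤ R) {w M : ℝ} (hw : 0 < w) {p : E2 × E2} (hp : p ∈ badRI μ w M)
    (hp1 : ‖p.1‖ ≤ R) {t : ℝ} (ht : |t - (p.1 1 - p.2 1) / (p.1 0 - p.2 0)| ≤ w) :
    ENNReal.ofReal (M * w) < slab μ ((2 + 2 * R) * w) t p.1 := by
  obtain ⟨hbad, hle, hne⟩ := hp
  refine lt_of_lt_of_le hbad (measure_mono_ae ?_)
  filter_upwards [hR] with z hz hmem
  change |prj t z - prj t p.1| ≤ (2 + 2 * R) * w
  have hmem' : |det2 (z - p.1) (p.2 - p.1)| ≤ w * ‖p.2 - p.1‖ := hmem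
  unfold det2 at hmem'
  simp only [PiLp.sub_apply] at hmem'
  set z0 := p.1 0 - p.2 0 with hz0
  set z1 := p.1 1 - p.2 1 with hz1
  set a0 := z 0 - p.1 0 with ha0
  set a1 := z 1 - p.1 1 with ha1
  have hz0p : 0 < |z0| := abs_pos.2 hne
  have hnorm : ‖p.2 - p.1‖ ≤ 2 * |z0| := by
    have h1 : ‖p.2 - p.1‖ ^ 2 = z0 ^ 2 + z1 ^ 2 := by
      rw [EuclideanSpace.real_norm_sq_eq, Fin.sum_univ_two]
      simp only [PiLp.sub_apply, hz0, hz1]
      ring
    have h2 : z1 ^ 2 ≤ z0 ^ 2 := sq_le_sq.2 hle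
    have h3 : ‖p.2 - p.1‖ ^ 2 ≤ (2 * |z0|) ^ 2 := by
      rw [h1, mul_pow, sq_abs]
      nlinarith [sq_nonneg z0]
    exact le_of_sq_le_sq h3 (by positivity)
  have h1 : |a1 - z1 / z0 * a0| ≤ 2 * w := by
    have h2 : a0 * (p.2 1 - p.1 1) - a1 * (p.2 0 - p.1 0) = (a1 - z1 / z0 * a0) * z0 := by
      have e1 : p.2 1 - p.1 1 = -z1 := by rw [hz1]; ring
      have e2 : p.2 0 - p.1 0 = -z0 := by rw [hz0]; ring
      rw [e1, e2]
      field_simp
      ring
    rw [h2, abs_mul] at hmem'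
    have h3 : |a1 - z1 / z0 * a0| * |z0| ≤ 2 * w * |z0| := by
      calc _ ≤ w * ‖p.2 - p.1‖ := hmem'
        _ ≤ w * (2 * |z0|) := by gcongr
        _ = 2 * w * |z0| := by ring
    exact le_of_mul_le_mul_right h3 hz0p
  have h4 : |a0| ≤ 2 * R := abs_coord_sub_le hz hp1 0
  calc |prj t z - prj t p.1| = |(a1 - z1 / z0 * a0) - (t - z1 / z0) * a0| := by
        unfold prj
        congr 1
        rw [ha0, ha1]
        ring
    _ ≤ |a1 - z1 / z0 * a0| + |(t - z1 / z0) * a0| := abs_sub _ _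
    _ = |a1 - z1 / z0 * a0| + |t - z1 / z0| * |a0| := by rw [abs_mul]
    _ ≤ 2 * w + w * (2 * R) := by gcongr
    _ = (2 + 2 * R) * w := by ring

theorem chartR {μ : Measure E2} [IsProbabilityMeasure μ] {R : ℝ}
    (hR : ∀ᵐ x ∂μ, ‖x‖ ≤ R) {w M : ℝ} (hw : 0 < w) (hw1 : w ≤ 1) :
    ENNReal.ofReal (2 * w) * (μ.prod μ) (badRI μ w M) ≤
      ∫⁻ t in Icc (-2 : ℝ) 2, ∫⁻ x, ({x | ENNReal.ofReal (M * w) <
        slab μ ((2 + 2 * R) * w) t x}.indicator (slab μ ((2 + 2 * R) * w) t) x) ∂μ := by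
  set b : ℝ := (2 + 2 * R) * w with hb
  set T : Set ((E2 × E2) × ℝ) :=
    {x | |prj x.2 x.1.2 - prj x.2 x.1.1| ≤ b ∧ ENNReal.ofReal (M * w) < slab μ b x.2 x.1.1}
    with hT_def
  have hT : MeasurableSet T := by
    have hT1 : MeasurableSet {x : (E2 × E2) × ℝ | |prj x.2 x.1.2 - prj x.2 x.1.1| ≤ b} := by
      apply IsClosed.measurableSet
      unfold prj
      apply isClosed_le <;> fun_prop
    exact hT1.inter (measurableSet_lt measurable_const ((slab_meas2 μ b).comp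
        ((measurable_fst.comp measurable_fst).prodMk measurable_snd)))
  have h1 : ENNReal.ofReal (2 * w) * (μ.prod μ) (badRI μ w M)
      ≤ ∫⁻ p, (volume.restrict (Icc (-2 : ℝ) 2)) (Prod.mk p ⁻¹' T) ∂(μ.prod μ) := by
    have hm : Measurable (fun p : E2 × E2 =>
        (volume.restrict (Icc (-2 : ℝ) 2)) (Prod.mk p ⁻¹' T)) :=
      measurable_measure_prodMk_left hT
    refine le_trans ?_ (mul_meas_ge_le_lintegral hm (ENNReal.ofReal (2 * w)))
    refine mul_le_mul_right (measure_mono_ae ?_) _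
    filter_upwards [ae_prod_norm hR] with p hpR hp
    change ENNReal.ofReal (2 * w) ≤ (volume.restrict (Icc (-2 : ℝ) 2)) (Prod.mk p ⁻¹' T)
    have hz0 : p.1 0 - p.2 0 ≠ 0 := hp.2.2
    have h2 : Icc ((p.1 1 - p.2 1) / (p.1 0 - p.2 0) - w)
        ((p.1 1 - p.2 1) / (p.1 0 - p.2 0) + w) ⊆ (Prod.mk p ⁻¹' T) ∩ Icc (-2 : ℝ) 2 := by
      intro t ht
      have ht' : |t - (p.1 1 - p.2 1) / (p.1 0 - p.2 0)| ≤ w := by
        rw [abs_le]
        constructor <;> linarith [ht.1, ht.2]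
      refine ⟨⟨?_, strip_t hR hw hp hpR.1 ht'⟩, ?_⟩
      · change |prj t p.2 - prj t p.1| ≤ b
        have h3 : prj t p.2 - prj t p.1
            = (t - (p.1 1 - p.2 1) / (p.1 0 - p.2 0)) * (p.1 0 - p.2 0) := by
          unfold prj
          field_simp
          ring
        have h5 := abs_coord_sub_le hpR.1 hpR.2 0
        rw [h3, abs_mul]
        calc _ ≤ w * (2 * R) := by gcongr
          _ ≤ b := by rw [hb]; nlinarith
      · have h0 : |(p.1 1 - p.2 1) / (p.1 0 - p.2 0)| ≤ 1 := by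
          rw [abs_div]
          exact div_le_one_of_le₀ hp.2.1 (abs_nonneg _)
        rw [abs_le] at ht' h0
        constructor <;> linarith
    rw [Measure.restrict_apply (measurable_prodMk_left hT)]
    refine le_trans ?_ (measure_mono h2)
    rw [Real.volume_Icc]
    apply le_of_eq
    congr 1
    ring
  have h2 : ∫⁻ p, (volume.restrict (Icc (-2 : ℝ) 2)) (Prod.mk p ⁻¹' T) ∂(μ.prod μ)
      = ∫⁻ t in Icc (-2 : ℝ) 2, (μ.prod μ) ((fun p => (p, t)) ⁻¹' T) := by
    rw [← Measure.prod_apply hT, Measure.prod_apply_symm hT]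
  refine h1.trans (h2.le.trans (le_of_eq ?_))
  refine lintegral_congr fun t => ?_
  have hTt : MeasurableSet ((fun p : E2 × E2 => (p, t)) ⁻¹' T) := measurable_prodMk_right hT
  rw [Measure.prod_apply hTt]
  refine lintegral_congr fun x => ?_
  by_cases hx : ENNReal.ofReal (M * w) < slab μ b t x
  · rw [indicator_of_mem (show x ∈ {x | ENNReal.ofReal (M * w) < slab μ b t x} from hx)]
    unfold slab
    congr 1
    ext y
    exact ⟨fun h => h.1, fun h => ⟨h, hx⟩⟩
  · rw [indicator_of_notMem (show x ∉ {x | ENNReal.ofReal (M * w) < slab μ b t x} from hx)]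
    have : Prod.mk x ⁻¹' ((fun p : E2 × E2 => (p, t)) ⁻¹' T) = ∅ := by
      ext y
      exact ⟨fun h => hx h.2, fun h => h.elim⟩
    rw [this, measure_empty]

theorem step3 (μ : Measure E2) [IsProbabilityMeasure μ] (t b W : ℝ) (hb : b ≤ W / 4)
    (a : ENNReal) :
    ENNReal.ofReal (W / 2) * ∫⁻ x, ({x | a < slab μ b t x}.indicator (slab μ b t) x) ∂μ ≤
      ∫⁻ τ : ℝ, {τ | a < nn μ t W τ}.indicator (fun τ => nn μ t W τ ^ 2) τ := by
  have hn : Measurable (nn μ t W) := measurable_m μ t W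
  set g : ℝ → ENNReal := {τ | a < nn μ t W τ}.indicator (nn μ t W) with hg
  have hgm : Measurable g := hn.indicator (measurableSet_lt measurable_const hn)
  set S : Set (E2 × ℝ) := {q | prj t q.1 - 3 * W / 4 < q.2 ∧ q.2 < prj t q.1 - W / 4} with hS
  have hSm : MeasurableSet S := by
    have h1 : Measurable fun q : E2 × ℝ => prj t q.1 := (measurable_prj t).comp measurable_fst
    exact (measurableSet_lt (h1.sub_const _) measurable_snd).inter
      (measurableSet_lt measurable_snd (h1.sub_const _))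
  have hF : Measurable (fun q : E2 × ℝ => S.indicator (fun q => g q.2) q) :=
    (hgm.comp measurable_snd).indicator hSm
  have h1 : ENNReal.ofReal (W / 2) * ∫⁻ x, ({x | a < slab μ b t x}.indicator (slab μ b t) x) ∂μ
      ≤ ∫⁻ x, (∫⁻ τ : ℝ, S.indicator (fun q => g q.2) (x, τ)) ∂μ := by
    rw [← lintegral_const_mul' _ _ ENNReal.ofReal_ne_top]
    refine lintegral_mono fun x => ?_
    by_cases hx : a < slab μ b t x
    · rw [indicator_of_mem (show x ∈ {x | a < slab μ b t x} from hx)]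
      have e1 : ∫⁻ τ in Ioo (prj t x - 3 * W / 4) (prj t x - W / 4), slab μ b t x =
          ENNReal.ofReal (W / 2) * slab μ b t x := by
        rw [setLIntegral_const, Real.volume_Ioo, mul_comm]
        congr 2
        ring
      rw [← e1, ← lintegral_indicator measurableSet_Ioo]
      refine lintegral_mono fun τ => ?_
      by_cases hτ : τ ∈ Ioo (prj t x - 3 * W / 4) (prj t x - W / 4)
      · rw [indicator_of_mem hτ, indicator_of_mem (show (x, τ) ∈ S from hτ)]
        have h2 : slab μ b t x ≤ nn μ t W τ := by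
          refine measure_mono fun z hz => ?_
          have hz' : |prj t z - prj t x| ≤ b := hz
          rw [abs_le] at hz'
          constructor <;> linarith [hτ.1, hτ.2, hz'.1, hz'.2]
        show slab μ b t x ≤ g τ
        rw [hg, indicator_of_mem (show τ ∈ {τ | a < nn μ t W τ} from hx.trans_le h2)]
        exact h2
      · rw [indicator_of_notMem hτ]
        exact zero_le
    · rw [indicator_of_notMem (show x ∉ {x | a < slab μ b t x} from hx), mul_zero]
      exact zero_le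
  refine h1.trans ?_
  rw [lintegral_lintegral_swap hF.aemeasurable]
  refine lintegral_mono fun τ => ?_
  have h3 : ∀ x : E2, S.indicator (fun q => g q.2) (x, τ) =
      {x | prj t x - 3 * W / 4 < τ ∧ τ < prj t x - W / 4}.indicator (fun _ => g τ) x := by
    intro x
    by_cases hx : (x, τ) ∈ S
    · rw [indicator_of_mem hx, indicator_of_mem (show x ∈ {x | prj t x - 3 * W / 4 < τ ∧
        τ < prj t x - W / 4} from hx)]
    · rw [indicator_of_notMem hx, indicator_of_notMem (show x ∉ {x | prj t x - 3 * W / 4 < τ ∧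
        τ < prj t x - W / 4} from hx)]
  simp_rw [h3]
  have hmS : MeasurableSet {x : E2 | prj t x - 3 * W / 4 < τ ∧ τ < prj t x - W / 4} :=
    (measurableSet_lt ((measurable_prj t).sub_const _) measurable_const).inter
      (measurableSet_lt measurable_const ((measurable_prj t).sub_const _))
  rw [lintegral_indicator_const hmS]
  by_cases hτ : a < nn μ t W τ
  · rw [hg, indicator_of_mem (show τ ∈ {τ | a < nn μ t W τ} from hτ),
      indicator_of_mem (show τ ∈ {τ | a < nn μ t W τ} from hτ), pow_two]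
    refine mul_le_mul_right (measure_mono fun x hx => ?_) _
    have hx1 : prj t x - 3 * W / 4 < τ := hx.1
    have hx2 : τ < prj t x - W / 4 := hx.2
    constructor <;> linarith
  · rw [hg, indicator_of_notMem (show τ ∉ {τ | a < nn μ t W τ} from hτ), zero_mul]
    exact zero_le

theorem tele_sq (f : ℕ → ℝ) (q : ℝ) (hq0 : 0 < q) (hq1 : q < 1) (k : ℕ) :
    (f k - f 0) ^ 2 ≤ (1 / (1 - q)) *
      ∑ j ∈ Finset.range k, (q ^ j)⁻¹ * (f (j + 1) - f j) ^ 2 := by
  rw [← Finset.sum_range_sub]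
  have h1 := Finset.sum_sq_le_sum_mul_sum_of_sq_le_mul (Finset.range k)
    (r := fun j => f (j + 1) - f j) (f := fun j => q ^ j)
    (g := fun j => (q ^ j)⁻¹ * (f (j + 1) - f j) ^ 2)
    (fun j _ => by positivity) (fun j _ => by positivity)
    (fun j _ => by
      have : q ^ j ≠ 0 := (pow_pos hq0 j).ne'
      apply le_of_eq
      field_simp)
  refine h1.trans ?_
  have h2 : ∑ j ∈ Finset.range k, q ^ j ≤ 1 / (1 - q) := by
    rw [le_div_iff₀ (by linarith), geom_sum_mul_neg]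
    linarith [pow_pos hq0 k]
  exact mul_le_mul_of_nonneg_right h2 (Finset.sum_nonneg fun j _ => by positivity)

theorem nn_eq (μ : Measure E2) [IsProbabilityMeasure μ] (t W τ : ℝ) (hW : 0 < W) :
    nn μ t W τ = ENNReal.ofReal (W * mw μ W t τ) := by
  have h1 : W * mw μ W t τ = (nn μ t W τ).toReal := by
    unfold mw
    rw [mul_div_cancel₀ _ hW.ne']
    rfl
  rw [h1, ENNReal.ofReal_toReal]
  exact measure_ne_top μ _

theorem mw_le (μ : Measure E2) [IsProbabilityMeasure μ] (t W τ : ℝ) (hW : 0 < W) :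
    0 ≤ mw μ W t τ ∧ mw μ W t τ ≤ 1 / W := by
  unfold mw
  refine ⟨div_nonneg ENNReal.toReal_nonneg hW.le, ?_⟩
  refine div_le_div_of_nonneg_right ?_ hW.le
  have h : μ {z | τ ≤ z 1 - t * z 0 ∧ z 1 - t * z 0 < τ + W} ≤ 1 := prob_le_one
  exact ENNReal.toReal_mono ENNReal.one_ne_top h

theorem step4 (μ : Measure E2) [IsProbabilityMeasure μ] (t U q : ℝ) (k : ℕ) (hq0 : 0 < q)
    (hq1 : q < 1) (hU : 0 < U) (M1 : ℝ) (hM1 : 2 / U ≤ M1) :
    ∫⁻ τ : ℝ, {τ | ENNReal.ofReal (M1 * (U / 2 ^ k)) < nn μ t (U / 2 ^ k) τ}.indicator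
        (fun τ => nn μ t (U / 2 ^ k) τ ^ 2) τ ≤
      ENNReal.ofReal ((U / 2 ^ k) ^ 2 * 4 * (1 / (1 - q))) *
        ∑ j ∈ Finset.range k, ENNReal.ofReal ((q ^ j)⁻¹) *
          ENNReal.ofReal (GG μ (U / 2 ^ (j + 1)) t - GG μ (U / 2 ^ j) t) := by
  set W : ℝ := U / 2 ^ k with hW
  have hWp : 0 < W := by positivity
  have hUp : ∀ j : ℕ, 0 < U / 2 ^ j := fun j => by positivity
  have h1q : 0 < 1 / (1 - q) := by
    have : 0 < 1 - q := by linarith
    positivity
  have hpt : ∀ τ : ℝ, {τ | ENNReal.ofReal (M1 * W) < nn μ t W τ}.indicator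
        (fun τ => nn μ t W τ ^ 2) τ ≤
      ENNReal.ofReal (W ^ 2 * 4 * (1 / (1 - q))) *
        ∑ j ∈ Finset.range k, ENNReal.ofReal ((q ^ j)⁻¹) *
          ENNReal.ofReal ((mw μ (U / 2 ^ (j + 1)) t τ - mw μ (U / 2 ^ j) t τ) ^ 2) := by
    intro τ
    by_cases hτ : ENNReal.ofReal (M1 * W) < nn μ t W τ
    · rw [indicator_of_mem (show τ ∈ {τ | ENNReal.ofReal (M1 * W) < nn μ t W τ} from hτ)]
      rw [nn_eq μ t W τ hWp] at hτ ⊢
      have h1 : M1 * W < W * mw μ W t τ := (ENNReal.ofReal_lt_ofReal_iff'.1 hτ).1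
      have h2 : M1 < mw μ W t τ := by
        rw [mul_comm] at h1
        exact lt_of_mul_lt_mul_left h1 hWp.le
      have h3 := mw_le μ t (U / 2 ^ 0) τ (hUp 0)
      have h4 : mw μ (U / 2 ^ 0) t τ ≤ M1 / 2 := by
        refine h3.2.trans ?_
        rw [pow_zero, div_one]
        have : 2 / U = 2 * (1 / U) := by ring
        linarith
      have h5 : mw μ W t τ ^ 2 ≤ 4 * (mw μ W t τ - mw μ (U / 2 ^ 0) t τ) ^ 2 := by
        nlinarith [h3.1]
      have h6 := tele_sq (fun j => mw μ (U / 2 ^ j) t τ) q hq0 hq1 k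
      simp only [← hW] at h6
      have h7 : (W * mw μ W t τ) ^ 2 ≤ W ^ 2 * 4 * (1 / (1 - q)) *
          ∑ j ∈ Finset.range k, (q ^ j)⁻¹ *
            (mw μ (U / 2 ^ (j + 1)) t τ - mw μ (U / 2 ^ j) t τ) ^ 2 := by
        calc (W * mw μ W t τ) ^ 2 = W ^ 2 * mw μ W t τ ^ 2 := by ring
          _ ≤ W ^ 2 * (4 * (mw μ W t τ - mw μ (U / 2 ^ 0) t τ) ^ 2) := by gcongr
          _ ≤ W ^ 2 * (4 * ((1 / (1 - q)) * ∑ j ∈ Finset.range k, (q ^ j)⁻¹ *
            (mw μ (U / 2 ^ (j + 1)) t τ - mw μ (U / 2 ^ j) t τ) ^ 2)) := by gcongr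
          _ = _ := by ring
      rw [← ENNReal.ofReal_pow (mul_nonneg hWp.le (mw_le μ t W τ hWp).1)]
      refine (ENNReal.ofReal_le_ofReal h7).trans (le_of_eq ?_)
      rw [ENNReal.ofReal_mul (by positivity), ENNReal.ofReal_sum_of_nonneg]
      · congr 1
        refine Finset.sum_congr rfl fun j _ => ?_
        rw [ENNReal.ofReal_mul (by positivity)]
      · intro j _
        positivity
    · rw [indicator_of_notMem (show τ ∉ {τ | ENNReal.ofReal (M1 * W) < nn μ t W τ} from hτ)]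
      exact zero_le
  refine (lintegral_mono hpt).trans (le_of_eq ?_)
  rw [lintegral_const_mul' _ _ ENNReal.ofReal_ne_top]
  congr 1
  have hmw : ∀ w : ℝ, Measurable (fun τ => mw μ w t τ) := fun w => measurable_mw μ t w
  rw [lintegral_finsetSum]
  · refine Finset.sum_congr rfl fun j _ => ?_
    rw [lintegral_const_mul' _ _ ENNReal.ofReal_ne_top]
    have h := mw_diff μ (U / 2 ^ (j + 1)) t (hUp (j + 1))
    have e : 2 * (U / 2 ^ (j + 1)) = U / 2 ^ j := by
      rw [pow_succ]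
      field_simp
    rw [e] at h
    rw [h]
  · intro j _
    exact ((((hmw _).sub (hmw _)).pow_const 2).ennreal_ofReal).const_mul _

theorem step5 (μ : Measure E2) [IsProbabilityMeasure μ] {C1 s : ℝ}
    (h : ∀ δ w : ℝ, 0 < δ → δ ≤ w → w ≤ 1 →
        ∫ t in (-4 : ℝ)..4, chi t * (GG μ δ t - GG μ w t) ≤ C1 * w ^ (s - 1))
    (w : ℝ) (hw : 0 < w) (hw1 : 2 * w ≤ 1) :
    ∫⁻ t in Icc (-2 : ℝ) 2, ENNReal.ofReal (GG μ w t - GG μ (2 * w) t) ≤
      ENNReal.ofReal (C1 * (2 * w) ^ (s - 1)) := by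
  have hnn : ∀ t, 0 ≤ GG μ w t - GG μ (2 * w) t := fun t => by
    linarith [GG_mono μ w t hw]
  have hK : ∀ t, GG μ w t - GG μ (2 * w) t ≤ 1 / w := fun t => by
    linarith [GG_le μ hw t, PairAux.GG_nonneg μ (w := 2 * w) (by positivity) t]
  have hm : Measurable fun t => GG μ w t - GG μ (2 * w) t := (GG_meas μ w).sub (GG_meas μ (2 * w))
  have h1 := int_le_chi hm hnn hK measurableSet_Icc (B := Icc (-2 : ℝ) 2) subset_rfl
  have h2 := h w (2 * w) hw (by linarith) hw1
  rw [← ofReal_integral_eq_lintegral_ofReal]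
  · exact ENNReal.ofReal_le_ofReal (h1.trans h2)
  · have : IsFiniteMeasure (volume.restrict (Icc (-2 : ℝ) 2)) := ⟨by
      rw [Measure.restrict_apply_univ, Real.volume_Icc]
      exact ENNReal.ofReal_lt_top⟩
    refine Integrable.of_bound hm.aestronglyMeasurable (1 / w) ?_
    refine Filter.Eventually.of_forall fun t => ?_
    rw [Real.norm_eq_abs, abs_of_nonneg (hnn t)]
    exact hK t
  · exact Filter.Eventually.of_forall hnn

theorem exists_scale (W M1 : ℝ) (hW : 0 < W) (_hM1 : 0 < M1) (h : W < 2 / M1) :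
    ∃ k : ℕ, 2 / M1 ≤ W * 2 ^ k ∧ W * 2 ^ k ≤ 4 / M1 := by
  have hex : ∃ k : ℕ, 2 / M1 ≤ W * 2 ^ k := by
    obtain ⟨k, hk⟩ := pow_unbounded_of_one_lt (2 / M1 / W) (one_lt_two (α := ℝ))
    refine ⟨k, ?_⟩
    rw [div_lt_iff₀ hW] at hk
    linarith
  classical
  refine ⟨Nat.find hex, Nat.find_spec hex, ?_⟩
  have h0 : Nat.find hex ≠ 0 := by
    intro h0
    have := Nat.find_spec hex
    rw [h0, pow_zero, mul_one] at this
    linarith
  have h1 := Nat.find_min hex (m := Nat.find hex - 1) (by omega)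
  push Not at h1
  have h2 : (2 : ℝ) ^ (Nat.find hex) = 2 * 2 ^ (Nat.find hex - 1) := by
    rw [← pow_succ']
    congr 1
    omega
  rw [h2]
  have h3 : W * (2 * 2 ^ (Nat.find hex - 1)) = 2 * (W * 2 ^ (Nat.find hex - 1)) := by ring
  rw [h3]
  have h4 : 4 / M1 = 2 * (2 / M1) := by ring
  rw [h4]
  linarith

theorem chartK {μ : Measure E2} [IsProbabilityMeasure μ] {R s C1 : ℝ} (hR1 : 0 ≤ R)
    (hR : ∀ᵐ x ∂μ, ‖x‖ ≤ R) (hs : 1 < s) (hC1 : 0 < C1)
    (h : ∀ δ w : ℝ, 0 < δ → δ ≤ w → w ≤ 1 →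
        ∫ t in (-4 : ℝ)..4, chi t * (GG μ δ t - GG μ w t) ≤ C1 * w ^ (s - 1)) :
    ∃ K : ℝ, 0 < K ∧ ∀ w : ℝ, 0 < w → w ≤ 1 → ∀ M : ℝ, 1 ≤ M →
      (μ.prod μ) (badRI μ w M) ≤ ENNReal.ofReal (K * M ^ (-(s - 1))) := by
  set c2 : ℝ := 2 + 2 * R with hc2
  have hc2p : 0 < c2 := by positivity
  set q : ℝ := (2 : ℝ) ^ (-(s - 1) / 2) with hq
  have hq0 : 0 < q := Real.rpow_pos_of_pos two_pos _
  have hq1 : q < 1 := Real.rpow_lt_one_of_one_lt_of_neg one_lt_two (by linarith)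
  have h1q : 0 < 1 - q := by linarith
  have hq2 : ∀ j : ℕ, ((2 : ℝ) ^ j)⁻¹ ^ (s - 1) = q ^ j * q ^ j := by
    intro j
    rw [hq, ← Real.rpow_natCast, ← Real.rpow_natCast, ← Real.rpow_neg two_pos.le,
      ← Real.rpow_mul two_pos.le, ← Real.rpow_mul two_pos.le, ← Real.rpow_add two_pos]
    congr 1
    ring
  set A : ℝ := 16 * c2 * C1 * (1 / (1 - q)) * (1 / (1 - q)) with hA
  have hAp : 0 < A := by positivity
  refine ⟨(A + 1) * (16 * c2) ^ (s - 1), by positivity, ?_⟩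
  intro w hw hw1 M hM
  have hM0 : 0 < M := by linarith
  have hMp : 0 < M ^ (-(s - 1)) := Real.rpow_pos_of_pos hM0 _
  have hKM : (A + 1) * (16 * c2) ^ (s - 1) * M ^ (-(s - 1)) =
      (A + 1) * (16 * c2 / M) ^ (s - 1) := by
    rw [Real.div_rpow (by positivity) hM0.le, Real.rpow_neg hM0.le]
    ring
  rw [hKM]
  rcases lt_or_ge M (16 * c2) with hsm | hbig
  · -- trivial
    have h1 : (1 : ℝ) ≤ (16 * c2 / M) ^ (s - 1) := by
      refine Real.one_le_rpow ?_ (by linarith)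
      rw [le_div_iff₀ hM0]
      linarith
    calc (μ.prod μ) (badRI μ w M) ≤ 1 := prob_le_one
      _ = ENNReal.ofReal 1 := ENNReal.ofReal_one.symm
      _ ≤ _ := ENNReal.ofReal_le_ofReal (by nlinarith)
  set W : ℝ := 4 * c2 * w with hW
  have hWp : 0 < W := by positivity
  set M1 : ℝ := M / (4 * c2) with hM1
  have hM1p : 0 < M1 := by positivity
  have hM14 : 4 ≤ M1 := by
    rw [hM1, le_div_iff₀ (by positivity)]
    linarith
  have hMW : M1 * W = M * w := by
    rw [hM1, hW]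
    field_simp
  rcases lt_or_ge W (2 / M1) with hWs | hWb
  swap
  · -- the bad set is empty
    have : badRI μ w M = ∅ := by
      rw [eq_empty_iff_forall_notMem]
      rintro p ⟨hp, -⟩
      have hp' : ENNReal.ofReal (M * w) < μ (strip w p.1 p.2) := hp
      have h2 : μ (strip w p.1 p.2) ≤ 1 := prob_le_one
      have h3 : (1 : ENNReal) ≤ ENNReal.ofReal (M * w) := by
        rw [← ENNReal.ofReal_one]
        apply ENNReal.ofReal_le_ofReal
        rw [← hMW]
        rw [div_le_iff₀ hM1p] at hWb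
        linarith
      exact absurd (hp'.trans_le h2) (not_lt.2 h3)
    rw [this, measure_empty]
    exact zero_le
  obtain ⟨k, hk1, hk2⟩ := exists_scale W M1 hWp hM1p hWs
  set U : ℝ := W * 2 ^ k with hU
  have hUp : 0 < U := by positivity
  have hUW : U / 2 ^ k = W := by
    rw [hU]
    field_simp
  have hU1 : U ≤ 1 := by
    refine hk2.trans ?_
    rw [div_le_one hM1p]
    exact hM14
  have hM1U : 2 / U ≤ M1 := by
    rw [div_le_iff₀ hM1p] at hk1
    rw [div_le_iff₀ hUp]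
    linarith
  -- the three steps
  have e1 := chartR hR hw hw1 (μ := μ) (M := M)
  rw [← hc2] at e1
  have e2 : ∀ t : ℝ, ENNReal.ofReal (W / 2) * ∫⁻ x, ({x | ENNReal.ofReal (M * w) <
      slab μ (c2 * w) t x}.indicator (slab μ (c2 * w) t) x) ∂μ ≤
      ENNReal.ofReal (W ^ 2 * 4 * (1 / (1 - q))) *
        ∑ j ∈ Finset.range k, ENNReal.ofReal ((q ^ j)⁻¹) *
          ENNReal.ofReal (GG μ (U / 2 ^ (j + 1)) t - GG μ (U / 2 ^ j) t) := by
    intro t
    have a1 := step3 μ t (c2 * w) W (by rw [hW]; linarith) (ENNReal.ofReal (M * w))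
    have a2 := step4 μ t U q k hq0 hq1 hUp M1 hM1U
    rw [hUW, hMW] at a2
    exact a1.trans a2
  have e3 : ENNReal.ofReal (W / 2) * (ENNReal.ofReal (2 * w) * (μ.prod μ) (badRI μ w M)) ≤
      ENNReal.ofReal (W ^ 2 * 4 * (1 / (1 - q))) *
        ∑ j ∈ Finset.range k, ENNReal.ofReal ((q ^ j)⁻¹) *
          ENNReal.ofReal (C1 * (U / 2 ^ j) ^ (s - 1)) := by
    calc _ ≤ ENNReal.ofReal (W / 2) * ∫⁻ t in Icc (-2 : ℝ) 2, ∫⁻ x, ({x | ENNReal.ofReal (M * w) <
        slab μ (c2 * w) t x}.indicator (slab μ (c2 * w) t) x) ∂μ := by gcongr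
      _ = ∫⁻ t in Icc (-2 : ℝ) 2, ENNReal.ofReal (W / 2) * ∫⁻ x, ({x | ENNReal.ofReal (M * w) <
        slab μ (c2 * w) t x}.indicator (slab μ (c2 * w) t) x) ∂μ := by
          rw [lintegral_const_mul' _ _ ENNReal.ofReal_ne_top]
      _ ≤ ∫⁻ t in Icc (-2 : ℝ) 2, ENNReal.ofReal (W ^ 2 * 4 * (1 / (1 - q))) *
        ∑ j ∈ Finset.range k, ENNReal.ofReal ((q ^ j)⁻¹) *
          ENNReal.ofReal (GG μ (U / 2 ^ (j + 1)) t - GG μ (U / 2 ^ j) t) :=
          lintegral_mono fun t => e2 t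
      _ ≤ _ := by
          rw [lintegral_const_mul' _ _ ENNReal.ofReal_ne_top, lintegral_finsetSum]
          · gcongr with j hj
            rw [lintegral_const_mul' _ _ ENNReal.ofReal_ne_top]
            gcongr
            have e : 2 * (U / 2 ^ (j + 1)) = U / 2 ^ j := by
              rw [pow_succ]
              field_simp
            have hle : 2 * (U / 2 ^ (j + 1)) ≤ 1 := by
              rw [e]
              exact (div_le_self hUp.le (one_le_pow₀ one_le_two)).trans hU1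
            have h5 := step5 μ h (U / 2 ^ (j + 1)) (by positivity) hle
            rw [e] at h5
            exact h5
          · intro j _
            exact (((GG_meas μ _).sub (GG_meas μ _)).ennreal_ofReal).const_mul _
  have e4 : ∑ j ∈ Finset.range k, ENNReal.ofReal ((q ^ j)⁻¹) *
          ENNReal.ofReal (C1 * (U / 2 ^ j) ^ (s - 1)) ≤
        ENNReal.ofReal (C1 * U ^ (s - 1) * (1 / (1 - q))) := by
    have a1 : ∀ j ∈ Finset.range k, ENNReal.ofReal ((q ^ j)⁻¹) *
          ENNReal.ofReal (C1 * (U / 2 ^ j) ^ (s - 1)) =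
          ENNReal.ofReal (C1 * U ^ (s - 1) * q ^ j) := by
      intro j _
      rw [← ENNReal.ofReal_mul (by positivity)]
      congr 1
      rw [div_eq_mul_inv, Real.mul_rpow hUp.le (by positivity), hq2]
      have : q ^ j ≠ 0 := (pow_pos hq0 j).ne'
      field_simp
    rw [Finset.sum_congr rfl a1, ← ENNReal.ofReal_sum_of_nonneg
      (fun j _ => by positivity), ← Finset.mul_sum]
    apply ENNReal.ofReal_le_ofReal
    gcongr
    rw [le_div_iff₀ h1q, geom_sum_mul_neg]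
    linarith [pow_pos hq0 k]
  have e5 : ENNReal.ofReal (W * w) * (μ.prod μ) (badRI μ w M) ≤
      ENNReal.ofReal (W * w) * ENNReal.ofReal (A * U ^ (s - 1)) := by
    calc ENNReal.ofReal (W * w) * (μ.prod μ) (badRI μ w M)
        = ENNReal.ofReal (W / 2) * (ENNReal.ofReal (2 * w) * (μ.prod μ) (badRI μ w M)) := by
          rw [← mul_assoc, ← ENNReal.ofReal_mul (by positivity)]
          congr 2
          ring
      _ ≤ ENNReal.ofReal (W ^ 2 * 4 * (1 / (1 - q))) *
          ENNReal.ofReal (C1 * U ^ (s - 1) * (1 / (1 - q))) := e3.trans (by gcongr)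
      _ = ENNReal.ofReal (W * w) * ENNReal.ofReal (A * U ^ (s - 1)) := by
          rw [← ENNReal.ofReal_mul (by positivity), ← ENNReal.ofReal_mul (by positivity)]
          congr 1
          rw [hA, hW]
          ring
  have e6 : (μ.prod μ) (badRI μ w M) ≤ ENNReal.ofReal (A * U ^ (s - 1)) := by
    rwa [ENNReal.mul_le_mul_iff_right (by
      rw [Ne, ENNReal.ofReal_eq_zero, not_le]
      positivity) ENNReal.ofReal_ne_top] at e5
  refine e6.trans (ENNReal.ofReal_le_ofReal ?_)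
  have h7 : U ≤ 16 * c2 / M := by
    refine hk2.trans (le_of_eq ?_)
    rw [hM1]
    field_simp
    norm_num
  have h8 : U ^ (s - 1) ≤ (16 * c2 / M) ^ (s - 1) :=
    Real.rpow_le_rpow hUp.le h7 (by linarith)
  have h9 : 0 ≤ (16 * c2 / M) ^ (s - 1) := by positivity
  nlinarith [mul_le_mul_of_nonneg_left h8 hAp.le]

theorem strip_sw {μ : Measure E2} (w : ℝ) (x y : E2) :
    (μ.map sw) (strip w (sw x) (sw y)) = μ (strip w x y) := by
  have hm : MeasurableSet (strip w (sw x) (sw y)) := by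
    apply IsClosed.measurableSet
    unfold strip det2
    apply isClosed_le <;> fun_prop
  rw [Measure.map_apply sw.continuous.measurable hm]
  congr 1
  ext z
  change |det2 (sw z - sw x) (sw y - sw x)| ≤ w * ‖sw y - sw x‖ ↔
    |det2 (z - x) (y - x)| ≤ w * ‖y - x‖
  rw [← map_sub, ← map_sub, LinearIsometryEquiv.norm_map]
  have h1 : det2 (sw (z - x)) (sw (y - x)) = - det2 (z - x) (y - x) := by
    unfold det2
    rw [sw_zero, sw_one, sw_zero, sw_one]
    ring
  rw [h1, abs_neg]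

theorem badR_sw (μ : Measure E2) (w M : ℝ) :
    Prod.map sw sw ⁻¹' (badR (μ.map sw) w M) = badR μ w M := by
  ext p
  change (ENNReal.ofReal (M * w) < (μ.map sw) (strip w (sw p.1) (sw p.2))) ↔
    (ENNReal.ofReal (M * w) < μ (strip w p.1 p.2))
  rw [strip_sw]

end Rad

open Rad PairAux in
theorem radial_lemma (μ : Measure E2) [IsProbabilityMeasure μ] (R C s : ℝ)
    (hR : ∀ᵐ x ∂μ, ‖x‖ ≤ R) (hC : 0 < C) (hs : 1 < s) (hs2 : s < 2)
    (hμ : ∀ (x : E2) (r : ℝ), 0 < r → μ (closedBall x r) ≤ ENNReal.ofReal (C * r ^ s)) :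
    ∃ C' : ℝ, 0 < C' ∧ ∃ c : ℝ, 0 < c ∧ ∀ w : ℝ, 0 < w → w ≤ 1 → ∀ M : ℝ, 1 ≤ M →
      (μ.prod μ) {p | ENNReal.ofReal (M * w) < μ (strip w p.1 p.2)}
      ≤ ENNReal.ofReal (C' * M ^ (-c)) := by
  have hR0 : 0 ≤ R := by
    obtain ⟨x, hx⟩ := hR.exists
    exact (norm_nonneg x).trans hx
  obtain ⟨C1, hC1, -, h1'⟩ := GG_avg μ R C s hR hC hs hs2 hμ
  obtain ⟨C2, hC2, -, h2'⟩ := GG_avg (μ.map sw) R C s (map_norm hR) hC hs hs2 (map_ball hμ)
  obtain ⟨K1, hK1, hk1⟩ := chartK hR0 hR hs hC1 h1'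
  obtain ⟨K2, hK2, hk2⟩ := chartK hR0 (map_norm hR) hs hC2 h2'
  refine ⟨K1 + K2, by positivity, s - 1, by linarith, ?_⟩
  intro w hw hw1 M hM
  have hM0 : 0 < M := by linarith
  have hpow : 0 ≤ M ^ (-(s - 1)) := (Real.rpow_pos_of_pos hM0 _).le
  have hcover : badR μ w M ⊆ ({p | p.1 = p.2} ∪ badRI μ w M) ∪
      Prod.map sw sw ⁻¹' (badRI (μ.map sw) w M) := by
    intro p hp
    by_cases hd : p.1 = p.2
    · exact Or.inl (Or.inl hd)
    rcases le_total |p.1 1 - p.2 1| |p.1 0 - p.2 0| with hle | hle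
    · refine Or.inl (Or.inr ⟨hp, hle, ?_⟩)
      intro h0
      apply hd
      rw [h0, abs_zero] at hle
      have h3 : p.1 1 - p.2 1 = 0 := abs_eq_zero.1 (le_antisymm hle (abs_nonneg _))
      ext i
      fin_cases i
      · exact sub_eq_zero.1 h0
      · exact sub_eq_zero.1 h3
    · refine Or.inr ⟨?_, ?_, ?_⟩
      · rw [← mem_preimage, badR_sw]
        exact hp
      · rw [Prod.map_fst, Prod.map_snd, sw_one, sw_one, sw_zero, sw_zero]
        exact hle
      · rw [Prod.map_fst, Prod.map_snd, sw_zero, sw_zero]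
        intro h0
        apply hd
        rw [h0, abs_zero] at hle
        have h3 : p.1 0 - p.2 0 = 0 := abs_eq_zero.1 (le_antisymm hle (abs_nonneg _))
        ext i
        fin_cases i
        · exact sub_eq_zero.1 h3
        · exact sub_eq_zero.1 h0
  have e1 := hk1 w hw hw1 M hM
  have e2 := hk2 w hw hw1 M hM
  rw [map_prod_apply] at e2
  calc (μ.prod μ) (badR μ w M) ≤ (μ.prod μ) (({p | p.1 = p.2} ∪ badRI μ w M) ∪
      Prod.map sw sw ⁻¹' (badRI (μ.map sw) w M)) := measure_mono hcover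
    _ ≤ ((μ.prod μ) {p | p.1 = p.2} + (μ.prod μ) (badRI μ w M)) +
      (μ.prod μ) (Prod.map sw sw ⁻¹' (badRI (μ.map sw) w M)) :=
        (measure_union_le _ _).trans (add_le_add_left (measure_union_le _ _) _)
    _ ≤ (0 + ENNReal.ofReal (K1 * M ^ (-(s - 1)))) +
        ENNReal.ofReal (K2 * M ^ (-(s - 1))) := by
        rw [diag_null hs hμ]
        gcongr
    _ = ENNReal.ofReal ((K1 + K2) * M ^ (-(s - 1))) := by
        rw [zero_add, ← ENNReal.ofReal_add (by positivity) (by positivity), ← add_mul]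

end Pool.Agent.H744R2.Falc
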