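import Pool.Agent.H744R2.Falc.Radial
import Pool.Agent.H744R2.Falc.Local
import Pool.Agent.H744R2.Falc.Prune
import Pool.Agent.H744R2.Falc.Chain

set_option autoImplicit false

namespace Pool.Agent.H744R2.Falc

open MeasureTheory Set Metric Filter

namespace Reg

/-- the sequence of levels -/
def lv (j : ℕ) : ℕ → ℕ
  | 0 => j
  | i + 1 => (lv j i + 1) / 2

theorem lv_le (j i : ℕ) : lv j (i + 1) ≤ lv j i := by
  simp only [lv]; omega

theorem lv_le0 (j i : ℕ) : lv j i ≤ j := by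
  induction i with
  | zero => exact le_rfl
  | succ i ih => exact (lv_le j i).trans ih

theorem le_two_lv (j i : ℕ) : lv j i ≤ 2 * lv j (i + 1) := by
  simp only [lv]; omega

theorem two_lv_le (j i : ℕ) : 2 * lv j (i + 1) ≤ lv j i + 1 := by
  simp only [lv]; omega

theorem lv_upper (j i : ℕ) : (lv j i : ℝ) ≤ j / 2 ^ i + 1 := by
  induction i with
  | zero => simp [lv]
  | succ i ih =>
    have h : (2 : ℝ) * lv j (i + 1) ≤ lv j i + 1 := by exact_mod_cast two_lv_le j i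
    rw [pow_succ, ← div_div]
    linarith

theorem lv_lower (j i : ℕ) : (j : ℝ) / 2 ^ i ≤ lv j i := by
  induction i with
  | zero => simp [lv]
  | succ i ih =>
    have h : (lv j i : ℝ) ≤ 2 * lv j (i + 1) := by exact_mod_cast le_two_lv j i
    rw [pow_succ, ← div_div]
    linarith

/-- exponentials beat powers -/
theorem decay (K A δ : ℝ) (hK : 0 ≤ K) (hA : 0 ≤ A) (hδ : 0 < δ) :
    ∀ᶠ j : ℕ in atTop, K * (2 * ((j : ℝ) + 1) * (j + 2)) ^ A * (2 : ℝ) ^ (-(δ * j)) < 1 := by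
  have h1 := tendsto_rpow_mul_exp_neg_mul_atTop_nhds_zero (2 * A) (δ * Real.log 2)
    (by have := Real.log_pos (by norm_num : (1 : ℝ) < 2); positivity)
  have h2 := h1.comp tendsto_natCast_atTop_atTop
  have h3 : ∀ᶠ j : ℕ in atTop, (j : ℝ) ^ (2 * A) * Real.exp (-(δ * Real.log 2) * j) <
      1 / (K * 12 ^ A + 1) :=
    h2.eventually_lt_const (by positivity)
  filter_upwards [h3, eventually_ge_atTop 1] with j hj hj1
  have hj1' : (1 : ℝ) ≤ j := by exact_mod_cast hj1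
  have h4 : (2 * ((j : ℝ) + 1) * (j + 2)) ^ A ≤ 12 ^ A * (j : ℝ) ^ (2 * A) := by
    rw [Real.rpow_mul (by positivity), ← Real.mul_rpow (by positivity) (by positivity)]
    apply Real.rpow_le_rpow (by positivity) _ hA
    rw [Real.rpow_two]
    nlinarith
  have h5 : (2 : ℝ) ^ (-(δ * j)) = Real.exp (-(δ * Real.log 2) * j) := by
    rw [Real.rpow_def_of_pos (by norm_num)]
    congr 1; ring
  rw [h5]
  rw [lt_div_iff₀ (by positivity)] at hj
  have h6 : 0 < Real.exp (-(δ * Real.log 2) * j) := Real.exp_pos _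
  have h7 : 0 ≤ (j : ℝ) ^ (2 * A) := by positivity
  calc K * (2 * ((j : ℝ) + 1) * (j + 2)) ^ A * Real.exp (-(δ * Real.log 2) * j)
      ≤ K * (12 ^ A * (j : ℝ) ^ (2 * A)) * Real.exp (-(δ * Real.log 2) * j) := by
        apply mul_le_mul_of_nonneg_right _ h6.le
        exact mul_le_mul_of_nonneg_left h4 hK
    _ ≤ (j : ℝ) ^ (2 * A) * Real.exp (-(δ * Real.log 2) * j) * (K * 12 ^ A + 1) := by
        nlinarith [mul_nonneg h7 h6.le]
    _ < 1 := hj

/-- number of dyadic squares met by a set covered by balls -/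
theorem encard_q2 (E : Set E2) (j : ℕ) (T : Finset E2)
    (hT : E ⊆ ⋃ t ∈ T, closedBall t ((2 : ℝ)⁻¹ ^ j)) :
    (q2 j '' E).encard ≤ ((9 * T.card : ℕ) : ℕ∞) := by
  classical
  set F : Finset (ℤ × ℤ) := T.biUnion fun t =>
    (Finset.Icc (⌊(2 : ℝ) ^ j * t 0⌋ - 1) (⌊(2 : ℝ) ^ j * t 0⌋ + 1)) ×ˢ
      (Finset.Icc (⌊(2 : ℝ) ^ j * t 1⌋ - 1) (⌊(2 : ℝ) ^ j * t 1⌋ + 1)) with hF
  have h1 : q2 j '' E ⊆ (F : Set (ℤ × ℤ)) := by
    rintro _ ⟨z, hz, rfl⟩
    obtain ⟨t, ht, hzt⟩ := mem_iUnion₂.mp (hT hz)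
    rw [hF, Finset.mem_coe, Finset.mem_biUnion]
    refine ⟨t, ht, ?_⟩
    have hd : ∀ i : Fin 2, |z i - t i| ≤ (2 : ℝ)⁻¹ ^ j := by
      intro i
      have h1 : dist (z i) (t i) ≤ dist z t := by
        have := EuclideanSpace.dist_eq z t
        rw [this]
        apply Real.le_sqrt_of_sq_le
        exact Finset.single_le_sum (f := fun i => dist (z i) (t i) ^ 2)
          (fun _ _ => sq_nonneg _) (Finset.mem_univ i)
      rw [Real.dist_eq] at h1
      exact h1.trans (mem_closedBall.mp hzt)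
    have hf : ∀ i : Fin 2, ⌊(2 : ℝ) ^ j * t i⌋ - 1 ≤ ⌊(2 : ℝ) ^ j * z i⌋ ∧
        ⌊(2 : ℝ) ^ j * z i⌋ ≤ ⌊(2 : ℝ) ^ j * t i⌋ + 1 := by
      intro i
      have h2 : |(2 : ℝ) ^ j * z i - (2 : ℝ) ^ j * t i| ≤ 1 := by
        rw [← mul_sub, abs_mul, abs_of_pos (by positivity : (0 : ℝ) < 2 ^ j)]
        calc (2 : ℝ) ^ j * |z i - t i| ≤ 2 ^ j * (2 : ℝ)⁻¹ ^ j :=
              mul_le_mul_of_nonneg_left (hd i) (by positivity)
          _ = 1 := by rw [← mul_pow]; norm_num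
      rw [abs_le] at h2
      constructor
      · rw [← Int.floor_sub_one]
        exact Int.floor_le_floor (by linarith)
      · rw [← Int.floor_add_one]
        exact Int.floor_le_floor (by linarith)
    simp only [q2, Finset.mem_product, Finset.mem_Icc]
    exact ⟨hf 0, hf 1⟩
  have h2 : F.card ≤ 9 * T.card := by
    rw [hF, mul_comm]
    apply Finset.card_biUnion_le_card_mul
    intro t _
    rw [Finset.card_product]
    simp only [Int.card_Icc]
    have : ∀ a : ℤ, (a + 1 + 1 - (a - 1)).toNat = 3 := by intro a; omega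
    rw [this, this]
  calc (q2 j '' E).encard ≤ (F : Set (ℤ × ℤ)).encard := Set.encard_le_encard h1
    _ = (F.card : ℕ∞) := Set.encard_coe_eq_coe_finsetCard F
    _ ≤ _ := by exact_mod_cast h2


theorem cell_close (l : ℕ) {x z : E2} (h : z ∈ cell l x) :
    ‖z - x‖ ^ 2 ≤ 2 * ((2 : ℝ)⁻¹ ^ l) ^ 2 := by
  have h1 : ∀ i : Fin 2, |z i - x i| ≤ (2 : ℝ)⁻¹ ^ l := by
    have key : ∀ a b : ℝ, ⌊(2 : ℝ) ^ l * a⌋ = ⌊(2 : ℝ) ^ l * b⌋ → |a - b| ≤ (2 : ℝ)⁻¹ ^ l := by
      intro a b hab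
      have h2 := Int.abs_sub_lt_one_of_floor_eq_floor hab
      rw [← mul_sub, abs_mul, abs_of_pos (by positivity : (0 : ℝ) < 2 ^ l)] at h2
      rw [inv_pow, ← one_div, le_div_iff₀ (by positivity)]
      linarith
    simp only [cell, Set.mem_ofPred_eq, q2, Prod.mk.injEq] at h
    intro i
    fin_cases i
    · exact key _ _ h.1
    · exact key _ _ h.2
  rw [EuclideanSpace.norm_eq, Real.sq_sqrt (Finset.sum_nonneg fun _ _ => sq_nonneg _),
    Fin.sum_univ_two]
  have h2 : ∀ i : Fin 2, ‖(z - x) i‖ ^ 2 ≤ ((2 : ℝ)⁻¹ ^ l) ^ 2 := by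
    intro i
    have : (z - x) i = z i - x i := rfl
    rw [this, Real.norm_eq_abs]
    exact pow_le_pow_left₀ (abs_nonneg _) (h1 i) 2
  have := h2 0
  have := h2 1
  linarith

theorem main_j (μ : Measure E2) [IsProbabilityMeasure μ] (R : ℝ) (hR1 : 1 ≤ R)
    (hR : ∀ᵐ x ∂μ, ‖x‖ ≤ R) (m j : ℕ) (p ρ M : ℝ) (hp : 0 < p) (θ : ℕ → ℝ) (hθ : ∀ i, 0 < θ i)
    (hρ : (μ.prod μ) {q | ‖q.2 - q.1‖ < ρ} ≤ ENNReal.ofReal (p / 8))
    (hrad : ∀ i < m, (μ.prod μ) {q | ENNReal.ofReal (M * (2 : ℝ)⁻¹ ^ (lv j i)) <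
      μ (strip ((2 : ℝ)⁻¹ ^ (lv j i)) q.1 q.2)} ≤ ENNReal.ofReal (p / (8 * m)))
    (hloc : ∀ i < m, (μ.prod μ) {q | ρ ≤ ‖q.2 - q.1‖ ∧
      μ (strip ((2 : ℝ)⁻¹ ^ (lv j i)) q.1 q.2) ≤ ENNReal.ofReal (M * (2 : ℝ)⁻¹ ^ (lv j i)) ∧
      ENNReal.ofReal (θ i) * μ (cell (lv j (i + 1)) q.1) < μ (cell (lv j (i + 1)) q.1 ∩
        {z | |inner ℝ (z - q.1) (q.2 - q.1)| ≤ 2 * (2 : ℝ)⁻¹ ^ (lv j i)})} ≤
      ENNReal.ofReal (p / (8 * m)))
    (I : Finset ℤ)
    (hI : ENNReal.ofReal p ≤ (μ.prod μ) {q | ⌊(2 : ℝ) ^ j * dist q.1 q.2 ^ 2⌋ ∈ I}) :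
    p / 4 ≤ I.card * ∏ i ∈ Finset.range m, (8 * (4 * R) * θ i / (p / (4 * (m + 1)))) := by
  classical
  set S0 : Set (E2 × E2) := {q | ⌊(2 : ℝ) ^ j * dist q.1 q.2 ^ 2⌋ ∈ I} with hS0
  set A : ℕ → Set (E2 × E2) := fun i => {q | ENNReal.ofReal (M * (2 : ℝ)⁻¹ ^ (lv j i)) <
      μ (strip ((2 : ℝ)⁻¹ ^ (lv j i)) q.1 q.2)} with hA
  set B : ℕ → Set (E2 × E2) := fun i => {q | ρ ≤ ‖q.2 - q.1‖ ∧
      μ (strip ((2 : ℝ)⁻¹ ^ (lv j i)) q.1 q.2) ≤ ENNReal.ofReal (M * (2 : ℝ)⁻¹ ^ (lv j i)) ∧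
      ENNReal.ofReal (θ i) * μ (cell (lv j (i + 1)) q.1) < μ (cell (lv j (i + 1)) q.1 ∩
        {z | |inner ℝ (z - q.1) (q.2 - q.1)| ≤ 2 * (2 : ℝ)⁻¹ ^ (lv j i)})} with hB
  set Z : Set (E2 × E2) := {q | ‖q.2 - q.1‖ < ρ} with hZ
  have hS0m : MeasurableSet S0 := by
    have h1 : Measurable fun q : E2 × E2 => ⌊(2 : ℝ) ^ j * dist q.1 q.2 ^ 2⌋ :=
      Int.measurable_floor.comp (((measurable_fst.dist measurable_snd).pow_const 2).const_mul _)
    exact h1 (Finset.measurableSet I)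
  have hZm : MeasurableSet Z := by
    have : IsOpen Z := isOpen_lt (by fun_prop) continuous_const
    exact this.measurableSet
  set Bad : Set (E2 × E2) := Z ∪ ⋃ i ∈ Finset.range m,
    (toMeasurable (μ.prod μ) (A i) ∪ toMeasurable (μ.prod μ) (B i)) with hBad
  have hBadm : MeasurableSet Bad :=
    hZm.union (Finset.measurableSet_biUnion _ fun i _ =>
      (measurableSet_toMeasurable _ _).union (measurableSet_toMeasurable _ _))
  have hBadle : (μ.prod μ) Bad ≤ ENNReal.ofReal (p / 2) := by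
    have h1 : (μ.prod μ) (⋃ i ∈ Finset.range m,
        (toMeasurable (μ.prod μ) (A i) ∪ toMeasurable (μ.prod μ) (B i))) ≤
        ENNReal.ofReal (3 * p / 8) := by
      calc (μ.prod μ) (⋃ i ∈ Finset.range m,
          (toMeasurable (μ.prod μ) (A i) ∪ toMeasurable (μ.prod μ) (B i)))
          ≤ ∑ i ∈ Finset.range m, (μ.prod μ) (toMeasurable (μ.prod μ) (A i) ∪
              toMeasurable (μ.prod μ) (B i)) := measure_biUnion_finset_le _ _
        _ ≤ ∑ i ∈ Finset.range m, ENNReal.ofReal (p / (4 * m)) := by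
            refine Finset.sum_le_sum fun i hi => ?_
            have hi' := Finset.mem_range.mp hi
            refine (measure_union_le _ _).trans ?_
            rw [measure_toMeasurable, measure_toMeasurable]
            refine (add_le_add (hrad i hi') (hloc i hi')).trans ?_
            rw [← ENNReal.ofReal_add (by positivity) (by positivity)]
            apply ENNReal.ofReal_le_ofReal
            apply le_of_eq
            have : (m : ℝ) ≠ 0 := by
              have : 0 < m := lt_of_le_of_lt (Nat.zero_le _) hi'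
              positivity
            field_simp
            ring
        _ = ENNReal.ofReal (m * (p / (4 * m))) := by
            rw [Finset.sum_const, Finset.card_range, ENNReal.ofReal_mul (Nat.cast_nonneg _),
              ENNReal.ofReal_natCast, nsmul_eq_mul]
        _ ≤ ENNReal.ofReal (3 * p / 8) := by
            apply ENNReal.ofReal_le_ofReal
            rcases Nat.eq_zero_or_pos m with h0 | h0
            · rw [h0]; simp; positivity
            · have : (m : ℝ) ≠ 0 := by positivity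
              have h2 : (m : ℝ) * (p / (4 * m)) = p / 4 := by field_simp
              rw [h2]; linarith
    rw [hBad]
    refine (measure_union_le _ _).trans ((add_le_add hρ h1).trans ?_)
    rw [← ENNReal.ofReal_add (by positivity) (by positivity)]
    apply ENNReal.ofReal_le_ofReal
    linarith
  set G : Set (E2 × E2) := S0 \ Bad with hG
  have hGm : MeasurableSet G := hS0m.diff hBadm
  have hGge : ENNReal.ofReal (p / 2) ≤ (μ.prod μ) G := by
    have h1 : (μ.prod μ) S0 ≤ (μ.prod μ) G + (μ.prod μ) Bad := by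
      refine (measure_mono ?_).trans (measure_union_le G Bad)
      intro q hq
      by_cases h : q ∈ Bad
      · exact Or.inr h
      · exact Or.inl ⟨hq, h⟩
    have h2 : ENNReal.ofReal (p / 2) + ENNReal.ofReal (p / 2) ≤
        (μ.prod μ) G + ENNReal.ofReal (p / 2) := by
      rw [← ENNReal.ofReal_add (by positivity) (by positivity), add_halves]
      exact hI.trans (h1.trans (add_le_add le_rfl hBadle))
    exact (ENNReal.add_le_add_iff_right ENNReal.ofReal_ne_top).mp h2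
  have hN : μ {x | ¬ ‖x‖ ≤ R} = 0 := ae_iff.mp hR
  obtain ⟨y, hyN, hy⟩ := exists_notMem_null_lintegral_le (μ := μ)
    (f := fun y => μ ((fun x => (x, y)) ⁻¹' G)) (by
      rw [← Measure.prod_apply_symm hGm]
      exact measure_ne_top _ _) hN
  rw [← Measure.prod_apply_symm hGm] at hy
  have hyR : ‖y‖ ≤ R := by
    by_contra h; exact hyN h
  set X : Set E2 := ((fun x => (x, y)) ⁻¹' G) ∩ closedBall 0 R with hX
  have hXm : MeasurableSet X :=
    ((by fun_prop : Measurable fun x : E2 => (x, y)) hGm).inter isClosed_closedBall.measurableSet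
  have hXge : ENNReal.ofReal (p / 2) ≤ μ X := by
    refine (hGge.trans hy).trans ?_
    have h1 : μ ((fun x => (x, y)) ⁻¹' G) ≤ μ X + μ {x | ¬ ‖x‖ ≤ R} := by
      refine (measure_mono ?_).trans (measure_union_le _ _)
      intro x hx
      by_cases h : ‖x‖ ≤ R
      · left; exact ⟨hx, by rw [mem_closedBall, dist_zero_right]; exact h⟩
      · right; exact h
    rwa [hN, add_zero] at h1
  obtain ⟨X', hX'X, hX'm, hX'2, hX'c⟩ := prune μ X hXm m (lv j) (fun i _ => lv_le j i)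
  have hX'ge : ENNReal.ofReal (p / 4) ≤ μ X' := by
    have h1 : ENNReal.ofReal (p / 2) = 2 * ENNReal.ofReal (p / 4) := by
      rw [← ENNReal.ofReal_ofNat, ← ENNReal.ofReal_mul (by norm_num)]
      congr 1; ring
    have h2 : 2 * ENNReal.ofReal (p / 4) ≤ 2 * μ X' := by rw [← h1]; exact hXge.trans hX'2
    exact (ENNReal.mul_le_mul_iff_right (by norm_num) (by norm_num)).mp h2
  have hεpos : 0 < p / (4 * ((m : ℝ) + 1)) := by positivity
  -- the cells are heavy
  have hheavy : ∀ i ≤ m, ∀ x ∈ X', ENNReal.ofReal (p / (4 * ((m : ℝ) + 1))) * μ (cell (lv j i) x) ≤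
      μ (X' ∩ cell (lv j i) x) := by
    intro i hi x hx
    have h1 := hX'c i hi x hx
    have h2 : (2 * ((m : ENNReal) + 1)) * (ENNReal.ofReal (p / (4 * ((m : ℝ) + 1)))) =
        ENNReal.ofReal (p / 2) := by
      have : (2 * ((m : ENNReal) + 1)) = ENNReal.ofReal (2 * ((m : ℝ) + 1)) := by
        rw [ENNReal.ofReal_mul (by norm_num), ENNReal.ofReal_add (by positivity) (by norm_num)]
        simp
      rw [this, ← ENNReal.ofReal_mul (by positivity)]
      congr 1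
      field_simp
      ring
    have h3 : (2 * ((m : ENNReal) + 1)) * (ENNReal.ofReal (p / (4 * ((m : ℝ) + 1))) *
        μ (cell (lv j i) x)) ≤ (2 * ((m : ENNReal) + 1)) * μ (X' ∩ cell (lv j i) x) := by
      rw [← mul_assoc, h2]
      exact (mul_le_mul_left hXge _).trans h1
    refine (ENNReal.mul_le_mul_iff_right ?_ ?_).mp h3
    · simp
    · exact ENNReal.mul_ne_top (by norm_num) (by simp)
  -- membership in the good set
  have hgood : ∀ x ∈ X', ‖x‖ ≤ R ∧ ⌊(2 : ℝ) ^ j * dist x y ^ 2⌋ ∈ I ∧ ρ ≤ ‖y - x‖ ∧ ∀ i < m,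
      μ (cell (lv j (i + 1)) x ∩ {z | |inner ℝ (z - x) (y - x)| ≤ 2 * (2 : ℝ)⁻¹ ^ (lv j i)}) ≤
        ENNReal.ofReal (θ i) * μ (cell (lv j (i + 1)) x) := by
    intro x hx
    obtain ⟨hxG, hxR⟩ := hX'X hx
    rw [mem_closedBall, dist_zero_right] at hxR
    obtain ⟨hxS, hxB⟩ := hxG
    rw [hBad, mem_union, not_or] at hxB
    obtain ⟨hxZ, hxU⟩ := hxB
    have hρx : ρ ≤ ‖y - x‖ := by
      rw [hZ, Set.mem_ofPred_eq, not_lt] at hxZ; exact hxZ
    refine ⟨hxR, hxS, hρx, ?_⟩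
    intro i hi
    rw [mem_iUnion₂] at hxU
    push Not at hxU
    have h1 := hxU i (Finset.mem_range.mpr hi)
    rw [mem_union, not_or] at h1
    have h2 : (x, y) ∉ A i := fun h => h1.1 (subset_toMeasurable _ _ h)
    have h3 : (x, y) ∉ B i := fun h => h1.2 (subset_toMeasurable _ _ h)
    rw [hA, Set.mem_ofPred_eq, not_lt] at h2
    rw [hB, Set.mem_ofPred_eq] at h3
    by_contra h4
    rw [not_le] at h4
    exact h3 ⟨hρx, h2, h4⟩
  -- the chain of scales
  have hchain := chain μ X' hX'm (fun x => dist x y ^ 2)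
    (by fun_prop) (4 * R) (by linarith) (by
      intro x hx x' hx'
      have hxR := (hgood x hx).1
      have hxR' := (hgood x' hx').1
      have h1 : |dist x y - dist x' y| ≤ dist x x' := abs_dist_sub_le x x' y
      have h2 : dist x y ≤ 2 * R := by
        rw [dist_eq_norm]; exact (norm_sub_le _ _).trans (by linarith)
      have h3 : dist x' y ≤ 2 * R := by
        rw [dist_eq_norm]; exact (norm_sub_le _ _).trans (by linarith)
      have h4 : dist x y ^ 2 - dist x' y ^ 2 = (dist x y - dist x' y) * (dist x y + dist x' y) := by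
        ring
      rw [h4, abs_mul, mul_comm]
      have h5 : |dist x y + dist x' y| ≤ 4 * R := by
        rw [abs_of_nonneg (by positivity)]; linarith
      exact mul_le_mul h5 h1 (abs_nonneg _) (by linarith))
    m (lv j) (fun i _ => lv_le j i) (p / (4 * ((m : ℝ) + 1))) hεpos hheavy θ (fun i => (hθ i).le) (by
      intro i hi x hx
      obtain ⟨hxR, -, -, hx4⟩ := hgood x hx
      refine (measure_mono ?_).trans (hx4 i hi)
      rintro z ⟨hz1, hz2⟩
      refine ⟨hz1, ?_⟩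
      rw [Set.mem_ofPred_eq] at hz2 ⊢
      have h1 := cell_close _ hz1
      have h2 : ((2 : ℝ)⁻¹ ^ (lv j (i + 1))) ^ 2 ≤ (2 : ℝ)⁻¹ ^ (lv j i) := by
        rw [← pow_mul]
        exact pow_le_pow_of_le_one (by norm_num) (by norm_num) (by have := le_two_lv j i; omega)
      have h3 : dist z y ^ 2 - dist x y ^ 2 = ‖z - x‖ ^ 2 - 2 * inner ℝ (z - x) (y - x) := by
        rw [dist_eq_norm, dist_eq_norm, show z - y = (z - x) - (y - x) by abel, norm_sub_sq_real,
          norm_sub_rev x y]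
        ring
      rw [h3] at hz2
      rw [abs_le] at hz2 ⊢
      have h4 : 0 ≤ ‖z - x‖ ^ 2 := sq_nonneg _
      have h5 : (0 : ℝ) < (2 : ℝ)⁻¹ ^ (lv j i) := by positivity
      constructor <;> linarith [hz2.1, hz2.2])
  -- covering of `X'`
  have hcov : X' ⊆ ⋃ k ∈ I, (X' ∩ {x | (k : ℝ) * (2 : ℝ)⁻¹ ^ j ≤ dist x y ^ 2 ∧
      dist x y ^ 2 < (k : ℝ) * (2 : ℝ)⁻¹ ^ j + (2 : ℝ)⁻¹ ^ (lv j 0)}) := by
    intro x hx
    obtain ⟨-, hx2, -⟩ := hgood x hx
    rw [mem_iUnion₂]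
    refine ⟨_, hx2, hx, ?_⟩
    rw [Set.mem_ofPred_eq]
    have h1 := Int.floor_le ((2 : ℝ) ^ j * dist x y ^ 2)
    have h2 := Int.lt_floor_add_one ((2 : ℝ) ^ j * dist x y ^ 2)
    have h3 : (0 : ℝ) < (2 : ℝ)⁻¹ ^ j := by positivity
    have h4 : (2 : ℝ)⁻¹ ^ j * 2 ^ j = 1 := by rw [← mul_pow]; norm_num
    have h5 : dist x y ^ 2 = (2 : ℝ) ^ j * dist x y ^ 2 * (2 : ℝ)⁻¹ ^ j := by
      rw [mul_right_comm, mul_comm ((2 : ℝ) ^ j), h4, one_mul]
    have h6 : lv j 0 = j := rfl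
    rw [h6]
    constructor
    · calc _ ≤ (2 : ℝ) ^ j * dist x y ^ 2 * (2 : ℝ)⁻¹ ^ j := mul_le_mul_of_nonneg_right h1 h3.le
        _ = _ := h5.symm
    · calc dist x y ^ 2 = (2 : ℝ) ^ j * dist x y ^ 2 * (2 : ℝ)⁻¹ ^ j := h5
        _ < ((⌊(2 : ℝ) ^ j * dist x y ^ 2⌋ : ℝ) + 1) * (2 : ℝ)⁻¹ ^ j :=
            mul_lt_mul_of_pos_right h2 h3
        _ = _ := by ring
  have hfin : ENNReal.ofReal (p / 4) ≤ ENNReal.ofReal (I.card *
      ∏ i ∈ Finset.range m, (8 * (4 * R) * θ i / (p / (4 * ((m : ℝ) + 1))))) := by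
    calc ENNReal.ofReal (p / 4) ≤ μ X' := hX'ge
      _ ≤ μ (⋃ k ∈ I, (X' ∩ {x | (k : ℝ) * (2 : ℝ)⁻¹ ^ j ≤ dist x y ^ 2 ∧
            dist x y ^ 2 < (k : ℝ) * (2 : ℝ)⁻¹ ^ j + (2 : ℝ)⁻¹ ^ (lv j 0)})) := measure_mono hcov
      _ ≤ ∑ k ∈ I, μ (X' ∩ {x | (k : ℝ) * (2 : ℝ)⁻¹ ^ j ≤ dist x y ^ 2 ∧
            dist x y ^ 2 < (k : ℝ) * (2 : ℝ)⁻¹ ^ j + (2 : ℝ)⁻¹ ^ (lv j 0)}) :=
          measure_biUnion_finset_le _ _
      _ ≤ ∑ k ∈ I, ENNReal.ofReal (∏ i ∈ Finset.range m,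
            (8 * (4 * R) * θ i / (p / (4 * ((m : ℝ) + 1))))) :=
          Finset.sum_le_sum fun k _ => hchain _
      _ = _ := by
          rw [Finset.sum_const, nsmul_eq_mul, ENNReal.ofReal_mul (Nat.cast_nonneg _),
            ENNReal.ofReal_natCast]
  have hnn : 0 ≤ (I.card : ℝ) *
      ∏ i ∈ Finset.range m, (8 * (4 * R) * θ i / (p / (4 * ((m : ℝ) + 1)))) := by
    refine mul_nonneg (Nat.cast_nonneg _) (Finset.prod_nonneg fun i _ => ?_)
    have := (hθ i).le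
    positivity
  exact (ENNReal.ofReal_le_ofReal_iff hnn).mp hfin


theorem prod_theta (b : ℝ) (j m : ℕ) :
    ∏ i ∈ Finset.range m, (2 : ℝ) ^ (-(b * ((lv j i : ℝ) - lv j (i + 1)))) =
      (2 : ℝ) ^ (-(b * ((j : ℝ) - lv j m))) := by
  induction m with
  | zero => simp [lv]
  | succ m ih =>
    rw [Finset.prod_range_succ, ih, ← Real.rpow_add (by norm_num)]
    congr 1; ring

theorem sum_le_half (n : ℕ) :
    ∑ i ∈ Finset.range n, ENNReal.ofReal (1 / (2 * ((i : ℝ) + 1) * (i + 2))) ≤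
      ENNReal.ofReal (1 / 2) := by
  have h1 : ∀ n : ℕ, ∑ i ∈ Finset.range n, (1 / (2 * ((i : ℝ) + 1) * (i + 2))) =
      1 / 2 - 1 / (2 * ((n : ℝ) + 1)) := by
    intro n
    induction n with
    | zero => simp
    | succ n ih =>
      rw [Finset.sum_range_succ, ih]
      push_cast
      field_simp
      ring
  rw [← ENNReal.ofReal_sum_of_nonneg (fun i _ => by positivity), h1]
  apply ENNReal.ofReal_le_ofReal
  have : (0 : ℝ) ≤ 1 / (2 * ((n : ℝ) + 1)) := by positivity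
  linarith

end Reg

open Reg

theorem regular_core (E : Set E2) (hE : IsCompact E) (a : ℝ) (ha : 1 < a) (ha2 : a ≤ 2)
    (hFro : ∀ s : ℝ, 1 < s → s < a → Fro E s)
    (hbox : ∀ η : ℝ, 0 < η → ∃ C : ℝ, ∀ j : ℕ, ∃ T : Finset E2,
      (T.card : ℝ) ≤ C * (2 : ℝ) ^ ((a + η) * j) ∧ E ⊆ ⋃ t ∈ T, closedBall t ((2 : ℝ)⁻¹ ^ j))
    (σ : ℝ) (hσ : σ < 1) : ¬ SmallCover (addDist {0} E) σ := by
  classical
  intro hSC
  -- parameters
  set σ' : ℝ := max σ 0 with hσ'
  have hσ'1 : σ' < 1 := max_lt hσ one_pos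
  have hσσ' : σ ≤ σ' := le_max_left _ _
  have hσ'0 : 0 ≤ σ' := le_max_right _ _
  set g : ℝ := 1 - σ' with hg
  have hgpos : 0 < g := by rw [hg]; linarith
  have hg1 : g ≤ 1 := by rw [hg]; linarith
  set η : ℝ := min (g / 16) ((a - 1) / 2) with hη
  have hηpos : 0 < η := by rw [hη]; apply lt_min <;> linarith
  have hηg : η ≤ g / 16 := min_le_left _ _
  have hηa : η ≤ (a - 1) / 2 := min_le_right _ _
  set s : ℝ := a - η with hs
  have hs1 : 1 < s := by rw [hs]; linarith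
  have hs2 : s < 2 := by rw [hs]; linarith
  obtain ⟨m, hm⟩ := exists_pow_lt_of_lt_one (show (0 : ℝ) < g / 4 by positivity)
    (by norm_num : (1 / 2 : ℝ) < 1)
  obtain ⟨μ, hμp, hμE, CF, hCF, hμ⟩ := hFro s hs1 (by rw [hs]; linarith)
  -- boundedness
  obtain ⟨R0, hR0⟩ := hE.isBounded.exists_norm_le
  set R : ℝ := max R0 1 with hRdef
  have hR1 : 1 ≤ R := le_max_right _ _
  have hR : ∀ᵐ x ∂μ, ‖x‖ ≤ R := by
    rw [ae_iff]
    refine measure_mono_null ?_ hμE
    intro x hx hxE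
    exact hx ((hR0 x hxE).trans (le_max_left _ _))
  obtain ⟨Cb, hCb⟩ := hbox η hηpos
  choose T hT1 hT2 using hCb
  obtain ⟨C', hC', c, hc, hrad⟩ := radial_lemma μ R CF s hR hCF hs1 hs2 hμ
  obtain ⟨C'', hC'', hloc⟩ := local_strip μ R CF s hR1 hR hCF hs1 hs2 hμ E hμE
  set C1 : ℝ := max CF 1 with hC1
  have hC11 : 1 ≤ C1 := le_max_right _ _
  have hC1F : CF ≤ C1 := le_max_left _ _
  have hm1 : (0 : ℝ) < (m : ℝ) + 1 := by positivity
  set KM : ℝ := 1 + (8 * ((m : ℝ) + 1) * C') ^ (1 / c) with hKM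
  have hKMpos : 0 < KM := by rw [hKM]; positivity
  set δ1 : ℝ := 2 * η / 2 ^ m with hδ1
  have hδ1pos : 0 < δ1 := by rw [hδ1]; positivity
  -- asymptotics
  have hev1 := decay (C'' * KM * (8 * C1) * (18 * |Cb|) * (8 * ((m : ℝ) + 1))) (1 / c + 2) δ1
    (by positivity) (by positivity) hδ1pos
  have hev2 := decay (8 * (128 * R * ((m : ℝ) + 1)) ^ m) ((m : ℝ) + 1) (g / 2)
    (by positivity) (by positivity) (by positivity)
  obtain ⟨j0, hj0⟩ := eventually_atTop.mp (hev1.and hev2)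
  -- the main claim
  have claim : ∀ j : ℕ, j0 ≤ j → ∀ I : Finset ℤ, (I.card : ℝ) ≤ (2 : ℝ) ^ (σ * j) →
      (μ.prod μ) {q | ⌊(2 : ℝ) ^ j * dist q.1 q.2 ^ 2⌋ ∈ I} <
        ENNReal.ofReal (1 / (2 * ((j : ℝ) + 1) * (j + 2))) := by
    intro j hj I hIcard
    obtain ⟨hL1, hL2⟩ := hj0 j hj
    set P : ℝ := 2 * ((j : ℝ) + 1) * (j + 2) with hP
    have hj' : (0 : ℝ) ≤ j := Nat.cast_nonneg _
    have hP1 : 4 ≤ P := by rw [hP]; nlinarith
    have hPpos : 0 < P := by linarith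
    by_contra hcon
    rw [not_lt] at hcon
    set p : ℝ := 1 / P with hp
    have hppos : 0 < p := by rw [hp]; positivity
    have hp1 : p ≤ 1 := by rw [hp, div_le_one hPpos]; linarith
    set ρ : ℝ := p / (8 * C1) with hρ
    have hρpos : 0 < ρ := by rw [hρ]; positivity
    have hρ1 : ρ ≤ 1 := by
      rw [hρ, div_le_one (by positivity)]; linarith
    set M : ℝ := max 1 ((8 * ((m : ℝ) + 1) * C' * P) ^ (1 / c)) with hM
    have hM1 : 1 ≤ M := le_max_left _ _
    have hMpos : 0 < M := by linarith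
    have hM2 : (8 * ((m : ℝ) + 1) * C' * P) ^ (1 / c) ≤ M := le_max_right _ _
    have hMc : C' * M ^ (-c) ≤ p / (8 * ((m : ℝ) + 1)) := by
      have h1 : 8 * ((m : ℝ) + 1) * C' * P ≤ M ^ c := by
        calc 8 * ((m : ℝ) + 1) * C' * P = ((8 * ((m : ℝ) + 1) * C' * P) ^ (1 / c)) ^ c := by
              rw [← Real.rpow_mul (by positivity), one_div, inv_mul_cancel₀ hc.ne', Real.rpow_one]
          _ ≤ M ^ c := Real.rpow_le_rpow (by positivity) hM2 hc.le
      rw [Real.rpow_neg hMpos.le, ← div_eq_mul_inv, div_le_iff₀ (by positivity)]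
      have h2 : p / (8 * ((m : ℝ) + 1)) * (8 * ((m : ℝ) + 1) * C' * P) = C' := by
        rw [hp]; field_simp
      calc C' = p / (8 * ((m : ℝ) + 1)) * (8 * ((m : ℝ) + 1) * C' * P) := h2.symm
        _ ≤ _ := mul_le_mul_of_nonneg_left h1 (by positivity)
    have hMle : M ≤ KM * P ^ (1 / c) := by
      have h1 : 1 ≤ P ^ (1 / c) := Real.one_le_rpow (by linarith) (by positivity)
      have h2 : (8 * ((m : ℝ) + 1) * C' * P) ^ (1 / c) =
          (8 * ((m : ℝ) + 1) * C') ^ (1 / c) * P ^ (1 / c) := by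
        rw [Real.mul_rpow (by positivity) hPpos.le]
      have h3 : 0 ≤ (8 * ((m : ℝ) + 1) * C') ^ (1 / c) := by positivity
      rw [hM, h2, hKM]
      apply max_le
      · nlinarith [mul_nonneg h3 (by linarith : 0 ≤ P ^ (1 / c))]
      · nlinarith
    have hmm : ∀ i, i < m → p / (8 * ((m : ℝ) + 1)) ≤ p / (8 * m) := by
      intro i hi
      have : (0 : ℝ) < m := by exact_mod_cast lt_of_le_of_lt (Nat.zero_le _) hi
      apply div_le_div_of_nonneg_left hppos.le (by positivity) (by linarith)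
    set θ : ℕ → ℝ := fun i => (2 : ℝ) ^ (-((1 - 4 * η) * ((lv j i : ℝ) - lv j (i + 1)))) with hθ
    have hθpos : ∀ i, 0 < θ i := fun i => Real.rpow_pos_of_pos (by norm_num) _
    have hmain := main_j μ R hR1 hR m j p ρ M hppos θ hθpos ?_ ?_ ?_ I hcon
    · -- contradiction
      have hconst : (128 * R * ((m : ℝ) + 1) * P) ^ m =
          ∏ _i ∈ Finset.range m, (128 * R * ((m : ℝ) + 1) * P) := by
        rw [Finset.prod_const, Finset.card_range]
      have hprod : ∏ i ∈ Finset.range m, (8 * (4 * R) * θ i / (p / (4 * ((m : ℝ) + 1)))) =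
          (128 * R * ((m : ℝ) + 1) * P) ^ m *
            (2 : ℝ) ^ (-((1 - 4 * η) * ((j : ℝ) - lv j m))) := by
        rw [← prod_theta, hconst, ← Finset.prod_mul_distrib]
        refine Finset.prod_congr rfl fun i _ => ?_
        rw [hp]
        field_simp
        ring
      rw [hprod] at hmain
      have hIσ : (I.card : ℝ) ≤ (2 : ℝ) ^ (σ' * j) :=
        hIcard.trans (Real.rpow_le_rpow_of_exponent_le (by norm_num)
          (mul_le_mul_of_nonneg_right hσσ' hj'))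
      have hexp : σ' * j + -((1 - 4 * η) * ((j : ℝ) - lv j m)) ≤ 1 + -(g / 2 * j) := by
        have h1 := lv_upper j m
        have h2 : (j : ℝ) / 2 ^ m ≤ g / 4 * j := by
          have : (j : ℝ) / 2 ^ m = (1 / 2) ^ m * j := by
            rw [div_pow, one_pow]; ring
          rw [this]
          exact mul_le_mul_of_nonneg_right hm.le hj'
        have h3 : 0 ≤ 1 - 4 * η := by linarith
        have h4 : (1 - 4 * η) * ((j : ℝ) - (g / 4 * j + 1)) ≤ (1 - 4 * η) * ((j : ℝ) - lv j m) :=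
          mul_le_mul_of_nonneg_left (by linarith) h3
        have h5 : σ' = 1 - g := by rw [hg]; ring
        have h6 : 4 * η * j ≤ g / 4 * j := mul_le_mul_of_nonneg_right (by linarith) hj'
        have h7 : 0 ≤ η * (g / 4 * j) := by positivity
        rw [h5]
        nlinarith
      have h2pos : (0 : ℝ) < (2 : ℝ) ^ (-((1 - 4 * η) * ((j : ℝ) - lv j m))) :=
        Real.rpow_pos_of_pos (by norm_num) _
      have hbig : (I.card : ℝ) * (2 : ℝ) ^ (-((1 - 4 * η) * ((j : ℝ) - lv j m))) ≤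
          2 * (2 : ℝ) ^ (-(g / 2 * j)) := by
        calc (I.card : ℝ) * (2 : ℝ) ^ (-((1 - 4 * η) * ((j : ℝ) - lv j m)))
            ≤ (2 : ℝ) ^ (σ' * j) * (2 : ℝ) ^ (-((1 - 4 * η) * ((j : ℝ) - lv j m))) :=
              mul_le_mul_of_nonneg_right hIσ h2pos.le
          _ = (2 : ℝ) ^ (σ' * j + -((1 - 4 * η) * ((j : ℝ) - lv j m))) := by
              rw [← Real.rpow_add (by norm_num)]
          _ ≤ (2 : ℝ) ^ (1 + -(g / 2 * j)) := Real.rpow_le_rpow_of_exponent_le (by norm_num) hexp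
          _ = 2 * (2 : ℝ) ^ (-(g / 2 * j)) := by
              rw [Real.rpow_add (by norm_num), Real.rpow_one]
      have hQ : 0 ≤ (128 * R * ((m : ℝ) + 1) * P) ^ m := by positivity
      have h8 : p / 4 ≤ (128 * R * ((m : ℝ) + 1) * P) ^ m * (2 * (2 : ℝ) ^ (-(g / 2 * j))) := by
        calc p / 4 ≤ (I.card : ℝ) * ((128 * R * ((m : ℝ) + 1) * P) ^ m *
            (2 : ℝ) ^ (-((1 - 4 * η) * ((j : ℝ) - lv j m)))) := hmain
          _ = (128 * R * ((m : ℝ) + 1) * P) ^ m *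
            ((I.card : ℝ) * (2 : ℝ) ^ (-((1 - 4 * η) * ((j : ℝ) - lv j m)))) := by ring
          _ ≤ _ := mul_le_mul_of_nonneg_left hbig hQ
      have h9 : P ^ ((m : ℝ) + 1) = P ^ m * P := by
        rw [Real.rpow_add hPpos, Real.rpow_natCast, Real.rpow_one]
      rw [h9] at hL2
      have h10 : 4 * P * (p / 4) = 1 := by rw [hp]; field_simp
      have h11 : 4 * P * (p / 4) ≤ 4 * P * ((128 * R * ((m : ℝ) + 1) * P) ^ m *
          (2 * (2 : ℝ) ^ (-(g / 2 * j)))) := mul_le_mul_of_nonneg_left h8 (by positivity)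
      have h12 : 4 * P * ((128 * R * ((m : ℝ) + 1) * P) ^ m * (2 * (2 : ℝ) ^ (-(g / 2 * j)))) =
          8 * (128 * R * ((m : ℝ) + 1)) ^ m * (P ^ m * P) * (2 : ℝ) ^ (-(g / 2 * j)) := by
        rw [mul_pow (128 * R * ((m : ℝ) + 1)) P m]; ring
      rw [h10, h12] at h11
      linarith
    · -- the diagonal
      have hZm : MeasurableSet {q : E2 × E2 | ‖q.2 - q.1‖ < ρ} :=
        (isOpen_lt (by fun_prop) continuous_const).measurableSet
      rw [Measure.prod_apply hZm]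
      have h1 : ∀ x : E2, μ (Prod.mk x ⁻¹' {q : E2 × E2 | ‖q.2 - q.1‖ < ρ}) ≤
          ENNReal.ofReal (p / 8) := by
        intro x
        calc μ (Prod.mk x ⁻¹' {q : E2 × E2 | ‖q.2 - q.1‖ < ρ}) ≤ μ (closedBall x ρ) := by
              apply measure_mono
              intro y hy
              rw [mem_closedBall, dist_eq_norm]
              exact (le_of_lt hy : ‖y - x‖ ≤ ρ)
          _ ≤ ENNReal.ofReal (CF * ρ ^ s) := hμ x ρ hρpos
          _ ≤ ENNReal.ofReal (p / 8) := by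
              apply ENNReal.ofReal_le_ofReal
              have h2 : ρ ^ s ≤ ρ := by
                calc ρ ^ s ≤ ρ ^ (1 : ℝ) := Real.rpow_le_rpow_of_exponent_ge hρpos hρ1 hs1.le
                  _ = ρ := Real.rpow_one ρ
              calc CF * ρ ^ s ≤ C1 * ρ := mul_le_mul hC1F h2 (by positivity) (by linarith)
                _ = p / 8 := by rw [hρ]; field_simp
      calc ∫⁻ x, μ (Prod.mk x ⁻¹' {q : E2 × E2 | ‖q.2 - q.1‖ < ρ}) ∂μ
          ≤ ∫⁻ _x, ENNReal.ofReal (p / 8) ∂μ := lintegral_mono h1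
        _ = ENNReal.ofReal (p / 8) := by simp
    · -- radial part
      intro i hi
      refine (hrad ((2 : ℝ)⁻¹ ^ (lv j i)) (by positivity)
        (pow_le_one₀ (by norm_num) (by norm_num)) M hM1).trans ?_
      exact ENNReal.ofReal_le_ofReal (hMc.trans (hmm i hi))
    · -- local part
      intro i hi
      have hii : lv j (i + 1) ≤ lv j i := lv_le j i
      refine (hloc (lv j (i + 1)) (lv j i) hii M ρ (θ i) hM1 hρpos hρ1 (hθpos i)
        (9 * (T (lv j (i + 1))).card) (encard_q2 E _ _ (hT2 _))).trans ?_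
      apply ENNReal.ofReal_le_ofReal
      refine le_trans ?_ (hmm i hi)
      set u : ℝ := (lv j i : ℝ) with hu
      set v : ℝ := (lv j (i + 1) : ℝ) with hv
      have huv : 2 * v ≤ u + 1 := by
        rw [hu, hv]; exact_mod_cast two_lv_le j i
      have hvj : (j : ℝ) / 2 ^ m ≤ v := by
        refine le_trans ?_ (lv_lower j (i + 1))
        apply div_le_div_of_nonneg_left hj' (by positivity)
        exact pow_le_pow_right₀ (by norm_num) (by omega)
      have hN : ((9 * (T (lv j (i + 1))).card : ℕ) : ℝ) ≤ 9 * |Cb| * (2 : ℝ) ^ ((a + η) * v) := by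
        push_cast
        have h1 := hT1 (lv j (i + 1))
        have h2 : (0 : ℝ) < (2 : ℝ) ^ ((a + η) * v) := Real.rpow_pos_of_pos (by norm_num) _
        have h3 : Cb * (2 : ℝ) ^ ((a + η) * v) ≤ |Cb| * (2 : ℝ) ^ ((a + η) * v) :=
          mul_le_mul_of_nonneg_right (le_abs_self _) h2.le
        rw [mul_assoc]
        exact mul_le_mul_of_nonneg_left (h1.trans h3) (by norm_num)
      have e1 : (2 : ℝ)⁻¹ ^ (lv j i) = (2 : ℝ) ^ (-u) := by
        rw [hu, Real.rpow_neg (by norm_num), Real.rpow_natCast, inv_pow]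
      have e2 : ((2 : ℝ)⁻¹ ^ (lv j (i + 1))) ^ (s - 1) = (2 : ℝ) ^ (-((s - 1) * v)) := by
        rw [← Real.rpow_natCast, ← Real.rpow_mul (by norm_num), Real.inv_rpow (by norm_num),
          ← Real.rpow_neg (by norm_num)]
        congr 1; ring
      have e3 : 1 / θ i = (2 : ℝ) ^ ((1 - 4 * η) * (u - v)) := by
        rw [hθ, one_div, ← Real.rpow_neg (by norm_num), neg_neg]
      have e4 : (2 : ℝ) ^ (-u) * (2 : ℝ) ^ (-((s - 1) * v)) * (2 : ℝ) ^ ((a + η) * v) *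
          (2 : ℝ) ^ ((1 - 4 * η) * (u - v)) ≤ 2 * (2 : ℝ) ^ (-(δ1 * j)) := by
        rw [← Real.rpow_add (by norm_num), ← Real.rpow_add (by norm_num),
          ← Real.rpow_add (by norm_num)]
        calc (2 : ℝ) ^ (-u + -((s - 1) * v) + (a + η) * v + (1 - 4 * η) * (u - v))
            ≤ (2 : ℝ) ^ (1 + -(δ1 * j)) := by
              apply Real.rpow_le_rpow_of_exponent_le (by norm_num)
              have h1 : δ1 * j = 2 * η * (j / 2 ^ m) := by rw [hδ1]; ring
              have h2 : 2 * η * (j / 2 ^ m) ≤ 2 * η * v := mul_le_mul_of_nonneg_left hvj (by positivity)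
              have h3 : 4 * η * (2 * v) ≤ 4 * η * (u + 1) := mul_le_mul_of_nonneg_left huv (by positivity)
              rw [h1, hs]
              nlinarith
          _ = 2 * (2 : ℝ) ^ (-(δ1 * j)) := by
              rw [Real.rpow_add (by norm_num), Real.rpow_one]
      have hθi := hθpos i
      calc C'' * (M / ρ) * (2 : ℝ)⁻¹ ^ (lv j i) * (((2 : ℝ)⁻¹ ^ (lv j (i + 1))) ^ (s - 1)) *
            ((9 * (T (lv j (i + 1))).card : ℕ) : ℝ) / θ i
          = C'' * (M / ρ) * ((2 : ℝ) ^ (-u) * (2 : ℝ) ^ (-((s - 1) * v)) *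
              ((9 * (T (lv j (i + 1))).card : ℕ) : ℝ) * (1 / θ i)) := by
            rw [e1, e2]; ring
        _ ≤ C'' * (M / ρ) * ((2 : ℝ) ^ (-u) * (2 : ℝ) ^ (-((s - 1) * v)) *
              (9 * |Cb| * (2 : ℝ) ^ ((a + η) * v)) * (1 / θ i)) := by
            gcongr
        _ = C'' * (M / ρ) * (9 * |Cb| * ((2 : ℝ) ^ (-u) * (2 : ℝ) ^ (-((s - 1) * v)) *
              (2 : ℝ) ^ ((a + η) * v) * (2 : ℝ) ^ ((1 - 4 * η) * (u - v)))) := by
            rw [e3]; ring
        _ ≤ C'' * (M / ρ) * (9 * |Cb| * (2 * (2 : ℝ) ^ (-(δ1 * j)))) := by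
            gcongr
        _ = C'' * M * (8 * C1 * P) * (18 * |Cb|) * (2 : ℝ) ^ (-(δ1 * j)) := by
            rw [hρ, hp]; field_simp; ring
        _ ≤ C'' * (KM * P ^ (1 / c)) * (8 * C1 * P) * (18 * |Cb|) * (2 : ℝ) ^ (-(δ1 * j)) := by
            gcongr
        _ = (C'' * KM * (8 * C1) * (18 * |Cb|) * (8 * ((m : ℝ) + 1))) *
              P ^ (1 / c + 2) * (2 : ℝ) ^ (-(δ1 * j)) * (p / (8 * ((m : ℝ) + 1))) := by
            rw [Real.rpow_add hPpos, Real.rpow_two, hp]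
            field_simp
        _ ≤ 1 * (p / (8 * ((m : ℝ) + 1))) :=
            mul_le_mul_of_nonneg_right hL1.le (by positivity)
        _ = p / (8 * ((m : ℝ) + 1)) := one_mul _
  -- summation over the levels
  obtain ⟨I, hI0, hIc, hIcov⟩ := hSC j0
  have hle : ∀ j, (μ.prod μ) {q | ⌊(2 : ℝ) ^ j * dist q.1 q.2 ^ 2⌋ ∈ I j} ≤
      ENNReal.ofReal (1 / (2 * ((j : ℝ) + 1) * (j + 2))) := by
    intro j
    rcases lt_or_ge j j0 with hj | hj
    · have : {q : E2 × E2 | ⌊(2 : ℝ) ^ j * dist q.1 q.2 ^ 2⌋ ∈ I j} = ∅ := by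
        rw [hI0 j hj]; simp
      rw [this]; simp
    · exact (claim j hj (I j) (hIc j)).le
  have huniv : (μ.prod μ) univ ≤ ENNReal.ofReal (1 / 2) := by
    have h1 : (μ.prod μ) (E ×ˢ E)ᶜ = 0 := by
      have h2 : (E ×ˢ E)ᶜ ⊆ (Eᶜ ×ˢ univ) ∪ ((univ : Set E2) ×ˢ Eᶜ) := by
        rintro ⟨x, y⟩ hxy
        simp only [mem_compl_iff, mem_prod, not_and_or] at hxy
        rcases hxy with h | h
        · left; exact ⟨h, mem_univ _⟩
        · right; exact ⟨mem_univ _, h⟩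
      refine measure_mono_null h2 (measure_union_null ?_ ?_)
      · rw [Measure.prod_prod, hμE, zero_mul]
      · rw [Measure.prod_prod, hμE, mul_zero]
    calc (μ.prod μ) univ ≤ (μ.prod μ) ((E ×ˢ E)ᶜ ∪
          ⋃ j, {q | ⌊(2 : ℝ) ^ j * dist q.1 q.2 ^ 2⌋ ∈ I j}) := by
          apply measure_mono
          rintro ⟨x, y⟩ -
          by_cases h : (x, y) ∈ E ×ˢ E
          · right
            obtain ⟨j, hj⟩ := hIcov (dist x y ^ 2) ⟨0, rfl, x, h.1, y, h.2, by ring⟩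
            exact mem_iUnion.mpr ⟨j, hj⟩
          · left; exact h
      _ ≤ (μ.prod μ) (E ×ˢ E)ᶜ + (μ.prod μ) (⋃ j, {q | ⌊(2 : ℝ) ^ j * dist q.1 q.2 ^ 2⌋ ∈ I j}) :=
          measure_union_le _ _
      _ = (μ.prod μ) (⋃ j, {q | ⌊(2 : ℝ) ^ j * dist q.1 q.2 ^ 2⌋ ∈ I j}) := by rw [h1, zero_add]
      _ ≤ ∑' j, (μ.prod μ) {q | ⌊(2 : ℝ) ^ j * dist q.1 q.2 ^ 2⌋ ∈ I j} := measure_iUnion_le _
      _ ≤ ∑' j : ℕ, ENNReal.ofReal (1 / (2 * ((j : ℝ) + 1) * (j + 2))) :=
          ENNReal.tsum_le_tsum hle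
      _ ≤ ENNReal.ofReal (1 / 2) := ENNReal.tsum_le_of_sum_range_le sum_le_half
  rw [measure_univ] at huniv
  rw [← ENNReal.ofReal_one, ENNReal.ofReal_le_ofReal_iff (by norm_num)] at huniv
  norm_num at huniv

end Pool.Agent.H744R2.Falc
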