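import Pool.Agent.H744R2.Falc.DefsB
import Pool.Agent.H744R2.Falc.Halving

set_option autoImplicit false

/-! Task C1: the strong gap step (the radial lemma and the cone lemma are taken as hypotheses). -/

namespace Pool.Agent.H744R2.Falc

open MeasureTheory Set Metric
open scoped ENNReal

/-- the statement of the radial lemma -/
def RadialSt : Prop := ∀ (μ : Measure E2) [IsProbabilityMeasure μ] (R C s : ℝ),
    (∀ᵐ x ∂μ, ‖x‖ ≤ R) → 0 < C → 1 < s → s < 2 →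
    (∀ (x : E2) (r : ℝ), 0 < r → μ (closedBall x r) ≤ ENNReal.ofReal (C * r ^ s)) →
    ∃ C' : ℝ, 0 < C' ∧ ∃ c : ℝ, 0 < c ∧ ∀ w : ℝ, 0 < w → w ≤ 1 → ∀ M : ℝ, 1 ≤ M →
      (μ.prod μ) {p | ENNReal.ofReal (M * w) < μ (strip w p.1 p.2)}
      ≤ ENNReal.ofReal (C' * M ^ (-c))

/-- the statement of the cone lemma -/
def ConeSt : Prop := ∀ (μ : Measure E2) [IsProbabilityMeasure μ] (R : ℝ), 1 ≤ R →
    (∀ᵐ x ∂μ, ‖x‖ ≤ R) →
    ∃ C : ℝ, 0 < C ∧ ∀ x x' : E2, ‖x‖ ≤ R → ‖x'‖ ≤ R → x ≠ x' → ∀ w ρ M : ℝ, 0 < w → 0 < ρ →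
      ρ ≤ 1 → 1 ≤ M →
      μ {y | ρ ≤ ‖y - x‖ ∧ μ (strip w x y) ≤ ENNReal.ofReal (M * w) ∧
        |inner ℝ (x' - x) (y - x)| ≤ 2 * w} ≤ ENNReal.ofReal (C * M * w / (ρ * ‖x' - x‖))

theorem sh_inner (a b : E2) : inner ℝ a b = a 0 * b 0 + a 1 * b 1 := by
  simp [PiLp.inner_apply, Fin.sum_univ_two, mul_comm]

theorem sh_norm (a : E2) : ‖a‖ ^ 2 = a 0 ^ 2 + a 1 ^ 2 := by
  rw [← real_inner_self_eq_norm_sq, sh_inner]; ring

theorem sh_det_le (a b : E2) : |det2 a b| ≤ ‖a‖ * ‖b‖ := by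
  apply abs_le_of_sq_le_sq _ (by positivity)
  rw [mul_pow, sh_norm, sh_norm, det2]
  nlinarith [sq_nonneg (a 0 * b 0 + a 1 * b 1)]

theorem sh_det_id (a b e : E2) :
    det2 a b * ‖e‖ ^ 2 = inner ℝ e a * det2 e b + det2 a e * inner ℝ e b := by
  rw [sh_norm, sh_inner, sh_inner, det2, det2, det2]
  ring

/-- two directions nearly perpendicular to `x - x'` -/
theorem sh_strip (x x' y y1 y2 : E2) (δ ρ R : ℝ) (hδ : 0 ≤ δ) (hρ : 0 < ρ) (hρ1 : ρ ≤ 1)
    (hR : 1 ≤ R) (hr : 0 < ‖x - x'‖) (h1 : |inner ℝ (x - x') (y - y1)| ≤ δ)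
    (h2 : |inner ℝ (x - x') (y1 - y2)| ≤ δ) (h3 : ρ ≤ ‖y2 - y1‖) (h4 : ‖y - y1‖ ≤ 2 * R) :
    y ∈ strip (3 * R * δ / (‖x - x'‖ * ρ)) y1 y2 := by
  show |det2 (y - y1) (y2 - y1)| ≤ _
  set a := y - y1
  set b := y2 - y1
  set e := x - x'
  have h2' : |inner ℝ e b| ≤ δ := by
    have : inner ℝ e b = -inner ℝ e (y1 - y2) := by rw [← inner_neg_right, neg_sub]
    rw [this, abs_neg]; exact h2
  have hid := sh_det_id a b e
  have hb : |det2 a b| * ‖e‖ ^ 2 ≤ δ * (‖e‖ * ‖b‖) + (2 * R * ‖e‖) * δ := by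
    have e1 : |det2 a b| * ‖e‖ ^ 2 = |det2 a b * ‖e‖ ^ 2| := by
      rw [abs_mul, abs_of_nonneg (by positivity : (0 : ℝ) ≤ ‖e‖ ^ 2)]
    rw [e1, hid]
    refine (abs_add_le _ _).trans ?_
    rw [abs_mul, abs_mul]
    have h5 : |det2 a e| ≤ 2 * R * ‖e‖ := (sh_det_le a e).trans (by gcongr)
    have h6 := sh_det_le e b
    gcongr
  have hb2 : |det2 a b| * ‖e‖ ≤ δ * (‖b‖ + 2 * R) := by
    have : |det2 a b| * ‖e‖ * ‖e‖ ≤ δ * (‖b‖ + 2 * R) * ‖e‖ := by nlinarith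
    exact le_of_mul_le_mul_right this hr
  have hb3 : ‖b‖ + 2 * R ≤ 3 * R * ‖b‖ / ρ := by
    rw [le_div_iff₀ hρ]
    have : 0 ≤ ‖b‖ := norm_nonneg b
    nlinarith [mul_nonneg this (sub_nonneg.2 hR), mul_nonneg (sub_nonneg.2 hρ1) this]
  have hb4 : |det2 a b| * ‖e‖ ≤ δ * (3 * R * ‖b‖ / ρ) :=
    hb2.trans (mul_le_mul_of_nonneg_left hb3 hδ)
  have e2 : 3 * R * δ / (‖e‖ * ρ) * ‖b‖ = δ * (3 * R * ‖b‖ / ρ) / ‖e‖ := by
    field_simp
  rw [e2, le_div_iff₀ hr]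
  exact hb4

theorem sh_strip_mono {w w' : ℝ} (h : w ≤ w') (x y : E2) : strip w x y ⊆ strip w' x y := by
  intro z hz
  have : |det2 (z - x) (y - x)| ≤ w * ‖y - x‖ := hz
  exact this.trans (mul_le_mul_of_nonneg_right h (norm_nonneg _))

theorem sh_dyadic (μ : Measure E2) [IsProbabilityMeasure μ] (M : ℝ) (hM : 1 ≤ M) (j : ℕ) (w : ℝ)
    (hw : (2 : ℝ)⁻¹ ^ j ≤ w) (y1 y2 : E2)
    (h : ∀ l ≤ j, μ (strip ((2 : ℝ)⁻¹ ^ l) y1 y2) ≤ ENNReal.ofReal (M * (2 : ℝ)⁻¹ ^ l)) :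
    μ (strip w y1 y2) ≤ ENNReal.ofReal (2 * M * w) := by
  have hw0 : 0 < w := lt_of_lt_of_le (by positivity) hw
  rcases le_or_gt 1 w with h1 | h1
  · refine prob_le_one.trans ?_
    rw [← ENNReal.ofReal_one]
    apply ENNReal.ofReal_le_ofReal
    nlinarith
  · obtain ⟨l, hl1, hl2⟩ := exists_nat_pow_near (x := w⁻¹) (y := (2 : ℝ))
      ((one_le_inv₀ hw0).2 h1.le) (by norm_num)
    have hlj : l ≤ j := by
      by_contra hcon
      have h2 : (2 : ℝ) ^ j < 2 ^ l := pow_lt_pow_right₀ (by norm_num) (not_le.1 hcon)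
      have h3 : w⁻¹ ≤ (2 : ℝ) ^ j := by
        rw [inv_le_comm₀ hw0 (by positivity)]
        rw [← inv_pow]
        exact hw
      linarith
    have hl3 : w ≤ (2 : ℝ)⁻¹ ^ l := by
      rw [inv_pow, ← le_inv_comm₀ (by positivity) hw0] at *
      · exact hl1
    have hl4 : (2 : ℝ)⁻¹ ^ l ≤ 2 * w := by
      rw [inv_pow]
      rw [inv_lt_comm₀ hw0 (by positivity)] at hl2
      rw [pow_succ, mul_inv] at hl2
      linarith
    refine (measure_mono (sh_strip_mono hl3 y1 y2)).trans ((h l hlj).trans ?_)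
    apply ENNReal.ofReal_le_ofReal
    nlinarith

/-- the good pairs of pins -/
def shP (μ : Measure E2) (R ρ M : ℝ) (j : ℕ) : Set (E2 × E2) :=
  {p | ‖p.1‖ ≤ R ∧ ‖p.2‖ ≤ R ∧ ρ ≤ ‖p.2 - p.1‖ ∧
    ∀ l ≤ j, μ (strip ((2 : ℝ)⁻¹ ^ l) p.1 p.2) ≤ ENNReal.ofReal (M * (2 : ℝ)⁻¹ ^ l)}

theorem sh_strip_meas (μ : Measure E2) [IsProbabilityMeasure μ] (w : ℝ) :
    Measurable (fun p : E2 × E2 => μ (strip w p.1 p.2)) := by
  have h : MeasurableSet {q : (E2 × E2) × E2 | |det2 (q.2 - q.1.1) (q.1.2 - q.1.1)| ≤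
      w * ‖q.1.2 - q.1.1‖} := by
    apply IsClosed.measurableSet
    apply isClosed_le
    · unfold det2
      fun_prop
    · fun_prop
  exact measurable_measure_prodMk_left h

theorem shP_meas (μ : Measure E2) [IsProbabilityMeasure μ] (R ρ M : ℝ) (j : ℕ) :
    MeasurableSet (shP μ R ρ M j) := by
  unfold shP
  have h1 : MeasurableSet {p : E2 × E2 | ‖p.1‖ ≤ R} :=
    (isClosed_le (by fun_prop) continuous_const).measurableSet
  have h2 : MeasurableSet {p : E2 × E2 | ‖p.2‖ ≤ R} :=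
    (isClosed_le (by fun_prop) continuous_const).measurableSet
  have h3 : MeasurableSet {p : E2 × E2 | ρ ≤ ‖p.2 - p.1‖} :=
    (isClosed_le continuous_const (by fun_prop)).measurableSet
  have h4 : MeasurableSet {p : E2 × E2 | ∀ l ≤ j, μ (strip ((2 : ℝ)⁻¹ ^ l) p.1 p.2) ≤
      ENNReal.ofReal (M * (2 : ℝ)⁻¹ ^ l)} := by
    have : {p : E2 × E2 | ∀ l ≤ j, μ (strip ((2 : ℝ)⁻¹ ^ l) p.1 p.2) ≤
      ENNReal.ofReal (M * (2 : ℝ)⁻¹ ^ l)} = ⋂ l : ℕ, ⋂ _ : l ≤ j,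
        {p : E2 × E2 | μ (strip ((2 : ℝ)⁻¹ ^ l) p.1 p.2) ≤
          ENNReal.ofReal (M * (2 : ℝ)⁻¹ ^ l)} := by
      ext p; simp
    rw [this]
    exact MeasurableSet.iInter fun l => MeasurableSet.iInter fun _ =>
      measurableSet_le (sh_strip_meas μ _) measurable_const
  exact h1.inter (h2.inter (h3.inter h4))

/-- the collision set -/
def shU (μ : Measure E2) (R ρ M : ℝ) (j : ℕ) : Set ((E2 × E2) × ((ℝ × E2) × (ℝ × E2))) :=
  {w | w.1 ∈ shP μ R ρ M j ∧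
    |inner ℝ (w.2.1.2 - w.2.2.2) (w.1.1 - w.1.2)| ≤ (2 : ℝ)⁻¹ ^ j ∧
    |(w.2.1.1 + dist w.2.1.2 w.1.1 ^ 2) - (w.2.2.1 + dist w.2.2.2 w.1.1 ^ 2)| ≤ (2 : ℝ)⁻¹ ^ j}

theorem shU_meas (μ : Measure E2) [IsProbabilityMeasure μ] (R ρ M : ℝ) (j : ℕ) :
    MeasurableSet (shU μ R ρ M j) := by
  unfold shU
  have h1 : MeasurableSet {w : (E2 × E2) × ((ℝ × E2) × (ℝ × E2)) | w.1 ∈ shP μ R ρ M j} :=
    measurable_fst (shP_meas μ R ρ M j)
  have h2 : MeasurableSet {w : (E2 × E2) × ((ℝ × E2) × (ℝ × E2)) |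
      |inner ℝ (w.2.1.2 - w.2.2.2) (w.1.1 - w.1.2)| ≤ (2 : ℝ)⁻¹ ^ j} :=
    (isClosed_le (by fun_prop) continuous_const).measurableSet
  have h3 : MeasurableSet {w : (E2 × E2) × ((ℝ × E2) × (ℝ × E2)) |
      |(w.2.1.1 + dist w.2.1.2 w.1.1 ^ 2) - (w.2.2.1 + dist w.2.2.2 w.1.1 ^ 2)| ≤
        (2 : ℝ)⁻¹ ^ j} :=
    (isClosed_le (by fun_prop) continuous_const).measurableSet
  exact h1.inter (h2.inter h3)

/-- the cone property of a measure -/
def ShCone (μ : Measure E2) (R Cc : ℝ) : Prop :=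
  ∀ x x' : E2, ‖x‖ ≤ 3 * R → ‖x'‖ ≤ 3 * R → x ≠ x' → ∀ w ρ M : ℝ, 0 < w → 0 < ρ →
      ρ ≤ 1 → 1 ≤ M →
      μ {y | ρ ≤ ‖y - x‖ ∧ μ (strip w x y) ≤ ENNReal.ofReal (M * w) ∧
        |inner ℝ (x' - x) (y - x)| ≤ 2 * w} ≤ ENNReal.ofReal (Cc * M * w / (ρ * ‖x' - x‖))

theorem sh_expand (x y : E2) : dist x y ^ 2 = ‖x‖ ^ 2 - 2 * inner ℝ x y + ‖y‖ ^ 2 := by
  rw [dist_eq_norm, norm_sub_sq_real]

/-- the slices of the collision set -/
theorem sh_W (μ : Measure E2) [IsProbabilityMeasure μ] (R Cc : ℝ) (hR1 : 1 ≤ R) (hCc : 0 < Cc)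
    (hcone : ShCone μ R Cc) (j : ℕ) (ρ M : ℝ) (hρ : 0 < ρ) (hρ1 : ρ ≤ 1) (hM : 1 ≤ M)
    (z z' : ℝ × E2) (hz : ‖z.2‖ ≤ R) (hz' : ‖z'.2‖ ≤ R) :
    (μ.prod μ) ((fun p => (p, (z, z'))) ⁻¹' shU μ R ρ M j) ≤
      (closedBall z.1 (5 * R * max ‖z.2 - z'.2‖ ((2 : ℝ)⁻¹ ^ j))).indicator (fun _ =>
        ENNReal.ofReal ((1 + 6 * R * Cc) *
          (M * (2 : ℝ)⁻¹ ^ j / (ρ * max ‖z.2 - z'.2‖ ((2 : ℝ)⁻¹ ^ j))) ^ 2)) z'.1 := by
  obtain ⟨u, x⟩ := z
  obtain ⟨u', x'⟩ := z'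
  have hSm : MeasurableSet ((fun p : E2 × E2 => (p, ((u, x), (u', x')))) ⁻¹' shU μ R ρ M j) :=
    measurable_prodMk_right (shU_meas μ R ρ M j)
  set S := (fun p : E2 × E2 => (p, ((u, x), (u', x')))) ⁻¹' shU μ R ρ M j with hS
  simp only at hz hz' ⊢
  obtain ⟨δ, hδ⟩ : ∃ δ : ℝ, δ = (2 : ℝ)⁻¹ ^ j := ⟨_, rfl⟩
  have hδ0 : 0 < δ := by rw [hδ]; positivity
  have hmem : ∀ p : E2 × E2, p ∈ S → p ∈ shP μ R ρ M j ∧ |inner ℝ (x - x') (p.1 - p.2)| ≤ δ ∧
      |(u + dist x p.1 ^ 2) - (u' + dist x' p.1 ^ 2)| ≤ δ := by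
    intro p hp
    rw [hδ]
    exact hp
  rw [← hδ]
  rcases S.eq_empty_or_nonempty with h0 | ⟨⟨y1, y2⟩, h0⟩
  · rw [h0, measure_empty]; exact zero_le
  obtain ⟨hP1, hi1, hii1⟩ := hmem _ h0
  simp only at hi1 hii1
  obtain ⟨hy1R, hy2R, hy12, hstr⟩ := hP1
  simp only at hy1R hy2R hy12 hstr
  set r := ‖x - x'‖ with hr
  have hr0 : 0 ≤ r := norm_nonneg _
  -- the constraint on `u - u'`
  have hball : u' ∈ closedBall u (5 * R * max r δ) := by
    rw [mem_closedBall, Real.dist_eq]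
    have e1 : u' - u = (dist x y1 - dist x' y1) * (dist x y1 + dist x' y1) -
        ((u + dist x y1 ^ 2) - (u' + dist x' y1 ^ 2)) := by ring
    rw [e1]
    refine (abs_sub _ _).trans ?_
    have e2 : |dist x y1 - dist x' y1| ≤ r := by
      rw [hr, ← dist_eq_norm]; exact abs_dist_sub_le x x' y1
    have e3 : dist x y1 ≤ 2 * R := by
      rw [dist_eq_norm]; exact (norm_sub_le _ _).trans (by linarith)
    have e4 : dist x' y1 ≤ 2 * R := by
      rw [dist_eq_norm]; exact (norm_sub_le _ _).trans (by linarith)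
    have e5 : |(dist x y1 - dist x' y1) * (dist x y1 + dist x' y1)| ≤ r * (4 * R) := by
      rw [abs_mul]
      have : |dist x y1 + dist x' y1| ≤ 4 * R := by
        rw [abs_of_nonneg (by positivity)]; linarith
      gcongr
    have e6 : r ≤ max r δ := le_max_left _ _
    have e7 : δ ≤ max r δ := le_max_right _ _
    nlinarith
  rw [Set.indicator_of_mem hball]
  rcases lt_or_ge r δ with hrδ | hrδ
  · rw [max_eq_right hrδ.le]
    refine prob_le_one.trans ?_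
    rw [← ENNReal.ofReal_one]
    apply ENNReal.ofReal_le_ofReal
    have e1 : M * δ / (ρ * δ) = M / ρ := by field_simp
    rw [e1]
    have e2 : 1 ≤ M / ρ := by rw [le_div_iff₀ hρ]; linarith
    have e3 : 0 ≤ 6 * R * Cc := by positivity
    nlinarith
  · rw [max_eq_left hrδ]
    have hrpos : 0 < r := lt_of_lt_of_le hδ0 hrδ
    set w1 := 3 * R * δ / (r * ρ) with hw1
    have hr2 : r ≤ 2 * R := by rw [hr]; exact (norm_sub_le _ _).trans (by linarith)
    have hw1δ : δ ≤ w1 := by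
      rw [hw1, le_div_iff₀ (by positivity)]
      nlinarith [mul_nonneg hδ0.le (sub_nonneg.2 hr2), mul_nonneg (mul_nonneg hδ0.le hr0) (sub_nonneg.2 hρ1)]
    have hstrip := sh_dyadic μ M hM j w1 (by rw [← hδ]; exact hw1δ) y1 y2 hstr
    -- slices
    have hslice : ∀ y : E2, μ (Prod.mk y ⁻¹' S) ≤ (strip w1 y1 y2).indicator
        (fun _ => ENNReal.ofReal (Cc * M * δ / (ρ * r))) y := by
      intro y
      by_cases hne : (Prod.mk y ⁻¹' S).Nonempty
      · obtain ⟨y', hy'⟩ := hne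
        obtain ⟨hP, hi, hii⟩ := hmem _ hy'
        obtain ⟨hyR, hy'R, hyy, hst⟩ := hP
        simp only at hyR hy'R hyy hst hi hii
        have hin : |inner ℝ (x - x') (y - y1)| ≤ δ := by
          have e1 : inner ℝ (x - x') (y - y1) = -(1 / 2) *
              (((u + dist x y ^ 2) - (u' + dist x' y ^ 2)) -
                ((u + dist x y1 ^ 2) - (u' + dist x' y1 ^ 2))) := by
            rw [sh_expand, sh_expand, sh_expand, sh_expand, inner_sub_left, inner_sub_right,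
              inner_sub_right]
            ring
          rw [e1, abs_mul, abs_neg, abs_of_pos (by norm_num : (0 : ℝ) < 1 / 2)]
          have e4 := abs_sub ((u + dist x y ^ 2) - (u' + dist x' y ^ 2))
            ((u + dist x y1 ^ 2) - (u' + dist x' y1 ^ 2))
          linarith
        have hys : y ∈ strip w1 y1 y2 :=
          sh_strip x x' y y1 y2 δ ρ R hδ0.le hρ hρ1 hR1 hrpos hin hi1 hy12
            ((norm_sub_le _ _).trans (by linarith))
        rw [Set.indicator_of_mem hys]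
        have hc := hcone y (y + (x - x')) (by linarith)
          ((norm_add_le _ _).trans (by linarith)) (by
            intro hcon
            have : x - x' = 0 := by
              have := congrArg (fun t => t - y) hcon
              simpa using this.symm
            rw [hr, this, norm_zero] at hrpos
            exact lt_irrefl _ hrpos) δ ρ M hδ0 hρ hρ1 hM
        rw [add_sub_cancel_left] at hc
        refine (measure_mono ?_).trans hc
        intro t ht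
        obtain ⟨hP', hi', _⟩ := hmem _ ht
        obtain ⟨_, _, hyy', hst'⟩ := hP'
        simp only at hyy' hst' hi'
        refine ⟨hyy', ?_, ?_⟩
        · rw [hδ]; exact hst' j le_rfl
        · have : inner ℝ (x - x') (t - y) = -inner ℝ (x - x') (y - t) := by
            rw [← inner_neg_right, neg_sub]
          rw [this, abs_neg]
          linarith
      · rw [Set.not_nonempty_iff_eq_empty] at hne
        rw [hne, measure_empty]
        exact zero_le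
    rw [Measure.prod_apply hSm]
    refine (lintegral_mono hslice).trans ?_
    have hsm : MeasurableSet (strip w1 y1 y2) := by
      have : IsClosed {q : E2 | |det2 (q - y1) (y2 - y1)| ≤ w1 * ‖y2 - y1‖} := by
        apply isClosed_le
        · unfold det2
          fun_prop
        · fun_prop
      exact this.measurableSet
    rw [lintegral_indicator_const hsm]
    refine (mul_le_mul_right hstrip _).trans ?_
    rw [← ENNReal.ofReal_mul (by positivity)]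
    apply ENNReal.ofReal_le_ofReal
    have e1 : Cc * M * δ / (ρ * r) * (2 * M * w1) = 6 * R * Cc * (M * δ / (ρ * r)) ^ 2 := by
      rw [hw1]
      field_simp
      ring
    rw [e1]
    have : 0 ≤ (M * δ / (ρ * r)) ^ 2 := by positivity
    nlinarith

/-- energy bound -/
theorem sh_energy (μ : Measure E2) [IsProbabilityMeasure μ] (C s t δ : ℝ) (hC : 0 ≤ C) (ht : 0 < t)
    (hst : s < t) (hδ : 0 < δ)
    (hμ : ∀ (x : E2) (r : ℝ), 0 < r → μ (closedBall x r) ≤ ENNReal.ofReal (C * r ^ s)) (x : E2) :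
    ∫⁻ y, ENNReal.ofReal ((max ‖x - y‖ δ) ^ (-t)) ∂μ ≤
      ENNReal.ofReal (C * 2 ^ s * δ ^ (s - t) * (1 - (2 : ℝ) ^ (s - t))⁻¹) := by
  have hpt : ∀ y : E2, ENNReal.ofReal ((max ‖x - y‖ δ) ^ (-t)) ≤
      ∑' k : ℕ, (closedBall x (2 ^ (k + 1) * δ)).indicator
        (fun _ => ENNReal.ofReal ((2 ^ k * δ) ^ (-t))) y := by
    intro y
    set r := max ‖x - y‖ δ with hr
    have hrδ : δ ≤ r := le_max_right _ _
    have hr0 : 0 < r := lt_of_lt_of_le hδ hrδ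
    obtain ⟨k, hk1, hk2⟩ := exists_nat_pow_near (x := r / δ) (y := (2 : ℝ))
      (by rw [le_div_iff₀ hδ]; linarith) (by norm_num)
    rw [le_div_iff₀ hδ] at hk1
    rw [div_lt_iff₀ hδ] at hk2
    have hmem : y ∈ closedBall x (2 ^ (k + 1) * δ) := by
      rw [mem_closedBall, dist_comm, dist_eq_norm]
      exact (le_max_left _ _).trans hk2.le
    refine le_trans ?_ (ENNReal.le_tsum k)
    rw [Set.indicator_of_mem hmem]
    apply ENNReal.ofReal_le_ofReal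
    exact Real.rpow_le_rpow_of_nonpos (by positivity) hk1 (by linarith)
  refine (lintegral_mono hpt).trans ?_
  rw [lintegral_tsum (fun k => (measurable_const.indicator
    measurableSet_closedBall).aemeasurable)]
  have hterm : ∀ k : ℕ, ∫⁻ y, (closedBall x (2 ^ (k + 1) * δ)).indicator
        (fun _ => ENNReal.ofReal ((2 ^ k * δ) ^ (-t))) y ∂μ ≤
      ENNReal.ofReal (C * 2 ^ s * δ ^ (s - t) * ((2 : ℝ) ^ (s - t)) ^ k) := by
    intro k
    rw [lintegral_indicator_const measurableSet_closedBall]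
    have h1 := hμ x (2 ^ (k + 1) * δ) (by positivity)
    refine (mul_le_mul_right h1 _).trans ?_
    rw [← ENNReal.ofReal_mul (by positivity)]
    apply ENNReal.ofReal_le_ofReal
    apply le_of_eq
    rw [Real.mul_rpow (by positivity) hδ.le, Real.mul_rpow (by positivity) hδ.le,
      ← Real.rpow_natCast 2 k, ← Real.rpow_natCast 2 (k + 1), ← Real.rpow_mul (by norm_num),
      ← Real.rpow_mul (by norm_num), ← Real.rpow_natCast ((2 : ℝ) ^ (s - t)) k,
      ← Real.rpow_mul (by norm_num)]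
    have e1 : (2 : ℝ) ^ (((k : ℕ) : ℝ) * -t) * (2 : ℝ) ^ (((k + 1 : ℕ) : ℝ) * s) =
        2 ^ s * 2 ^ ((s - t) * (k : ℝ)) := by
      rw [← Real.rpow_add (by norm_num), ← Real.rpow_add (by norm_num)]
      congr 1
      push_cast
      ring
    have e2 : δ ^ (-t) * δ ^ s = δ ^ (s - t) := by
      rw [← Real.rpow_add hδ]; congr 1; ring
    calc _ = C * ((2 : ℝ) ^ (((k : ℕ) : ℝ) * -t) * (2 : ℝ) ^ (((k + 1 : ℕ) : ℝ) * s)) *
          (δ ^ (-t) * δ ^ s) := by ring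
      _ = _ := by rw [e1, e2]; ring
  refine (ENNReal.tsum_le_tsum hterm).trans ?_
  have hq0 : (0 : ℝ) ≤ (2 : ℝ) ^ (s - t) := by positivity
  have hq1 : (2 : ℝ) ^ (s - t) < 1 := by
    apply Real.rpow_lt_one_of_one_lt_of_neg (by norm_num) (by linarith)
  rw [← ENNReal.ofReal_tsum_of_nonneg (fun k => by positivity)
    ((summable_geometric_of_lt_one hq0 hq1).mul_left _), tsum_mul_left,
    tsum_geometric_of_lt_one hq0 hq1]

/-- the mass of the collision set -/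
theorem sh_main (ν : Measure ℝ) [IsProbabilityMeasure ν] (μ : Measure E2) [IsProbabilityMeasure μ]
    (R Cc Cν Cμ σ s : ℝ) (hR1 : 1 ≤ R) (hR : ∀ᵐ x ∂μ, ‖x‖ ≤ R) (hCc : 0 < Cc)
    (hcone : ShCone μ R Cc) (hCν : 0 < Cν) (hCμ : 0 < Cμ) (hs : 0 ≤ s)
    (hsσ : s + σ < 2)
    (hν : ∀ (x : ℝ) (r : ℝ), 0 < r → ν (closedBall x r) ≤ ENNReal.ofReal (Cν * r ^ σ))
    (hμ : ∀ (x : E2) (r : ℝ), 0 < r → μ (closedBall x r) ≤ ENNReal.ofReal (Cμ * r ^ s)) :
    ∃ K : ℝ, 0 < K ∧ ∀ (j : ℕ) (ρ M : ℝ), 0 < ρ → ρ ≤ 1 → 1 ≤ M →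
      ∫⁻ p, ((ν.prod μ).prod (ν.prod μ)) (Prod.mk p ⁻¹' shU μ R ρ M j) ∂(μ.prod μ) ≤
        ENNReal.ofReal (K * (M / ρ) ^ 2 * ((2 : ℝ)⁻¹ ^ j) ^ (s + σ)) := by
  have hq1 : (2 : ℝ) ^ (s - (2 - σ)) < 1 :=
    Real.rpow_lt_one_of_one_lt_of_neg (by norm_num) (by linarith)
  refine ⟨(1 + 6 * R * Cc) * (Cν * (5 * R) ^ σ) * (Cμ * 2 ^ s * (1 - (2 : ℝ) ^ (s - (2 - σ)))⁻¹),
    ?_, ?_⟩
  · have h1 : 0 < (1 - (2 : ℝ) ^ (s - (2 - σ)))⁻¹ := inv_pos.2 (by linarith)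
    positivity
  intro j ρ M hρ hρ1 hM
  obtain ⟨δ, hδ⟩ : ∃ δ : ℝ, δ = (2 : ℝ)⁻¹ ^ j := ⟨_, rfl⟩
  have hδ0 : 0 < δ := by rw [hδ]; positivity
  have hUm := shU_meas μ R ρ M j
  have hae : ∀ᵐ z ∂(ν.prod μ), ‖z.2‖ ≤ R :=
    Measure.quasiMeasurePreserving_snd.ae hR
  have e1 : ∫⁻ p, ((ν.prod μ).prod (ν.prod μ)) (Prod.mk p ⁻¹' shU μ R ρ M j) ∂(μ.prod μ) =
      ∫⁻ z, ∫⁻ z', (μ.prod μ) ((fun p => (p, (z, z'))) ⁻¹' shU μ R ρ M j) ∂(ν.prod μ)
        ∂(ν.prod μ) := by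
    rw [← Measure.prod_apply hUm, Measure.prod_apply_symm hUm]
    rw [lintegral_prod _ (measurable_measure_prodMk_right hUm).aemeasurable]
  rw [e1]
  set K1 : ℝ := (1 + 6 * R * Cc) * (Cν * (5 * R) ^ σ) * (M * δ / ρ) ^ 2 with hK1
  have hK1' : 0 ≤ K1 := by positivity
  have hin : ∀ z : ℝ × E2, ‖z.2‖ ≤ R →
      ∫⁻ z', (μ.prod μ) ((fun p => (p, (z, z'))) ⁻¹' shU μ R ρ M j) ∂(ν.prod μ) ≤
        ENNReal.ofReal K1 * ENNReal.ofReal (Cμ * 2 ^ s * δ ^ (s - (2 - σ)) *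
          (1 - (2 : ℝ) ^ (s - (2 - σ)))⁻¹) := by
    intro z hz
    have h1 : ∫⁻ z', (μ.prod μ) ((fun p => (p, (z, z'))) ⁻¹' shU μ R ρ M j) ∂(ν.prod μ) ≤
        ∫⁻ z', ({q : ℝ × E2 | q.1 ∈ closedBall z.1 (5 * R * max ‖z.2 - q.2‖ δ)}).indicator
          (fun q => ENNReal.ofReal ((1 + 6 * R * Cc) *
            (M * δ / (ρ * max ‖z.2 - q.2‖ δ)) ^ 2)) z' ∂(ν.prod μ) := by
      refine lintegral_mono_ae ?_
      filter_upwards [hae] with z' hz'
      have := sh_W μ R Cc hR1 hCc hcone j ρ M hρ hρ1 hM z z' hz hz'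
      rw [← hδ] at this
      exact this
    refine h1.trans ?_
    have hset : MeasurableSet {q : ℝ × E2 |
        q.1 ∈ closedBall z.1 (5 * R * max ‖z.2 - q.2‖ δ)} := by
      have : IsClosed {q : ℝ × E2 | dist q.1 z.1 ≤ 5 * R * max ‖z.2 - q.2‖ δ} :=
        isClosed_le (by fun_prop) (by fun_prop)
      exact this.measurableSet
    have hfm : Measurable (fun q : ℝ × E2 => ENNReal.ofReal ((1 + 6 * R * Cc) *
            (M * δ / (ρ * max ‖z.2 - q.2‖ δ)) ^ 2)) := by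
      apply ENNReal.measurable_ofReal.comp
      fun_prop
    rw [lintegral_prod_symm _ (hfm.indicator hset).aemeasurable]
    have h2 : ∀ x' : E2, ∫⁻ u', ({q : ℝ × E2 |
        q.1 ∈ closedBall z.1 (5 * R * max ‖z.2 - q.2‖ δ)}).indicator
          (fun q => ENNReal.ofReal ((1 + 6 * R * Cc) *
            (M * δ / (ρ * max ‖z.2 - q.2‖ δ)) ^ 2)) (u', x') ∂ν ≤
        ENNReal.ofReal K1 * ENNReal.ofReal ((max ‖z.2 - x'‖ δ) ^ (-(2 - σ))) := by
      intro x'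
      set r' := max ‖z.2 - x'‖ δ with hr'
      have hr0 : 0 < r' := lt_of_lt_of_le hδ0 (le_max_right _ _)
      have e2 : (fun u' : ℝ => ({q : ℝ × E2 |
        q.1 ∈ closedBall z.1 (5 * R * max ‖z.2 - q.2‖ δ)}).indicator
          (fun q => ENNReal.ofReal ((1 + 6 * R * Cc) *
            (M * δ / (ρ * max ‖z.2 - q.2‖ δ)) ^ 2)) (u', x')) =
          (closedBall z.1 (5 * R * r')).indicator (fun _ => ENNReal.ofReal ((1 + 6 * R * Cc) *
            (M * δ / (ρ * r')) ^ 2)) := by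
        funext u'
        by_cases hu : u' ∈ closedBall z.1 (5 * R * r')
        · rw [Set.indicator_of_mem hu]
          exact Set.indicator_of_mem (s := {q : ℝ × E2 |
            q.1 ∈ closedBall z.1 (5 * R * max ‖z.2 - q.2‖ δ)}) (a := (u', x')) hu _
        · rw [Set.indicator_of_notMem hu]
          exact Set.indicator_of_notMem (s := {q : ℝ × E2 |
            q.1 ∈ closedBall z.1 (5 * R * max ‖z.2 - q.2‖ δ)}) (a := (u', x')) hu _
      rw [e2, lintegral_indicator_const measurableSet_closedBall]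
      refine (mul_le_mul_right (hν z.1 (5 * R * r') (by positivity)) _).trans ?_
      rw [← ENNReal.ofReal_mul (by positivity), ← ENNReal.ofReal_mul hK1']
      apply ENNReal.ofReal_le_ofReal
      apply le_of_eq
      rw [hK1, Real.mul_rpow (by positivity) hr0.le]
      have e3 : r' ^ (-(2 - σ)) = r' ^ σ / r' ^ 2 := by
        rw [← Real.rpow_natCast r' 2, ← Real.rpow_sub hr0]
        congr 1
        push_cast
        ring
      rw [e3]
      field_simp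
    refine (lintegral_mono h2).trans ?_
    rw [lintegral_const_mul' _ _ ENNReal.ofReal_ne_top]
    gcongr
    exact sh_energy μ Cμ s (2 - σ) δ hCμ.le (by linarith) (by linarith) hδ0 hμ z.2
  have h3 : ∫⁻ z, ∫⁻ z', (μ.prod μ) ((fun p => (p, (z, z'))) ⁻¹' shU μ R ρ M j) ∂(ν.prod μ)
        ∂(ν.prod μ) ≤ ∫⁻ _z : ℝ × E2, ENNReal.ofReal K1 * ENNReal.ofReal
          (Cμ * 2 ^ s * δ ^ (s - (2 - σ)) * (1 - (2 : ℝ) ^ (s - (2 - σ)))⁻¹) ∂(ν.prod μ) := by
    refine lintegral_mono_ae ?_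
    filter_upwards [hae] with z hz
    exact hin z hz
  refine h3.trans ?_
  rw [lintegral_const, measure_univ, mul_one, ← ENNReal.ofReal_mul hK1', ← hδ]
  apply ENNReal.ofReal_le_ofReal
  apply le_of_eq
  have e4 : δ ^ (s + σ) = δ ^ (s - (2 - σ)) * δ ^ 2 := by
    rw [← Real.rpow_natCast δ 2, ← Real.rpow_add hδ0]
    congr 1
    push_cast
    ring
  rw [hK1, e4]
  field_simp

/-- one level -/
theorem sh_level (ν : Measure ℝ) [IsProbabilityMeasure ν] (μ : Measure E2) [IsProbabilityMeasure μ]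
    (R ρ M : ℝ) (j : ℕ) (I : Finset ℤ) (W : ℝ≥0∞)
    (hW : ((I.card : ℝ≥0∞) ^ 2) * ∫⁻ p, ((ν.prod μ).prod (ν.prod μ))
      (Prod.mk p ⁻¹' shU μ R ρ M j) ∂(μ.prod μ) ≤ W ^ 2) :
    ((ν.prod μ).prod μ) (hvG j I) ^ 2 ≤ (μ.prod μ) (shP μ R ρ M j)ᶜ + W := by
  classical
  refine (hv_fubini (ν.prod μ) μ (hvG j I) (hvG_meas j I)).trans ?_
  have hPm := shP_meas μ R ρ M j
  set A : E2 × E2 → ℝ≥0∞ := fun p => (ν.prod μ) {z | (z, p.1) ∈ hvG j I ∧ (z, p.2) ∈ hvG j I}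
    with hA
  have hAm : Measurable A := by
    have hG2 : MeasurableSet {w : (E2 × E2) × (ℝ × E2) |
        (w.2, w.1.1) ∈ hvG j I ∧ (w.2, w.1.2) ∈ hvG j I} := by
      apply MeasurableSet.inter
      · exact (measurable_snd.prodMk (measurable_fst.comp measurable_fst)) (hvG_meas j I)
      · exact (measurable_snd.prodMk (measurable_snd.comp measurable_fst)) (hvG_meas j I)
    exact measurable_measure_prodMk_left hG2
  have hpt : ∀ p : E2 × E2, A p ≤ (shP μ R ρ M j)ᶜ.indicator 1 p +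
      (shP μ R ρ M j).indicator A p := by
    intro p
    by_cases hp : p ∈ shP μ R ρ M j
    · rw [Set.indicator_of_mem hp]
      exact le_add_self
    · rw [Set.indicator_of_mem (show p ∈ (shP μ R ρ M j)ᶜ from hp)]
      exact prob_le_one.trans le_self_add
  refine (lintegral_mono hpt).trans ?_
  rw [lintegral_add_left (measurable_one.indicator hPm.compl)]
  gcongr
  · exact lintegral_indicator_one_le _
  · have h1 := hv_cs (μ.prod μ) ((shP μ R ρ M j).indicator A) (hAm.indicator hPm)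
    refine (ENNReal.pow_le_pow_left_iff (two_ne_zero)).1 (h1.trans (le_trans ?_ hW))
    rw [← lintegral_const_mul' _ _ (by
      exact ENNReal.pow_ne_top (ENNReal.natCast_ne_top _))]
    refine lintegral_mono fun p => ?_
    by_cases hp : p ∈ shP μ R ρ M j
    · rw [Set.indicator_of_mem hp]
      let Φ : ℝ × E2 → ℤ × ℤ := fun z => (⌊(2 : ℝ) ^ j * (z.1 + dist z.2 p.1 ^ 2)⌋,
        ⌊(2 : ℝ) ^ j * (z.1 + dist z.2 p.2 ^ 2)⌋)
      have hΦm : Measurable Φ := by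
        apply Measurable.prodMk
        · apply Int.measurable_floor.comp
          apply Continuous.measurable
          fun_prop
        · apply Int.measurable_floor.comp
          apply Continuous.measurable
          fun_prop
      have h2 := hv_collision (ν.prod μ) Φ (fun c => hΦm (measurableSet_singleton c)) (I ×ˢ I)
      have h3 : {z | (z, p.1) ∈ hvG j I ∧ (z, p.2) ∈ hvG j I} =
          Φ ⁻¹' ((I ×ˢ I : Finset (ℤ × ℤ)) : Set (ℤ × ℤ)) := by
        ext z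
        simp only [Finset.coe_product, mem_preimage, mem_prod, Finset.mem_coe]
        exact Iff.rfl
      simp only [hA]
      rw [h3]
      refine h2.trans ?_
      rw [Finset.card_product]
      push_cast
      rw [← sq]
      gcongr
      rintro ⟨z, z'⟩ hz
      have hz' : Φ z = Φ z' := hz
      have e1 := congrArg Prod.fst hz'
      have e2 := congrArg Prod.snd hz'
      have h4 := hv_cell j p.1 p.2 z z' e1 e2
      exact ⟨hp, h4.1, h4.2⟩
    · rw [Set.indicator_of_notMem hp]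
      simp

/-- bad pairs are rare -/
theorem sh_bad (μ : Measure E2) [IsProbabilityMeasure μ] (R ρ M : ℝ) (j : ℕ)
    (hR : ∀ᵐ x ∂μ, ‖x‖ ≤ R) (B1 B2 : ℝ≥0∞) (h1 : ∀ x, μ (closedBall x ρ) ≤ B1)
    (h2 : ∀ l : ℕ, (μ.prod μ) {p | ENNReal.ofReal (M * (2 : ℝ)⁻¹ ^ l) <
      μ (strip ((2 : ℝ)⁻¹ ^ l) p.1 p.2)} ≤ B2) :
    (μ.prod μ) (shP μ R ρ M j)ᶜ ≤ B1 + ((j : ℝ≥0∞) + 1) * B2 := by
  have hsub : (shP μ R ρ M j)ᶜ ⊆ ({p : E2 × E2 | ¬ ‖p.1‖ ≤ R} ∪ {p : E2 × E2 | ¬ ‖p.2‖ ≤ R}) ∪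
      ({p | dist p.1 p.2 ≤ ρ} ∪ ⋃ l ∈ Finset.range (j + 1),
        {p : E2 × E2 | ENNReal.ofReal (M * (2 : ℝ)⁻¹ ^ l) <
          μ (strip ((2 : ℝ)⁻¹ ^ l) p.1 p.2)}) := by
    intro p hp
    by_contra hcon
    simp only [mem_union, Set.mem_ofPred_eq, not_or, not_not, mem_iUnion, exists_prop, not_exists,
      not_and, Finset.mem_range] at hcon
    apply hp
    refine ⟨hcon.1.1, hcon.1.2, ?_, ?_⟩
    · have := not_le.1 hcon.2.1
      rw [← dist_eq_norm, dist_comm]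
      exact this.le
    · intro l hl
      exact not_lt.1 (hcon.2.2 l (by omega))
  have n1 : (μ.prod μ) {p : E2 × E2 | ¬ ‖p.1‖ ≤ R} = 0 :=
    (Measure.quasiMeasurePreserving_fst (μ := μ) (ν := μ)).ae hR
  have n2 : (μ.prod μ) {p : E2 × E2 | ¬ ‖p.2‖ ≤ R} = 0 :=
    (Measure.quasiMeasurePreserving_snd (μ := μ) (ν := μ)).ae hR
  refine (measure_mono hsub).trans ((measure_union_le _ _).trans ?_)
  rw [measure_union_null n1 n2, zero_add]
  refine (measure_union_le _ _).trans (add_le_add (hv_close μ ρ B1 h1) ?_)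
  refine (measure_biUnion_finset_le _ _).trans ?_
  refine (Finset.sum_le_sum fun l _ => h2 l).trans ?_
  rw [Finset.sum_const, Finset.card_range, nsmul_eq_mul]
  push_cast
  exact le_rfl

/-- each level has exponentially small measure -/
theorem sh_decay (hRad : RadialSt) (hCone : ConeSt) (ν : Measure ℝ) [IsProbabilityMeasure ν]
    (μ : Measure E2) [IsProbabilityMeasure μ] (R Cν Cμ σ s σ' : ℝ) (hR1 : 1 ≤ R)
    (hR : ∀ᵐ x ∂μ, ‖x‖ ≤ R) (hCν : 0 < Cν) (hCμ : 0 < Cμ) (hs : 1 < s) (hs2 : s < 2)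
    (hsσ : s + σ < 2)
    (hν : ∀ (x : ℝ) (r : ℝ), 0 < r → ν (closedBall x r) ≤ ENNReal.ofReal (Cν * r ^ σ))
    (hμ : ∀ (x : E2) (r : ℝ), 0 < r → μ (closedBall x r) ≤ ENNReal.ofReal (Cμ * r ^ s))
    (h : σ' < (σ + s) / 2) :
    ∃ C r : ℝ, 0 < C ∧ 0 < r ∧ r < 1 ∧ ∀ (j : ℕ) (I : Finset ℤ),
      ((I.card : ℝ) ≤ (2 : ℝ) ^ (σ' * j)) →
      ((ν.prod μ).prod μ) (hvG j I) ≤ ENNReal.ofReal (C * r ^ j) := by
  obtain ⟨C1, hC1, c, hc, hrad⟩ := hRad μ R Cμ s hR hCμ hs hs2 hμ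
  obtain ⟨Cc, hCc, hcone⟩ := hCone μ (3 * R) (by linarith) (hR.mono fun x hx => by linarith)
  obtain ⟨K, hK, hmain⟩ := sh_main ν μ R Cc Cν Cμ σ s hR1 hR hCc hcone hCν hCμ (by linarith) hsσ
    hν hμ
  obtain ⟨θ, hθ⟩ : ∃ θ : ℝ, θ = (σ + s) / 2 - σ' := ⟨_, rfl⟩
  have hθ0 : 0 < θ := by linarith
  obtain ⟨a, ha⟩ : ∃ a : ℝ, a = θ / 4 := ⟨_, rfl⟩
  have ha0 : 0 < a := by rw [ha]; positivity
  obtain ⟨b, hb⟩ : ∃ b : ℝ, b = min (min (a * s) (a * c / 2)) (θ / 2) := ⟨_, rfl⟩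
  have hs0 : 0 < s := by linarith
  have hb0 : 0 < b := by
    rw [hb]
    positivity
  have hb1 : b ≤ a * s := by rw [hb]; exact (min_le_left _ _).trans (min_le_left _ _)
  have hb2 : b ≤ a * c / 2 := by rw [hb]; exact (min_le_left _ _).trans (min_le_right _ _)
  have hb3 : b ≤ θ / 2 := by rw [hb]; exact min_le_right _ _
  obtain ⟨X, hX⟩ : ∃ X : ℝ, X = a * c / 2 * Real.log 2 := ⟨_, rfl⟩
  have hX0 : 0 < X := by rw [hX]; have := Real.log_pos (by norm_num : (1 : ℝ) < 2); positivity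
  obtain ⟨C2, hC2⟩ : ∃ C2 : ℝ, C2 = 1 + 1 / X := ⟨_, rfl⟩
  have hC20 : 0 < C2 := by rw [hC2]; positivity
  refine ⟨Real.sqrt (Cμ + C2 * C1 + Real.sqrt K), (2 : ℝ)⁻¹ ^ (b / 2), by positivity,
    by positivity, Real.rpow_lt_one (by norm_num) (by norm_num) (by positivity), ?_⟩
  intro j I hI
  obtain ⟨δ, hδ⟩ : ∃ δ : ℝ, δ = (2 : ℝ)⁻¹ ^ j := ⟨_, rfl⟩
  have hδ0 : 0 < δ := by rw [hδ]; positivity
  have hδ1 : δ ≤ 1 := by rw [hδ]; exact pow_le_one₀ (by norm_num) (by norm_num)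
  have hM1 : (1 : ℝ) ≤ δ ^ (-a) :=
    Real.one_le_rpow_of_pos_of_le_one_of_nonpos hδ0 hδ1 (by linarith)
  have hd1 : δ ^ a ≤ 1 := Real.rpow_le_one hδ0.le hδ1 ha0.le
  have hd0 : 0 < δ ^ a := Real.rpow_pos_of_pos hδ0 _
  have hcard : (I.card : ℝ) ≤ δ ^ (-σ') := by
    refine hI.trans (le_of_eq ?_)
    rw [hδ, ← Real.rpow_natCast, ← Real.rpow_mul (by norm_num), Real.inv_rpow (by norm_num),
      ← Real.rpow_neg (by norm_num)]
    congr 1
    ring
  have hlev := sh_level ν μ R (δ ^ a) (δ ^ (-a)) j I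
    (ENNReal.ofReal (Real.sqrt K * δ ^ (θ / 2))) (by
      have hm := hmain j (δ ^ a) (δ ^ (-a)) hd0 hd1 hM1
      rw [← hδ] at hm
      refine (mul_le_mul_right hm _).trans ?_
      have e1 : (I.card : ℝ≥0∞) = ENNReal.ofReal (I.card : ℝ) := by
        rw [ENNReal.ofReal_natCast]
      rw [e1, ← ENNReal.ofReal_pow (Nat.cast_nonneg _), ← ENNReal.ofReal_mul (by positivity),
        ← ENNReal.ofReal_pow (by positivity)]
      apply ENNReal.ofReal_le_ofReal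
      have e2 : (δ ^ (-a) / δ ^ a) ^ 2 = δ ^ (-θ) := by
        rw [← Real.rpow_sub hδ0, ← Real.rpow_natCast, ← Real.rpow_mul hδ0.le]
        congr 1; push_cast; rw [ha]; ring
      have e3 : (I.card : ℝ) ^ 2 ≤ δ ^ (-(2 * σ')) := by
        have : δ ^ (-(2 * σ')) = (δ ^ (-σ')) ^ 2 := by
          rw [← Real.rpow_natCast, ← Real.rpow_mul hδ0.le]; congr 1; push_cast; ring
        rw [this]
        exact pow_le_pow_left₀ (Nat.cast_nonneg _) hcard 2
      have e4 : (Real.sqrt K * δ ^ (θ / 2)) ^ 2 = K * δ ^ θ := by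
        rw [mul_pow, Real.sq_sqrt hK.le, ← Real.rpow_natCast, ← Real.rpow_mul hδ0.le]
        congr 2; push_cast; ring
      rw [e2, e4]
      calc (I.card : ℝ) ^ 2 * (K * δ ^ (-θ) * δ ^ (s + σ))
          ≤ δ ^ (-(2 * σ')) * (K * δ ^ (-θ) * δ ^ (s + σ)) := by
            apply mul_le_mul_of_nonneg_right e3 (by positivity)
        _ = K * δ ^ θ := by
            have : δ ^ θ = δ ^ (-(2 * σ')) * (δ ^ (-θ) * δ ^ (s + σ)) := by
              rw [← Real.rpow_add hδ0, ← Real.rpow_add hδ0]; congr 1; rw [hθ]; ring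
            rw [this]; ring)
  have hbad := sh_bad μ R (δ ^ a) (δ ^ (-a)) j hR (ENNReal.ofReal (Cμ * δ ^ (a * s)))
    (ENNReal.ofReal (C1 * δ ^ (a * c))) (fun x => by
      rw [Real.rpow_mul hδ0.le]
      exact hμ x _ (Real.rpow_pos_of_pos hδ0 _)) (fun l => by
      have h5 := hrad ((2 : ℝ)⁻¹ ^ l) (by positivity) (pow_le_one₀ (by norm_num) (by norm_num))
        (δ ^ (-a)) hM1
      rw [← Real.rpow_mul hδ0.le] at h5
      have e5 : -a * -c = a * c := by ring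
      rw [e5] at h5
      exact h5)
  have hj1 : ((j : ℝ) + 1) * δ ^ (a * c) ≤ C2 * δ ^ (a * c / 2) := by
    have e1 : δ ^ (a * c) = δ ^ (a * c / 2) * δ ^ (a * c / 2) := by
      rw [← Real.rpow_add hδ0]; congr 1; ring
    have e2 : ((j : ℝ) + 1) * δ ^ (a * c / 2) ≤ C2 := by
      have e3 : δ ^ (a * c / 2) = Real.exp (-(j * X)) := by
        rw [hδ, Real.rpow_def_of_pos (by positivity), Real.log_pow, Real.log_inv, hX]
        congr 1; ring
      rw [e3, Real.exp_neg, ← div_eq_mul_inv, div_le_iff₀ (Real.exp_pos _)]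
      have e4 : (j : ℝ) * X + 1 ≤ Real.exp (j * X) := Real.add_one_le_exp _
      have e5 : (j : ℝ) + 1 ≤ C2 * (j * X + 1) := by
        rw [hC2]
        have e6 : (1 + 1 / X) * ((j : ℝ) * X + 1) = j * X + 1 + j + 1 / X := by
          field_simp
          ring
        rw [e6]
        have : 0 ≤ (j : ℝ) * X := by positivity
        have : 0 ≤ 1 / X := by positivity
        linarith
      exact e5.trans (mul_le_mul_of_nonneg_left e4 hC20.le)
    rw [e1, ← mul_assoc]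
    exact mul_le_mul_of_nonneg_right e2 (by positivity)
  have hsum : ((ν.prod μ).prod μ) (hvG j I) ^ 2 ≤
      ENNReal.ofReal ((Cμ + C2 * C1 + Real.sqrt K) * δ ^ b) := by
    refine (hlev.trans (add_le_add hbad le_rfl)).trans ?_
    have e1 : ((j : ℝ≥0∞) + 1) = ENNReal.ofReal ((j : ℝ) + 1) := by
      rw [ENNReal.ofReal_add (by positivity) (by norm_num), ENNReal.ofReal_natCast,
        ENNReal.ofReal_one]
    rw [e1, ← ENNReal.ofReal_mul (by positivity), ← ENNReal.ofReal_add (by positivity)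
      (by positivity), ← ENNReal.ofReal_add (by positivity) (by positivity)]
    apply ENNReal.ofReal_le_ofReal
    rw [add_mul, add_mul]
    have f1 := mul_le_mul_of_nonneg_left (Real.rpow_le_rpow_of_exponent_ge hδ0 hδ1 hb1) hCμ.le
    have f2 : ((j : ℝ) + 1) * (C1 * δ ^ (a * c)) ≤ C2 * C1 * δ ^ b := by
      calc ((j : ℝ) + 1) * (C1 * δ ^ (a * c)) = C1 * (((j : ℝ) + 1) * δ ^ (a * c)) := by ring
        _ ≤ C1 * (C2 * δ ^ (a * c / 2)) := mul_le_mul_of_nonneg_left hj1 hC1.le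
        _ ≤ C1 * (C2 * δ ^ b) := by
            have := Real.rpow_le_rpow_of_exponent_ge hδ0 hδ1 hb2
            gcongr
        _ = _ := by ring
    have f3 := mul_le_mul_of_nonneg_left (Real.rpow_le_rpow_of_exponent_ge hδ0 hδ1 hb3)
      (Real.sqrt_nonneg K)
    linarith
  have hfin : ENNReal.ofReal ((Cμ + C2 * C1 + Real.sqrt K) * δ ^ b) =
      ENNReal.ofReal (Real.sqrt (Cμ + C2 * C1 + Real.sqrt K) * ((2 : ℝ)⁻¹ ^ (b / 2)) ^ j) ^ 2 := by
    have hq : (0 : ℝ) ≤ Real.sqrt (Cμ + C2 * C1 + Real.sqrt K) * ((2 : ℝ)⁻¹ ^ (b / 2)) ^ j := by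
      positivity
    rw [← ENNReal.ofReal_pow hq, mul_pow, Real.sq_sqrt (by positivity)]
    congr 2
    rw [hδ, ← Real.rpow_natCast, ← Real.rpow_natCast, ← Real.rpow_natCast,
      ← Real.rpow_mul (by positivity), ← Real.rpow_mul (by positivity),
      ← Real.rpow_mul (by positivity)]
    congr 1
    push_cast
    ring
  rw [hfin] at hsum
  exact (ENNReal.pow_le_pow_left_iff two_ne_zero).1 hsum

/-- a Frostman bound with a smaller exponent -/
theorem sh_lower {X : Type*} [MetricSpace X] [MeasurableSpace X] (μ : Measure X)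
    [IsProbabilityMeasure μ] (C s t : ℝ) (ht : 0 ≤ t) (hts : t ≤ s)
    (hμ : ∀ (x : X) (r : ℝ), 0 < r → μ (closedBall x r) ≤ ENNReal.ofReal (C * r ^ s)) (x : X)
    (r : ℝ) (hr : 0 < r) : μ (closedBall x r) ≤ ENNReal.ofReal (max C 1 * r ^ t) := by
  rcases le_total r 1 with h1 | h1
  · refine (hμ x r hr).trans (ENNReal.ofReal_le_ofReal ?_)
    apply mul_le_mul (le_max_left _ _) _ (by positivity) (by positivity)
    exact Real.rpow_le_rpow_of_exponent_ge hr h1 hts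
  · refine prob_le_one.trans ?_
    rw [← ENNReal.ofReal_one]
    apply ENNReal.ofReal_le_ofReal
    have h2 : 1 ≤ r ^ t := Real.one_le_rpow h1 ht
    have h3 : (1 : ℝ) ≤ max C 1 := le_max_right _ _
    nlinarith

/-- `dim (D + Δ(E)^2) ≥ (dim D + dim E) / 2`, from the radial lemma and the cone lemma -/
theorem halving_strong_of (hRad : RadialSt) (hCone : ConeSt) (D : Set ℝ) (E : Set E2)
    (hE : IsCompact E) (σ s σ' : ℝ)
    (hσ : 0 ≤ σ) (hs : 1 < s) (hDF : Fro D σ) (hEF : Fro E s) (h1 : σ' < 1)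
    (h : σ' < (σ + s) / 2) : ¬ SmallCover (addDist D E) σ' := by
  intro hcov
  obtain ⟨ν, hνp, hνD, Cν, hCν, hν⟩ := hDF
  obtain ⟨μ, hμp, hμE, Cμ, hCμ, hμ⟩ := hEF
  obtain ⟨R₀, hR₀⟩ := hE.isBounded.subset_closedBall (0 : E2)
  obtain ⟨R, hRdef⟩ : ∃ R : ℝ, R = max R₀ 1 := ⟨_, rfl⟩
  have hR1 : 1 ≤ R := by rw [hRdef]; exact le_max_right _ _
  have hR' : ∀ᵐ x ∂μ, ‖x‖ ≤ R := by
    refine measure_mono_null ?_ hμE
    intro x hx hxE
    apply hx
    have := hR₀ hxE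
    rw [mem_closedBall, dist_zero_right] at this
    exact this.trans (by rw [hRdef]; exact le_max_left _ _)
  -- exponents
  obtain ⟨T, hT1, hT2⟩ := exists_between (show max (2 * σ') 1 < min 2 (σ + s) from
    max_lt (lt_min (by linarith) (by linarith)) (lt_min (by norm_num) (by linarith)))
  have t1 : 2 * σ' < T := lt_of_le_of_lt (le_max_left _ _) hT1
  have t2 : 1 < T := lt_of_le_of_lt (le_max_right _ _) hT1
  have t3 : T < 2 := lt_of_lt_of_le hT2 (min_le_left _ _)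
  have t4 : T < σ + s := lt_of_lt_of_le hT2 (min_le_right _ _)
  obtain ⟨s', hs'⟩ : ∃ s' : ℝ, s' = min s T := ⟨_, rfl⟩
  have s1 : 1 < s' := by rw [hs']; exact lt_min hs t2
  have s2 : s' ≤ s := by rw [hs']; exact min_le_left _ _
  have s3 : s' ≤ T := by rw [hs']; exact min_le_right _ _
  have s4 : T - s' ≤ σ := by
    rw [hs']
    rcases min_cases s T with ⟨h5, _⟩ | ⟨h5, _⟩ <;> rw [h5] <;> linarith
  obtain ⟨C, r, hC, hr0, hr1, hdec⟩ := sh_decay hRad hCone ν μ R (max Cν 1) (max Cμ 1) (T - s') s'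
    σ' hR1 hR' (by positivity) (by positivity) s1 (by linarith) (by linarith)
    (sh_lower ν Cν σ (T - s') (by linarith) s4 hν) (sh_lower μ Cμ s s' (by linarith) s2 hμ)
    (by linarith)
  -- choose the starting level
  obtain ⟨j₀, hj₀⟩ : ∃ j₀ : ℕ, C * r ^ j₀ * (1 - r)⁻¹ < 1 := by
    have h1 : Filter.Tendsto (fun j : ℕ => C * r ^ j * (1 - r)⁻¹) Filter.atTop (nhds 0) := by
      have := ((tendsto_pow_atTop_nhds_zero_of_lt_one hr0.le hr1).const_mul C).mul_const (1 - r)⁻¹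
      simpa using this
    exact (h1.eventually_lt_const one_pos).exists
  obtain ⟨I, hI0, hIc, hIcov⟩ := hcov j₀
  have hN : ((ν.prod μ).prod μ) {q | q.1.1 ∉ D ∨ q.1.2 ∉ E ∨ q.2 ∉ E} = 0 := by
    have e1 : {q : (ℝ × E2) × E2 | q.1.1 ∉ D ∨ q.1.2 ∉ E ∨ q.2 ∉ E} ⊆
        ((Dᶜ ×ˢ univ) ×ˢ univ) ∪ (((univ ×ˢ Eᶜ) ×ˢ univ) ∪ (univ ×ˢ Eᶜ)) := by
      rintro ⟨⟨u, x⟩, y⟩ (h1 | h1 | h1)
      · left
        exact ⟨⟨h1, mem_univ _⟩, mem_univ _⟩
      · right; left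
        exact ⟨⟨mem_univ _, h1⟩, mem_univ _⟩
      · right; right
        exact ⟨mem_univ _, h1⟩
    refine measure_mono_null e1 (measure_union_null ?_ (measure_union_null ?_ ?_))
    · rw [Measure.prod_prod, Measure.prod_prod, hνD]; simp
    · rw [Measure.prod_prod, Measure.prod_prod, hμE]; simp
    · rw [Measure.prod_prod, hμE]; simp
  have hcover : (univ : Set ((ℝ × E2) × E2)) ⊆ {q | q.1.1 ∉ D ∨ q.1.2 ∉ E ∨ q.2 ∉ E} ∪
      ⋃ k : ℕ, hvG (k + j₀) (I (k + j₀)) := by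
    rintro ⟨⟨u, x⟩, y⟩ _
    by_cases hu : u ∈ D
    · by_cases hx : x ∈ E
      · by_cases hy : y ∈ E
        · right
          obtain ⟨j, hj⟩ := hIcov (u + dist x y ^ 2) ⟨u, hu, x, hx, y, hy, rfl⟩
          have hjj : j₀ ≤ j := by
            by_contra hcon
            rw [hI0 j (not_le.1 hcon)] at hj
            exact absurd hj (Finset.notMem_empty _)
          rw [mem_iUnion]
          refine ⟨j - j₀, ?_⟩
          rw [Nat.sub_add_cancel hjj]
          exact hj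
        · left; exact Or.inr (Or.inr hy)
      · left; exact Or.inr (Or.inl hx)
    · left; exact Or.inl hu
  have h1 : (1 : ℝ≥0∞) ≤ ∑' k : ℕ, ENNReal.ofReal (C * r ^ (k + j₀)) := by
    calc (1 : ℝ≥0∞) = ((ν.prod μ).prod μ) univ := by rw [measure_univ]
      _ ≤ ((ν.prod μ).prod μ) ({q | q.1.1 ∉ D ∨ q.1.2 ∉ E ∨ q.2 ∉ E} ∪
          ⋃ k : ℕ, hvG (k + j₀) (I (k + j₀))) := measure_mono hcover
      _ ≤ 0 + ∑' k : ℕ, ((ν.prod μ).prod μ) (hvG (k + j₀) (I (k + j₀))) := by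
          refine (measure_union_le _ _).trans (add_le_add hN.le (measure_iUnion_le _))
      _ ≤ ∑' k : ℕ, ENNReal.ofReal (C * r ^ (k + j₀)) := by
          rw [zero_add]
          exact ENNReal.tsum_le_tsum fun k => hdec _ _ (hIc _)
  have h2 : ∑' k : ℕ, ENNReal.ofReal (C * r ^ (k + j₀)) =
      ENNReal.ofReal (C * r ^ j₀ * (1 - r)⁻¹) := by
    have hsumm : Summable (fun k : ℕ => C * r ^ (k + j₀)) := by
      have := (summable_geometric_of_lt_one hr0.le hr1).mul_left (C * r ^ j₀)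
      refine this.congr fun k => ?_
      rw [pow_add]; ring
    rw [← ENNReal.ofReal_tsum_of_nonneg (fun k => by positivity) hsumm]
    congr 1
    have : ∀ k : ℕ, C * r ^ (k + j₀) = C * r ^ j₀ * r ^ k := fun k => by rw [pow_add]; ring
    rw [tsum_congr this, tsum_mul_left, tsum_geometric_of_lt_one hr0.le hr1]
  rw [h2, ← ENNReal.ofReal_one, ENNReal.ofReal_le_ofReal_iff'] at h1
  rcases h1 with h1 | h1
  · linarith
  · linarith

end Pool.Agent.H744R2.Falc
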