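import Pool.Agent.H744R2.Falc.Assembly2
import Pool.Agent.H744R2.Falc.FrostR
import Pool.Agent.H744R2.Falc.FrostH
import Pool.Agent.H744R2.Falc.Strong
import Pool.Agent.H744R2.Falc.Radial
import Pool.Agent.H744R2.Falc.Cone
import Pool.Agent.H744R2.Falc.Final
import Pool.Agent.H744R2.Falc.Regular

set_option autoImplicit false

namespace Pool.Agent.H744R2.Falc

open MeasureTheory Set Metric
open scoped ENNReal

theorem tools2 : Tools2 where
  frost := fun D hD hn s hs => frostman_real D hD hn s hs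
  strong := fun D E _ hE σ s σ' hσ hs hDF hEF h1 h =>
    halving_strong_of (fun μ _ R C s h1 h2 h3 h4 h5 => radial_lemma μ R C s h1 h2 h3 h4 h5)
      (fun μ _ R hR1 hR => cone_lemma μ R hR1 hR) D E hE σ s σ' hσ hs hDF hEF h1 h

theorem main_A2 (K n d : ℕ) (e : (Fin K × Fin 2) ⊕ Fin n ≃ Fin d) (E : Fin K → Set E2)
    (F : Set (EuclideanSpace ℝ (Fin n))) (hE : ∀ i, IsCompact (E i)) (hEd : ∀ i, 1 < dimH (E i))
    (hF : IsCompact F) (hFd : (n : ℝ≥0∞) / 2 < dimH F)
    (hsum : (n : ℝ≥0∞) + 1 < ∑ i : Fin K, (1 / 2) ^ (K - (i : ℕ)) * dimH (E i) + 2 * dimH F) :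
    0 < volume (distanceSet (productSet e E F)) :=
  main_of2 tools2
    (fun n D F hD hF σ α h1 h2 h3 h4 h5 h6 => positive_step n D F hD hF σ α h1 h2 h3 h4 h5 h6)
    (fun n K hK s hs h => frostman_dimH n K hK s hs h) K n d e E F hE hEd hF hFd hsum

/-- a planar factor of equal Hausdorff and (upper) box dimension -/
theorem main_B (n d : ℕ) (e : (Fin 1 × Fin 2) ⊕ Fin n ≃ Fin d) (E : Set E2) (a : ℝ) (ha : 1 < a)
    (ha2 : a ≤ 2) (hE : IsCompact E) (hEd : ENNReal.ofReal a ≤ dimH E)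
    (hbox : ∀ η : ℝ, 0 < η → ∃ C : ℝ, ∀ j : ℕ, ∃ T : Finset E2,
      (T.card : ℝ) ≤ C * (2 : ℝ) ^ ((a + η) * j) ∧ E ⊆ ⋃ t ∈ T, closedBall t ((2 : ℝ)⁻¹ ^ j))
    (F : Set (EuclideanSpace ℝ (Fin n))) (hF : IsCompact F) (hFd : (n : ℝ≥0∞) / 2 < dimH F) :
    0 < volume (distanceSet (productSet e (fun _ => E) F)) := by
  have hn : (0 : ℝ) ≤ n := Nat.cast_nonneg n
  refine volume_distanceSet_pos _ _ (addDist_subset e (fun _ => E) F) ?_
  -- Frostman measures on `E`
  have hFro : ∀ s : ℝ, 1 < s → s < a → Fro E s := by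
    intro s h1 hs
    refine frostman_dimH 2 E hE s (by linarith) (lt_of_lt_of_le ?_ hEd)
    exact (ENNReal.ofReal_lt_ofReal_iff (by linarith)).2 hs
  have hEne : E.Nonempty := by
    obtain ⟨s, h1, h2⟩ := exists_between ha
    exact (hFro s h1 h2).nonempty
  -- a real number between `n/2` and `dimH F`
  obtain ⟨α, hα1, hα2⟩ : ∃ α : ℝ, (n : ℝ) / 2 < α ∧ ENNReal.ofReal α < dimH F := by
    obtain ⟨b, hb1, hb2⟩ := exists_between hFd
    have hbt : b ≠ ⊤ := ne_top_of_lt hb2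
    refine ⟨b.toReal, ?_, by rwa [ENNReal.ofReal_toReal hbt]⟩
    have := (ENNReal.toReal_lt_toReal (ne_top_of_lt hb1) hbt).2 hb1
    rw [ENNReal.toReal_div] at this
    simpa using this
  have hFF : Fro F α := frostman_dimH n F hF α (by linarith) hα2
  -- a Frostman measure on the distance set of exponent close to one
  have hsum : sumD (fun i => if h : i < 1 then (fun _ : Fin 1 => E) ⟨i, h⟩ else ∅) 1 =
      addDist {0} E := by
    simp [sumD]
  rw [hsum]
  have hDc : IsCompact (addDist {0} E) := isCompact_addDist' isCompact_singleton hE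
  have hDne : (addDist {0} E).Nonempty := by
    obtain ⟨x, hx⟩ := hEne
    exact ⟨_, 0, rfl, x, hx, x, hx, rfl⟩
  obtain ⟨σ, hσ1, hσ2⟩ := exists_between (show max 0 ((n : ℝ) + 1 - 2 * α) < 1 by
    refine max_lt one_pos (by linarith))
  have hσ0 : 0 ≤ σ := (le_max_left _ _).trans hσ1.le
  have hσ3 : (n : ℝ) + 1 - 2 * α < σ := lt_of_le_of_lt (le_max_right _ _) hσ1
  have hDF : Fro (addDist {0} E) σ := (frostman_real _ hDc hDne σ hσ0).resolve_right
    (regular_core E hE a ha ha2 hFro hbox σ hσ2)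
  exact positive_step n _ F hDc hF σ α hσ0 hσ2.le (by linarith) (by linarith) hDF hFF

end Pool.Agent.H744R2.Falc
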