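import Pool.Agent.H744R2.Falc.DefsB
import Pool.Agent.H744R2.Falc.Mono

/-! Task B0: identities for `mw`. -/

set_option autoImplicit false

namespace Pool.Agent.H744R2.Falc

open MeasureTheory Set Metric

theorem mw_eq_mwM (μ : Measure E2) (w t τ : ℝ) : mw μ w t τ = mwM μ t w τ := rfl

theorem mw_sq (μ : Measure E2) [IsProbabilityMeasure μ] (w t : ℝ) (hw : 0 < w) :
    ∫⁻ τ : ℝ, ENNReal.ofReal (mw μ w t τ ^ 2) = ENNReal.ofReal (GG μ w t) :=
  MonoAux.lint_mw_sq' μ t w hw

theorem mw_diff (μ : Measure E2) [IsProbabilityMeasure μ] (w t : ℝ) (hw : 0 < w) :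
    ∫⁻ τ : ℝ, ENNReal.ofReal ((mw μ w t τ - mw μ (2 * w) t τ) ^ 2) =
      ENNReal.ofReal (GG μ w t - GG μ (2 * w) t) := by
  rw [← GG_sq μ w t hw]
  have i1 := MonoAux.integrable_mw_sq μ t w hw
  have i2 := MonoAux.integrable_mw_sq μ t (2 * w) (by positivity)
  have hint : Integrable (fun τ => (mwM μ t w τ - mwM μ t (2 * w) τ) ^ 2) := by
    refine Integrable.mono' ((i1.add i2).const_mul 2) ?_ (Filter.Eventually.of_forall fun τ => ?_)
    · exact (((MonoAux.measurable_mw μ t w).sub (MonoAux.measurable_mw μ t (2 * w))).pow_const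
        2).aestronglyMeasurable
    · rw [Real.norm_of_nonneg (sq_nonneg _)]
      simp only [Pi.add_apply]
      nlinarith [sq_nonneg (mwM μ t w τ + mwM μ t (2 * w) τ)]
  rw [ofReal_integral_eq_lintegral_ofReal hint (Filter.Eventually.of_forall fun τ => sq_nonneg _)]
  rfl

end Pool.Agent.H744R2.Falc
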