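import Pool.Agent.H744R2.Falc.Defs

set_option autoImplicit false

/-! Blueprint (statements with sorry); never import this file from a hand-in. -/

namespace Pool.Agent.H744R2.Falc

open MeasureTheory Set Metric

/-! ## Task A1a : generic Frostman lemma (file `FrostG.lean`) -/

/-- generic Frostman dichotomy with respect to a system of nested partitions `q j : X → ι` -/
theorem frostman_generic {X : Type*} [MetricSpace X] [MeasurableSpace X] [BorelSpace X]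
    {ι : Type*} (q : ℕ → X → ι) (A : ℕ) (s : ℝ) (hs : 0 < s)
    (hnest : ∀ j x y, q (j + 1) x = q (j + 1) y → q j x = q j y)
    (hdiam : ∀ j x y, q j x = q j y → dist x y ≤ A * (2 : ℝ)⁻¹ ^ j)
    (hball : ∀ j x, ∃ F : Finset ι, F.card ≤ A ∧ ∀ y ∈ closedBall x ((2 : ℝ)⁻¹ ^ j), q j y ∈ F)
    (K : Set X) (hK : IsCompact K) (hKn : K.Nonempty) (hfin : ∀ j, (q j '' K).Finite) :
    Fro K s ∨ ∀ ε : ℝ, 0 < ε → ∃ F : Finset (ℕ × ι),
      ∑ p ∈ F, ((2 : ℝ)⁻¹ ^ p.1) ^ s ≤ ε ∧ ∀ x ∈ K, ∃ j, (j, q j x) ∈ F := by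
  sorry

/-! ## Task A1b : Frostman's lemma on the line (file `FrostR.lean`) -/

/-- Frostman's lemma for compact subsets of the line, in dichotomy form -/
theorem frostman_real (D : Set ℝ) (hD : IsCompact D) (hDn : D.Nonempty) (s : ℝ) (hs : 0 ≤ s) :
    Fro D s ∨ SmallCover D s := by
  sorry

/-! ## Task A1c : Frostman's lemma for the Hausdorff dimension (file `FrostH.lean`) -/

/-- Frostman's lemma for compact subsets of Euclidean space, Hausdorff dimension form -/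
theorem frostman_dimH (n : ℕ) (K : Set (EuclideanSpace ℝ (Fin n))) (hK : IsCompact K) (s : ℝ)
    (hs : 0 ≤ s) (h : ENNReal.ofReal s < dimH K) : Fro K s := by
  sorry

/-! ## Task A2a : integrals of the tent kernel over slopes (file `Tent.lean`) -/

theorem tent_avg_le : ∃ C : ℝ, 0 < C ∧ ∀ δ z1 z2 : ℝ, 0 < δ → 0 < z1 ^ 2 + z2 ^ 2 →
    ∫ t in (-4 : ℝ)..4, chi t * tent δ (z2 - t * z1) ≤ C / Real.sqrt (z1 ^ 2 + z2 ^ 2) := by
  sorry

theorem tent_avg_diff : ∃ C : ℝ, 0 < C ∧ ∀ δ w z1 z2 : ℝ, 0 < δ → δ ≤ w →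
    8 * w ≤ Real.sqrt (z1 ^ 2 + z2 ^ 2) →
    |∫ t in (-4 : ℝ)..4, chi t * (tent δ (z2 - t * z1) - tent w (z2 - t * z1))|
      ≤ C * w / (z1 ^ 2 + z2 ^ 2) := by
  sorry

/-! ## Task A2b : energies (file `EnergyGG.lean`), uses A2a -/

theorem GG_avg (μ : Measure E2) [IsProbabilityMeasure μ] (R C s : ℝ)
    (hR : ∀ᵐ x ∂μ, ‖x‖ ≤ R) (hC : 0 < C) (hs : 1 < s) (hs2 : s < 2)
    (hμ : ∀ (x : E2) (r : ℝ), 0 < r → μ (closedBall x r) ≤ ENNReal.ofReal (C * r ^ s)) :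
    ∃ C' : ℝ, 0 < C' ∧ (∀ δ : ℝ, 0 < δ → δ ≤ 1 →
        ∫ t in (-4 : ℝ)..4, chi t * GG μ δ t ≤ C') ∧
      ∀ δ w : ℝ, 0 < δ → δ ≤ w → w ≤ 1 →
        ∫ t in (-4 : ℝ)..4, chi t * (GG μ δ t - GG μ w t) ≤ C' * w ^ (s - 1) := by
  sorry

/-! ## Task A2c : monotonicity (file `Mono.lean`) -/

theorem GG_mono (μ : Measure E2) [IsProbabilityMeasure μ] (w t : ℝ) (hw : 0 < w) :
    GG μ (2 * w) t ≤ GG μ w t := by
  sorry

/-! ## Task A2d : the pair lemma (file `Pair.lean`), uses A2b, A2c -/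

/-- typical pairs of points of a set of dimension `> 1` in the plane span a direction in which the
projection of the set is spread -/
theorem pair_lemma (μ : Measure E2) [IsProbabilityMeasure μ] (R C s : ℝ)
    (hR : ∀ᵐ x ∂μ, ‖x‖ ≤ R) (hC : 0 < C) (hs : 1 < s) (hs2 : s < 2)
    (hμ : ∀ (x : E2) (r : ℝ), 0 < r → μ (closedBall x r) ≤ ENNReal.ofReal (C * r ^ s)) :
    ∃ C' : ℝ, 0 < C' ∧ ∃ c : ℝ, 0 < c ∧ ∀ δ : ℝ, 0 < δ → δ ≤ 1 → ∀ M : ℝ, 1 ≤ M →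
      (μ.prod μ) {p | ENNReal.ofReal (M * δ) <
        (μ.prod μ) {q | |inner ℝ (q.1 - q.2) (p.1 - p.2)| ≤ δ * ‖p.1 - p.2‖}}
      ≤ ENNReal.ofReal (C' * M ^ (-c)) := by
  sorry

/-! ## Task A3 : halving of the gap (file `Halving.lean`), uses A2d -/

/-- the gap `1 - σ` of `D` is halved by adding the squared distances of a planar set of
dimension `> 1` -/
theorem halving (D : Set ℝ) (E : Set E2) (hD : IsCompact D) (hE : IsCompact E) (σ s σ' : ℝ)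
    (hσ : 0 ≤ σ) (hs : 1 < s) (hDF : Fro D σ) (hEF : Fro E s)
    (h : σ' < (1 + σ) / 2) : ¬ SmallCover (addDist D E) σ' := by
  sorry

/-! ## Task A4a : Gaussian integrals against a Frostman measure (file `Gauss.lean`) -/

theorem gauss_frostman {X : Type*} [MetricSpace X] [MeasurableSpace X] [BorelSpace X]
    (μ : Measure X) [IsProbabilityMeasure μ] (C α : ℝ) (hC : 0 < C) (hα : 0 ≤ α)
    (hμ : ∀ (x : X) (r : ℝ), 0 < r → μ (closedBall x r) ≤ ENNReal.ofReal (C * r ^ α)) :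
    ∃ C' : ℝ, 0 < C' ∧ ∀ (lam : ℝ) (z : X), 0 < lam →
      ∫ y, Real.exp (-(lam ^ 2 * dist y z ^ 2)) ∂μ ≤ C' * lam ^ (-α) := by
  sorry

/-! ## Task A4b : the pinned Fourier bound (file `Pin.lean`), uses A4a -/

theorem pinned_fourier (n : ℕ) (μ : Measure (EuclideanSpace ℝ (Fin n))) [IsProbabilityMeasure μ]
    (R C α : ℝ) (hR : ∀ᵐ x ∂μ, ‖x‖ ≤ R) (hC : 0 < C) (hα : 0 ≤ α)
    (hμ : ∀ (x : EuclideanSpace ℝ (Fin n)) (r : ℝ), 0 < r →
      μ (closedBall x r) ≤ ENNReal.ofReal (C * r ^ α)) :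
    ∃ C' : ℝ, 0 < C' ∧ ∀ t : ℝ, 1 ≤ |t| →
      ∫ y, ‖∫ x, Complex.exp (((t * dist x y ^ 2 : ℝ) : ℂ) * Complex.I) ∂μ‖ ^ 2 ∂μ
        ≤ C' * |t| ^ ((n : ℝ) - 2 * α) := by
  sorry

/-! ## Task A5 : Fourier energy on the line (file `Energy.lean`), uses A4a -/

theorem fourier_energy (ν : Measure ℝ) [IsProbabilityMeasure ν] (C σ β : ℝ) (hC : 0 < C)
    (hσ : 0 ≤ σ) (hσ1 : σ ≤ 1)
    (hν : ∀ (x : ℝ) (r : ℝ), 0 < r → ν (closedBall x r) ≤ ENNReal.ofReal (C * r ^ σ))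
    (hβ : 1 - σ < β) :
    ∫⁻ t in {t : ℝ | 1 ≤ |t|},
      ENNReal.ofReal (‖∫ u, Complex.exp (((t * u : ℝ) : ℂ) * Complex.I) ∂ν‖ ^ 2 * |t| ^ (-β)) < ⊤ := by
  sorry

/-! ## Task A6 : collision bound gives positive measure (file `Vol.lean`) -/

theorem volume_pos_of_collision {Ω Y : Type*} [MeasurableSpace Ω] [MeasurableSpace Y]
    (P : Measure Ω) [IsProbabilityMeasure P] (Q : Measure Y) [IsProbabilityMeasure Q]
    (f : Ω → Y → ℝ) (hf : Measurable (Function.uncurry f)) (D : Set ℝ) (hD : IsCompact D)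
    (hfD : ∀ᵐ y ∂Q, ∀ᵐ ω ∂P, f ω y ∈ D) (A : ℝ)
    (hA : ∀ δ : ℝ, 0 < δ → δ ≤ 1 →
      ∫⁻ y, (P.prod P) {p | |f p.1 y - f p.2 y| ≤ δ} ∂Q ≤ ENNReal.ofReal (A * δ)) :
    0 < volume D := by
  sorry

/-! ## Task A7 : the final step (file `Final.lean`), uses A4b, A5, A6 -/

theorem positive_step (n : ℕ) (D : Set ℝ) (F : Set (EuclideanSpace ℝ (Fin n))) (hD : IsCompact D)
    (hF : IsCompact F) (σ α : ℝ) (hσ : 0 ≤ σ) (hσ1 : σ ≤ 1) (hα : 0 ≤ α)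
    (h : (n : ℝ) + 1 < σ + 2 * α) (hDF : Fro D σ) (hFF : Fro F α) :
    0 < volume (addDist D F) := by
  sorry

end Pool.Agent.H744R2.Falc
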