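import Pool.Agent.H744R2.Falc.DefsB

set_option autoImplicit false

/-! Blueprint of the regular case (statements with sorry); never import this file from a hand-in. -/

namespace Pool.Agent.H744R2.Falc

open MeasureTheory Set Metric

/-! ## Task B0 : identities for `mw` (file `Mw.lean`) -/

theorem mw_sq (μ : Measure E2) [IsProbabilityMeasure μ] (w t : ℝ) (hw : 0 < w) :
    ∫⁻ τ : ℝ, ENNReal.ofReal (mw μ w t τ ^ 2) = ENNReal.ofReal (GG μ w t) := by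
  sorry

theorem mw_diff (μ : Measure E2) [IsProbabilityMeasure μ] (w t : ℝ) (hw : 0 < w) :
    ∫⁻ τ : ℝ, ENNReal.ofReal ((mw μ w t τ - mw μ (2 * w) t τ) ^ 2) =
      ENNReal.ofReal (GG μ w t - GG μ (2 * w) t) := by
  sorry

/-! ## Task B1 : the radial lemma (file `Radial.lean`), uses `GG_avg` (A2b) and B0 -/

theorem radial_lemma (μ : Measure E2) [IsProbabilityMeasure μ] (R C s : ℝ)
    (hR : ∀ᵐ x ∂μ, ‖x‖ ≤ R) (hC : 0 < C) (hs : 1 < s) (hs2 : s < 2)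
    (hμ : ∀ (x : E2) (r : ℝ), 0 < r → μ (closedBall x r) ≤ ENNReal.ofReal (C * r ^ s)) :
    ∃ C' : ℝ, 0 < C' ∧ ∃ c : ℝ, 0 < c ∧ ∀ w : ℝ, 0 < w → w ≤ 1 → ∀ M : ℝ, 1 ≤ M →
      (μ.prod μ) {p | ENNReal.ofReal (M * w) < μ (strip w p.1 p.2)}
      ≤ ENNReal.ofReal (C' * M ^ (-c)) := by
  sorry

/-! ## Task B2a : the cone lemma (file `Cone.lean`) -/

theorem cone_lemma (μ : Measure E2) [IsProbabilityMeasure μ] (R : ℝ) (hR1 : 1 ≤ R)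
    (hR : ∀ᵐ x ∂μ, ‖x‖ ≤ R) :
    ∃ C : ℝ, 0 < C ∧ ∀ x x' : E2, ‖x‖ ≤ R → ‖x'‖ ≤ R → x ≠ x' → ∀ w ρ M : ℝ, 0 < w → 0 < ρ →
      ρ ≤ 1 → 1 ≤ M →
      μ {y | ρ ≤ ‖y - x‖ ∧ μ (strip w x y) ≤ ENNReal.ofReal (M * w) ∧
        |inner ℝ (x' - x) (y - x)| ≤ 2 * w} ≤ ENNReal.ofReal (C * M * w / (ρ * ‖x' - x‖)) := by
  sorry

/-! ## Task B2b : local strips (file `Local.lean`), uses B2a -/

theorem local_strip (μ : Measure E2) [IsProbabilityMeasure μ] (R C s : ℝ) (hR1 : 1 ≤ R)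
    (hR : ∀ᵐ x ∂μ, ‖x‖ ≤ R) (hC : 0 < C) (hs : 1 < s) (hs2 : s < 2)
    (hμ : ∀ (x : E2) (r : ℝ), 0 < r → μ (closedBall x r) ≤ ENNReal.ofReal (C * r ^ s))
    (E : Set E2) (hE : μ Eᶜ = 0) :
    ∃ C' : ℝ, 0 < C' ∧ ∀ l' l : ℕ, l' ≤ l → ∀ M ρ θ : ℝ, 1 ≤ M → 0 < ρ → ρ ≤ 1 → 0 < θ →
      ∀ N : ℕ, (q2 l' '' E).encard ≤ N →
      (μ.prod μ) {p | ρ ≤ ‖p.2 - p.1‖ ∧
          μ (strip ((2 : ℝ)⁻¹ ^ l) p.1 p.2) ≤ ENNReal.ofReal (M * (2 : ℝ)⁻¹ ^ l) ∧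
          ENNReal.ofReal θ * μ (cell l' p.1) <
            μ (cell l' p.1 ∩ {z | |inner ℝ (z - p.1) (p.2 - p.1)| ≤ 2 * (2 : ℝ)⁻¹ ^ l})}
      ≤ ENNReal.ofReal (C' * (M / ρ) * (2 : ℝ)⁻¹ ^ l * (((2 : ℝ)⁻¹ ^ l') ^ (s - 1)) * N / θ) := by
  sorry

/-! ## Task B3 : pruning (file `Prune.lean`) -/

theorem prune (μ : Measure E2) [IsProbabilityMeasure μ] (X : Set E2) (hX : MeasurableSet X)
    (m : ℕ) (l : ℕ → ℕ) (hl : ∀ i < m, l (i + 1) ≤ l i) :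
    ∃ X' ⊆ X, MeasurableSet X' ∧ μ X ≤ 2 * μ X' ∧ ∀ i ≤ m, ∀ x ∈ X',
      μ X * μ (cell (l i) x) ≤ 2 * (m + 1) * μ (X' ∩ cell (l i) x) := by
  sorry

/-! ## Task B4 : the chain of scales (file `Chain.lean`) -/

theorem chain (μ : Measure E2) [IsProbabilityMeasure μ] (X : Set E2) (hX : MeasurableSet X)
    (f : E2 → ℝ) (hf : Measurable f) (L : ℝ) (hL : 1 ≤ L)
    (hfL : ∀ x ∈ X, ∀ y ∈ X, |f x - f y| ≤ L * dist x y)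
    (m : ℕ) (l : ℕ → ℕ) (hl : ∀ i < m, l (i + 1) ≤ l i) (ε : ℝ) (hε : 0 < ε)
    (hX' : ∀ i ≤ m, ∀ x ∈ X, ENNReal.ofReal ε * μ (cell (l i) x) ≤ μ (X ∩ cell (l i) x))
    (θ : ℕ → ℝ) (hθ0 : ∀ i, 0 ≤ θ i)
    (hθ : ∀ i < m, ∀ x ∈ X, μ (cell (l (i + 1)) x ∩ {z | |f z - f x| ≤ (2 : ℝ)⁻¹ ^ (l i)}) ≤
      ENNReal.ofReal (θ i) * μ (cell (l (i + 1)) x)) (t : ℝ) :
    μ (X ∩ {x | t ≤ f x ∧ f x < t + (2 : ℝ)⁻¹ ^ (l 0)}) ≤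
      ENNReal.ofReal (∏ i ∈ Finset.range m, (8 * L * θ i / ε)) := by
  sorry

/-! ## Task B5 : assembly (file `Regular.lean`), uses B1, B2b, B3, B4 -/

theorem regular_core (E : Set E2) (hE : IsCompact E) (a : ℝ) (ha : 1 < a) (ha2 : a ≤ 2)
    (hFro : ∀ s < a, Fro E s)
    (hbox : ∀ η : ℝ, 0 < η → ∃ C : ℝ, ∀ j : ℕ, ∃ T : Finset E2,
      (T.card : ℝ) ≤ C * (2 : ℝ) ^ ((a + η) * j) ∧ E ⊆ ⋃ t ∈ T, closedBall t ((2 : ℝ)⁻¹ ^ j))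
    (σ : ℝ) (hσ : σ < 1) : ¬ SmallCover (addDist {0} E) σ := by
  sorry

end Pool.Agent.H744R2.Falc
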