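import Pool.Agent.H744R2.Falc.DefsB

set_option autoImplicit false

/-! Blueprint of the improved gap step (statement with sorry); never import from a hand-in. -/

namespace Pool.Agent.H744R2.Falc

open MeasureTheory Set Metric

/-! ## Task C1 : strong gap step (file `Strong.lean`), uses `radial_lemma` (B1), `cone_lemma` (B2a) -/

/-- `dim (D + Δ(E)^2) ≥ (dim D + dim E) / 2` for planar `E` with `dim E > 1` -/
theorem halving_strong (D : Set ℝ) (E : Set E2) (hD : IsCompact D) (hE : IsCompact E) (σ s σ' : ℝ)
    (hσ : 0 ≤ σ) (hs : 1 < s) (hDF : Fro D σ) (hEF : Fro E s) (h1 : σ' < 1)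
    (h : σ' < (σ + s) / 2) : ¬ SmallCover (addDist D E) σ' := by
  sorry

end Pool.Agent.H744R2.Falc
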